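import Pool.Agent.H90.ISO.DpsE

/-!
# A label with gain over a re-centred ball, with a fixed loss

`EvT`: the event `EvV` with one fixed loss `τ` for all numbers. `dps_clsT`, `dps_stkT`: the
threshold over the fattest boxes has slope two at `w` up to `C τ`, and `C` does not depend on the
class, the window and the loss.
-/

set_option autoImplicit false

namespace Pool.TRM

open Finset MvPolynomial
open Pool.STAT Pool.STAT.CLO
open Pool.Agent.H49.Ent Pool.Agent.H32.Dense Pool.STK Pool.KA Pool.KSAT Pool.K2S Pool.PB Pool.GEN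
open Pool.CHT Pool.CHB Pool.S6C
open Pool.LBT (LSys Slo Tri ThrOf fl_le')
open Pool.FLF (Fam.sub)

variable {m : ℕ}

/-- **The event with a fixed loss**: re-centred charts of the ball of the window `w` at the radii
`w + y k`, and a label with the precision `p` over the one with the radius `a`, with natural
increments. -/
def EvT (S : PCl m) (c : ℕ → Fin m) (i D : ℕ) (w a p e τ : ℝ) (Dl : ℕ → ℝ) : Prop :=
  ∃ (K₁ μ : ℝ) (b : ℕ → ℝ), 0 < K₁ ∧ 0 < μ ∧ (∀ l ≤ i, Dl l - τ < b l ∧ b l < Dl l - μ) ∧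
    Bas S (fun J F A => ∀ y : ℕ → ℕ, y 2 = ⌊a * J⌋₊ - ⌊w * J⌋₊ →
      (∀ k ≤ 2, τ * J ≤ y k ∧ y k ≤ y 2) →
      ∃ (B : F.Ω → Prop) (g₀ : ℕ → ℕ) (G₀ : PtT F → ℕ → MvPolynomial (Option (Fin m)) ℝ)
        (H₀ : LnT F → ℕ → MvPolynomial (Option (Fin m)) ℝ)
        (Gt : PtT F → MvPolynomial (Option (Fin m)) ℝ)
        (Ht : LnT F → MvPolynomial (Option (Fin m)) ℝ), Sub B A ∧
        Pe F.p A ≤ K₁ * Pe F.p B ∧
        (∀ l ≤ i, (Dl l - τ) * J ≤ g₀ l ∧ (g₀ l : ℝ) ≤ Dl l * J) ∧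
        ChOK F c (i + 1) (fun _ => D) ⌊w * J⌋₊ ⌊w * J⌋₊ ⌊e * J⌋₊ g₀ B G₀ H₀ ∧
        (∀ k ≤ 2, ChOK F c (i + 1) (fun _ => D) (⌊w * J⌋₊ + y k) ⌊w * J⌋₊ ⌊e * J⌋₊
          (fun l => ⌊b l * J⌋₊ + y k) B (fun y l => Gno (c l) J J (fun y => G₀ y l) y)
          (fun s l => Hno (c l) (fun s => H₀ s l) s)) ∧
        (∀ y, (Gt y).totalDegree ≤ D) ∧ (∀ s, (Ht s).totalDegree ≤ D) ∧
        (∀ y, DepC c i (Gt y)) ∧ (∀ s, DepC c i (Ht s)) ∧
        (∀ ω, B ω → |F.x ω (c i) - eval (bt F ω) (Gt (ptr F J ω))| ≤ 1 / 2 ^ ⌊p * J⌋₊) ∧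
        (∀ ω, B ω → ∀ b', NBx c (fun l => Gno (c l) J J (fun y => G₀ y l) (ptr F J ω))
          (fun l => ⌊b l * J⌋₊ + y 2) (⌊w * J⌋₊ + y 2) (F.t ω) i b' →
          |eval b' (Gt (ptr F J ω)) - eval b' (Ht (slam F ⌊w * J⌋₊ ω))| ≤ 1 / 2 ^ ⌊p * J⌋₊) ∧
        (∀ ω, B ω → ∀ b', NBx c (fun l => Gno (c l) J J (fun y => G₀ y l) (ptr F J ω))
          (fun l => ⌊b l * J⌋₊ + y 2) (⌊w * J⌋₊ + y 2) (F.t ω) i b' →
          |eval b' (Gt (ptr F J ω)) - eval b' (Gno (c i) J J (fun y => G₀ y i) (ptr F J ω))| ≤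
            2 ^ ⌊τ * J⌋₊ / 2 ^ (⌊b i * J⌋₊ + y 2)))

/-- **The threshold over the fattest boxes has slope two, up to the loss**, at rational points
behind. -/
theorem dps_clsT (m i D : ℕ) : ∃ C₀ : ℝ, 4 ≤ C₀ ∧ ∀ {S : PCl m}, S.Ne → TmH S →
    ∀ {c : ℕ → Fin m}, Set.InjOn c (Set.Iio (i + 1)) →
    ∀ {β PB : List (Fin m) × Fin m → ℝ → ℝ → ℝ}, ThrOf (chsysB m none β) S PB →
    ∀ {w a p e x τ : ℝ} {Dl : ℕ → ℝ}, 0 < w → a < 1 → 0 ≤ e → 0 < τ → τ ≤ w →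
    EvT S c i D w a p e τ Dl → (∀ l ≤ i, w ≤ Dl l) →
    (∀ l ≤ i, e + Dl l + 2 * (a - w) + (p - Dl i) + 4 * τ < 1) → 4 * τ ≤ x → x ≤ a - w →
    Dl i + (a - w) + x ≤ p → (∀ l < i, bet β c l (w + x) w = Dl l + x) →
    ∀ {a' w' : ℚ}, w + x = a' → w < w' → w' ≤ a' →
    Dl i + 2 * x - C₀ * τ ≤ bet PB c i a' w' := by
  obtain ⟨D', C, C₁, hC₁, hmem⟩ := dps_mem m i D
  have hC0 : (0 : ℝ) ≤ C := Nat.cast_nonneg C
  refine ⟨2 * C + 4, by linarith, ?_⟩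
  intro S hne hTm c hc β PB hPB w a p e x τ Dl hw ha he hτ0 hσw hEv hD0 hsum hx4 hxa hxp hβ a' w'
    ha' hww hwa'
  have hx : 0 < x := by linarith
  by_contra hcon
  push Not at hcon
  have hlog : 0 < Real.log 2 := Real.log_pos (by norm_num)
  have ha'1 : (a' : ℝ) ≤ 1 := by rw [← ha']; linarith
  have ha'1' : a' ≤ 1 := by exact_mod_cast ha'1
  have hw'0 : 0 ≤ w' := by
    have : (0 : ℝ) ≤ w' := hw.le.trans hww.le
    exact_mod_cast this
  -- the constants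
  obtain ⟨ε₀, hε₀⟩ : ∃ ε₀ : ℝ, ε₀ = (Dl i + 2 * x - (2 * C + 4) * τ - bet PB c i a' w') / 4 :=
    ⟨_, rfl⟩
  have hε₀0 : 0 < ε₀ := by rw [hε₀]; linarith
  have hsl : ∀ l ≤ i, e + Dl l + 2 * (a - w) + (p - Dl i) + 4 * τ ≤ 1 := fun l hl => (hsum l hl).le
  obtain ⟨ρ, hρ⟩ : ∃ ρ : ℝ, ρ = 2 * τ := ⟨_, rfl⟩
  have hρ0 : 0 < ρ := by
    rw [hρ]
    linarith
  have hρx : ρ ≤ x / 2 := by
    rw [hρ]
    linarith
  obtain ⟨K₁, μ, b, hK₁, hμ, hb, hbas⟩ := hEv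
  -- the deficit of the times
  obtain ⟨ε, hε⟩ : ∃ ε : ℝ, ε = min (ρ * Real.log 2 / (2 * C₁))
      ((1 - w) * Real.log 2 / (2 * C₁)) := ⟨_, rfl⟩
  have hC₁0 : 0 < C₁ := by linarith
  have hε0 : 0 < ε := by
    rw [hε]
    exact lt_min (by positivity) (by
      have : 0 < 1 - w := by linarith
      positivity)
  have htm := bas_ev (hTm.2 ε hε0) (κ := 1 / (4 * K₁)) (by positivity)
  have hpos : Bas S (fun _ F A => 0 < Pe F.p A) := ⟨1, one_pos, 0, fun J _ F A hA =>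
    hTm.1 1 J F A hA⟩
  -- no better label
  obtain ⟨h, hh⟩ : ∃ h : ℝ, h = min ε₀ (1 - bet PB c i a' w') := ⟨_, rfl⟩
  have hCτ : 0 ≤ C * τ := mul_nonneg hC0 hτ0.le
  have hbl : bet PB c i a' w' < 1 := by
    have h1 := hsum i le_rfl
    linarith
  have hh0 : 0 < h := by rw [hh]; exact lt_min hε₀0 (by linarith)
  have hh1 : h ≤ ε₀ := by rw [hh]; exact min_le_left _ _
  have hno := bas_ev (no_B hPB c i (fun _ => D') a' w' 0 h (μ / 2) hw'0 hwa' ha'1'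
    (fun _ h => by simp at h) hh0 (by positivity) (by
      rw [hh]
      linarith [min_le_right ε₀ (1 - bet PB c i a' w')])) (κ := 1 / (4 * K₁)) (by positivity)
  -- large `J`
  obtain ⟨J₁, hJ₁⟩ := big ((C : ℝ) * 3 + 12) (show 0 < ε₀ / 4 by positivity)
  obtain ⟨J₂, hJ₂⟩ := big ((C : ℝ) + 12) (show 0 < τ by positivity)
  obtain ⟨J₃, hJ₃⟩ := big ((C : ℝ) + 12) (show 0 < ρ / 8 by positivity)
  obtain ⟨J₄, hJ₄⟩ := big (12 : ℝ) (show 0 < μ / 8 by positivity)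
  obtain ⟨J₅, hJ₅⟩ := big (4 * C₁) (show 0 < min ρ (1 - w) * Real.log 2 by
    have : 0 < min ρ (1 - w) := lt_min hρ0 (by linarith)
    positivity)
  refine Pool.LBT.bas_false hne (Φ := fun _ _ _ => False) ?_ (Bas.mono 0 hpos fun _ _ _ _ _ h => h)
  refine Bas.mono (max (max (max J₁ J₂) (max J₃ J₄)) (max J₅ 1)) (((hbas.and htm).and hpos).and hno) ?_
  rintro J hJ F A ⟨⟨⟨hA, ht⟩, hA0⟩, hn⟩
  have hJ1 := hJ₁ J (by omega)
  have hJ2 := hJ₂ J (by omega)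
  have hJ3 := hJ₃ J (by omega)
  have hJ4 := hJ₄ J (by omega)
  have hJ5 := hJ₅ J (by omega)
  have hJ0 : (0 : ℝ) ≤ J := Nat.cast_nonneg J
  have hJ1' : (1 : ℝ) ≤ J := by exact_mod_cast (show 1 ≤ J by omega)
  -- the natural numbers
  obtain ⟨wN, hwN⟩ : ∃ wN : ℕ, wN = ⌊w * J⌋₊ := ⟨_, rfl⟩
  obtain ⟨aN, haN⟩ : ∃ aN : ℕ, aN = ⌊a * J⌋₊ := ⟨_, rfl⟩
  obtain ⟨xN, hxN⟩ : ∃ xN : ℕ, xN = ⌊(w + x) * J⌋₊ := ⟨_, rfl⟩
  obtain ⟨r, hr⟩ : ∃ r : ℕ, r = ⌊ρ * J⌋₊ := ⟨_, rfl⟩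
  obtain ⟨z, hz⟩ : ∃ z : ℕ, z = xN - wN := ⟨_, rfl⟩
  obtain ⟨v, hv⟩ : ∃ v : ℕ, v = aN - wN := ⟨_, rfl⟩
  obtain ⟨⟨hwx, hxa'⟩, hrz, hzv, hρr, r1, z1, v1, vz1⟩ := num_a hw.le hxa hρ0 hρx
    (show 12 ≤ ρ / 8 * (J : ℝ) by linarith only [hJ3, hC0]) hwN haN hxN hr hz hv
  have hτr : τ * J ≤ r := by
    rw [hρ] at hρr
    linarith
  obtain ⟨y, hy⟩ : ∃ y : ℕ → ℕ, y = fun k => if k = 0 then r else if k = 1 then z else v :=
    ⟨_, rfl⟩
  have hy0 : y 0 = r := by rw [hy]; simp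
  have hy1 : y 1 = z := by rw [hy]; simp
  have hy2 : y 2 = v := by rw [hy]; simp
  obtain ⟨B, g₀, G₀, H₀, Gt, Ht, hBA, hPe, hg₀, hL₀, hL, hdG, hdH, hDG, hDH, hown, htwo, hR⟩ :=
    hA y (by rw [hy2, hv, haN, hwN]) (fun k hk => by
      rw [hy2]
      have : k = 0 ∨ k = 1 ∨ k = 2 := by omega
      rcases this with rfl | rfl | rfl
      · rw [hy0]
        exact ⟨hτr, hrz.trans hzv⟩
      · rw [hy1]
        exact ⟨hτr.trans (by exact_mod_cast hrz), hzv⟩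
      · rw [hy2]
        exact ⟨hτr.trans (by exact_mod_cast hrz.trans hzv), le_rfl⟩)
  rw [hy2] at htwo hR
  have hmJ : ∀ {u u' : ℝ}, u ≤ u' → u * J ≤ u' * J := fun h => mul_le_mul_of_nonneg_right h hJ0
  obtain ⟨g, hg⟩ : ∃ g : ℕ → ℕ, g = fun l => ⌊b l * J⌋₊ := ⟨_, rfl⟩
  obtain ⟨pN, hpN⟩ : ∃ pN : ℕ, pN = ⌊p * J⌋₊ := ⟨_, rfl⟩
  obtain ⟨hN, hhN⟩ : ∃ hN : ℕ, hN = ⌊τ * J⌋₊ := ⟨_, rfl⟩
  obtain ⟨P, hP⟩ : ∃ P : ℕ, P = ⌊(bet PB c i a' w' + h) * J⌋₊ := ⟨_, rfl⟩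
  obtain ⟨σN, hσN⟩ : ∃ σN : ℕ, σN = ⌊τ * J⌋₊ := ⟨_, rfl⟩
  have hDi := hD0 i le_rfl
  have hp0 : 0 ≤ p := by linarith
  have p1 : (pN : ℝ) ≤ p * J ∧ p * J - 1 ≤ pN := by
    rw [hpN]
    exact ⟨Nat.floor_le (by positivity), (Nat.sub_one_lt_floor _).le⟩
  have h1 : (hN : ℝ) ≤ τ * J := by
    rw [hhN]
    exact Nat.floor_le (by positivity)
  have σ1 : (σN : ℝ) ≤ τ * J ∧ τ * J - 1 ≤ σN := by
    rw [hσN]
    exact ⟨Nat.floor_le (by positivity), (Nat.sub_one_lt_floor _).le⟩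
  have hb0 : ∀ l ≤ i, 0 ≤ b l := fun l hl => by
    have h2 := (hb l hl).1
    have h3 := hD0 l hl
    linarith only [h2, h3, hσw]
  have g1 : ∀ l ≤ i, (g l : ℝ) ≤ b l * J ∧ b l * J - 1 ≤ g l := fun l hl => by
    rw [hg]
    exact ⟨Nat.floor_le (mul_nonneg (hb0 l hl) hJ0), (Nat.sub_one_lt_floor _).le⟩
  have e1 : ((⌊e * J⌋₊ : ℕ) : ℝ) ≤ e * J := Nat.floor_le (mul_nonneg he hJ0)
  have P1 : (P : ℝ) ≤ (bet PB c i a' w' + h) * J := by
    rw [hP]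
    refine Nat.floor_le (mul_nonneg ?_ hJ0)
    have := hPB.low ((List.range i).map c, c i) a' w' (by exact_mod_cast hw'0) (by
      exact_mod_cast hwa') ha'1
    have h3 : bet PB c i a' w' = PB ((List.range i).map c, c i) a' w' := rfl
    rw [h3]
    linarith
  -- the products
  have q1 := fun l hl => hmJ (hsl l hl)
  have q2 := fun l hl => hmJ (hb l hl).1.le
  have q3 := fun l hl => hmJ (hb l hl).2.le
  have q6 := hmJ hh1
  have hτJ : 0 ≤ τ * J := mul_nonneg hτ0.le hJ0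
  have hCτJ : 0 ≤ C * (τ * J) := mul_nonneg hC0 hτJ
  have q8 := hmJ hxp
  have q9 := hmJ hxa
  have q10 := hmJ (hε₀.le)
  have hgp : g i + v ≤ pN := by
    have h3 := (g1 i le_rfl).1
    have h4 := q3 i le_rfl
    have h5 : ((g i + v : ℕ) : ℝ) ≤ pN := by
      push_cast
      have h6 : 0 ≤ x * J := mul_nonneg hx.le hJ0
      linarith only [h3, h4, v1.1, v1.2, p1.1, p1.2, q8, hJ4, h6]
    exact_mod_cast h5
  have hB0 : 0 < Pe F.p B := by
    by_contra h2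
    push Not at h2
    have h3 := mul_nonpos_of_nonneg_of_nonpos hK₁.le h2
    linarith only [h3, hPe, hA0]
  have hκB : 1 / (4 * K₁) * Pe F.p A ≤ Pe F.p B / 4 := by
    rw [div_mul_eq_mul_div, one_mul, div_le_div_iff₀ (by positivity) (by norm_num)]
    linarith only [hPe]
  have hvN : wN + v = aN := by omega
  have hzN : wN + z = xN := by omega
  have a1 : wN ≤ J := by
    have : (wN : ℝ) ≤ J := by
      rw [hwN]
      refine (Nat.floor_le (by positivity)).trans ?_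
      have := hmJ (show w ≤ 1 by linarith)
      rwa [one_mul] at this
    exact_mod_cast this
  have hJ51 : 4 * C₁ ≤ ρ * Real.log 2 * J := hJ5.trans (mul_le_mul_of_nonneg_right
    (mul_le_mul_of_nonneg_right (min_le_left _ _) hlog.le) hJ0)
  have hε1 : C₁ * ε ≤ ρ * Real.log 2 / 2 := by
    have h2 : ε ≤ ρ * Real.log 2 / (2 * C₁) := by rw [hε]; exact min_le_left _ _
    rw [le_div_iff₀ (by positivity)] at h2
    linarith only [h2]
  have hε2 : C₁ * ε ≤ (1 - w) * Real.log 2 / 2 := by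
    have h2 : ε ≤ (1 - w) * Real.log 2 / (2 * C₁) := by rw [hε]; exact min_le_right _ _
    rw [le_div_iff₀ (by positivity)] at h2
    linarith only [h2]
  have hJ52 : 4 * C₁ ≤ (1 - w) * Real.log 2 * J := hJ5.trans (mul_le_mul_of_nonneg_right
    (mul_le_mul_of_nonneg_right (min_le_right _ _) hlog.le) hJ0)
  have a2 : C₁ * (ε * J + 1) ≤ ((J : ℝ) - wN) * Real.log 2 := by
    have h2 := hmJ hε2
    have h3 : (wN : ℝ) ≤ w * J := by rw [hwN]; exact Nat.floor_le (by positivity)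
    have h4 := mul_le_mul_of_nonneg_right h3 hlog.le
    linarith only [h2, h4, hJ52, hC₁0]
  have a3 : Real.exp (C₁ * (ε * J + 1)) ≤ 2 ^ r := by
    rw [← Real.rpow_natCast, ← Real.exp_log (show (0 : ℝ) < 2 by norm_num), ← Real.exp_mul,
      Real.exp_le_exp]
    have h2 := hmJ hε1
    have h4 := mul_le_mul_of_nonneg_right r1.2 hlog.le
    have h5 : Real.log 2 ≤ 1 := by
      have := Real.log_two_lt_d9
      linarith
    linarith only [h2, h4, hJ51, hC₁, h5]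
  have gc : ((pN - g i : ℕ) : ℝ) = pN - g i := Nat.cast_sub (by omega)
  have a4 : ∀ l < i + 1, ⌊e * J⌋₊ + g₀ l + (2 * v + (pN - g i) + σN + 1) + C ≤ J := by
    intro l hl
    have h2 := q1 l (by omega)
    have h3 := (hg₀ l (by omega)).2
    have h4 := (g1 i le_rfl).2
    have h5 := q2 i le_rfl
    have h6 : ((⌊e * J⌋₊ + g₀ l + (2 * v + (pN - g i) + σN + 1) + C : ℕ) : ℝ) ≤ (J : ℕ) := by
      push_cast [gc]
      linarith only [h2, h3, h4, h5, e1, v1.1, p1.1, σ1.1, hJ2, hC0]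
    exact_mod_cast h6
  have a5 : ∀ l < i, g l + (2 * v + (pN - g i)) ≤ g₀ l + (2 * v + (pN - g i) + σN + 1) := by
    intro l hl
    have h2 := (g1 l hl.le).1
    have h3 := q3 l hl.le
    have h4 := (hg₀ l hl.le).1
    have h5 : ((g l : ℕ) : ℝ) ≤ ((g₀ l + σN + 1 : ℕ) : ℝ) := by
      push_cast
      linarith only [h2, h3, h4, σ1.2, hJ4]
    have h6 : g l ≤ g₀ l + σN + 1 := by exact_mod_cast h5
    omega
  have a6 : ∀ y' ∈ ({r, z, v} : Finset ℕ), ChOK F c (i + 1) (fun _ => D) (wN + y') wN ⌊e * J⌋₊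
      (fun l => g l + y') B (fun y l => Gno (c l) J J (fun y => G₀ y l) y)
      (fun s l => Hno (c l) (fun s => H₀ s l) s) := by
    intro y' hy'
    simp only [Finset.mem_insert, Finset.mem_singleton] at hy'
    rw [hwN, hg]
    rcases hy' with rfl | rfl | rfl
    · have := hL 0 (by omega)
      rwa [hy0] at this
    · have := hL 1 (by omega)
      rwa [hy1] at this
    · have := hL 2 (by omega)
      rwa [hy2] at this
  have a7 : hN + C ≤ r := by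
    have h2 : ((hN + C : ℕ) : ℝ) ≤ r := by
      push_cast
      have h3 := r1.2
      rw [hρ] at h3
      linarith only [h1, h3, hJ2]
    exact_mod_cast h2
  have hCr : (C : ℝ) * r ≤ 2 * (C * (τ * J)) := by
    have h2 : (C : ℝ) * r ≤ C * (ρ * J) := mul_le_mul_of_nonneg_left r1.1 hC0
    refine h2.trans (le_of_eq ?_)
    rw [hρ]
    ring
  have a8 : P + C * (r + 1) ≤ g i + 2 * z := by
    have h4 := (g1 i le_rfl).2
    have h5 := q2 i le_rfl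
    have h2 : ((P + C * (r + 1) : ℕ) : ℝ) ≤ ((g i + 2 * z : ℕ) : ℝ) := by
      push_cast
      linarith only [P1, hCr, h4, h5, z1.2, q6, q10, hJ1, hτJ, hCτJ]
    exact_mod_cast h2
  have a9 : P + (v - z) + C * (r + 1) ≤ pN := by
    have h2 : ((P + (v - z) + C * (r + 1) : ℕ) : ℝ) ≤ pN := by
      push_cast
      linarith only [P1, hCr, vz1, p1.2, q6, q8, q10, hJ1, hτJ, hCτJ]
    exact_mod_cast h2
  have a10 : ∀ (B₁ : F.Ω → Prop) (hB₁ : 0 < Pe F.p B₁), Sub B₁ B → Pe F.p B / 4 ≤ Pe F.p B₁ →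
      (Fam.sub F B₁ hB₁).Tm (ε * J) := fun B₁ hB₁ hS hP =>
    ht B₁ (fun ω hω => hBA ω (hS ω hω)) (hκB.trans hP) hB₁
  rw [← hwN] at hL₀
  rw [← hpN] at hown
  rw [← hpN, ← hwN] at htwo
  rw [← hwN, ← hhN] at hR
  obtain ⟨B', e₀, hB'B, hPB', hch⟩ := hmem J F c wN ⌊e * J⌋₊ ⌊e * J⌋₊ r v z pN hN
    (2 * v + (pN - g i) + σN + 1) P g g₀ B G₀ H₀ Gt Ht (ε * J) hc a1 hB0
    (mul_nonneg hε0.le hJ0) a10 a2 a3 hL₀ a4 a5 a6 hdG hdH hDG hDH hown
    (by rw [hg]; exact htwo) hgp hzv (by rw [hg]; exact hR) a7 a8 a9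
  have hBA' : Sub B' A := fun ω hω => hBA ω (hB'B ω hω)
  have a11 : ∀ l ≤ i, ((g l + z : ℕ) : ℝ) ≤ (Dl l + x - μ / 2) * J := by
    intro l hl
    have h2 := (g1 l hl).1
    have h3 := q3 l hl
    push_cast
    linarith only [h2, h3, z1.1, hJ4]
  have hμJ : 0 ≤ μ / 2 * J := mul_nonneg (by positivity) hJ0
  refine hn B' hBA' (hκB.trans hPB') (w + x) w e₀ (fun l => if l = i then P else g l + z)
    hw.le (by linarith only [hx]) (by linarith only [hxa, ha]) (by rw [ha'])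
    (Nat.floor_le_floor (mul_le_mul_of_nonneg_right hww.le hJ0)) (fun θ₀ hθ => absurd hθ (by simp))
    (fun l hl => ?_) (fun l hl => ?_) ?_ ?_
  · show (if l = i then P else g l + z) ≤ J
    have h9 : (0 : ℝ) ≤ (p - Dl i - (a - w) - x) * J :=
      mul_nonneg (by linarith only [hxp]) hJ0
    have h10 : 0 ≤ e * J := mul_nonneg he hJ0
    have h11 := hτJ
    have h12 : 0 ≤ ε₀ * J := mul_nonneg hε₀0.le hJ0
    have h13 : 0 ≤ x * J := mul_nonneg hx.le hJ0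
    split_ifs with h2
    · have h3 := q1 i le_rfl
      have h4 : (P : ℝ) ≤ (J : ℕ) := by
        linarith only [P1, h3, q6, q9, q10, h9, h10, h11, h12, h13, hCτJ]
      exact_mod_cast h4
    · have h3 := q1 l hl
      have h4 := a11 l hl
      have h5 : ((g l + z : ℕ) : ℝ) ≤ (J : ℕ) := by
        linarith only [h3, h4, hμJ, h9, q9, h10, h11, h13]
      exact_mod_cast h5
  · show (((if l = i then P else g l + z : ℕ)) : ℝ) ≤ _
    rw [if_neg hl.ne, hβ l hl]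
    exact (a11 l hl.le).trans (le_max_right _ _)
  · show _ ≤ (if i = i then P else g i + z) + _
    rw [if_pos rfl, ha', ← hP]
  · rw [← hxN, ← hwN, ← hzN]
    exact hch

/-- **Slope two at the window, up to the loss**, for all real radii. -/
theorem dps_stkT (m i D : ℕ) : ∃ C₀ : ℝ, 4 ≤ C₀ ∧ ∀ {S : PCl m}, S.Ne → TmH S →
    ∀ {c : ℕ → Fin m}, Set.InjOn c (Set.Iio (i + 1)) →
    ∀ {β PB : List (Fin m) × Fin m → ℝ → ℝ → ℝ}, ThrOf (chsysB m none β) S PB →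
    ∀ {w a p e h' τ : ℝ} {Dl : ℕ → ℝ}, 0 < w → a < 1 → 0 ≤ e → 0 < τ → τ ≤ w →
    EvT S c i D w a p e τ Dl → (∀ l ≤ i, w ≤ Dl l) →
    (∀ l ≤ i, e + Dl l + 2 * (a - w) + (p - Dl i) + 4 * τ < 1) → h' ≤ a - w →
    Dl i + (a - w) + h' ≤ p →
    (∀ l < i, ∀ x : ℝ, 0 < x → x ≤ h' → bet β c l (w + x) w = Dl l + x) →
    bet PB c i w w ≤ Dl i → Cw (bet PB c i) w →
    ∀ x : ℝ, 0 < x → x ≤ h' → bet PB c i w w + 2 * x - C₀ * τ ≤ bet PB c i (w + x) w := by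
  obtain ⟨C₀, hC₀, hcls⟩ := dps_clsT m i D
  refine ⟨C₀, hC₀, ?_⟩
  intro S hne hTm c hc β PB hPB w a p e h' τ Dl hw ha he hτ hτw hEv hD0 hsum hha hxp hβ hdia hcw x
    hx hxh
  have hlaw : Pool.LEV.Law (bet PB c i) := hPB.law _
  have hCτ : 4 * τ ≤ C₀ * τ := mul_le_mul_of_nonneg_right hC₀ hτ.le
  have hsi := hsum i le_rfl
  rcases lt_or_ge (4 * τ) x with h4 | h4
  · refine le_of_forall_pos_le_add fun ε hε => ?_
    obtain ⟨a', h1, h2⟩ := exists_rat_btwn (show max (w + 4 * τ) (w + x - ε / 2) < w + x from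
      max_lt (by linarith) (by linarith))
    have h3 : w + 4 * τ < a' := (le_max_left _ _).trans_lt h1
    have h5 : w + x - ε / 2 < a' := (le_max_right _ _).trans_lt h1
    have hwa : w < a' := by linarith
    have ha1 : (a' : ℝ) ≤ 1 := by linarith
    have h6 : Dl i + 2 * (a' - w) - C₀ * τ ≤ bet PB c i a' w := by
      refine ge_of_tendsto (x := nhdsWithin w (Set.Ioi w))
        ((hcw a' hwa ha1).tendsto.mono_left nhdsWithin_le_nhds) ?_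
      filter_upwards [Ioo_mem_nhdsGT hwa] with y hy
      obtain ⟨w', h7, h8⟩ := exists_rat_btwn hy.1
      have h9 : (w' : ℝ) ≤ a' := (h8.trans hy.2).le
      have h10 := hcls hne hTm hc hPB (x := a' - w) hw ha he hτ hτw hEv hD0 hsum (by linarith)
        (by linarith) (by linarith) (fun l hl => hβ l hl (a' - w) (by linarith) (by linarith))
        (a' := a') (w' := w') (by ring) h7 (by exact_mod_cast h9)
      exact h10.trans (hlaw.mono_w _ _ _ (hw.trans h7).le h8.le hy.2.le ha1)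
    have h7 : bet PB c i a' w ≤ bet PB c i (w + x) w :=
      hlaw.mono_a _ _ _ hw.le hwa.le h2.le (by linarith)
    linarith
  · have h5 := hlaw.slope w w x hw.le le_rfl hx.le (by linarith)
    rcases min_le_iff.1 h5 with h6 | h6
    · linarith
    · linarith

end Pool.TRM
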