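import Pool.Agent.H76.GN.Lev

/-!
# The gain over the fattest boxes is quantised

`P a w`: a threshold with the laws `Law`, `P w w` its diagonal. `DpK P w m`: downward propagation at
the window `w`, for the jets of all orders `k`: a label with precision `P (w + q) w` gives labels
with precision `P w w + min ((k + 1) q₁) (k q₁ + (P (w + q) w - P w w - k q))` at all smaller
depths `q₁ ≤ q` (`q ≤ m`).

`quant_pt`: at a window where the diagonal is differentiable, `P (w + q) w = P w w + (k + 1) q` for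
all small `q`, with an integer `k`. `quant_ae`: at almost every window `g` with downward
propagation `P a w = P w w + (k + 1) (a - w) + o (r)` on the whole box of size `r`, with one integer
`k`, `k + 1` at most the slope of the diagonal.
-/

set_option autoImplicit false

namespace Pool.QNT

open MeasureTheory Set Filter Topology
open Pool.LEV (Law)

/-- **Downward propagation** at the window `w`, from the depths `q ≤ m`. -/
def DpK (P : ℝ → ℝ → ℝ) (w m : ℝ) : Prop := ∀ (k : ℕ) (q₁ q : ℝ), 0 < q₁ → q₁ ≤ q → q ≤ m →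
  w + q ≤ 1 → P (w + q) w < 1 →
  min (((k : ℝ) + 1) * q₁) (k * q₁ + (P (w + q) w - P w w - k * q)) ≤ P (w + q₁) w - P w w

/-- The exact form at one window. -/
def Exa (P : ℝ → ℝ → ℝ) (k : ℕ) (q₀ w : ℝ) : Prop :=
  ∀ q : ℝ, 0 ≤ q → q ≤ q₀ → P (w + q) w = P w w + (k + 1) * q

variable {P : ℝ → ℝ → ℝ}

/-- **One window.** -/
theorem quant_pt (hP : Law P) {w m : ℝ} (hw0 : 0 < w) (hw1 : w < 1) (hd : DifferentiableAt ℝ (fun a => P a a) w) (hD : P w w < 1) (hm : 0 < m)
    (h : DpK P w m) : ∃ (k : ℕ) (q₀ : ℝ), 0 < q₀ ∧ w + q₀ ≤ 1 ∧ Exa P k q₀ w := by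
  -- the diagonal near the window
  obtain ⟨S, hS⟩ : ∃ S, S = |deriv (fun a => P a a) w| + 1 := ⟨_, rfl⟩
  have hS1 : 1 ≤ S := by
    rw [hS]
    have := abs_nonneg (deriv (fun a => P a a) w)
    linarith
  obtain ⟨η, hη, hη'⟩ : ∃ η : ℝ, 0 < η ∧ ∀ q : ℝ, 0 ≤ q → q < η →
      P (w + q) (w + q) - P w w ≤ S * q := by
    have h1 := hd.hasDerivAt.isLittleO.def one_pos
    obtain ⟨η, hη, h2⟩ := Metric.eventually_nhds_iff.1 h1
    refine ⟨η, hη, fun q hq hq' => ?_⟩
    have h3 := h2 (y := w + q) (by rw [Real.dist_eq, add_sub_cancel_left, abs_of_nonneg hq]; exact hq')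
    rw [Real.norm_eq_abs, Real.norm_eq_abs, smul_eq_mul, add_sub_cancel_left, abs_of_nonneg hq,
      one_mul] at h3
    have h4 := (abs_le.1 h3).2
    have h5 : q * deriv (fun a => P a a) w ≤ q * |deriv (fun a => P a a) w| :=
      mul_le_mul_of_nonneg_left (le_abs_self _) hq
    rw [hS]
    have h6 : (|deriv (fun a => P a a) w| + 1) * q = q * |deriv (fun a => P a a) w| + q := by ring
    rw [h6]
    linarith
  have hup : ∀ q : ℝ, 0 ≤ q → w + q ≤ 1 → P (w + q) w ≤ P (w + q) (w + q) := fun q hq hq' =>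
    hP.mono_w (w + q) w (w + q) hw0.le (by linarith) le_rfl hq'
  -- a range of small depths
  obtain ⟨q₂, hq₂⟩ : ∃ q₂, q₂ = min (min (η / 2) m) (min (1 - w) ((1 - P w w) / (2 * S))) :=
    ⟨_, rfl⟩
  have hq₂0 : 0 < q₂ := by
    rw [hq₂]
    exact lt_min (lt_min (by linarith) hm) (lt_min (by linarith)
      (div_pos (by linarith) (by linarith)))
  have b1 : q₂ < η := by
    have : q₂ ≤ η / 2 := by rw [hq₂]; exact (min_le_left _ _).trans (min_le_left _ _)
    linarith
  have b2 : q₂ ≤ m := by rw [hq₂]; exact (min_le_left _ _).trans (min_le_right _ _)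
  have b3 : w + q₂ ≤ 1 := by
    have : q₂ ≤ 1 - w := by rw [hq₂]; exact (min_le_right _ _).trans (min_le_left _ _)
    linarith
  have b4 : S * q₂ ≤ (1 - P w w) / 2 := by
    have h1 : q₂ ≤ (1 - P w w) / (2 * S) := by rw [hq₂]; exact (min_le_right _ _).trans (min_le_right _ _)
    rw [le_div_iff₀ (by linarith)] at h1
    linarith
  have hlt : ∀ q : ℝ, 0 ≤ q → q ≤ q₂ → P (w + q) w < 1 ∧ P (w + q) w - P w w ≤ S * q := by
    intro q hq hq'
    have h1 := hη' q hq (lt_of_le_of_lt hq' b1)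
    have h2 := hup q hq (by linarith)
    have h3 : S * q ≤ S * q₂ := mul_le_mul_of_nonneg_left hq' (by linarith)
    constructor <;> linarith
  -- the orders
  obtain ⟨K, hK⟩ : ∃ K : Set ℕ, K = {k : ℕ | ∃ q : ℝ, 0 < q ∧ q ≤ q₂ ∧
      (k : ℝ) * q < P (w + q) w - P w w} := ⟨_, rfl⟩
  have hK0 : 0 ∈ K := by
    rw [hK]
    refine ⟨q₂, hq₂0, le_rfl, ?_⟩
    have h1 := hP.slope w w q₂ hw0.le le_rfl hq₂0.le b3
    have h2 := (hlt q₂ hq₂0.le le_rfl).1
    rcases min_le_iff.1 h1 with h3 | h3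
    · exact absurd h3 (not_le.2 h2)
    · push_cast
      linarith
  have hKb : ∀ k ∈ K, (k : ℝ) ≤ S := by
    intro k hk
    rw [hK] at hk
    obtain ⟨q, h1, h2, h3⟩ := hk
    have h4 := (hlt q h1.le h2).2
    by_contra hcon
    push Not at hcon
    have := mul_lt_mul_of_pos_right hcon h1
    linarith
  obtain ⟨k, hk, hkm⟩ : ∃ k ∈ K, ∀ j ∈ K, j ≤ k := by
    have hfin : K.Finite := by
      refine (Set.finite_Iic ⌊S⌋₊).subset fun k hk => ?_
      exact Nat.le_floor (hKb k hk)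
    obtain ⟨k, hk⟩ := hfin.exists_le_maximal hK0
    exact ⟨k, hk.2.prop, fun j hj => by
      by_contra hcon
      push Not at hcon
      exact absurd (hk.2.le_of_ge hj hcon.le) (not_le.2 hcon)⟩
  have hk' := hk
  rw [hK] at hk'
  obtain ⟨q, h1, h2, h3⟩ := hk'
  obtain ⟨δ, hδ⟩ : ∃ δ, δ = P (w + q) w - P w w - k * q := ⟨_, rfl⟩
  have hδ0 : 0 < δ := by rw [hδ]; linarith
  refine ⟨k, min q δ, lt_min h1 hδ0, by
    have := min_le_left q δ
    linarith, fun q₁ hq₁ hq₁' => ?_⟩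
  rcases hq₁.eq_or_lt with h0 | h0
  · rw [← h0, add_zero, mul_zero, add_zero]
  have c1 : q₁ ≤ q := hq₁'.trans (min_le_left _ _)
  have c2 : q₁ ≤ δ := hq₁'.trans (min_le_right _ _)
  have h4 := h k q₁ q h0 c1 (h2.trans b2) (by linarith) (hlt q h1.le h2).1
  rw [← hδ] at h4
  have h5 : ((k : ℝ) + 1) * q₁ ≤ k * q₁ + δ := by nlinarith
  rw [min_eq_left h5] at h4
  have h6 : ¬ ((k + 1 : ℕ) : ℝ) * q₁ < P (w + q₁) w - P w w := fun hc => by
    have : k + 1 ∈ K := by
      rw [hK]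
      exact ⟨q₁, h0, c1.trans h2, hc⟩
    have := hkm _ this
    omega
  push Not at h6
  push_cast at h6
  linarith

/-- A function on the diagonal has a derivative at almost every window. -/
theorem diff_ae {D : ℝ → ℝ} (hD : ∀ x y : ℝ, 0 ≤ x → x ≤ y → y ≤ 1 → D x ≤ D y) :
    ∀ᵐ g : ℝ, 0 < g → g < 1 → DifferentiableAt ℝ D g := by
  have h1 : MonotoneOn D (Icc 0 1) := fun x hx y hy hxy => hD x y hx.1 hxy hy.2
  filter_upwards [h1.ae_differentiableWithinAt_of_mem] with g hg h0 h2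
  exact (hg ⟨h0.le, h2.le⟩).differentiableAt (Icc_mem_nhds h0 h2)

/-- At a point of density there are points of the set in all small intervals. -/
theorem dens_pt {W : Set ℝ} {g : ℝ}
    (hW : Tendsto (fun r => volume (W ∩ Metric.closedBall g r) / volume (Metric.closedBall g r))
      (𝓝[>] 0) (𝓝 1)) {η : ℝ} (hη : 0 < η) (hη1 : η ≤ 1) :
    ∃ t₀ : ℝ, 0 < t₀ ∧ ∀ t : ℝ, 0 < t → t < t₀ → ∀ x : ℝ, |x - g| ≤ t →
      ∃ x' ∈ W, x - η * t ≤ x' ∧ x' ≤ x := by
  have h1 : ∀ᶠ r in 𝓝[>] (0 : ℝ), ENNReal.ofReal (1 - η / 4) <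
      volume (W ∩ Metric.closedBall g r) / volume (Metric.closedBall g r) := by
    refine hW.eventually_const_lt ?_
    rw [ENNReal.ofReal_lt_one]
    linarith
  obtain ⟨r₂, hr₂, h2⟩ := mem_nhdsGT_iff_exists_Ioo_subset.1 h1
  have hr₂' : (0 : ℝ) < r₂ := hr₂
  refine ⟨r₂ / 2, by linarith, fun t ht ht' x hx => ?_⟩
  have h3 := h2 (show 2 * t ∈ Ioo 0 r₂ from ⟨by linarith, by linarith⟩)
  simp only [Set.mem_ofPred_eq, Real.volume_closedBall] at h3
  by_contra hcon
  push Not at hcon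
  have hxx := abs_le.1 hx
  have hηt : η * t ≤ 1 * t := mul_le_mul_of_nonneg_right hη1 ht.le
  have hηt0 : 0 < η * t := mul_pos hη ht
  have h4 : W ∩ Metric.closedBall g (2 * t) ⊆
      Icc (g - 2 * t) (x - η * t) ∪ Icc x (g + 2 * t) := by
    rintro y ⟨hy, hyb⟩
    rw [Metric.mem_closedBall, Real.dist_eq] at hyb
    have hyb' := abs_le.1 hyb
    by_cases hy1 : x - η * t ≤ y
    · exact Or.inr ⟨(hcon y hy hy1).le, by linarith⟩
    · push Not at hy1
      exact Or.inl ⟨by linarith, hy1.le⟩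
  have h5 : volume (W ∩ Metric.closedBall g (2 * t)) ≤
      ENNReal.ofReal ((1 - η / 4) * (2 * (2 * t))) := by
    refine (measure_mono h4).trans ((measure_union_le _ _).trans ?_)
    rw [Real.volume_Icc, Real.volume_Icc, ← ENNReal.ofReal_add (by linarith) (by linarith)]
    refine ENNReal.ofReal_le_ofReal ?_
    nlinarith
  have h7 : volume (W ∩ Metric.closedBall g (2 * t)) / ENNReal.ofReal (2 * (2 * t)) ≤
      ENNReal.ofReal (1 - η / 4) := by
    refine ENNReal.div_le_of_le_mul ?_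
    rwa [← ENNReal.ofReal_mul (by linarith)]
  exact absurd h3 (not_lt.2 h7)

/-- A differentiable function is affine on the small boxes. -/
theorem affB_of {D : ℝ → ℝ} {g : ℝ} (hd : DifferentiableAt ℝ D g) {M e : ℝ} (hM : 0 < M)
    (he : 0 < e) : ∃ r₀ : ℝ, 0 < r₀ ∧ ∀ r : ℝ, 0 < r → r < r₀ → ∀ w : ℝ, |w - g| ≤ M * r →
      |D w - D g - deriv D g * (w - g)| ≤ e * r := by
  have h1 := hd.hasDerivAt.isLittleO.def (show 0 < e / M by positivity)
  obtain ⟨η, hη, h2⟩ := Metric.eventually_nhds_iff.1 h1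
  refine ⟨η / M, by positivity, fun r hr hr' w hw => ?_⟩
  rw [lt_div_iff₀ hM] at hr'
  have h3 := h2 (y := w) (by rw [Real.dist_eq]; linarith)
  rw [Real.norm_eq_abs, Real.norm_eq_abs, smul_eq_mul] at h3
  rw [mul_comm (deriv D g)]
  refine h3.trans ((mul_le_mul_of_nonneg_left hw (by positivity)).trans (le_of_eq ?_))
  field_simp

/-- **One integer on the whole box**, at the points of density of the windows with the exact form. -/
theorem quant_box (hP : Law P) {g : ℝ} (hg0 : 0 < g) (hg1 : g < 1)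
    (hd : DifferentiableAt ℝ (fun a => P a a) g) {k : ℕ} {q₀ : ℝ} (hq₀ : 0 < q₀) {W : Set ℝ}
    (hE : ∀ w ∈ W, w + q₀ ≤ 1 ∧ Exa P k q₀ w)
    (hW : Tendsto (fun r => volume (W ∩ Metric.closedBall g r) / volume (Metric.closedBall g r))
      (𝓝[>] 0) (𝓝 1)) {e : ℝ} (he : 0 < e) :
    ∃ r₀ : ℝ, 0 < r₀ ∧ ∀ r : ℝ, 0 < r → r < r₀ → ∀ a w : ℝ, g - r ≤ w → w ≤ a → a ≤ g + r →
      |P a w - P w w - (k + 1) * (a - w)| ≤ e * r := by
  obtain ⟨S, hS⟩ : ∃ S, S = |deriv (fun a => P a a) g| := ⟨_, rfl⟩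
  have hS0 : 0 ≤ S := by rw [hS]; exact abs_nonneg _
  obtain ⟨r₁, hr₁, h1⟩ := affB_of hd (M := 2) (e := e / 4) (by norm_num) (by linarith)
  obtain ⟨η, hη⟩ : ∃ η, η = min (1 / 4) (e / (8 * (S + 1))) := ⟨_, rfl⟩
  have hη0 : 0 < η := by rw [hη]; exact lt_min (by norm_num) (by positivity)
  have hη1 : η ≤ 1 / 4 := by rw [hη]; exact min_le_left _ _
  have hη2 : S * (2 * η) ≤ e / 4 := by
    have h3 : η ≤ e / (8 * (S + 1)) := by rw [hη]; exact min_le_right _ _
    rw [le_div_iff₀ (by positivity)] at h3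
    nlinarith
  obtain ⟨t₀, ht₀, h2⟩ := dens_pt hW hη0 (by linarith)
  refine ⟨min (min r₁ (t₀ / 2)) (min (min (g / 4) ((1 - g) / 4)) (q₀ / 2)),
    lt_min (lt_min hr₁ (by linarith)) (lt_min (lt_min (by linarith) (by linarith)) (by linarith)),
    fun r hr hr' a w hw hwa ha => ?_⟩
  have m1 : r < r₁ := (hr'.trans_le (min_le_left _ _)).trans_le (min_le_left _ _)
  have m2 : r < t₀ / 2 := (hr'.trans_le (min_le_left _ _)).trans_le (min_le_right _ _)
  have m5 := hr'.trans_le (min_le_right _ _)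
  have m3 : r < g / 4 := (m5.trans_le (min_le_left _ _)).trans_le (min_le_left _ _)
  have m4 : r < (1 - g) / 4 := (m5.trans_le (min_le_left _ _)).trans_le (min_le_right _ _)
  have m6 : r < q₀ / 2 := m5.trans_le (min_le_right _ _)
  have hηr : η * (2 * r) ≤ r / 2 := by nlinarith
  have hηr0 : 0 < η * (2 * r) := by positivity
  have hdD : ∀ x y : ℝ, |x - g| ≤ 2 * r → |y - g| ≤ 2 * r → |x - y| ≤ η * (2 * r) →
      |P x x - P y y| ≤ e / 4 * r + e / 4 * r + e / 4 * r := by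
    intro x y hx hy hxy
    have k1 := abs_le.1 (h1 r hr m1 x hx)
    have k2 := abs_le.1 (h1 r hr m1 y hy)
    have k3 : |deriv (fun a => P a a) g * (x - y)| ≤ e / 4 * r := by
      rw [abs_mul, ← hS]
      calc S * |x - y| ≤ S * (η * (2 * r)) := mul_le_mul_of_nonneg_left hxy hS0
        _ = S * (2 * η) * r := by ring
        _ ≤ e / 4 * r := mul_le_mul_of_nonneg_right hη2 hr.le
    have k4 := abs_le.1 k3
    rw [abs_le]
    constructor <;> linarith [k1.1, k1.2, k2.1, k2.2, k4.1, k4.2]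
  have hwg : |w - g| ≤ r := by
    rw [abs_le]
    constructor <;> linarith
  have her : 0 < e * r := mul_pos he hr
  rw [abs_le]
  constructor
  · -- from below
    obtain ⟨w', hw', l1, l2⟩ := h2 (2 * r) (by linarith) (by linarith) w (hwg.trans (by linarith))
    obtain ⟨e1, e2⟩ := hE w' hw'
    have k1 := e2 (a - w) (by linarith) (by linarith)
    have k2 := hP.mono (a := w' + (a - w)) (a' := a) (w := w') (w' := w) (by linarith) (by linarith)
      (by linarith) l2 hwa (by linarith)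
    have k3 := (abs_le.1 (hdD w w' (hwg.trans (by linarith)) (by
      rw [abs_le]; constructor <;> linarith) (by
      rw [abs_of_nonneg (by linarith)]; linarith))).2
    linarith
  · -- from above
    obtain ⟨w', hw', l1, l2⟩ := h2 (2 * r) (by linarith) (by linarith) (w + η * (2 * r)) (by
      rw [abs_le]; constructor <;> linarith)
    obtain ⟨e1, e2⟩ := hE w' hw'
    have k1 := e2 (a - w) (by linarith) (by linarith)
    have k2 := hP.mono (a := a) (a' := w' + (a - w)) (w := w) (w' := w') (by linarith) hwa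
      (by linarith) (by linarith) (by linarith) (by linarith)
    have k3 := (abs_le.1 (hdD w' w (by
      rw [abs_le]; constructor <;> linarith) (hwg.trans (by linarith)) (by
      rw [abs_of_nonneg (by linarith)]; linarith))).2
    linarith

/-- **The gain is quantised**, at almost every window with downward propagation. -/
theorem quant_ae (hP : Law P) {G : Set ℝ}
    (hG : ∀ w ∈ G, ∃ m : ℝ, 0 < m ∧ DpK P w m) :
    ∀ᵐ g : ℝ, g ∈ G → 0 < g → g < 1 → P g g < 1 → ∃ (k : ℕ) (q₀ : ℝ),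
      DifferentiableAt ℝ (fun a => P a a) g ∧ (k : ℝ) + 1 ≤ deriv (fun a => P a a) g ∧
      0 < q₀ ∧ g + q₀ ≤ 1 ∧ Exa P k q₀ g ∧
      ∀ e : ℝ, 0 < e → ∃ r₀ : ℝ, 0 < r₀ ∧ ∀ r : ℝ, 0 < r → r < r₀ → ∀ a w : ℝ, g - r ≤ w →
        w ≤ a → a ≤ g + r →
        |P a w - P w w - (k + 1) * (a - w)| ≤ e * r ∧
        |P a w - P g g - (k + 1) * (a - g) - (deriv (fun a => P a a) g - (k + 1)) * (w - g)| ≤
          e * r := by
  obtain ⟨W, hW⟩ : ∃ W : ℕ × ℕ → Set ℝ, W = fun p => {w | 0 < w ∧ w + 1 / ((p.2 : ℝ) + 1) ≤ 1 ∧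
      Exa P p.1 (1 / ((p.2 : ℝ) + 1)) w} := ⟨_, rfl⟩
  have hmono : ∀ x y : ℝ, 0 ≤ x → x ≤ y → y ≤ 1 → P x x ≤ P y y := fun x y h0 h1 h2 =>
    hP.mono h0 le_rfl h1 h1 le_rfl h2
  have hall : ∀ᵐ g : ℝ, ∀ p : ℕ × ℕ, g ∈ W p → Tendsto
      (fun r => volume (W p ∩ Metric.closedBall g r) / volume (Metric.closedBall g r))
      (𝓝[>] 0) (𝓝 1) := by
    rw [ae_all_iff]
    exact fun p => ae_imp_of_ae_restrict (Besicovitch.ae_tendsto_measure_inter_div volume (W p))
  filter_upwards [diff_ae hmono, hall] with g hg1 hg2 hgG h0 h1 h2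
  have hd := hg1 h0 h1
  obtain ⟨m, hm, hdp⟩ := hG g hgG
  obtain ⟨k, q₁, k1, k2, k3⟩ := quant_pt hP h0 h1 hd h2 hm hdp
  obtain ⟨j, hj⟩ := exists_nat_one_div_lt k1
  have hq0 : (0 : ℝ) < 1 / ((j : ℝ) + 1) := by positivity
  have hgW : g ∈ W (k, j) := by
    rw [hW]
    exact ⟨h0, by linarith, fun q a1 a2 => k3 q a1 (a2.trans hj.le)⟩
  have hbox := fun (e : ℝ) (he : 0 < e) => quant_box hP h0 h1 hd hq0 (k := k)
    (W := W (k, j)) (fun w hw => by
      rw [hW] at hw
      exact hw.2) (hg2 (k, j) hgW) he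
  have hsl : (k : ℝ) + 1 ≤ deriv (fun a => P a a) g := by
    by_contra hcon
    push Not at hcon
    obtain ⟨d, hd'⟩ : ∃ d, d = (k + 1 - deriv (fun a => P a a) g) / 2 := ⟨_, rfl⟩
    have hd0 : 0 < d := by rw [hd']; linarith
    obtain ⟨r₀, hr₀, h4⟩ := affB_of hd (M := 1) (e := d) one_pos hd0
    obtain ⟨r, hr⟩ : ∃ r, r = min (r₀ / 2) q₁ := ⟨_, rfl⟩
    have hr0 : 0 < r := by rw [hr]; exact lt_min (by linarith) k1
    have hr1 : r < r₀ := by
      have : r ≤ r₀ / 2 := by rw [hr]; exact min_le_left _ _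
      linarith
    have hr2 : r ≤ q₁ := by rw [hr]; exact min_le_right _ _
    have h5 := h4 r hr0 hr1 (g + r) (by rw [add_sub_cancel_left, abs_of_pos hr0, one_mul])
    rw [add_sub_cancel_left] at h5
    have h6 := (abs_le.1 h5).2
    have h7 := k3 r hr0.le hr2
    have h8 := hP.mono_w (g + r) g (g + r) h0.le (by linarith) le_rfl (by linarith)
    have h9 : (k + 1 - deriv (fun a => P a a) g) * r ≤ d * r := by
      have h10 : (k + 1 - deriv (fun a => P a a) g) * r =
          (k + 1) * r - deriv (fun a => P a a) g * r := by ring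
      rw [h10]
      have h11 : P (g + r) (g + r) - P g g ≤ deriv (fun a => P a a) g * r + d * r := by
        have : (fun a => P a a) (g + r) = P (g + r) (g + r) := rfl
        linarith
      linarith
    have h12 := le_of_mul_le_mul_right h9 hr0
    rw [hd'] at h12
    linarith
  refine ⟨k, q₁, hd, hsl, k1, k2, k3, fun e he => ?_⟩
  obtain ⟨r₀, hr₀, h4⟩ := hbox (e / 2) (by linarith)
  obtain ⟨r₁, hr₁, h5⟩ := affB_of hd (M := 1) (e := e / 2) one_pos (by linarith)
  refine ⟨min r₀ r₁, lt_min hr₀ hr₁, fun r hr hr' a w hw hwa ha => ?_⟩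
  have h6 := h4 r hr (hr'.trans_le (min_le_left _ _)) a w hw hwa ha
  have h7 := h5 r hr (hr'.trans_le (min_le_right _ _)) w (by
    rw [one_mul, abs_le]
    constructor <;> linarith)
  refine ⟨h6.trans (by nlinarith), ?_⟩
  have e1 : P a w - P g g - (k + 1) * (a - g) - (deriv (fun a => P a a) g - (k + 1)) * (w - g) =
      (P a w - P w w - (k + 1) * (a - w)) +
        (P w w - P g g - deriv (fun a => P a a) g * (w - g)) := by ring
  rw [e1]
  have h8 : |P w w - P g g - deriv (fun a => P a a) g * (w - g)| ≤ e / 2 * r := h7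
  calc _ ≤ _ := abs_add_le _ _
    _ ≤ e / 2 * r + e / 2 * r := add_le_add h6 h8
    _ = e * r := by ring

/-- If the slope of the diagonal is `k + 1`, then the threshold is the diagonal of the radius. -/
theorem top_of (hP : Law P) {g : ℝ} {k : ℕ} (hs : deriv (fun a => P a a) g ≤ k + 1)
    (hd : DifferentiableAt ℝ (fun a => P a a) g)
    (h : ∀ e : ℝ, 0 < e → ∃ r₀ : ℝ, 0 < r₀ ∧ ∀ r : ℝ, 0 < r → r < r₀ → ∀ a w : ℝ, g - r ≤ w →
      w ≤ a → a ≤ g + r → |P a w - P w w - (k + 1) * (a - w)| ≤ e * r) (hg0 : 0 < g) (hg1 : g < 1)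
    {e : ℝ} (he : 0 < e) : ∃ r₀ : ℝ, 0 < r₀ ∧ ∀ r : ℝ, 0 < r → r < r₀ → ∀ a w : ℝ, g - r ≤ w →
      w ≤ a → a ≤ g + r → |P a w - P a a| ≤ e * r := by
  obtain ⟨r₀, hr₀, h1⟩ := h (e / 2) (by linarith)
  obtain ⟨r₁, hr₁, h2⟩ := affB_of hd (M := 1) (e := e / 4) one_pos (by linarith)
  refine ⟨min (min r₀ r₁) (min g (1 - g)), lt_min (lt_min hr₀ hr₁) (lt_min hg0 (by linarith)),
    fun r hr hr' a w hw hwa ha => ?_⟩
  have m1 := hr'.trans_le (min_le_left _ _)
  have m2 := hr'.trans_le (min_le_right _ _)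
  have m3 : r < g := m2.trans_le (min_le_left _ _)
  have m4 : r < 1 - g := m2.trans_le (min_le_right _ _)
  have h3 := abs_le.1 (h1 r hr (m1.trans_le (min_le_left _ _)) a w hw hwa ha)
  have h4 := abs_le.1 (h2 r hr (m1.trans_le (min_le_right _ _)) w (by
    rw [one_mul, abs_le]; constructor <;> linarith))
  have h5 := abs_le.1 (h2 r hr (m1.trans_le (min_le_right _ _)) a (by
    rw [one_mul, abs_le]; constructor <;> linarith))
  have h6 : P a w ≤ P a a := hP.mono_w a w a (by linarith) hwa le_rfl (by linarith)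
  have h7 : deriv (fun a => P a a) g * (a - w) ≤ (k + 1) * (a - w) :=
    mul_le_mul_of_nonneg_right hs (by linarith)
  have h8 : deriv (fun a => P a a) g * (a - w) =
      deriv (fun a => P a a) g * (a - g) - deriv (fun a => P a a) g * (w - g) := by ring
  have her : 0 < e * r := mul_pos he hr
  rw [abs_le]
  constructor
  · linarith [h3.1, h4.1, h4.2, h5.1, h5.2]
  · linarith

end Pool.QNT
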