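import Pool.Agent.H90.ISO.DpsC
import Pool.Agent.H39.GEN.Cnum

/-!
# Slope two at a window

`cw_ae`: almost every window is a point of continuity in the window of the threshold, for all
rational radii. `dps_stk`: from one event (`EvV`), the threshold over the fattest boxes is `2`-steep
at the window. `dps_of`: the form `DPS 2` of the class numbers.
-/

set_option autoImplicit false

namespace Pool.TRM

open MeasureTheory Set Filter Topology
open Pool.STAT Pool.STAT.CLO
open Pool.Agent.H49.Ent Pool.Agent.H32.Dense Pool.STK Pool.KA Pool.KSAT Pool.K2S Pool.PB Pool.GEN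
open Pool.CHT Pool.CHB Pool.S6C
open Pool.LBT (LSys Slo Tri ThrOf)
open Pool.LEV (Law)
open Pool.STR (StK DPS)

variable {m : ℕ}

/-- Continuity in the window, for the rational radii. -/
def Cw (P : ℝ → ℝ → ℝ) (w : ℝ) : Prop :=
  ∀ a : ℚ, w < a → (a : ℝ) ≤ 1 → ContinuousAt (fun y => P a y) w

theorem cw_ae {P : ℝ → ℝ → ℝ} (hP : Law P) : ∀ᵐ w : ℝ, 0 < w → w < 1 → Cw P w := by
  have h1 : ∀ᵐ w : ℝ, ∀ a : ℚ, 0 < w → w < a → (a : ℝ) ≤ 1 → ContinuousAt (fun y => P a y) w := by
    refine ae_all_iff.2 fun a => ?_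
    by_cases ha : (0 : ℝ) < a ∧ (a : ℝ) ≤ 1
    · obtain ⟨ha0, ha1⟩ := ha
      obtain ⟨f, hf⟩ : ∃ f : ℝ → ℝ, f = fun y => P a (max 0 (min y a)) := ⟨_, rfl⟩
      have hm : Monotone f := fun x y hxy => by
        rw [hf]
        exact hP.mono_w _ _ _ (le_max_left _ _) (max_le_max le_rfl (min_le_min_right _ hxy))
          (max_le ha0.le (min_le_right _ _)) ha1
      filter_upwards [hm.countable_not_continuousAt.ae_notMem _] with w hw hw0 hwa _
      have h2 : ContinuousAt f w := not_not.1 hw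
      refine h2.congr ?_
      filter_upwards [Ioo_mem_nhds hw0 hwa] with y hy
      rw [hf]
      show P a (max 0 (min y a)) = P a y
      rw [min_eq_left hy.2.le, max_eq_right hy.1.le]
    · refine Eventually.of_forall fun w h0 hwa h1 => absurd ⟨h0.trans hwa, h1⟩ ha
  filter_upwards [h1] with w hw h0 _ a ha ha1
  exact hw a h0 ha ha1

/-- **Steep at the window**, from one event. -/
theorem dps_stk {S : PCl m} (hne : S.Ne) (hTm : TmH S) {c : ℕ → Fin m} {i : ℕ}
    (hc : Set.InjOn c (Set.Iio (i + 1))) {β : List (Fin m) × Fin m → ℝ → ℝ → ℝ}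
    {PB : List (Fin m) × Fin m → ℝ → ℝ → ℝ} (hPB : ThrOf (chsysB m none β) S PB)
    {w a p e h' : ℝ} {Dl : ℕ → ℝ} (hw : 0 < w) (ha : a < 1) (he : 0 ≤ e)
    (hEv : EvV S c i w a p e Dl) (hD0 : ∀ l ≤ i, w ≤ Dl l)
    (hsum : ∀ l ≤ i, e + Dl l + 2 * (a - w) + (p - Dl i) < 1) (hh : 0 < h') (hha : h' ≤ a - w)
    (hxp : Dl i + (a - w) + h' ≤ p)
    (hβ : ∀ l < i, ∀ x : ℝ, 0 < x → x ≤ h' → bet β c l (w + x) w = Dl l + x)
    (hdia : bet PB c i w w = Dl i) (hcw : Cw (bet PB c i) w) : StK 2 (bet PB c i) w := by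
  have hlaw : Law (bet PB c i) := hPB.law _
  -- the rational radii
  have hrat : ∀ a' : ℚ, w < a' → (a' : ℝ) ≤ w + h' → Dl i + 2 * (a' - w) ≤ bet PB c i a' w := by
    intro a' h1 h2
    have ha1 : (a' : ℝ) ≤ 1 := by linarith
    have hct := hcw a' h1 ha1
    refine ge_of_tendsto (x := 𝓝[>] w) (hct.tendsto.mono_left nhdsWithin_le_nhds) ?_
    filter_upwards [Ioo_mem_nhdsGT h1] with y hy
    obtain ⟨w', h3, h4⟩ := exists_rat_btwn hy.1
    have h5 : (w' : ℝ) ≤ a' := (h4.trans hy.2).le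
    have h6 := dps_cls hne hTm hc hPB (x := a' - w) hw ha he hEv hD0 hsum (by linarith)
      (by linarith) (by linarith) (fun l hl => hβ l hl (a' - w) (by linarith) (by linarith))
      (a' := a') (w' := w') (by ring) h3 (by exact_mod_cast h5)
    refine h6.trans (hlaw.mono_w _ _ _ (hw.trans h3).le h4.le hy.2.le ha1)
  refine ⟨h', hh, fun x hx hxh hx1 => ?_⟩
  rw [hdia]
  refine le_of_forall_pos_le_add fun ε hε => ?_
  obtain ⟨a', h1, h2⟩ := exists_rat_btwn (show max w (w + x - ε / 2) < w + x from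
    max_lt (by linarith) (by linarith))
  have h3 : w < a' := (le_max_left _ _).trans_lt h1
  have h4 : w + x - ε / 2 < a' := (le_max_right _ _).trans_lt h1
  have h5 := hrat a' h3 (by linarith)
  have h6 : bet PB c i a' w ≤ bet PB c i (w + x) w :=
    hlaw.mono_a _ _ _ hw.le h3.le h2.le hx1
  linarith

end Pool.TRM
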