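import Pool.Agent.H90.ISO.EvE
import Pool.Agent.H90.ISO.DpsE
import Pool.Agent.H2.GEN.EvC
import Pool.Agent.H60.GEN.NumT

/-!
# Gain at a window where the list is rough

`PkT.dps_rough`: at almost every good window of an order where all coordinates of the list are
rough, a gain of the target at one small depth gives `2`-steep thresholds over the fattest boxes.
-/

set_option autoImplicit false

namespace Pool.PKG

open MeasureTheory Set Filter Topology
open Pool.Agent.H49.Ent Pool.Agent.H32.Dense Pool.STK Pool.KA Pool.KSAT Pool.K2S Pool.PB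
open Pool.GEN Pool.S6C Pool.STAT Pool.CHT Pool.GRW Pool.ONE Pool.STA
open Pool.LBT (LSys ThrOf)
open Pool.LEV (Law)
open Pool.TOP (TopS)
open Pool.RTS (iso)
open Pool.STR (StK DPS dia_ae)
open Pool.CHB (chsysB)
open Pool.ISO (PtD lvN)
open Pool.TRM (Cw cw_ae dps_stk evV_rough EvV)

variable {n : ℕ} {hn : 2 ≤ n} {S : PCl n} {P : ℝ → ℝ → ℝ} {r : ℝ → ℝ}
  {P' : ℕ → List (Fin n) × Fin n → ℝ → ℝ → ℝ} {Λ : Finset (Fin n) → Fin n → ℝ → ℝ → ℝ}
  {PB : ℕ → List (Fin n) × Fin n → ℝ → ℝ → ℝ}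

/-- **The list of the order is rough** at the window `w`. -/
def RghAt (hn : 2 ≤ n) (P' : ℕ → List (Fin n) × Fin n → ℝ → ℝ → ℝ) (o : Od n) (w : ℝ) : Prop :=
  ∃ m : ℝ, 0 < m ∧ ∀ q : ℝ, 0 < q → q < m → ∀ l < n - 1,
    bet (P' o.2) (cc hn o.1.1) l (w + q) w ≤ bet (P' o.2) (cc hn o.1.1) l w w + q

/-- The threshold of the target along the order. -/
theorem bet_PT (o : Od n) : bet (PB o.2) (cc hn o.1.1) (n - 1) = PT hn PB o := by
  unfold bet PT
  rw [map_cc, cc_top]

namespace PkT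

variable (H : PkT hn S P r P' Λ PB)
include H

/-- **The diagonals agree** at almost every good window. -/
theorem dia_eq (hTop : TopS n) (hF : FZX (n - 1)) : ∀ᵐ w : ℝ, ∀ o : Od n, w ∈ Gs P r P' Λ o →
    PT hn PB o w w = P w w := by
  have h1 : ∀ᵐ w : ℝ, ∀ o : Od n, 0 < w → w < 1 →
      DifferentiableAt ℝ (fun a => PT hn PB o a a) w :=
    ae_all_iff.2 fun o => dia_ae ((H.thb o.2).law _)
  filter_upwards [h1, H.wgd] with w h2 h3 o ho
  obtain ⟨α, Q, c, F⟩ := H.toPk.fac hTop hF ho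
  have hw0 := F.g0
  have hw1 := F.g1
  refine le_antisymm (H.le o w w hw0 le_rfl hw1.le) ?_
  have h4 := H.diag hTop hF ho (h3 o.2 hw0 hw1)
  have h5 : Tendsto (fun a => PT hn PB o a a) (𝓝[>] w) (𝓝 (PT hn PB o w w)) :=
    (h2 o hw0 hw1).continuousAt.tendsto.mono_left nhdsWithin_le_nhds
  refine ge_of_tendsto h5 ?_
  filter_upwards [Ioo_mem_nhdsGT hw1] with a ha
  refine le_trans (le_min (H.tgs.up () w w hw0.le le_rfl hw1.le) ?_) (h4 a ha.1 ha.2.le)
  linarith [ha.1]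

/-- **Gain where the list is rough.** -/
theorem dps_rough (hTop : TopS n) (hF : FZX (n - 1)) : ∀ᵐ w : ℝ, ∀ o : Od n,
    w ∈ Gs P r P' Λ o → RghAt hn P' o w → DPS 2 P (PT hn PB o) w := by
  have h1 : ∀ᵐ w : ℝ, ∀ o : Od n, 0 < w → w < 1 → Cw (PT hn PB o) w :=
    ae_all_iff.2 fun o => cw_ae ((H.thb o.2).law _)
  filter_upwards [h1, H.dia_eq hTop hF, H.toPk.ptD_ae hTop hF] with w h2 h3 h4 o ho ⟨mr, hmr, hro⟩
  obtain ⟨E, c, q₁, hE, hq₁, hwq, hroom, vs, e, -, h5⟩ := h4 o ho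
  obtain ⟨α, Q, c', F⟩ := H.toPk.fac hTop hF ho
  have hw0 := F.g0
  have hw1 := F.g1
  have hdia := h3 o ho
  refine ⟨min mr q₁, lt_min hmr hq₁, fun q hq hqm hq1 hgain => ?_⟩
  have hqm1 := hqm.trans_le (min_le_left _ _)
  have hqm2 := hqm.trans_le (min_le_right _ _)
  obtain ⟨q', k1, k2⟩ := exists_rat_btwn (show q < min (min mr q₁) (P (w + q) w - PT hn PB o w w)
    from lt_min (lt_min hqm1 hqm2) (by linarith))
  have k3 : (q' : ℝ) < mr := (k2.trans_le (min_le_left _ _)).trans_le (min_le_left _ _)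
  have k4 : (q' : ℝ) < q₁ := (k2.trans_le (min_le_left _ _)).trans_le (min_le_right _ _)
  have k5 : (q' : ℝ) < P (w + q) w - PT hn PB o w w := k2.trans_le (min_le_right _ _)
  have hq'0 : (0 : ℝ) < q' := hq.trans k1
  have hlaw : Law P := H.tgs.law ()
  have k6 : P (w + q) w ≤ P (w + q') w :=
    hlaw.mono_a _ _ _ hw0.le (by linarith) (by linarith) (by linarith)
  have k7 : P (w + q') w ≤ P (w + q₁) w :=
    hlaw.mono_a _ _ _ hw0.le (by linarith) (by linarith) (by linarith)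
  obtain ⟨ρ, ρ', S₀, Q₁, Q₂, hS₀, hd1, hd2⟩ := h5 q' hq'0 k4
  have hlr : lvN (P' o.2) (cc hn o.1.1) (n - 1) P (n - 1) w w = P w w := if_neg (lt_irrefl _)
  have hll : ∀ l < n - 1, lvN (P' o.2) (cc hn o.1.1) (n - 1) P l w w =
      bet (P' o.2) (cc hn o.1.1) l w w := fun l hl => if_pos hl
  have hinj : Set.InjOn (cc hn o.1.1) (Set.Iio (n - 1 + 1)) := (cc_inj hn o.1.1).mono fun x hx => by
    rw [Set.mem_Iio] at hx ⊢
    omega
  obtain ⟨p', hp'⟩ : ∃ p' : ℝ, p' = (P w w + q' + P (w + q') w) / 2 := ⟨_, rfl⟩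
  obtain ⟨h', hh'⟩ : ∃ h' : ℝ, h' = min (q' : ℝ) (p' - P w w - q') := ⟨_, rfl⟩
  have hgap : P w w + q' < P (w + q') w := by rw [← hdia]; linarith
  have hh0 : 0 < h' := by rw [hh']; exact lt_min hq'0 (by linarith)
  have hev := evV_rough (e' := E + (q₁ - q')) (p' := p') (by omega : 1 ≤ n - 1) hS₀ (H.cht o.2)
    (tht_pos o.2) H.tmh hinj hlaw hq'0 hd1 hd2 (fun l hl => hro q' hq'0 k3 l hl) (by linarith)
    (fun l hl => by
      have := hroom l hl
      have := hlaw.mono_a w (w + q₁) w hw0.le le_rfl (by linarith) hwq.le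
      linarith) (by linarith) (by linarith)
  have hlow : ∀ l, w ≤ lvN (P' o.2) (cc hn o.1.1) (n - 1) P l w w := fun l => hd1.low (H.cht o.2) l
  have hst := dps_stk H.ne H.tmh hinj (H.thb o.2) (w := w) (a := w + q') (p := p')
    (e := E + (q₁ - q')) (h' := h') hw0 (by linarith) (by linarith) hev (fun l _ => hlow l)
    (fun l hl => by
      rw [hlr]
      have := hroom l hl
      linarith) hh0 (by rw [hh']; linarith [min_le_left (q' : ℝ) (p' - P w w - q')]) (by
      rw [hlr, hh']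
      linarith [min_le_right (q' : ℝ) (p' - P w w - q')]) (fun l hl x hx hx' => by
      rw [hll l hl]
      show iso (fun a => P' o.2 _ a a) (w + x) w = _
      unfold iso
      rw [add_sub_cancel_left]
      have h6 := hroom l hl.le
      rw [hll l hl] at h6
      have h7 : x ≤ q' := hx'.trans (by rw [hh']; exact min_le_left _ _)
      have h8 := hlaw.mono_a w (w + q₁) w hw0.le le_rfl (by linarith) hwq.le
      have h9 : bet (P' o.2) (cc hn o.1.1) l w w + x ≤ 1 := by linarith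
      exact min_eq_right h9) (by rw [bet_PT, hlr]; exact hdia) (by rw [bet_PT]; exact h2 o hw0 hw1)
  rw [bet_PT] at hst
  exact hst

end PkT

end Pool.PKG
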