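import Pool.Agent.H90.ISO.Num4
import Pool.Agent.H90.ISO.DpsT
import Pool.Agent.H90.ISO.MacE
import Pool.Agent.H2.GEN.Unf
import Pool.Agent.H2.GEN.EvS
import Pool.Agent.H9.GEN.DiaL

/-!
# Gain at a window, with contact coordinates

The thresholds `LvL o i` of the coordinates of an order and of the target, and the thresholds
`LvT o i` over the fattest boxes.
-/

set_option autoImplicit false

namespace Pool.PKG

open MeasureTheory Set Filter Topology
open Pool.Agent.H49.Ent Pool.Agent.H32.Dense Pool.STK Pool.KA Pool.KSAT Pool.K2S Pool.PB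
open Pool.GEN Pool.S6C Pool.STAT Pool.CHT Pool.GRW Pool.ONE Pool.STA
open Pool.LBT (LSys ThrOf)
open Pool.LEV (Law)
open Pool.TOP (TopS)
open Pool.RTS (iso)
open Pool.STR (StK DPS dia_ae ThinAt SteepAt StaAt)
open Pool.CHB (chsysB)
open Pool.ISO (PtD Att2 lvN WinD)
open Pool.TRM (Cw cw_ae EvT dps_stkT)
open Pool.NMS (LeAt StepAt Gn leAt_of dia_le)

variable {n : ℕ} {hn : 2 ≤ n} {S : PCl n} {P : ℝ → ℝ → ℝ} {r : ℝ → ℝ}
  {P' : ℕ → List (Fin n) × Fin n → ℝ → ℝ → ℝ} {Λ : Finset (Fin n) → Fin n → ℝ → ℝ → ℝ}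
  {PB : ℕ → List (Fin n) × Fin n → ℝ → ℝ → ℝ}

/-- The threshold of the coordinate `i` of the order, and of the target for `i = n - 1`. -/
noncomputable def LvL (hn : 2 ≤ n) (P : ℝ → ℝ → ℝ) (P' : ℕ → List (Fin n) × Fin n → ℝ → ℝ → ℝ)
    (o : Od n) (i : ℕ) : ℝ → ℝ → ℝ := fun a w => lvN (P' o.2) (cc hn o.1.1) (n - 1) P i a w

/-- The threshold of the coordinate `i` of the order over the fattest boxes. -/
noncomputable def LvT (hn : 2 ≤ n) (PB : ℕ → List (Fin n) × Fin n → ℝ → ℝ → ℝ) (o : Od n)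
    (i : ℕ) : ℝ → ℝ → ℝ := bet (PB o.2) (cc hn o.1.1) i

theorem LvL_lt (o : Od n) {i : ℕ} (hi : i < n - 1) (a w : ℝ) :
    LvL hn P P' o i a w = bet (P' o.2) (cc hn o.1.1) i a w := if_pos hi

theorem LvL_top (o : Od n) (a w : ℝ) : LvL hn P P' o (n - 1) a w = P a w := if_neg (lt_irrefl _)

theorem LvT_top (o : Od n) : LvT hn PB o (n - 1) = PT hn PB o := bet_PT o

/-- The thresholds over the fattest boxes are at most the thresholds of the coordinates of the
order, at the pairs with path data. -/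
def PBle (hn : 2 ≤ n) (S : PCl n) (P : ℝ → ℝ → ℝ) (P' : ℕ → List (Fin n) × Fin n → ℝ → ℝ → ℝ)
    (PB : ℕ → List (Fin n) × Fin n → ℝ → ℝ → ℝ) : Prop :=
  ∀ (o : Od n) (i : ℕ), i < n - 1 → ∀ (a w ρ vs e E c : ℝ) (S₀ : ℕ) (Q' : Set ℝ),
    PtD S (P' o.2) (tht o.2) (cc hn o.1.1) (n - 1) P a w ρ S₀ (fun _ => vs) (fun _ => e)
      (fun _ => e) (fun _ => E) (fun _ => 1 - c) Q' → e ≤ tht o.2 * w →
    bet (PB o.2) (cc hn o.1.1) i a w ≤ bet (P' o.2) (cc hn o.1.1) i a w

namespace PkT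

variable (H : PkT hn S P r P' Λ PB)
include H

theorem lawL (o : Od n) (i : ℕ) : Law (LvL hn P P' o i) := by
  by_cases hi : i < n - 1
  · have h1 : LvL hn P P' o i = bet (P' o.2) (cc hn o.1.1) i := by
      funext a w
      exact LvL_lt o hi a w
    rw [h1]
    exact (H.cht o.2).law _
  · have h1 : LvL hn P P' o i = P := by
      funext a w
      exact if_neg hi
    rw [h1]
    exact H.tgs.law ()

theorem lawT (o : Od n) (i : ℕ) : Law (LvT hn PB o i) := (H.thb o.2).law _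

theorem ttle (hPB : PBle hn S P P' PB) {o : Od n} {i : ℕ} (hi : i ≤ n - 1)
    {a w ρ vs e E c : ℝ} {S₀ : ℕ} {Q' : Set ℝ}
    (h : PtD S (P' o.2) (tht o.2) (cc hn o.1.1) (n - 1) P a w ρ S₀ (fun _ => vs) (fun _ => e)
      (fun _ => e) (fun _ => E) (fun _ => 1 - c) Q') (he : e ≤ tht o.2 * w) :
    LvT hn PB o i a w ≤ LvL hn P P' o i a w := by
  rcases hi.lt_or_eq with h1 | rfl
  · rw [LvL_lt o h1]
    exact hPB o i h1 _ _ _ _ _ _ _ _ _ h he
  · rw [LvL_top, LvT_top]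
    exact H.le o a w h.w0 h.wa h.a1.le

/-- `LvT ≤ LvL` at a dense set of pairs near the good windows. -/
theorem leAt (hPB : PBle hn S P P' PB) (hTop : TopS n) (hF : FZX (n - 1)) {o : Od n} {g : ℝ}
    (hg : g ∈ Gs P r P' Λ o) {i : ℕ} (hi : i ≤ n - 1) :
    LeAt (LvL hn P P' o i) (LvT hn PB o i) g := by
  obtain ⟨α, Q, c, F⟩ := H.toPk.fac hTop hF hg
  have hg0 := F.g0
  have hg1 := F.g1
  obtain ⟨E, hE, -, h1⟩ := F.ptD H.toPk
  obtain ⟨vs, e, ρ₀, he, heg, hρ₀, h2⟩ := h1 (tht o.2 * (g / 2)) (mul_pos (tht_pos _) (by linarith))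
  refine ⟨min ρ₀ (min (g / 2) (1 - g)), lt_min hρ₀ (lt_min (by linarith) (by linarith)),
    fun a w ε h3 h4 h5 h6 => ?_⟩
  have m1 := min_le_left ρ₀ (min (g / 2) (1 - g))
  have m2 := (min_le_right ρ₀ (min (g / 2) (1 - g))).trans (min_le_left _ _)
  have m3 := (min_le_right ρ₀ (min (g / 2) (1 - g))).trans (min_le_right _ _)
  have hae := Pool.ISO.att2_ae (H.cht o.2) (Pt := P) (H.tgs.law ())
  obtain ⟨w', k1, k2⟩ := (Measure.dense_of_ae hae).exists_between
    (show max (w - ε) (max (g / 2) (g - ρ₀)) < w from max_lt (by linarith) (max_lt (by linarith)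
      (by linarith)))
  have l1 : w - ε < w' := (le_max_left _ _).trans_lt k2.1
  have l0 : g / 2 < w' := ((le_max_left _ _).trans (le_max_right _ _)).trans_lt k2.1
  have l2 : 0 < w' := by linarith
  have l3 : g - ρ₀ < w' := ((le_max_right _ _).trans (le_max_right _ _)).trans_lt k2.1
  obtain ⟨q, k3, k4⟩ := exists_rat_btwn (show max 0 (a - ε - w') < a - w' from
    max_lt (by linarith [k2.2]) (by linarith))
  have l4 : (0 : ℝ) < q := (le_max_left _ _).trans_lt k3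
  have l5 : a - ε - w' < q := (le_max_right _ _).trans_lt k3
  have k5 := k1 l2 q l4.le (by linarith)
  obtain ⟨ρ, S₀, Q', -, k6⟩ := h2 (w' + q) w' k5 (by linarith) (by
    rw [abs_le]
    constructor <;> linarith) (by
    rw [abs_le]
    constructor <;> linarith [k2.2])
  exact ⟨w' + q, w', by linarith, by linarith, l1, k2.2.le, by linarith, H.ttle hPB hi k6
    (heg.trans (mul_le_mul_of_nonneg_left l0.le (tht_pos _).le))⟩

/-- **The diagonals agree** at almost every good window, and have slopes. -/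
theorem dia_all (hPB : PBle hn S P P' PB) (hTop : TopS n) (hF : FZX (n - 1)) :
    ∀ᵐ g : ℝ, ∀ o : Od n, g ∈ Gs P r P' Λ o → ∀ i ≤ n - 1,
      DifferentiableAt ℝ (fun a => LvL hn P P' o i a a) g ∧
      DifferentiableAt ℝ (fun a => LvT hn PB o i a a) g ∧ LvL hn P P' o i g g = LvT hn PB o i g g := by
  have h1 : ∀ᵐ w : ℝ, ∀ o : Od n, ∀ i : ℕ, 0 < w → w < 1 →
      DifferentiableAt ℝ (fun a => LvL hn P P' o i a a) w :=
    ae_all_iff.2 fun o => ae_all_iff.2 fun i => dia_ae (H.lawL o i)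
  have h2 : ∀ᵐ w : ℝ, ∀ o : Od n, ∀ i : ℕ, 0 < w → w < 1 →
      DifferentiableAt ℝ (fun a => LvT hn PB o i a a) w :=
    ae_all_iff.2 fun o => ae_all_iff.2 fun i => dia_ae (H.lawT o i)
  filter_upwards [h1, h2, H.wgd] with g k1 k2 k3 o ho i hi
  obtain ⟨α, Q, c, F⟩ := H.toPk.fac hTop hF ho
  have hg0 := F.g0
  have hg1 := F.g1
  have d1 := k1 o i hg0 hg1
  have d2 := k2 o i hg0 hg1
  refine ⟨d1, d2, le_antisymm ?_ ?_⟩
  · -- the lower bound
    have h5 : Tendsto (fun a => LvT hn PB o i a a) (𝓝[>] g) (𝓝 (LvT hn PB o i g g)) :=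
      d2.continuousAt.tendsto.mono_left nhdsWithin_le_nhds
    refine ge_of_tendsto h5 ?_
    have hlt : LvL hn P P' o i g g ≤ 1 := by
      obtain ⟨E, hE, h6, -⟩ := F.ptD H.toPk
      have := h6 i hi
      show lvN (P' o.2) (cc hn o.1.1) (n - 1) P i g g ≤ 1
      linarith
    filter_upwards [Ioo_mem_nhdsGT hg1] with a ha
    have h4 : min 1 (LvL hn P P' o i g g + (a - g)) ≤ LvT hn PB o i a a := by
      rcases hi.lt_or_eq with h7 | rfl
      · rw [LvL_lt o h7]
        exact F.gdyT.diagl H.ne (H.cht o.2) (tht_pos _) H.tmh F.t1 F.α1 (by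
          have := F.Q1
          have := F.PQ g g F.g0 le_rfl F.gα
          have := H.tgs.low () g g F.g0.le le_rfl F.g1.le
          linarith) (by linarith [F.thc]) F.g0 F.gα (k3 o.2 hg0 hg1) (β := bi P' o.2)
          (fun i => H.dia o.2 i F.g0.le F.g1.le) (H.thb o.2) h7 a ha.1 ha.2.le
      · rw [LvL_top, LvT_top]
        exact H.diag hTop hF ho (k3 o.2 hg0 hg1) a ha.1 ha.2.le
    refine le_trans (le_min hlt ?_) h4
    linarith [ha.1]
  · obtain ⟨ρ, hρ, h6⟩ := dia_le (H.lawT o i) (H.lawL o i) hg0 hg1 (H.leAt hPB hTop hF ho hi)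
    have h5 : Tendsto (fun a => LvL hn P P' o i a a) (𝓝[>] g) (𝓝 (LvL hn P P' o i g g)) :=
      d1.continuousAt.tendsto.mono_left nhdsWithin_le_nhds
    refine ge_of_tendsto h5 ?_
    filter_upwards [Ioo_mem_nhdsGT (show g < g + ρ by linarith)] with a ha
    exact h6 g a (by linarith) ha.1 ha.2

end PkT

end Pool.PKG
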