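import Pool.Agent.H90.ISO.StE
import Pool.Agent.H9.GEN.PBk
import Pool.Agent.H60.GEN.KpK

/-!
# The statement (C) at the windows with base slopes at most two

`PkT.thin_rwd`: the literal of `CD2.thin`. `PkT.thin_rwh`: the literal of `ClassM2.thin`.
-/

set_option autoImplicit false

namespace Pool.PKG

open MeasureTheory Set Filter Topology
open Pool.Agent.H49.Ent Pool.Agent.H32.Dense Pool.STK Pool.KA Pool.KSAT Pool.K2S Pool.PB
open Pool.GEN Pool.S6C Pool.STAT Pool.CHT Pool.GRW Pool.ONE Pool.STA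
open Pool.TOP (TopS)
open Pool.STR (ThinAt SteepAt StaAt StaD NumI Rle)

variable {n : ℕ} {hn : 2 ≤ n} {S : PCl n} {P : ℝ → ℝ → ℝ} {r : ℝ → ℝ}
  {P' : ℕ → List (Fin n) × Fin n → ℝ → ℝ → ℝ} {Λ : Finset (Fin n) → Fin n → ℝ → ℝ → ℝ}
  {PB : ℕ → List (Fin n) × Fin n → ℝ → ℝ → ℝ}

/-- The base slopes of the package. -/
theorem PkT.bas2_iff (H : PkT hn S P r P' Λ PB) (hTop : TopS n) (hF : FZX (n - 1)) (o : Od n)
    (g : ℝ) : Bas2 H hTop hF o g ↔
      ∀ i < n - 1, deriv (fun a => bet (P' o.2) (cc hn o.1.1) i a a) g ≤ 2 := by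
  refine forall₂_congr fun i hi => ?_
  rw [show (H.nk hTop hF).dg o i = fun a => bet (P' o.2) (cc hn o.1.1) i a a from
    (H.nk hTop hF).dg_lt o (i := i) hi]

/-- **The target is thin or steep** at almost every good window with base slopes at most two. -/
theorem PkT.thin_gs (H : PkT hn S P r P' Λ PB) (hTop : TopS n) (hF : FZX (n - 1))
    (hEv : ∀ Sb del : ℝ, 1 ≤ Sb → 0 < del → EvTC (n - 1) Sb del) :
    ∀ᵐ g : ℝ, ∀ o : Od n, g ∈ Gs P r P' Λ o → Bas2 H hTop hF o g →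
      (∀ i < n - 1, ThinAt (bet (P' o.2) (cc hn o.1.1) i) (bet (PB o.2) (cc hn o.1.1) i) g ∨
        StaAt (bet (P' o.2) (cc hn o.1.1) i) g) ∧
      (ThinAt P (PT hn PB o) g ∨ SteepAt 2 (PT hn PB o) g) := by
  filter_upwards [H.thin_base H.pble hTop hF hEv] with g h1 o ho hs
  exact h1 o ho ((H.bas2_iff hTop hF o g).1 hs)

/-- **The literal of `CD2.thin`.** -/
theorem PkT.thin_rwd (H : PkT hn S P r P' Λ PB) (hTop : TopS n) (hF : FZX (n - 1)) {ρ : ℝ → ℝ}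
    (hr : Rle r ρ) (hEv : ∀ Sb del : ℝ, 1 ≤ Sb → 0 < del → EvTC (n - 1) Sb del) (o : Od n) :
    ∀ᵐ g : ℝ, ((H.nk hTop hF).chg hr H.up).RwD o g → Bas2 H hTop hF o g →
      ThinAt P (PT hn PB o) g ∨ SteepAt 2 (PT hn PB o) g := by
  filter_upwards [H.thin_gs hTop hF hEv] with g h1 R hs
  exact (h1 o R.mem hs).2

/-- **The literal of `ClassM2.thin`.** -/
theorem PkT.thin_rwh (H : PkT hn S P r P' Λ PB) (hTop : TopS n) (hF : FZX (n - 1)) (h : ℝ)
    (hEv : ∀ Sb del : ℝ, 1 ≤ Sb → 0 < del → EvTC (n - 1) Sb del) (o : Od n) :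
    ∀ᵐ g : ℝ, RwH H hTop hF h o g → Bas2 H hTop hF o g →
      ThinAt P (PT hn PB o) g ∨ SteepAt 2 (PT hn PB o) g := by
  filter_upwards [H.thin_gs hTop hF hEv] with g h1 R hs
  exact (h1 o R.rwd.mem hs).2

end Pool.PKG
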