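import Pool.Agent.H95.GN.Evk
import Pool.Agent.H90.ISO.ThB

/-!
# The statement (C) at the windows with base slopes at most two, without inputs

`evTC`: the class composition. `PkT.thin_bas2`: the target is thin or steep at almost every good
window with base slopes at most two, and the base coordinates are thin or static.
`PkT.thinW`: the literal of `CD2.thin`. `PkT.thinH`: the literal of `ClassM2.thin`.
-/

set_option autoImplicit false

namespace Pool.PKG

open MeasureTheory Set Filter Topology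
open Pool.Agent.H49.Ent Pool.Agent.H32.Dense Pool.STK Pool.KA Pool.KSAT Pool.K2S Pool.PB
open Pool.GEN Pool.S6C Pool.STAT Pool.CHT Pool.GRW Pool.ONE Pool.STA
open Pool.TOP (TopS)
open Pool.STR (ThinAt SteepAt StaAt StaD NumI Rle)

/-- **The class composition.** -/
theorem evTC (r : ℕ) (hr : 1 ≤ r) (Sb del : ℝ) (hSb : 1 ≤ Sb) (hdel : 0 < del) : EvTC r Sb del :=
  Pool.VFD.evT_con r hr Sb del hSb hdel

variable {n : ℕ} {hn : 2 ≤ n} {S : PCl n} {P : ℝ → ℝ → ℝ} {r : ℝ → ℝ}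
  {P' : ℕ → List (Fin n) × Fin n → ℝ → ℝ → ℝ} {Λ : Finset (Fin n) → Fin n → ℝ → ℝ → ℝ}
  {PB : ℕ → List (Fin n) × Fin n → ℝ → ℝ → ℝ}

/-- **The statement (C)** at almost every good window with base slopes at most two. -/
theorem PkT.thin_bas2 (H : PkT hn S P r P' Λ PB) (hTop : TopS n) (hF : FZX (n - 1)) :
    ∀ᵐ g : ℝ, ∀ o : Od n, g ∈ Gs P r P' Λ o → Bas2 H hTop hF o g →
      (∀ i < n - 1, ThinAt (bet (P' o.2) (cc hn o.1.1) i) (bet (PB o.2) (cc hn o.1.1) i) g ∨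
        StaAt (bet (P' o.2) (cc hn o.1.1) i) g) ∧
      (ThinAt P (PT hn PB o) g ∨ SteepAt 2 (PT hn PB o) g) :=
  H.thin_gs hTop hF fun Sb del h1 h2 => evTC (n - 1) (by omega) Sb del h1 h2

/-- **The literal of `CD2.thin`.** -/
theorem PkT.thinW (H : PkT hn S P r P' Λ PB) (hTop : TopS n) (hF : FZX (n - 1)) {ρ : ℝ → ℝ}
    (hr : Rle r ρ) (o : Od n) :
    ∀ᵐ g : ℝ, ((H.nk hTop hF).chg hr H.up).RwD o g → Bas2 H hTop hF o g →
      ThinAt P (PT hn PB o) g ∨ SteepAt 2 (PT hn PB o) g :=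
  H.thin_rwd hTop hF hr (fun Sb del h1 h2 => evTC (n - 1) (by omega) Sb del h1 h2) o

/-- **The literal of `ClassM2.thin`.** -/
theorem PkT.thinH (H : PkT hn S P r P' Λ PB) (hTop : TopS n) (hF : FZX (n - 1)) (h : ℝ)
    (o : Od n) :
    ∀ᵐ g : ℝ, RwH H hTop hF h o g → Bas2 H hTop hF o g →
      ThinAt P (PT hn PB o) g ∨ SteepAt 2 (PT hn PB o) g :=
  H.thin_rwh hTop hF h (fun Sb del h1 h2 => evTC (n - 1) (by omega) Sb del h1 h2) o

end Pool.PKG
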