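import Pool.Agent.H90.ISO.Grid
import Pool.Agent.H63.STAT.CloF
import Pool.Agent.H63.STAT.Pack
import Pool.Agent.H2.GEN.IsoC

/-!
# Chains of labels as systems in natural logarithms

The boxes `NBx` of a chain, all sides divided by `2 ^ x`, as boxes `BxE` of the system `sy` of the
chain. `grow_bx`: from small boxes to large boxes. `close_sy`: two chains which are near on small
boxes are near on the boxes of the ball.
-/

set_option autoImplicit false

namespace Pool.TRM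

open Finset MvPolynomial
open Pool.STAT Pool.STAT.CLO
open Pool.TRC31 (BxE nue zet d1)
open Pool.Agent.H49.Ent Pool.Agent.H32.Dense Pool.STK Pool.KA Pool.KSAT Pool.K2S Pool.PB Pool.GEN
open Pool.FLF (Fam.sub)
open Pool.PB.Trl (rt rt_mem t_rt)

variable {m J : ℕ}

/-! ### Natural logarithms -/

/-- The precisions in natural logarithms. -/
noncomputable def lg (w : ℕ) (g : ℕ → ℕ) (j : ℕ) : ℝ := (gg w g j : ℝ) * Real.log 2

theorem two_exp (n : ℕ) : (2 : ℝ) ^ n = Real.exp ((n : ℝ) * Real.log 2) := by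
  rw [mul_comm, Real.exp_mul, Real.exp_log (by norm_num)]
  simp

theorem inv_exp (n : ℕ) : (1 : ℝ) / 2 ^ n = Real.exp (-((n : ℝ) * Real.log 2)) := by
  rw [Real.exp_neg, ← two_exp, one_div]

theorem log2_pos : 0 < Real.log 2 := Real.log_pos (by norm_num)

theorem log2_le : Real.log 2 ≤ 1 := by
  have := Real.log_two_lt_d9
  linarith

theorem lg_zero (w : ℕ) (g : ℕ → ℕ) : lg w g 0 = (w : ℝ) * Real.log 2 := by
  unfold lg gg
  rw [if_pos rfl]

theorem lg_succ (w : ℕ) (g : ℕ → ℕ) (l : ℕ) : lg w g (l + 1) = (g l : ℝ) * Real.log 2 := by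
  unfold lg gg
  rw [if_neg (Nat.succ_ne_zero l)]
  rfl

/-! ### The boxes -/

section box

variable {c : ℕ → Fin m} {i x w : ℕ} {g : ℕ → ℕ} {t : ℝ}
  {Γ : ℕ → MvPolynomial (Option (Fin m)) ℝ}

/-- The point of the family. -/
noncomputable def fp (c : ℕ → Fin m) (l : ℕ) (b : ℕ → ℝ) : Option (Fin m) → ℝ := fun o =>
  eval b (vr c l o)

theorem fp_none (c : ℕ → Fin m) (l : ℕ) (b : ℕ → ℝ) : fp c l b none = b 0 := by
  show eval b (X 0) = b 0
  rw [eval_X]

theorem fp_some (hc : Inj c (i + 1)) {l j : ℕ} (hl : l ≤ i + 1) (hj : j < l) (b : ℕ → ℝ) :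
    fp c l b (some (c j)) = b (j + 1) := by
  show eval b (vr c l (some (c j))) = _
  rw [vr_some hc hl hj, eval_X]

theorem ev_tr (hc : Inj c (i + 1)) {l : ℕ} (hl : l ≤ i + 1)
    {Q : MvPolynomial (Option (Fin m)) ℝ} (hQ : DepC c l Q) (b : ℕ → ℝ) :
    eval b (tr c l Q) = eval (fp c l b) Q :=
  eval_tr hc hl hQ (fp_none c l b) fun _ hj => fp_some hc hl hj b

theorem ev_tr' (hc : Inj c (i + 1)) {l : ℕ} (hl : l ≤ i + 1)
    {Q : MvPolynomial (Option (Fin m)) ℝ} (hQ : DepC c l Q) (B : Option (Fin m) → ℝ) :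
    eval (pb c B) (tr c l Q) = eval B Q :=
  eval_tr hc hl hQ (pb_zero c B).symm fun j _ => (pb_succ c B j).symm

theorem bxe_of_nbx (hc : Inj c (i + 1)) (hG : ∀ l, DepC c l (Γ l)) {l : ℕ} (hl : l ≤ i)
    {B : Option (Fin m) → ℝ} (hB : NBx c Γ (fun l => g l + x) (w + x) t l B) :
    BxE (gs (x * Real.log 2) (lg w g)) (sy c (i + 1) t Γ) (l + 1) (pb c B) := by
  intro j hj
  have e0 : ∀ n : ℕ, (1 : ℝ) / 2 ^ (n + x) = Real.exp (-((n : ℝ) * Real.log 2 +
      x * Real.log 2)) := by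
    intro n
    rw [inv_exp]
    congr 2
    push_cast
    ring
  rcases Nat.eq_zero_or_pos j with h | h
  · subst h
    rw [sy_zero, eval_C, pb_zero]
    unfold gs
    rw [lg_zero, ← e0]
    exact hB.1
  · obtain ⟨j, rfl⟩ : ∃ j', j = j' + 1 := ⟨j - 1, by omega⟩
    rw [sy_succ (by omega), ev_tr' hc (by omega) (hG j), pb_succ]
    unfold gs
    rw [lg_succ, ← e0]
    exact hB.2 j (by omega)

theorem nbx_of_bxe (hc : Inj c (i + 1)) (hG : ∀ l, DepC c l (Γ l)) {l : ℕ} (hl : l ≤ i)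
    {b : ℕ → ℝ} (hb : BxE (gs (x * Real.log 2) (lg w g)) (sy c (i + 1) t Γ) (l + 1) b) :
    NBx c Γ (fun l => g l + x) (w + x) t l (fp c l b) := by
  have e0 : ∀ n : ℕ, (1 : ℝ) / 2 ^ (n + x) = Real.exp (-((n : ℝ) * Real.log 2 +
      x * Real.log 2)) := by
    intro n
    rw [inv_exp]
    congr 2
    push_cast
    ring
  constructor
  · have h1 := hb 0 (by omega)
    rw [sy_zero, eval_C] at h1
    unfold gs at h1
    rw [lg_zero, ← e0] at h1
    rw [fp_none]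
    exact h1
  · intro j hj
    have h1 := hb (j + 1) (by omega)
    unfold gs at h1
    rw [sy_succ (by omega), lg_succ, ← e0] at h1
    rw [fp_some hc (by omega) hj]
    have h2 : eval (fp c l b) (Γ j) = eval b (tr c j (Γ j)) := by
      rw [ev_tr hc (by omega) (hG j)]
      exact hG j _ _ (by rw [fp_none, fp_none]) fun l' hl' => by
        rw [fp_some hc (by omega) (hl'.trans hj), fp_some hc (by omega) hl']
    rw [h2]
    exact h1

theorem gs_zero' (g : ℕ → ℝ) : gs (((0 : ℕ) : ℝ) * Real.log 2) g = g := by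
  funext j
  unfold gs
  simp

end box

/-! ### From small boxes to large boxes -/

/-- A polynomial which is bounded on a small box is bounded on the box of the ball. -/
theorem grow_bx (n K : ℕ) : ∃ C : ℝ, 1 ≤ C ∧ ∀ (Φ : ℕ → PN) (g : ℕ → ℝ) (F : PN) (l : ℕ)
    (M x : ℝ), TriN Φ → (∀ i < n, (Φ i).totalDegree ≤ K) → l ≤ n → F.vars ⊆ range l →
    F.totalDegree ≤ K → 0 ≤ x → 0 ≤ M → (∀ b, BxE (gs x g) Φ l b → |eval b F| ≤ M) →
    ∀ b, BxE g Φ l b → |eval b F| ≤ Real.exp (C * (x + 1)) * M := by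
  classical
  have h0 : ∀ l : ℕ, ∃ C : ℝ, 1 ≤ C ∧ ∀ (Φ : ℕ → PN) (g : ℕ → ℝ) (d : ℕ → ℕ) (ρ : ℝ)
    (F : PN) (s : ℝ), TriN Φ → (∀ i < l, (Φ i).totalDegree ≤ K) → 0 < ρ → F.vars ⊆ range l →
    F.totalDegree ≤ K →
    (∀ b : ℕ → ℝ, (∀ i < l, |b i - eval b (Φ i)| ≤ ρ ^ d i * Real.exp (-g i)) → |eval b F| ≤ s) →
    nrm d ρ (bind₁ (nue g Φ) F) ≤ C * s := fun l => nrm_le l K K
  choose C hC1 hC using h0
  obtain ⟨Cm, hCm⟩ : ∃ Cm : ℝ, Cm = ∑ l ∈ range (n + 1), C l := ⟨_, rfl⟩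
  have hCl : ∀ l ≤ n, C l ≤ Cm := by
    intro l hl
    rw [hCm]
    exact Finset.single_le_sum (f := C) (fun l _ => by linarith [hC1 l])
      (mem_range.2 (by omega))
  have hCm1 : 1 ≤ Cm := (hC1 0).trans (hCl 0 (Nat.zero_le n))
  have hlog : 0 ≤ Real.log Cm := Real.log_nonneg hCm1
  obtain ⟨D, hD⟩ : ∃ D, D = K * (K + 1) ^ n := ⟨_, rfl⟩
  have hD0 : (0 : ℝ) ≤ D := Nat.cast_nonneg D
  refine ⟨D + Real.log Cm + 1, by linarith, ?_⟩
  intro Φ g F l M x hΦ hdeg hl hv hK hx hM hb b hbx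
  have k1 : nrm d1 (Real.exp (-x)) (bind₁ (nue g Φ) F) ≤ Cm * M := by
    refine (hC l Φ g d1 (Real.exp (-x)) F M hΦ (fun i hi => hdeg i (by omega)) (Real.exp_pos _)
      hv hK fun b hb' => hb b (bx_gs' hb')).trans (mul_le_mul_of_nonneg_right (hCl l hl) hM)
  have hdF : (bind₁ (nue g Φ) F).totalDegree ≤ D := by
    rw [hD]
    exact SYS35.totalDegree_bind hv hK fun i hi => (TRC31.nue_deg hΦ
      (n := l) (fun i hi => hdeg i (by omega)) i hi).trans (Nat.pow_le_pow_right (by omega) (by omega))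
  have k2 : nrm d1 (Real.exp x * Real.exp (-x)) (bind₁ (nue g Φ) F) ≤
      Real.exp x ^ D * nrm d1 (Real.exp (-x)) (bind₁ (nue g Φ) F) := by
    refine SYS35.nrm_scale (fun k hk => ?_) (Real.one_le_exp hx) (Real.exp_pos _).le
    rw [TRC31.weight_deg]
    exact (le_totalDegree hk).trans hdF
  rw [← Real.exp_add, add_neg_cancel, Real.exp_zero] at k2
  have k3 : |eval b F| ≤ nrm d1 1 (bind₁ (nue g Φ) F) := val_le (d := d1) hΦ hv (bx_one' hbx)
  refine k3.trans (k2.trans ((mul_le_mul_of_nonneg_left k1 (by positivity)).trans ?_))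
  rw [← Real.exp_nat_mul, ← mul_assoc]
  refine mul_le_mul_of_nonneg_right ?_ hM
  have h1 : Cm = Real.exp (Real.log Cm) := (Real.exp_log (by linarith)).symm
  conv_lhs => rw [h1]
  rw [← Real.exp_add]
  refine Real.exp_le_exp.2 ?_
  nlinarith

/-- **Two chains which are near on small boxes** are near on the boxes of the ball. -/
theorem close_sy (m i D : ℕ) : ∃ C : ℝ, 1 ≤ C ∧ ∀ (c : ℕ → Fin m) (w u : ℕ) (g : ℕ → ℕ)
    (t T : ℝ) (Γ ΓH : ℕ → MvPolynomial (Option (Fin m)) ℝ), Inj c (i + 1) →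
    (∀ l, DepC c l (Γ l)) → (∀ l, DepC c l (ΓH l)) → (∀ l ≤ i, (Γ l).totalDegree ≤ D) →
    (∀ l ≤ i, (ΓH l).totalDegree ≤ D) → |t - T| ≤ 1 / 2 ^ w →
    (∀ l ≤ i, ∀ b, NBx c Γ (fun l => g l + u) (w + u) t l b →
      |eval b (Γ l) - eval b (ΓH l)| ≤ 2 ^ u / 2 ^ g l) →
    ∀ l ≤ i + 1, ∀ b, BxE (lg w g) (sy c (i + 1) t Γ) l b →
      |eval b (sy c (i + 1) t Γ l) - eval b (sy c (i + 1) T ΓH l)| ≤
        Real.exp (C * (u + 1) - lg w g l) := by
  classical
  obtain ⟨C₁, hC₁, hgrow⟩ := grow_bx (i + 1) D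
  refine ⟨C₁ + 1, by linarith, ?_⟩
  intro c w u g t T Γ ΓH hc hG hH dG dH htT hcl l hl b hb
  have hu : (0 : ℝ) ≤ u := Nat.cast_nonneg u
  have hL := log2_pos
  have hL1 := log2_le
  have huL : (u : ℝ) * Real.log 2 ≤ u := mul_le_of_le_one_right hu hL1
  have huL0 : 0 ≤ (u : ℝ) * Real.log 2 := by positivity
  rcases Nat.eq_zero_or_pos l with h | h
  · subst h
    rw [sy_zero, sy_zero, eval_C, eval_C, lg_zero]
    refine htT.trans ?_
    rw [inv_exp]
    refine Real.exp_le_exp.2 ?_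
    have : 0 ≤ (C₁ + 1) * ((u : ℝ) + 1) := by positivity
    linarith
  · obtain ⟨l, rfl⟩ : ∃ l', l = l' + 1 := ⟨l - 1, by omega⟩
    have hGs : (sy c (i + 1) t Γ (l + 1)).vars ⊆ range (l + 1) := sy_tri (l + 1)
    have hHs : (sy c (i + 1) T ΓH (l + 1)).vars ⊆ range (l + 1) := sy_tri (l + 1)
    have dGs : ∀ j, (sy c (i + 1) t Γ j).totalDegree ≤ D := fun j =>
      sy_deg (fun l hl => dG l (by omega)) j
    have dHs : ∀ j, (sy c (i + 1) T ΓH j).totalDegree ≤ D := fun j =>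
      sy_deg (fun l hl => dH l (by omega)) j
    have h1 := hgrow (sy c (i + 1) t Γ) (lg w g)
      (sy c (i + 1) t Γ (l + 1) - sy c (i + 1) T ΓH (l + 1)) (l + 1) (2 ^ u / 2 ^ g l)
      (u * Real.log 2) sy_tri (fun j _ => dGs j) hl
      ((vars_sub_subset _).trans (Finset.union_subset hGs hHs))
      ((totalDegree_sub _ _).trans (max_le (dGs _) (dHs _))) huL0 (by positivity)
      (fun b hb => by
        have h2 := hcl l (by omega) _ (nbx_of_bxe hc hG (by omega) hb)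
        rw [map_sub, sy_succ (by omega), sy_succ (by omega), ev_tr hc (by omega) (hG l),
          ev_tr hc (by omega) (hH l)]
        exact h2) b hb
    rw [map_sub] at h1
    refine h1.trans ?_
    rw [lg_succ, two_exp, two_exp, ← Real.exp_sub, ← Real.exp_add]
    refine Real.exp_le_exp.2 ?_
    have h3 : C₁ * ((u : ℝ) * Real.log 2 + 1) ≤ C₁ * (u + 1) :=
      mul_le_mul_of_nonneg_left (by linarith) (by linarith)
    linarith

end Pool.TRM
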