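import Pool.Agent.H90.ISO.DpkA

/-!
# Truncation of a label to a degree, at one sample

`Dat`: the chain of the ball on the side of the point and of the line, and a label of the last
coordinate over a thin box. `slice_sy`: the jets of the label of the line at one time. `final_sy`:
the truncated label `Lh`, from the jets on the window.
-/

set_option autoImplicit false

namespace Pool.TRM

open Finset MvPolynomial
open Pool.STAT Pool.STAT.CLO
open Pool.TRC31 (BxE nue zet d1)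
open Pool.Agent.H49.Ent Pool.Agent.H32.Dense Pool.STK Pool.KA Pool.KSAT Pool.K2S Pool.PB Pool.GEN
open Pool.FLF (Fam.sub)
open Pool.PB.Trl (rt rt_mem t_rt)

variable {m : ℕ}

/-- The label of the last coordinate minus its ball label, in the letters of the system. -/
noncomputable def wt (c : ℕ → Fin m) (i : ℕ) (Γ : ℕ → MvPolynomial (Option (Fin m)) ℝ)
    (Gt : MvPolynomial (Option (Fin m)) ℝ) : PN := tr c i Gt - tr c i (Γ i)

theorem wt_vars (c : ℕ → Fin m) (i : ℕ) (Γ : ℕ → MvPolynomial (Option (Fin m)) ℝ)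
    (Gt : MvPolynomial (Option (Fin m)) ℝ) : (wt c i Γ Gt).vars ⊆ range (i + 1) := by
  classical
  exact (vars_sub_subset _).trans (Finset.union_subset (tr_vars _ _ _) (tr_vars _ _ _))

theorem wt_deg {c : ℕ → Fin m} {i D : ℕ} {Γ : ℕ → MvPolynomial (Option (Fin m)) ℝ}
    {Gt : MvPolynomial (Option (Fin m)) ℝ} (h1 : (Γ i).totalDegree ≤ D)
    (h2 : Gt.totalDegree ≤ D) : (wt c i Γ Gt).totalDegree ≤ D :=
  (totalDegree_sub _ _).trans (max_le ((tr_deg _ _ _).trans h2) ((tr_deg _ _ _).trans h1))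

/-- The jets of the label. -/
noncomputable def jt (c : ℕ → Fin m) (i w : ℕ) (g : ℕ → ℕ) (t : ℝ)
    (Γ : ℕ → MvPolynomial (Option (Fin m)) ℝ) (Gt : MvPolynomial (Option (Fin m)) ℝ) : PN :=
  bind₁ (nue (lg w g) (sy c (i + 1) t Γ)) (wt c i Γ Gt)

theorem jt_vars (c : ℕ → Fin m) (i w : ℕ) (g : ℕ → ℕ) (t : ℝ)
    (Γ : ℕ → MvPolynomial (Option (Fin m)) ℝ) (Gt : MvPolynomial (Option (Fin m)) ℝ) :
    (jt c i w g t Γ Gt).vars ⊆ range (i + 1) :=
  SYS35.vars_bind (wt_vars c i Γ Gt) fun _ _ => TRC31.nue_vars sy_tri _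

theorem jt_deg {c : ℕ → Fin m} {i D w : ℕ} {g : ℕ → ℕ} {t : ℝ}
    {Γ : ℕ → MvPolynomial (Option (Fin m)) ℝ} {Gt : MvPolynomial (Option (Fin m)) ℝ}
    (h1 : ∀ l ≤ i, (Γ l).totalDegree ≤ D) (h2 : Gt.totalDegree ≤ D) :
    (jt c i w g t Γ Gt).totalDegree ≤ D * (D + 1) ^ (i + 1) :=
  SYS35.totalDegree_bind (wt_vars c i Γ Gt) (wt_deg (h1 i le_rfl) h2) fun j hj =>
    (TRC31.nue_deg sy_tri (n := i + 1) (fun _ _ => sy_deg (fun l hl => h1 l (by omega)) _)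
      j hj).trans (Nat.pow_le_pow_right (by omega) (by omega))

/-- **The truncated label.** -/
noncomputable def Lh (d : ℕ → ℕ) (c : ℕ → Fin m) (i k w : ℕ) (g : ℕ → ℕ) (t : ℝ)
    (Γ : ℕ → MvPolynomial (Option (Fin m)) ℝ) (Gt : MvPolynomial (Option (Fin m)) ℝ) :
    MvPolynomial (Option (Fin m)) ℝ :=
  Γ i + tb c (tyw d k (lg w g) (sy c (i + 1) t Γ) (wt c i Γ Gt))

theorem Lh_deg {d : ℕ → ℕ} {c : ℕ → Fin m} {i D k w : ℕ} {g : ℕ → ℕ} {t : ℝ}
    {Γ : ℕ → MvPolynomial (Option (Fin m)) ℝ} {Gt : MvPolynomial (Option (Fin m)) ℝ}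
    (h1 : ∀ l ≤ i, (Γ l).totalDegree ≤ D) (h2 : Gt.totalDegree ≤ D) :
    (Lh d c i k w g t Γ Gt).totalDegree ≤ D * (D + 1) ^ (i + 1) * (D + 1) := by
  unfold Lh
  refine (totalDegree_add _ _).trans (max_le ?_ ?_)
  · refine (h1 i le_rfl).trans ?_
    calc D = D * 1 * 1 := by ring
      _ ≤ D * (D + 1) ^ (i + 1) * (D + 1) :=
        Nat.mul_le_mul (Nat.mul_le_mul_left _ (Nat.one_le_pow _ _ (by omega))) (by omega)
  · exact (tb_deg _ _).trans (tyw_deg sy_tri (wt_vars c i Γ Gt)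
      (fun _ _ => sy_deg (fun l hl => h1 l (by omega)) _) (wt_deg (h1 i le_rfl) h2))

theorem Lh_dep {d : ℕ → ℕ} {c : ℕ → Fin m} {i k w : ℕ} {g : ℕ → ℕ} {t : ℝ}
    {Γ : ℕ → MvPolynomial (Option (Fin m)) ℝ} {Gt : MvPolynomial (Option (Fin m)) ℝ}
    (h1 : DepC c i (Γ i)) : DepC c i (Lh d c i k w g t Γ Gt) := by
  intro b b' hn hb
  unfold Lh
  rw [map_add, map_add, h1 b b' hn hb,
    tb_dep c (tyw_vars sy_tri (wt_vars c i Γ Gt)) b b' hn hb]

/-- **The data at one sample.** -/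
structure Dat (c : ℕ → Fin m) (i D k w u v p : ℕ) (g : ℕ → ℕ) (t T : ℝ)
    (Γ ΓH : ℕ → MvPolynomial (Option (Fin m)) ℝ) (Gt Ht : MvPolynomial (Option (Fin m)) ℝ)
    (x : Option (Fin m) → ℝ) : Prop where
  inj : Inj c (i + 1)
  dG : ∀ l, DepC c l (Γ l)
  dH : ∀ l, DepC c l (ΓH l)
  eG : ∀ l ≤ i, (Γ l).totalDegree ≤ D
  eH : ∀ l ≤ i, (ΓH l).totalDegree ≤ D
  dGt : DepC c i Gt
  dHt : DepC c i Ht
  eGt : Gt.totalDegree ≤ D
  eHt : Ht.totalDegree ≤ D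
  tT : |t - T| ≤ 1 / 2 ^ w
  xn : x none = t
  near : ∀ l ≤ i, ∀ b, NBx c Γ (fun l => g l + u) (w + u) t l b →
    |eval b (Γ l) - eval b (ΓH l)| ≤ 2 ^ u / 2 ^ g l
  own : ∀ l < i, eval x (ΓH l) = x (some (c l))
  pos : ∀ l < i, |x (some (c l)) - eval x (Γ l)| ≤ 1 / 2 ^ (g l + ((k + 1) * v + (p - g i)))
  two : ∀ b, NBx c Γ (fun l => g l + v) (w + v) t i b → |eval b Gt - eval b Ht| ≤ 1 / 2 ^ p
  gp : g i + k * v ≤ p
  n1 : nrm d1 1 (trw d1 (k + 1) (jt c i w g t Γ Gt)) ≤ 2 ^ u / 2 ^ g i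
  n2 : nrm d1 (Real.exp (-(v * Real.log 2))) (jt c i w g t Γ Gt) ≤ 2 ^ u / 2 ^ g i

section one

variable {c : ℕ → Fin m} {i D k w u v p : ℕ} {g : ℕ → ℕ} {t T : ℝ}
    {Γ ΓH : ℕ → MvPolynomial (Option (Fin m)) ℝ} {Gt Ht : MvPolynomial (Option (Fin m)) ℝ}
    {x : Option (Fin m) → ℝ}

theorem Dat.degG (h : Dat c i D k w u v p g t T Γ ΓH Gt Ht x) (j : ℕ) :
    (sy c (i + 1) t Γ j).totalDegree ≤ D := sy_deg (fun l hl => h.eG l (by omega)) j

theorem Dat.degH (h : Dat c i D k w u v p g t T Γ ΓH Gt Ht x) (j : ℕ) :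
    (sy c (i + 1) T ΓH j).totalDegree ≤ D := sy_deg (fun l hl => h.eH l (by omega)) j

theorem bx_res {g : ℕ → ℝ} {Φ : ℕ → PN} {n l : ℕ} {b : ℕ → ℝ} (h : BxE g Φ n b) (hl : l ≤ n) :
    BxE g Φ l b := fun j hj => h j (by omega)

end one

/-- **The jets of the label of the line**, at one time. -/
theorem slice_sy (m i D k : ℕ) : ∃ C : ℝ, 1 ≤ C ∧ ∀ (c : ℕ → Fin m) (w u v p : ℕ) (g : ℕ → ℕ)
    (t T τ : ℝ) (Γ ΓH : ℕ → MvPolynomial (Option (Fin m)) ℝ)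
    (Gt Ht : MvPolynomial (Option (Fin m)) ℝ) (x : Option (Fin m) → ℝ),
    Dat c i D k w u v p g t T Γ ΓH Gt Ht x → t = T + τ / 2 ^ w →
    ∀ b : ℕ → ℝ, b 0 = 0 → (∀ j, 1 ≤ j → j < i + 1 → |b j| ≤ 1) →
      |eval b (trw dY (k + 1) (bind₁ (sft τ) (jt c i w g T ΓH Ht)))| ≤
        Real.exp (C * (u + 1)) / 2 ^ g i ∧
      ((∀ j, 1 ≤ j → j < i + 1 → |b j| ≤ Real.exp (-(v * Real.log 2))) →
        |eval b (bind₁ (sft τ) (jt c i w g T ΓH Ht))| ≤ Real.exp (C * (u + 1)) / 2 ^ g i) := by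
  classical
  obtain ⟨C₁, hC₁, hclo⟩ := close_sy m i D
  obtain ⟨C₂, hC₂, hn⟩ := nrm_le (i + 1) D D
  obtain ⟨Cs, hCs, hsl⟩ := slice_pure (i + 1) D k
  obtain ⟨C₃, hC₃⟩ : ∃ C₃ : ℝ, C₃ = 3 * C₂ := ⟨_, rfl⟩
  have hlog : 0 ≤ Real.log C₃ := Real.log_nonneg (by linarith)
  refine ⟨2 * Cs * C₁ + (Real.log C₃ + C₁ + 1), by nlinarith, ?_⟩
  intro c w u v p g t T τ Γ ΓH Gt Ht x h htT b hb0 hb1
  have hu : (0 : ℝ) ≤ u := Nat.cast_nonneg u
  have hL := log2_pos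
  have hL1 := log2_le
  have hv0 : 0 ≤ (v : ℝ) * Real.log 2 := by positivity
  have hk0 : (0 : ℝ) ≤ k := Nat.cast_nonneg k
  have h2g : (0 : ℝ) < 2 ^ g i := by positivity
  obtain ⟨g', hg'⟩ : ∃ g', g' = lg w g := ⟨_, rfl⟩
  obtain ⟨ΦG, hΦG⟩ : ∃ Φ, Φ = sy c (i + 1) t Γ := ⟨_, rfl⟩
  obtain ⟨Φ₀, hΦ₀⟩ : ∃ Φ, Φ = sy c (i + 1) T ΓH := ⟨_, rfl⟩
  obtain ⟨ΦH, hΦH⟩ : ∃ Φ, Φ = Function.update Φ₀ 0 (MvPolynomial.C t) := ⟨_, rfl⟩
  have tG : TriN ΦG := by rw [hΦG]; exact sy_tri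
  have tH₀ : TriN Φ₀ := by rw [hΦ₀]; exact sy_tri
  have tH : TriN ΦH := by
    intro j
    rcases Nat.eq_zero_or_pos j with h | h
    · subst h
      rw [hΦH, Function.update_self, vars_C]
      exact Finset.empty_subset _
    · rw [hΦH, Function.update_of_ne (by omega)]
      exact tH₀ j
  have dG : ∀ j, (ΦG j).totalDegree ≤ D := fun j => by rw [hΦG]; exact h.degG j
  have dH : ∀ j, (ΦH j).totalDegree ≤ D := by
    intro j
    rcases Nat.eq_zero_or_pos j with h' | h'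
    · subst h'
      rw [hΦH, Function.update_self, totalDegree_C]
      exact Nat.zero_le _
    · rw [hΦH, Function.update_of_ne (by omega), hΦ₀]
      exact h.degH j
  have h0G : ΦG 0 = MvPolynomial.C t := by rw [hΦG]; exact sy_zero
  have h0H : ΦH 0 = MvPolynomial.C t := by rw [hΦH, Function.update_self]
  have h00 : Φ₀ 0 = MvPolynomial.C T := by rw [hΦ₀]; exact sy_zero
  have eHj : ∀ j, 1 ≤ j → ΦH j = Φ₀ j := fun j hj => by
    rw [hΦH, Function.update_of_ne (by omega)]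
  have hcl := hclo c w u g t T Γ ΓH h.inj h.dG h.dH h.eG h.eH h.tT h.near
  rw [← hΦG, ← hΦ₀, ← hg'] at hcl
  obtain ⟨A, hA⟩ : ∃ A : ℝ, A = C₁ * (u + 1) := ⟨_, rfl⟩
  rw [← hA] at hcl
  have hA0 : 0 ≤ A := by rw [hA]; positivity
  obtain ⟨S, hS⟩ : ∃ S : ℝ, S = Real.exp ((Real.log C₃ + C₁ + 1) * (u + 1)) / 2 ^ g i := ⟨_, rfl⟩
  have hS0 : 0 ≤ S := by rw [hS]; positivity
  -- the bound `S`
  have hSb : ∀ X Y Z : ℝ, X ≤ 2 ^ u → Y ≤ C₂ → Z ≤ C₂ * Real.exp A →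
      X / 2 ^ g i + Y / 2 ^ g i + Z / 2 ^ g i ≤ S := by
    intro X Y Z hX hY hZ
    rw [hS, ← add_div, ← add_div]
    refine div_le_div_of_nonneg_right ?_ h2g.le
    have e1 : (2 : ℝ) ^ u ≤ Real.exp ((C₁ + 1) * (u + 1)) := by
      rw [two_exp]
      refine Real.exp_le_exp.2 ?_
      have h1 : (u : ℝ) * Real.log 2 ≤ u := mul_le_of_le_one_right hu hL1
      nlinarith
    have e2 : Real.exp A ≤ Real.exp ((C₁ + 1) * (u + 1)) := by
      rw [hA]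
      refine Real.exp_le_exp.2 ?_
      nlinarith
    have e3 : 1 ≤ Real.exp ((C₁ + 1) * (u + 1)) := Real.one_le_exp (by positivity)
    have e4 : C₃ * Real.exp ((C₁ + 1) * (u + 1)) ≤
        Real.exp ((Real.log C₃ + C₁ + 1) * (u + 1)) := by
      have h1 : C₃ = Real.exp (Real.log C₃) := (Real.exp_log (by linarith)).symm
      conv_lhs => rw [h1]
      rw [← Real.exp_add]
      refine Real.exp_le_exp.2 ?_
      nlinarith
    refine le_trans ?_ e4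
    have e5 : C₃ * Real.exp ((C₁ + 1) * (u + 1)) = C₂ * Real.exp ((C₁ + 1) * (u + 1)) +
        C₂ * Real.exp ((C₁ + 1) * (u + 1)) + C₂ * Real.exp ((C₁ + 1) * (u + 1)) := by
      rw [hC₃]
      ring
    rw [e5]
    have f1 : X ≤ C₂ * Real.exp ((C₁ + 1) * (u + 1)) :=
      (hX.trans e1).trans (le_mul_of_one_le_left (Real.exp_pos _).le hC₂)
    have f2 : Y ≤ C₂ * Real.exp ((C₁ + 1) * (u + 1)) :=
      hY.trans (le_mul_of_one_le_right (by linarith) e3)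
    have f3 : Z ≤ C₂ * Real.exp ((C₁ + 1) * (u + 1)) :=
      hZ.trans (mul_le_mul_of_nonneg_left e2 (by linarith))
    linarith
  -- the label of the line in the coordinates of the point
  obtain ⟨W, hW⟩ : ∃ W, W = wt c i ΓH Ht := ⟨_, rfl⟩
  have vW : W.vars ⊆ range (i + 1) := by rw [hW]; exact wt_vars _ _ _ _
  have dW : W.totalDegree ≤ D := by rw [hW]; exact wt_deg (h.eH i le_rfl) h.eHt
  obtain ⟨W₁, hW₁⟩ : ∃ W₁, W₁ = tr c i Gt - tr c i Ht := ⟨_, rfl⟩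
  obtain ⟨W₂, hW₂⟩ : ∃ W₂, W₂ = tr c i (Γ i) - tr c i (ΓH i) := ⟨_, rfl⟩
  have eW : W = wt c i Γ Gt - W₁ + W₂ := by
    rw [hW, hW₁, hW₂]
    unfold wt
    ring
  have vW₁ : W₁.vars ⊆ range (i + 1) := by
    rw [hW₁]
    exact (vars_sub_subset _).trans (Finset.union_subset (tr_vars _ _ _) (tr_vars _ _ _))
  have vW₂ : W₂.vars ⊆ range (i + 1) := by
    rw [hW₂]
    exact (vars_sub_subset _).trans (Finset.union_subset (tr_vars _ _ _) (tr_vars _ _ _))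
  have dW₁ : W₁.totalDegree ≤ D := by
    rw [hW₁]
    exact (totalDegree_sub _ _).trans (max_le ((tr_deg _ _ _).trans h.eGt)
      ((tr_deg _ _ _).trans h.eHt))
  have dW₂ : W₂.totalDegree ≤ D := by
    rw [hW₂]
    exact (totalDegree_sub _ _).trans (max_le ((tr_deg _ _ _).trans (h.eG i le_rfl))
      ((tr_deg _ _ _).trans (h.eH i le_rfl)))
  have q1 : nrm d1 (Real.exp (-(v * Real.log 2))) (bind₁ (nue g' ΦG) W₁) ≤ C₂ * (1 / 2 ^ p) := by
    refine hn ΦG g' d1 _ W₁ (1 / 2 ^ p) tG (fun j _ => dG j) (Real.exp_pos _) vW₁ dW₁ ?_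
    intro b hb
    have h1 := bx_gs' hb
    rw [hg', hΦG] at h1
    have h2 := h.two _ (nbx_of_bxe h.inj h.dG le_rfl h1)
    rw [hW₁, map_sub, ev_tr h.inj (by omega) h.dGt, ev_tr h.inj (by omega) h.dHt]
    exact h2
  have q2 : ∀ ρ : ℝ, 0 < ρ → ρ ≤ 1 → nrm d1 ρ (bind₁ (nue g' ΦG) W₂) ≤
      C₂ * (Real.exp A / 2 ^ g i) := by
    intro ρ hρ hρ1
    refine hn ΦG g' d1 ρ W₂ _ tG (fun j _ => dG j) hρ vW₂ dW₂ ?_
    intro b hb
    have h1 : BxE g' ΦG (i + 1) b := fun j hj => (hb j hj).trans (by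
      rw [show d1 j = 1 from rfl, pow_one]
      exact mul_le_of_le_one_left (Real.exp_pos _).le hρ1)
    have h2 := hcl (i + 1) le_rfl b h1
    rw [hΦG, hΦ₀, sy_succ (by omega), sy_succ (by omega), hg', lg_succ, Real.exp_sub,
      ← two_exp] at h2
    rw [hW₂, map_sub]
    exact h2
  have q1' : nrm d1 1 (trw d1 (k + 1) (bind₁ (nue g' ΦG) W₁)) ≤ C₂ / 2 ^ g i := by
    have h1 := NRM.nrm_trw_scale d1 (Real.exp_pos (-(v * Real.log 2))) k
      (bind₁ (nue g' ΦG) W₁) 1 (by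
        rw [Real.exp_le_one_iff]
        linarith)
    refine h1.trans ((mul_le_mul_of_nonneg_left q1 (by positivity)).trans ?_)
    have e1 : (1 / Real.exp (-(v * Real.log 2))) ^ k = 2 ^ (k * v) := by
      rw [one_div, ← Real.exp_neg, neg_neg, ← two_exp, ← pow_mul, mul_comm]
    rw [e1]
    have h2 : (2 : ℝ) ^ (k * v) / 2 ^ p ≤ 1 / 2 ^ g i := by
      rw [div_le_div_iff₀ (by positivity) h2g, one_mul, ← pow_add]
      exact pow_le_pow_right₀ (by norm_num) (by have := h.gp; omega)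
    calc (2 : ℝ) ^ (k * v) * (C₂ * (1 / 2 ^ p)) = C₂ * (2 ^ (k * v) / 2 ^ p) := by ring
      _ ≤ C₂ * (1 / 2 ^ g i) := mul_le_mul_of_nonneg_left h2 (by linarith)
      _ = _ := by ring
  have hp2 : C₂ * (1 / 2 ^ p) ≤ C₂ / 2 ^ g i := by
    rw [mul_one_div]
    refine div_le_div_of_nonneg_left (by linarith) h2g ?_
    exact pow_le_pow_right₀ (by norm_num) (by have := h.gp; omega)
  have n1 := h.n1
  have n2 := h.n2
  unfold jt at n1 n2
  rw [← hg', ← hΦG] at n1 n2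
  have k1 : nrm d1 1 (trw d1 (k + 1) (bind₁ (nue g' ΦG) W)) ≤ S := by
    rw [eW, map_add, map_sub, trw_add', trw_sub']
    refine (NRM.nrm_add d1 one_pos _ _).trans ?_
    rw [sub_eq_add_neg]
    refine (add_le_add (NRM.nrm_add d1 one_pos _ _) le_rfl).trans ?_
    rw [NRM.nrm_neg]
    have h3 := (NRM.nrm_trw d1 one_pos (k + 1) (bind₁ (nue g' ΦG) W₂)).trans
      (q2 1 one_pos le_rfl)
    refine le_trans ?_ (hSb (2 ^ u) C₂ (C₂ * Real.exp A) le_rfl le_rfl le_rfl)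
    have e1 : C₂ * (Real.exp A / 2 ^ g i) = C₂ * Real.exp A / 2 ^ g i := by ring
    linarith
  have k2 : nrm d1 (Real.exp (-(v * Real.log 2))) (bind₁ (nue g' ΦG) W) ≤ S := by
    rw [eW, map_add, map_sub]
    refine (NRM.nrm_add d1 (Real.exp_pos _) _ _).trans ?_
    rw [sub_eq_add_neg]
    refine (add_le_add (NRM.nrm_add d1 (Real.exp_pos _) _ _) le_rfl).trans ?_
    rw [NRM.nrm_neg]
    have h3 := q2 (Real.exp (-(v * Real.log 2))) (Real.exp_pos _) (by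
      rw [Real.exp_le_one_iff]
      linarith)
    refine le_trans ?_ (hSb (2 ^ u) C₂ (C₂ * Real.exp A) le_rfl le_rfl le_rfl)
    have e1 : C₂ * (Real.exp A / 2 ^ g i) = C₂ * Real.exp A / 2 ^ g i := by ring
    linarith
  obtain ⟨r1, r2⟩ := hsl ΦG ΦH g' (pb c x) A (v * Real.log 2) (k * (v * Real.log 2)) S t W tG tH
    (fun j _ => dG j) (fun j _ => dH j) vW dW hA0 hv0 le_rfl hS0 h0G h0H
    (by rw [pb_zero]; exact h.xn) (by
      intro b hb j hj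
      rcases Nat.eq_zero_or_pos j with h' | h'
      · subst h'
        rw [h0G, h0H, sub_self, abs_zero]
        exact (Real.exp_pos _).le
      · rw [eHj j h']
        exact hcl j (by omega) b (bx_res hb (by omega))) (by
      intro j hj1 hj
      obtain ⟨l, rfl⟩ : ∃ l, j = l + 1 := ⟨j - 1, by omega⟩
      rw [eHj _ hj1, hΦ₀, sy_succ (by omega), ev_tr' h.inj (by omega) (h.dH l), pb_succ]
      exact h.own l (by omega)) (by
      intro j hj1 hj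
      obtain ⟨l, rfl⟩ : ∃ l, j = l + 1 := ⟨j - 1, by omega⟩
      rw [hΦG, sy_succ (by omega), ev_tr' h.inj (by omega) (h.dG l), pb_succ]
      refine (h.pos l (by omega)).trans ?_
      rw [inv_exp, hg', lg_succ]
      refine Real.exp_le_exp.2 ?_
      push_cast
      have h3 : 0 ≤ ((p - g i : ℕ) : ℝ) * Real.log 2 := by positivity
      nlinarith) k1 k2 b hb0 hb1
  have eP : ∀ F : PN, bind₁ (nue g' ΦH) F = bind₁ (sft τ) (bind₁ (nue g' Φ₀) F) := by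
    intro F
    rw [bind₁_bind₁]
    congr 1
    congr 1
    funext j
    rw [hΦH]
    refine nue_sft tH₀ h00 ?_ j
    rw [htT, hg', lg_zero, ← inv_exp]
    ring
  have hfin : Real.exp (Cs * (A + 1)) * S ≤
      Real.exp ((2 * Cs * C₁ + (Real.log C₃ + C₁ + 1)) * (u + 1)) / 2 ^ g i := by
    rw [hS, ← mul_div_assoc, ← Real.exp_add]
    refine div_le_div_of_nonneg_right (Real.exp_le_exp.2 ?_) h2g.le
    have h1 : 1 ≤ C₁ * ((u : ℝ) + 1) := by nlinarith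
    have h2 : Cs * (A + 1) ≤ Cs * (2 * (C₁ * (u + 1))) := by
      refine mul_le_mul_of_nonneg_left ?_ (by linarith)
      rw [hA]
      linarith
    linarith
  unfold jt
  rw [← hg', ← hΦ₀, ← hW, ← eP W]
  exact ⟨r1.trans hfin, fun hbv => (r2 hbv).trans hfin⟩

end Pool.TRM
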