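import Pool.Agent.H90.ISO.DpkB

/-!
# The truncated label, at one sample

`final_sy`: from the jets of the label of the line on the window, the truncated label `Lh` is
two-sided on all smaller boxes.
-/

set_option autoImplicit false

namespace Pool.TRM

open Finset MvPolynomial
open Pool.STAT Pool.STAT.CLO
open Pool.TRC31 (BxE nue zet d1)
open Pool.Agent.H49.Ent Pool.Agent.H32.Dense Pool.STK Pool.KA Pool.KSAT Pool.K2S Pool.PB Pool.GEN
open Pool.FLF (Fam.sub)
open Pool.PB.Trl (rt rt_mem t_rt)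

variable {m : ℕ}

theorem cst {Cc C₁ lo u A A' : ℝ} (hCc : 1 ≤ Cc) (_hC₁ : 1 ≤ C₁) (hlo : 0 ≤ lo) (hu : 0 ≤ u)
    (hA : A = C₁ * (u + 1)) (hA' : A' = A + lo) :
    Cc * Real.exp (Cc * A') * (2 * Real.exp (A + 1)) ≤
      Real.exp ((Cc * (C₁ + lo) + C₁ + Real.log Cc + 3) * (u + 1)) := by
  have hlc : 0 ≤ Real.log Cc := Real.log_nonneg hCc
  have h1 : Cc = Real.exp (Real.log Cc) := (Real.exp_log (by linarith)).symm
  have h2 : (2 : ℝ) ≤ Real.exp 1 := by
    have := Real.add_one_le_exp (1 : ℝ)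
    linarith
  have h3 : Cc * Real.exp (Cc * A') * (2 * Real.exp (A + 1)) ≤
      Real.exp (Real.log Cc) * Real.exp (Cc * A') * (Real.exp 1 * Real.exp (A + 1)) := by
    rw [← h1]
    gcongr
  refine h3.trans ?_
  rw [← Real.exp_add, ← Real.exp_add, ← Real.exp_add]
  refine Real.exp_le_exp.2 ?_
  have hlo' : lo ≤ lo * (u + 1) := le_mul_of_one_le_right hlo (by linarith)
  have h4 : Cc * A' ≤ Cc * ((C₁ + lo) * (u + 1)) := by
    refine mul_le_mul_of_nonneg_left ?_ (by linarith)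
    rw [hA', hA, add_mul]
    linarith
  have h5 : Real.log Cc ≤ Real.log Cc * (u + 1) := le_mul_of_one_le_right hlc (by linarith)
  rw [hA]
  have e1 : (Cc * (C₁ + lo) + C₁ + Real.log Cc + 3) * (u + 1) = Cc * ((C₁ + lo) * (u + 1)) +
      C₁ * (u + 1) + Real.log Cc * (u + 1) + 3 * (u + 1) := by ring
  rw [e1]
  linarith

/-- **The truncated label**, at one sample. -/
theorem final_sy (m i D k : ℕ) : ∃ C : ℝ, 1 ≤ C ∧ ∀ (c : ℕ → Fin m) (w u v p : ℕ) (g : ℕ → ℕ)
    (t T S : ℝ) (Γ ΓH : ℕ → MvPolynomial (Option (Fin m)) ℝ)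
    (Gt Ht : MvPolynomial (Option (Fin m)) ℝ) (x : Option (Fin m) → ℝ),
    Dat c i D k w u v p g t T Γ ΓH Gt Ht x → 1 ≤ S →
    nrm dY 1 (trw dY (k + 1) (jt c i w g T ΓH Ht)) ≤ S / 2 ^ g i →
    nrm dY (Real.exp (-(v * Real.log 2))) (jt c i w g T ΓH Ht) ≤ S / 2 ^ g i →
    (∀ z ≤ v, ∀ b, NBx c Γ (fun l => g l + z) (w + z) t i b →
      |eval b (Lh d1 c i k w g t Γ Gt) - eval b (Lh dY c i k w g T ΓH Ht)| ≤
        Real.exp (C * (u + 1)) * S * (1 / 2 ^ (g i + (k + 1) * z) + 2 ^ (k * (v - z)) / 2 ^ p)) ∧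
    |eval x (Lh d1 c i k w g t Γ Gt) - eval x Gt| ≤ 2 ^ u / 2 ^ p ∧
    ∀ b, NBx c Γ g w t i b → |eval b (Lh d1 c i k w g t Γ Gt) - eval b (Γ i)| ≤
      2 ^ u / 2 ^ g i := by
  classical
  obtain ⟨C₁, hC₁, hclo⟩ := close_sy m i D
  obtain ⟨Co, hCo, hctr⟩ := ctr_own (i + 1) D
  obtain ⟨Cc, hCc, hcore⟩ := trm_core (i + 1) D k
  have hlo : 0 ≤ Real.log Co := Real.log_nonneg hCo
  have hlc : 0 ≤ Real.log Cc := Real.log_nonneg hCc
  refine ⟨Cc * (C₁ + Real.log Co) + C₁ + Real.log Cc + 3, by nlinarith, ?_⟩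
  intro c w u v p g t T S Γ ΓH Gt Ht x h hS1 hj1 hj2
  have hu : (0 : ℝ) ≤ u := Nat.cast_nonneg u
  have hL := log2_pos
  have hL1 := log2_le
  have hv0 : 0 ≤ (v : ℝ) * Real.log 2 := by positivity
  have hk0 : (0 : ℝ) ≤ k := Nat.cast_nonneg k
  have h2g : (0 : ℝ) < 2 ^ g i := by positivity
  have hgp : g i ≤ p := by have := h.gp; omega
  obtain ⟨g', hg'⟩ : ∃ g', g' = lg w g := ⟨_, rfl⟩
  obtain ⟨ΦG, hΦG⟩ : ∃ Φ, Φ = sy c (i + 1) t Γ := ⟨_, rfl⟩
  obtain ⟨ΦH, hΦH⟩ : ∃ Φ, Φ = sy c (i + 1) T ΓH := ⟨_, rfl⟩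
  have tG : TriN ΦG := by rw [hΦG]; exact sy_tri
  have tH : TriN ΦH := by rw [hΦH]; exact sy_tri
  have dG : ∀ j, (ΦG j).totalDegree ≤ D := fun j => by rw [hΦG]; exact h.degG j
  have dH : ∀ j, (ΦH j).totalDegree ≤ D := fun j => by rw [hΦH]; exact h.degH j
  have hcl := hclo c w u g t T Γ ΓH h.inj h.dG h.dH h.eG h.eH h.tT h.near
  rw [← hΦG, ← hΦH, ← hg'] at hcl
  obtain ⟨A, hA⟩ : ∃ A : ℝ, A = C₁ * (u + 1) := ⟨_, rfl⟩
  rw [← hA] at hcl
  have hA0 : 0 ≤ A := by rw [hA]; positivity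
  obtain ⟨A', hA'⟩ : ∃ A' : ℝ, A' = A + Real.log Co := ⟨_, rfl⟩
  have hAA' : A ≤ A' := by rw [hA']; linarith
  -- the four polynomials
  have n1 := h.n1
  have n2 := h.n2
  unfold jt at n1 n2 hj1 hj2
  rw [← hg', ← hΦG] at n1 n2
  rw [← hg', ← hΦH] at hj1 hj2
  obtain ⟨WG, hWG⟩ : ∃ W, W = wt c i Γ Gt := ⟨_, rfl⟩
  rw [← hWG] at n1 n2
  have vWG : WG.vars ⊆ range (i + 1) := by rw [hWG]; exact wt_vars _ _ _ _
  -- the values of the truncated labels
  have eGh : ∀ B : Option (Fin m) → ℝ, eval B (Lh d1 c i k w g t Γ Gt) =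
      eval (pb c B) (tr c i (Γ i) + tyw d1 k g' ΦG (tr c i Gt - tr c i (Γ i))) := by
    intro B
    unfold Lh wt
    rw [map_add, map_add, eval_tb, ev_tr' h.inj (by omega) (h.dG i), hg', hΦG]
  have eHh : ∀ B : Option (Fin m) → ℝ, eval B (Lh dY c i k w g T ΓH Ht) =
      eval (pb c B) (tr c i (ΓH i) + tyw dY k g' ΦH (tr c i Ht - tr c i (ΓH i))) := by
    intro B
    unfold Lh wt
    rw [map_add, map_add, eval_tb, ev_tr' h.inj (by omega) (h.dH i), hg', hΦH]
  refine ⟨?_, ?_, ?_⟩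
  · -- the two sides
    obtain ⟨y', hy'⟩ : ∃ y' : ℕ, y' = k * v + (p - g i) := ⟨_, rfl⟩
    have hy0 : 0 ≤ (y' : ℝ) * Real.log 2 := by positivity
    obtain ⟨ce, hce⟩ : ∃ ce : ℕ → ℝ, ce = fun j => eval (0 : ℕ → ℝ) (nue g' ΦG j) := ⟨_, rfl⟩
    have hcc : ∀ j < i + 1, eval ce (ΦG j) = ce j := by
      intro j _
      have h1 : ce j = eval (0 : ℕ → ℝ) (nue g' ΦG j) := by rw [hce]
      rw [h1, TRC31.nue_eq tG, map_add, TRC31.eval_bind', map_mul, eval_X, Pi.zero_apply,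
        mul_zero, add_zero, hce]
    have hce0 : ce 0 = t := by
      rw [← hcc 0 (by omega), hΦG, sy_zero, eval_C]
    have hco := hctr ΦG ΦH g' ce (pb c x) A ((v : ℝ) * Real.log 2 + y' * Real.log 2) tG tH
      (fun j _ => dG j) (fun j _ => dH j) hA0 (by linarith) hcc
      (by rw [pb_zero, hce0]; exact h.xn)
      (fun b hb j hj => hcl j (by omega) b (bx_res hb (by omega))) (by
        intro j hj1 hj
        obtain ⟨l, rfl⟩ : ∃ l, j = l + 1 := ⟨j - 1, by omega⟩
        rw [hΦH, sy_succ (by omega), ev_tr' h.inj (by omega) (h.dH l), pb_succ]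
        exact h.own l (by omega)) (by
        intro j hj1 hj
        obtain ⟨l, rfl⟩ : ∃ l, j = l + 1 := ⟨j - 1, by omega⟩
        rw [hΦG, sy_succ (by omega), ev_tr' h.inj (by omega) (h.dG l), pb_succ]
        refine (h.pos l (by omega)).trans (le_of_eq ?_)
        rw [inv_exp, hg', lg_succ, hy']
        congr 1
        push_cast
        ring)
    obtain ⟨S₀, hS₀⟩ : ∃ S₀ : ℝ, S₀ = Real.exp A / 2 ^ g i := ⟨_, rfl⟩
    have e0 : ∀ b, BxE g' ΦG (i + 1) b → |eval b (tr c i (Γ i)) - eval b (tr c i (ΓH i))| ≤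
        S₀ := by
      intro b hb
      have h2 := hcl (i + 1) le_rfl b hb
      rw [hΦG, hΦH, sy_succ (by omega), sy_succ (by omega), hg', lg_succ, Real.exp_sub,
        ← two_exp] at h2
      rw [hS₀]
      exact h2
    have e1 : ∀ b, BxE (gs ((v : ℝ) * Real.log 2) g') ΦG (i + 1) b →
        |eval b (tr c i Gt) - eval b (tr c i Ht)| ≤ 1 / 2 ^ p := by
      intro b hb
      rw [hg', hΦG] at hb
      rw [ev_tr h.inj (by omega) h.dGt, ev_tr h.inj (by omega) h.dHt]
      exact h.two _ (nbx_of_bxe h.inj h.dG le_rfl hb)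
    intro z hz b hb
    have hz' : (z : ℝ) ≤ v := by exact_mod_cast hz
    have hz0 : 0 ≤ (z : ℝ) * Real.log 2 := by positivity
    have hb' := bxe_of_nbx h.inj h.dG le_rfl hb
    rw [← hg', ← hΦG] at hb'
    have hmain := hcore ΦG ΦH g' ce (tr c i (Γ i)) (tr c i Gt) (tr c i (ΓH i)) (tr c i Ht)
      (v * Real.log 2) A' (y' * Real.log 2) S₀ (S / 2 ^ g i) (S / 2 ^ g i) (1 / 2 ^ p) tG tH
      (fun j _ => dG j) (fun j _ => dH j) (tr_vars _ _ _) (tr_vars _ _ _) (tr_vars _ _ _)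
      (tr_vars _ _ _) ((tr_deg _ _ _).trans (h.eG i le_rfl)) ((tr_deg _ _ _).trans h.eGt)
      ((tr_deg _ _ _).trans (h.eH i le_rfl)) ((tr_deg _ _ _).trans h.eHt) (by linarith) hv0 hy0
      (by rw [hS₀]; positivity) (by positivity) (by positivity) (by positivity) hcc
      (fun b hb j hj => (hcl j (by omega) b (bx_res hb (by omega))).trans
        (Real.exp_le_exp.2 (by linarith))) (by
        intro j hj1 hj
        refine (hco j hj1 hj).trans (le_of_eq ?_)
        have h1 : Co = Real.exp (Real.log Co) := (Real.exp_log (by linarith)).symm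
        conv_lhs => rw [h1]
        rw [← Real.exp_add, hA']
        congr 1
        ring) e0 e1 hj1 hj2 (z * Real.log 2) hz0
      (mul_le_mul_of_nonneg_right hz' hL.le) (pb c b) hb'
    rw [eGh, eHh]
    refine hmain.trans ?_
    -- comparison of the constants
    have x1 : Real.exp (-((k + 1) * (z * Real.log 2))) = 1 / 2 ^ ((k + 1) * z) := by
      rw [inv_exp]
      congr 1
      push_cast
      ring
    have x2 : Real.exp (k * (v * Real.log 2 - z * Real.log 2)) = 2 ^ (k * (v - z)) := by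
      rw [two_exp]
      congr 1
      push_cast [Nat.cast_sub hz]
      ring
    have x3 : Real.exp (k * (v * Real.log 2 - z * Real.log 2) - y' * Real.log 2) ≤
        2 ^ g i / 2 ^ p := by
      have h1 : (2 : ℝ) ^ g i / 2 ^ p = Real.exp (-(((p - g i : ℕ) : ℝ) * Real.log 2)) := by
        rw [two_exp, two_exp, ← Real.exp_sub]
        congr 1
        rw [Nat.cast_sub hgp]
        ring
      rw [h1]
      refine Real.exp_le_exp.2 ?_
      rw [hy']
      push_cast
      have h2 : 0 ≤ (k : ℝ) * ((z : ℝ) * Real.log 2) := by positivity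
      linarith
    rw [x1, x2]
    have y1 : (S₀ + S / 2 ^ g i) * (1 / 2 ^ ((k + 1) * z)) ≤
        Real.exp (A + 1) * S * (1 / 2 ^ (g i + (k + 1) * z)) := by
      have h1 : (S₀ + S / 2 ^ g i) * (1 / 2 ^ ((k + 1) * z)) =
          (Real.exp A + S) * (1 / 2 ^ (g i + (k + 1) * z)) := by
        rw [hS₀, pow_add]
        field_simp
      rw [h1]
      refine mul_le_mul_of_nonneg_right ?_ (by positivity)
      have h2 : 1 ≤ Real.exp A := Real.one_le_exp hA0
      have h3 : 2 ≤ Real.exp 1 := by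
        have := Real.add_one_le_exp (1 : ℝ)
        linarith
      rw [Real.exp_add]
      have h4 : Real.exp A + S ≤ 2 * (Real.exp A * S) := by nlinarith
      have h5 : 0 < Real.exp A * S := by positivity
      nlinarith
    have y2 : 1 / (2 : ℝ) ^ p * 2 ^ (k * (v - z)) ≤
        Real.exp (A + 1) * S * (2 ^ (k * (v - z)) / 2 ^ p) := by
      have h2 : 1 ≤ Real.exp (A + 1) := Real.one_le_exp (by linarith)
      have h3 : 1 ≤ Real.exp (A + 1) * S := one_le_mul_of_one_le_of_one_le h2 hS1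
      have h4 : 0 ≤ (2 : ℝ) ^ (k * (v - z)) / 2 ^ p := by positivity
      calc 1 / (2 : ℝ) ^ p * 2 ^ (k * (v - z)) = 1 * (2 ^ (k * (v - z)) / 2 ^ p) := by ring
        _ ≤ _ := mul_le_mul_of_nonneg_right h3 h4
    have y3 : S / 2 ^ g i *
        Real.exp (k * (v * Real.log 2 - z * Real.log 2) - y' * Real.log 2) ≤
        S * (2 ^ (k * (v - z)) / 2 ^ p) := by
      refine (mul_le_mul_of_nonneg_left x3 (by positivity)).trans ?_
      have h4 : (1 : ℝ) ≤ 2 ^ (k * (v - z)) := one_le_pow₀ (by norm_num)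
      calc S / 2 ^ g i * (2 ^ g i / 2 ^ p) = S * (1 / 2 ^ p) := by field_simp
        _ ≤ S * (2 ^ (k * (v - z)) / 2 ^ p) := by
          refine mul_le_mul_of_nonneg_left ?_ (by linarith)
          exact div_le_div_of_nonneg_right h4 (by positivity)
    obtain ⟨a1, ha1⟩ : ∃ a1 : ℝ, a1 = 1 / 2 ^ (g i + (k + 1) * z) := ⟨_, rfl⟩
    obtain ⟨a2, ha2⟩ : ∃ a2 : ℝ, a2 = 2 ^ (k * (v - z)) / 2 ^ p := ⟨_, rfl⟩
    have ha10 : 0 ≤ a1 := by rw [ha1]; positivity
    have ha20 : 0 ≤ a2 := by rw [ha2]; positivity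
    rw [← ha1] at y1 ⊢
    rw [← ha2] at y2 y3 ⊢
    have hE1 : 1 ≤ Real.exp (A + 1) := Real.one_le_exp (by linarith)
    have y3' : S * a2 ≤ Real.exp (A + 1) * S * a2 := by
      refine mul_le_mul_of_nonneg_right ?_ ha20
      exact le_mul_of_one_le_left (by linarith) hE1
    have hsum : (S₀ + S / 2 ^ g i) * (1 / 2 ^ ((k + 1) * z)) +
        1 / 2 ^ p * 2 ^ (k * (v - z)) + S / 2 ^ g i *
          Real.exp (k * (v * Real.log 2 - z * Real.log 2) - y' * Real.log 2) ≤
        2 * Real.exp (A + 1) * S * (a1 + a2) := by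
      have : 0 ≤ Real.exp (A + 1) * S * a1 := by positivity
      nlinarith
    refine (mul_le_mul_of_nonneg_left hsum (by positivity)).trans ?_
    have hfin := cst hCc hC₁ hlo hu hA hA'
    calc Cc * Real.exp (Cc * A') * (2 * Real.exp (A + 1) * S * (a1 + a2)) =
        Cc * Real.exp (Cc * A') * (2 * Real.exp (A + 1)) * (S * (a1 + a2)) := by ring
      _ ≤ Real.exp ((Cc * (C₁ + Real.log Co) + C₁ + Real.log Cc + 3) * (u + 1)) *
          (S * (a1 + a2)) := mul_le_mul_of_nonneg_right hfin (by positivity)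
      _ = _ := by ring
  · -- the own value
    rw [eGh]
    have e2 : eval x Gt = eval (pb c x) (tr c i Gt) := (ev_tr' h.inj (by omega) h.dGt x).symm
    rw [e2, map_add]
    have e3 : eval (pb c x) (tr c i (Γ i)) + eval (pb c x)
        (tyw d1 k g' ΦG (tr c i Gt - tr c i (Γ i))) - eval (pb c x) (tr c i Gt) =
        -(eval (pb c x) (WG - tyw d1 k g' ΦG WG)) := by
      rw [hWG, map_sub]
      unfold wt
      rw [map_sub]
      ring
    rw [e3, abs_neg]
    obtain ⟨V, hV⟩ : ∃ V : ℕ, V = (k + 1) * v + (p - g i) := ⟨_, rfl⟩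
    have hvd : (WG - tyw d1 k g' ΦG WG).vars ⊆ range (i + 1) :=
      (vars_sub_subset _).trans (Finset.union_subset vWG (tyw_vars tG vWG))
    have hbx : ∀ j < i + 1, |pb c x j - eval (pb c x) (ΦG j)| ≤
        Real.exp (-((V : ℝ) * Real.log 2)) ^ d1 j * Real.exp (-g' j) := by
      intro j hj
      rw [show d1 j = 1 from rfl, pow_one, ← Real.exp_add]
      rcases Nat.eq_zero_or_pos j with h' | h'
      · subst h'
        rw [pb_zero, hΦG, sy_zero, eval_C, h.xn, sub_self, abs_zero]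
        exact (Real.exp_pos _).le
      · obtain ⟨l, rfl⟩ : ∃ l, j = l + 1 := ⟨j - 1, by omega⟩
        rw [hΦG, sy_succ (by omega), ev_tr' h.inj (by omega) (h.dG l), pb_succ]
        refine (h.pos l (by omega)).trans (le_of_eq ?_)
        rw [inv_exp, hg', lg_succ, hV]
        congr 1
        push_cast
        ring
    refine (val_le (d := d1) tG hvd hbx).trans ?_
    rw [map_sub, tyw_nue tG]
    have e4 : bind₁ (nue g' ΦG) WG - trw d1 (k + 1) (bind₁ (nue g' ΦG) WG) =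
        gew d1 (k + 1) (bind₁ (nue g' ΦG) WG) := rfl
    rw [e4]
    have hVv : (v : ℝ) * Real.log 2 ≤ V * Real.log 2 := by
      refine mul_le_mul_of_nonneg_right ?_ hL.le
      have : v ≤ V := by rw [hV]; nlinarith
      exact_mod_cast this
    have h3 := NRM.nrm_gew_scale d1 (Real.exp_pos (-((V : ℝ) * Real.log 2))) (k + 1)
      (bind₁ (nue g' ΦG) WG) (Real.exp (-(v * Real.log 2))) (Real.exp_le_exp.2 (by linarith))
    refine h3.trans ((mul_le_mul_of_nonneg_left n2 (by positivity)).trans ?_)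
    have e5 : (Real.exp (-((V : ℝ) * Real.log 2)) / Real.exp (-(v * Real.log 2))) ^ (k + 1) ≤
        2 ^ g i / 2 ^ p := by
      have h4 : (2 : ℝ) ^ g i / 2 ^ p = Real.exp (-(((p - g i : ℕ) : ℝ) * Real.log 2)) := by
        rw [two_exp, two_exp, ← Real.exp_sub]
        congr 1
        rw [Nat.cast_sub hgp]
        ring
      rw [h4, ← Real.exp_sub, ← Real.exp_nat_mul]
      refine Real.exp_le_exp.2 ?_
      have h5 : (V : ℝ) = (k + 1) * v + ((p - g i : ℕ) : ℝ) := by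
        rw [hV]
        push_cast
        ring
      have h6 : 0 ≤ ((p - g i : ℕ) : ℝ) * Real.log 2 := by positivity
      have h7 : (((k + 1 : ℕ) : ℝ)) * (-((V : ℝ) * Real.log 2) - -(v * Real.log 2)) =
          -((k + 1) * (k * (v * Real.log 2) + ((p - g i : ℕ) : ℝ) * Real.log 2)) := by
        rw [h5]
        push_cast
        ring
      rw [h7]
      have h8 : 0 ≤ (k : ℝ) * (v * Real.log 2) := by positivity
      nlinarith
    refine (mul_le_mul_of_nonneg_right e5 (by positivity)).trans (le_of_eq ?_)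
    field_simp
  · -- the increments
    intro b hb
    have hb0 : NBx c Γ (fun l => g l + 0) (w + 0) t i b := hb
    have hb' := bxe_of_nbx h.inj h.dG le_rfl hb0
    rw [gs_zero', ← hg', ← hΦG] at hb'
    rw [eGh, map_add, ev_tr' h.inj (by omega) (h.dG i)]
    have e1 : tr c i Gt - tr c i (Γ i) = WG := by rw [hWG]; rfl
    rw [e1, add_sub_cancel_left]
    refine (val_le (d := d1) tG (tyw_vars tG vWG) (bx_one' hb')).trans ?_
    rw [tyw_nue tG]
    exact n1

end Pool.TRM
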