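import Pool.Agent.H90.ISO.DpkC

/-!
# Truncation of a label to a degree, for a family

`dpk_fam`: a label of the last coordinate over a thin box, whose jets of degree `≤ k` are natural,
gives a label over all boxes between the thin box and the ball.
-/

set_option autoImplicit false

namespace Pool.TRM

open Finset MvPolynomial
open Pool.STAT Pool.STAT.CLO
open Pool.TRC31 (BxE nue zet d1)
open Pool.Agent.H49.Ent Pool.Agent.H32.Dense Pool.STK Pool.KA Pool.KSAT Pool.K2S Pool.PB Pool.GEN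
open Pool.FLF (Fam.sub)
open Pool.PB.Trl (rt rt_mem t_rt)

variable {m J : ℕ}

theorem tp_own (F : Fam m J) (ω : F.Ω) : tp J (ptr F J ω) = F.t ω := by
  rw [tp_eq]
  unfold Fam.T1 Fam.t
  rw [Nat.sub_self, pow_zero, Nat.div_one]

theorem t_tl (F : Fam m J) {w : ℕ} (hw : w ≤ J) (ω : F.Ω) :
    F.t ω = tl w (slam F w ω) + rt F w ω / 2 ^ w := by
  rw [t_rt F hw ω]
  unfold tl
  ring

theorem tl_near (F : Fam m J) {w : ℕ} (hw : w ≤ J) (ω : F.Ω) :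
    |F.t ω - tl w (slam F w ω)| ≤ 1 / 2 ^ w := by
  rw [t_tl F hw ω, add_sub_cancel_left]
  obtain ⟨h1, h2⟩ := rt_mem F w ω
  rw [abs_of_nonneg (by positivity)]
  exact div_le_div_of_nonneg_right h2 (by positivity)

/-- **Truncation of a label to a degree.** -/
theorem dpk_fam (m i D k : ℕ) : ∃ (C : ℕ) (C₁ : ℝ), 1 ≤ C₁ ∧ ∀ (J : ℕ) (F : Fam m J)
    (c : ℕ → Fin m) (w u v p : ℕ) (g : ℕ → ℕ) (A : F.Ω → Prop) (hA : 0 < Pe F.p A)
    (Γ : PtT F → ℕ → MvPolynomial (Option (Fin m)) ℝ)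
    (ΓH : LnT F → ℕ → MvPolynomial (Option (Fin m)) ℝ)
    (Gt : PtT F → MvPolynomial (Option (Fin m)) ℝ) (Ht : LnT F → MvPolynomial (Option (Fin m)) ℝ)
    (θ : ℝ), w ≤ J → 0 ≤ θ → (Fam.sub F A hA).Tm θ → C₁ * (θ + 1) ≤ ((J : ℝ) - w) * Real.log 2 →
    Real.exp (C₁ * (θ + 1)) ≤ 2 ^ u → (∀ s, ∀ l ≤ i, (ΓH s l).totalDegree ≤ D) →
    (∀ s, (Ht s).totalDegree ≤ D) →
    (∀ ω, A ω → Dat c i D k w u v p g (F.t ω) (tl w (slam F w ω)) (Γ (ptr F J ω))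
      (ΓH (slam F w ω)) (Gt (ptr F J ω)) (Ht (slam F w ω)) (bt F ω)) →
    ∃ B : F.Ω → Prop, Sub B A ∧ Pe F.p A / 2 ≤ Pe F.p B ∧ ∀ ω, B ω →
      (∀ z ≤ v, ∀ b, NBx c (Γ (ptr F J ω)) (fun l => g l + z) (w + z) (F.t ω) i b →
        |eval b (Lh d1 c i k w g (tp J (ptr F J ω)) (Γ (ptr F J ω)) (Gt (ptr F J ω))) -
          eval b (Lh dY c i k w g (tl w (slam F w ω)) (ΓH (slam F w ω)) (Ht (slam F w ω)))| ≤
          2 ^ (C * (u + 1)) * (1 / 2 ^ (g i + (k + 1) * z) + 2 ^ (k * (v - z)) / 2 ^ p)) ∧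
      |eval (bt F ω) (Lh d1 c i k w g (tp J (ptr F J ω)) (Γ (ptr F J ω)) (Gt (ptr F J ω))) -
        eval (bt F ω) (Gt (ptr F J ω))| ≤ 2 ^ u / 2 ^ p ∧
      ∀ b, NBx c (Γ (ptr F J ω)) g w (F.t ω) i b →
        |eval b (Lh d1 c i k w g (tp J (ptr F J ω)) (Γ (ptr F J ω)) (Gt (ptr F J ω))) -
          eval b (Γ (ptr F J ω) i)| ≤ 2 ^ u / 2 ^ g i := by
  obtain ⟨Cs, hCs, hsl⟩ := slice_sy m i D k
  obtain ⟨Cf, hCf, hfi⟩ := final_sy m i D k
  obtain ⟨C₁, hC₁, hrem⟩ := rem_jets m (i + 1) (D * (D + 1) ^ (i + 1)) k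
  obtain ⟨C, hC⟩ := exists_nat_ge ((Cf + Cs + 1) / Real.log 2)
  rw [div_le_iff₀ log2_pos] at hC
  refine ⟨C, C₁, hC₁, ?_⟩
  intro J F c w u v p g A hA Γ ΓH Gt Ht θ hwJ hθ hTm hN hu' hdH hdt hdat
  have hu : (0 : ℝ) ≤ u := Nat.cast_nonneg u
  have hL := log2_pos
  have hL1 := log2_le
  have hv0 : 0 ≤ (v : ℝ) * Real.log 2 := by positivity
  have h2g : (0 : ℝ) < 2 ^ g i := by positivity
  obtain ⟨M, hM⟩ : ∃ M : ℝ, M = Real.exp (Cs * (u + 1)) / 2 ^ g i := ⟨_, rfl⟩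
  have hM0 : 0 < M := by rw [hM]; positivity
  obtain ⟨B, hBA, hBP, hB⟩ := hrem J F A hA w
    (fun s => jt c i w g (tl w s) (ΓH s) (Ht s)) M (v * Real.log 2) θ hwJ hv0
    (fun s => jt_vars _ _ _ _ _ _ _) (fun s => jt_deg (hdH s) (hdt s)) hM0 hθ hTm hN (by
      intro ω hω b hb0 hb1
      have h1 := hsl c w u v p g (F.t ω) (tl w (slam F w ω)) (rt F w ω) (Γ (ptr F J ω))
        (ΓH (slam F w ω)) (Gt (ptr F J ω)) (Ht (slam F w ω)) (bt F ω) (hdat ω hω)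
        (t_tl F hwJ ω) b hb0 hb1
      rw [← hM] at h1
      exact h1)
  refine ⟨B, hBA, hBP, fun ω hω => ?_⟩
  obtain ⟨S, hS⟩ : ∃ S : ℝ, S = Real.exp (C₁ * (θ + 1)) * Real.exp (Cs * (u + 1)) := ⟨_, rfl⟩
  have hS1 : 1 ≤ S := by
    rw [hS]
    exact one_le_mul_of_one_le_of_one_le (Real.one_le_exp (by positivity))
      (Real.one_le_exp (by positivity))
  have hMS : Real.exp (C₁ * (θ + 1)) * M = S / 2 ^ g i := by
    rw [hM, hS]
    ring
  obtain ⟨h1, h2⟩ := hB ω hω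
  rw [hMS] at h1 h2
  obtain ⟨k1, k2, k3⟩ := hfi c w u v p g (F.t ω) (tl w (slam F w ω)) S (Γ (ptr F J ω))
    (ΓH (slam F w ω)) (Gt (ptr F J ω)) (Ht (slam F w ω)) (bt F ω) (hdat ω (hBA ω hω)) hS1 h1 h2
  rw [tp_own]
  refine ⟨fun z hz b hb => (k1 z hz b hb).trans ?_, k2, k3⟩
  refine mul_le_mul_of_nonneg_right ?_ (by positivity)
  have h3 : S ≤ Real.exp ((Cs + 1) * (u + 1)) := by
    rw [hS]
    have h4 : (2 : ℝ) ^ u ≤ Real.exp (u + 1) := by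
      rw [two_exp]
      refine Real.exp_le_exp.2 ?_
      have : (u : ℝ) * Real.log 2 ≤ u := mul_le_of_le_one_right hu hL1
      linarith
    calc Real.exp (C₁ * (θ + 1)) * Real.exp (Cs * (u + 1)) ≤
        Real.exp (u + 1) * Real.exp (Cs * (u + 1)) :=
          mul_le_mul_of_nonneg_right (hu'.trans h4) (Real.exp_pos _).le
      _ = Real.exp ((Cs + 1) * (u + 1)) := by
          rw [← Real.exp_add]
          congr 1
          ring
  calc Real.exp (Cf * (u + 1)) * S ≤ Real.exp (Cf * (u + 1)) * Real.exp ((Cs + 1) * (u + 1)) :=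
        mul_le_mul_of_nonneg_left h3 (Real.exp_pos _).le
    _ = Real.exp ((Cf + Cs + 1) * (u + 1)) := by
        rw [← Real.exp_add]
        congr 1
        ring
    _ ≤ 2 ^ (C * (u + 1)) := by
        rw [two_exp]
        refine Real.exp_le_exp.2 ?_
        push_cast
        have := mul_le_mul_of_nonneg_right hC (show (0 : ℝ) ≤ (u : ℝ) + 1 by linarith)
        linarith

/-! ### The case of degree one -/

/-- **Natural increments**: the conditions on the jets, for `k = 1`. -/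
theorem n_of_inc (m i D : ℕ) : ∃ C : ℕ, ∀ (c : ℕ → Fin m) (w u v : ℕ) (g : ℕ → ℕ) (t : ℝ)
    (Γ : ℕ → MvPolynomial (Option (Fin m)) ℝ) (Gt : MvPolynomial (Option (Fin m)) ℝ),
    Inj c (i + 1) → (∀ l, DepC c l (Γ l)) → (∀ l ≤ i, (Γ l).totalDegree ≤ D) → DepC c i Gt →
    Gt.totalDegree ≤ D → (∀ b, NBx c Γ (fun l => g l + v) (w + v) t i b →
      |eval b Gt - eval b (Γ i)| ≤ 2 ^ u / 2 ^ (g i + v)) →
    nrm d1 1 (trw d1 (1 + 1) (jt c i w g t Γ Gt)) ≤ 2 ^ (u + C) / 2 ^ g i ∧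
      nrm d1 (Real.exp (-(v * Real.log 2))) (jt c i w g t Γ Gt) ≤ 2 ^ (u + C) / 2 ^ g i := by
  classical
  obtain ⟨C₂, hC₂, hn⟩ := nrm_le (i + 1) D D
  obtain ⟨C, hC⟩ := pow_unbounded_of_one_lt C₂ (one_lt_two (α := ℝ))
  refine ⟨C, ?_⟩
  intro c w u v g t Γ Gt hc hG eG hGt eGt hinc
  have hL := log2_pos
  have hv0 : 0 ≤ (v : ℝ) * Real.log 2 := by positivity
  have h1 : nrm d1 (Real.exp (-(v * Real.log 2))) (jt c i w g t Γ Gt) ≤
      C₂ * (2 ^ u / 2 ^ (g i + v)) := by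
    refine hn (sy c (i + 1) t Γ) (lg w g) d1 _ (wt c i Γ Gt) _ sy_tri
      (fun j _ => sy_deg (fun l hl => eG l (by omega)) j) (Real.exp_pos _) (wt_vars _ _ _ _)
      (wt_deg (eG i le_rfl) eGt) fun b hb => ?_
    have h2 := hinc _ (nbx_of_bxe hc hG le_rfl (bx_gs' hb))
    unfold wt
    rw [map_sub, ev_tr hc (by omega) hGt, ev_tr hc (by omega) (hG i)]
    exact h2
  have h3 : C₂ * (2 ^ u / 2 ^ (g i + v)) ≤ 2 ^ (u + C) / 2 ^ (g i + v) := by
    rw [← mul_div_assoc]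
    refine div_le_div_of_nonneg_right ?_ (by positivity)
    rw [pow_add, mul_comm]
    exact mul_le_mul_of_nonneg_left hC.le (by positivity)
  constructor
  · have h4 := NRM.nrm_trw_scale d1 (Real.exp_pos (-(v * Real.log 2))) 1
      (jt c i w g t Γ Gt) 1 (by
        rw [Real.exp_le_one_iff]
        linarith)
    refine h4.trans ((mul_le_mul_of_nonneg_left (h1.trans h3) (by positivity)).trans
      (le_of_eq ?_))
    rw [one_div, ← Real.exp_neg, neg_neg, ← two_exp, pow_one, pow_add (2 : ℝ) (g i) v]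
    field_simp
  · refine h1.trans (h3.trans ?_)
    exact div_le_div_of_nonneg_left (by positivity) (by positivity)
      (pow_le_pow_right₀ (by norm_num) (by omega))

end Pool.TRM
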