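import Pool.Agent.H90.ISO.DpkF

/-!
# A label with gain over a re-centred ball gives labels of slope two, for a family

`dps_mem`: from a label of the last coordinate with the precision `p` over the re-centred ball of
the depth `v`, near the label of this ball there (natural increments), a chain over the re-centred
ball of the depth `z ≤ v` whose last label has the precision `min (g i + 2 z) (p - (v - z))`, up to
small losses.
-/

set_option autoImplicit false

namespace Pool.TRM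

open Finset MvPolynomial
open Pool.STAT Pool.STAT.CLO
open Pool.TRC31 (BxE nue zet d1)
open Pool.Agent.H49.Ent Pool.Agent.H32.Dense Pool.STK Pool.KA Pool.KSAT Pool.K2S Pool.PB Pool.GEN
open Pool.CHT
open Pool.FLF (Fam.sub)
open Pool.PB.Trl (rt rt_mem t_rt)

variable {m J : ℕ}

theorem inj_of {c : ℕ → Fin m} {n : ℕ} (h : Set.InjOn c (Set.Iio n)) : Inj c n :=
  fun _ hl _ hl' he => h hl hl' he

/-- The re-centred labels of the line pass through the samples. -/
theorem own_Hno (F : Fam m J) (w : ℕ) (k : Fin m) (H : LnT F → MvPolynomial (Option (Fin m)) ℝ)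
    (ω : F.Ω) : eval (bt F ω) (Hno k H (slam F w ω)) = F.x ω k := by
  rw [eval_Hno]
  have h1 : bt F ω none = F.t ω := rfl
  rw [h1, eso_at]
  ring

/-- The samples are near the re-centred labels of the point. -/
theorem pos_Gno (r D : ℕ) : ∃ c₀ : ℕ, ∀ {m J : ℕ} {F : Fam m J} {c : ℕ → Fin m} {a w e V : ℕ}
    {g : ℕ → ℕ} {A : F.Ω → Prop} {G : PtT F → ℕ → MvPolynomial (Option (Fin m)) ℝ}
    {H : LnT F → ℕ → MvPolynomial (Option (Fin m)) ℝ}, Set.InjOn c (Set.Iio r) →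
    (∀ i < r, e + g i + V + c₀ ≤ J) → ChOK F c r (fun _ => D) a w e g A G H →
    ∀ ω, A ω → ∀ i < r, |F.x ω (c i) -
      eval (bt F ω) (Gno (c i) J J (fun y => G y i) (ptr F J ω))| ≤ 1 / 2 ^ (g i + V) := by
  obtain ⟨c₂, h₂⟩ := near_cell r (fun _ => D)
  refine ⟨c₂ + 2, ?_⟩
  intro m J F c a w e V g A G H hc hJ hL ω hω i hi
  have h3 : |eval (bho J J (ptr F J ω)) (G (ptr F J ω) i) -
      eval (bt F ω) (G (ptr F J ω) i)| ≤ 1 / 4 / 2 ^ (g i + V) := by
    refine ((h₂ (x := bt F ω) (a := a) (e := e) (J := J) (v := V) hc (hL.degG _) (hL.depG _)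
      (fun l hl => hL.pos ω hω l hl) (fun i hi b hb l hl => hL.lip ω hω i hi b hb l hl)
      (fun i hi => ?_) i hi.le (bho J J (ptr F J ω)) rfl fun l _ => ?_).2 hi)
    · have := hJ i hi
      omega
    · exact Pool.PB.Trl.x_near F J ω (c l)
  have h4 := Pool.PB.Trl.x_near F J ω (c i)
  have e1 : eval (bt F ω) (Gno (c i) J J (fun y => G y i) (ptr F J ω)) =
      eval (bt F ω) (G (ptr F J ω) i) + (((F.X J ω (c i) : ℤ) : ℝ) / 2 ^ J -
        eval (bho J J (ptr F J ω)) (G (ptr F J ω) i)) := by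
    unfold Gno
    rw [map_add, eval_C]
    rfl
  rw [e1]
  have h6 : (1 : ℝ) / 2 ^ J ≤ 1 / 4 / 2 ^ (g i + V) := by
    rw [div_div]
    refine one_div_le_one_div_of_le (by positivity) ?_
    rw [show (4 : ℝ) = 2 ^ 2 by norm_num, ← pow_add]
    refine pow_le_pow_right₀ (by norm_num) ?_
    have := hJ i hi
    omega
  have h7 : (1 : ℝ) / 2 ^ (g i + V) = 1 / 4 / 2 ^ (g i + V) + 1 / 4 / 2 ^ (g i + V) +
      1 / 2 / 2 ^ (g i + V) := by ring
  have h8 : (0 : ℝ) ≤ 1 / 2 / 2 ^ (g i + V) := by positivity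
  rw [h7]
  rw [abs_le] at h3 h4 ⊢
  constructor <;> linarith only [h3.1, h3.2, h4.1, h4.2, h6, h8]

/-- The gradients of a label are bounded by some power of two. -/
theorem lip_any {F : Fam m J} {c : ℕ → Fin m} {i a e : ℕ} {g : ℕ → ℕ} {A : F.Ω → Prop}
    {G : PtT F → ℕ → MvPolynomial (Option (Fin m)) ℝ} (hc : Inj c (i + 1))
    (hG : ∀ y l, DepC c l (G y l)) (P : PtT F → PN) (hP : ∀ y, (P y).vars ⊆ range (i + 1))
    (hlip : ∀ ω, A ω → ∀ b, NBx c (G (ptr F J ω)) g a (F.t ω) i b → ∀ l < i,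
      |eval b (pderiv (some (c l)) (G (ptr F J ω) i))| ≤ 2 ^ (e + nlp g l i)) :
    ∃ e₀ : ℕ, ∀ ω, A ω → ∀ b, NBx c (G (ptr F J ω)) g a (F.t ω) i b → ∀ l < i,
      |eval b (pderiv (some (c l)) (G (ptr F J ω) i + tb c (P (ptr F J ω))))| ≤ 2 ^ e₀ := by
  classical
  obtain ⟨N, hN⟩ : ∃ N : F.Ω → ℕ → ℝ, N = fun ω l => nrm d1 1
    (bind₁ (nue (lg a g) (sy c (i + 1) (F.t ω) (G (ptr F J ω)))) (pderiv (l + 1)
      (P (ptr F J ω)))) := ⟨_, rfl⟩
  have hN0 : ∀ ω l, 0 ≤ N ω l := fun ω l => by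
    rw [hN]
    exact NRM.nrm_nonneg d1 one_pos _
  obtain ⟨Ns, hNs⟩ : ∃ Ns : ℝ, Ns = ∑ ω : F.Ω, ∑ l ∈ range i, N ω l := ⟨_, rfl⟩
  obtain ⟨Es, hEs⟩ : ∃ Es : ℝ, Es = ∑ l ∈ range i, (2 : ℝ) ^ (e + nlp g l i) := ⟨_, rfl⟩
  obtain ⟨e₀, he₀⟩ := pow_unbounded_of_one_lt (Es + Ns) (one_lt_two (α := ℝ))
  refine ⟨e₀, fun ω hω b hb l hl => ?_⟩
  have h1 := hlip ω hω b hb l hl
  rw [map_add, map_add, pd_tb hc (by omega) hl (hP _)]
  have hb' : BxE (lg a g) (sy c (i + 1) (F.t ω) (G (ptr F J ω))) (i + 1) (pb c b) := by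
    have h2 := bxe_of_nbx (x := 0) (w := a) (g := g) hc (hG _) le_rfl (B := b) (t := F.t ω) hb
    rw [gs_zero'] at h2
    exact h2
  have h3 : |eval (pb c b) (pderiv (l + 1) (P (ptr F J ω)))| ≤ N ω l := by
    rw [hN]
    refine val_le (d := d1) sy_tri ?_ (bx_one' hb')
    exact (Adx.vars_pderiv _ _).trans (hP _)
  have h4 : N ω l ≤ Ns := by
    rw [hNs]
    refine le_trans ?_ (Finset.single_le_sum (f := fun ω => ∑ l ∈ range i, N ω l)
      (fun ω _ => Finset.sum_nonneg fun l _ => hN0 ω l) (Finset.mem_univ ω))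
    exact Finset.single_le_sum (f := fun l => N ω l) (fun l _ => hN0 ω l) (mem_range.2 hl)
  have h5 : (2 : ℝ) ^ (e + nlp g l i) ≤ Es := by
    rw [hEs]
    exact Finset.single_le_sum (f := fun l => (2 : ℝ) ^ (e + nlp g l i))
      (fun l _ => by positivity) (mem_range.2 hl)
  refine (abs_add_le _ _).trans ?_
  linarith

/-- **A label with gain over a re-centred ball**: labels of slope two. -/
theorem dps_mem (m i D : ℕ) : ∃ (D' C : ℕ) (C₁ : ℝ), 1 ≤ C₁ ∧ ∀ (J : ℕ) (F : Fam m J)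
    (c : ℕ → Fin m) (w e e₁ r v z p h V P : ℕ) (g g₀ : ℕ → ℕ) (A : F.Ω → Prop)
    (G₀ : PtT F → ℕ → MvPolynomial (Option (Fin m)) ℝ)
    (H₀ : LnT F → ℕ → MvPolynomial (Option (Fin m)) ℝ)
    (Gt : PtT F → MvPolynomial (Option (Fin m)) ℝ) (Ht : LnT F → MvPolynomial (Option (Fin m)) ℝ)
    (θ : ℝ), Set.InjOn c (Set.Iio (i + 1)) → w ≤ J → 0 < Pe F.p A → 0 ≤ θ →
    (∀ (B : F.Ω → Prop) (hB : 0 < Pe F.p B), Sub B A → Pe F.p A / 4 ≤ Pe F.p B →
      (Fam.sub F B hB).Tm θ) →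
    C₁ * (θ + 1) ≤ ((J : ℝ) - w) * Real.log 2 → Real.exp (C₁ * (θ + 1)) ≤ 2 ^ r →
    ChOK F c (i + 1) (fun _ => D) w w e₁ g₀ A G₀ H₀ →
    (∀ l < i + 1, e₁ + g₀ l + V + C ≤ J) → (∀ l < i, g l + (2 * v + (p - g i)) ≤ g₀ l + V) →
    (∀ y ∈ ({r, z, v} : Finset ℕ), ChOK F c (i + 1) (fun _ => D) (w + y) w e (fun l => g l + y) A
      (fun y l => Gno (c l) J J (fun y => G₀ y l) y)
      (fun s l => Hno (c l) (fun s => H₀ s l) s)) →
    (∀ y, (Gt y).totalDegree ≤ D) → (∀ s, (Ht s).totalDegree ≤ D) →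
    (∀ y, DepC c i (Gt y)) → (∀ s, DepC c i (Ht s)) →
    (∀ ω, A ω → |F.x ω (c i) - eval (bt F ω) (Gt (ptr F J ω))| ≤ 1 / 2 ^ p) →
    (∀ ω, A ω → ∀ b, NBx c (fun l => Gno (c l) J J (fun y => G₀ y l) (ptr F J ω))
      (fun l => g l + v) (w + v) (F.t ω) i b →
      |eval b (Gt (ptr F J ω)) - eval b (Ht (slam F w ω))| ≤ 1 / 2 ^ p) →
    g i + v ≤ p → z ≤ v →
    (∀ ω, A ω → ∀ b, NBx c (fun l => Gno (c l) J J (fun y => G₀ y l) (ptr F J ω))
      (fun l => g l + v) (w + v) (F.t ω) i b →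
      |eval b (Gt (ptr F J ω)) - eval b (Gno (c i) J J (fun y => G₀ y i) (ptr F J ω))| ≤
        2 ^ h / 2 ^ (g i + v)) → h + C ≤ r →
    P + C * (r + 1) ≤ g i + 2 * z → P + (v - z) + C * (r + 1) ≤ p →
    ∃ (B : F.Ω → Prop) (e₀ : ℕ), Sub B A ∧ Pe F.p A / 4 ≤ Pe F.p B ∧
      ChN F c (i + 1) (fun _ => D') (w + z) w e₀ (fun l => if l = i then P else g l + z) B := by
  classical
  obtain ⟨Cf, C₁, hC₁, hdpk⟩ := dpk_fam m i D 1
  obtain ⟨Cn, hinc⟩ := n_of_inc m i D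
  obtain ⟨cp, hpos⟩ := pos_Gno (i + 1) D
  refine ⟨D * (D + 1) ^ (i + 1) * (D + 1), Cf + Cn + cp + 2, C₁, hC₁, ?_⟩
  intro J F c w e e₁ r v z p h V P g g₀ A G₀ H₀ Gt Ht θ hc hwJ hA hθ hTm hN hr hL₀ hJ hV hrad hdG
    hdH hDG hDH hown htwo hgp hzv hin hh hP1 hP2
  obtain ⟨Γ, hΓ⟩ : ∃ Γ : PtT F → ℕ → MvPolynomial (Option (Fin m)) ℝ, Γ = fun y l =>
    Gno (c l) J J (fun y => G₀ y l) y := ⟨_, rfl⟩
  obtain ⟨ΓH, hΓH⟩ : ∃ ΓH : LnT F → ℕ → MvPolynomial (Option (Fin m)) ℝ, ΓH = fun s l =>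
    Hno (c l) (fun s => H₀ s l) s := ⟨_, rfl⟩
  have eΓ : ∀ y : PtT F, (fun l => Gno (c l) J J (fun y => G₀ y l) y) = Γ y := fun y => by
    rw [hΓ]
  rw [← hΓ, ← hΓH] at hrad
  have eΓi : ∀ y : PtT F, Gno (c i) J J (fun y => G₀ y i) y = Γ y i := fun y => by
    rw [hΓ]
  simp only [eΓ] at htwo
  simp only [eΓ, eΓi] at hin
  have hLr := hrad r (by simp)
  have hLz := hrad z (by simp)
  have hLv := hrad v (by simp)
  have hinj := inj_of hc
  have h2v : (0 : ℝ) < 2 ^ (g i + v) := by positivity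
  have hp2 : (1 : ℝ) / 2 ^ p ≤ 1 / 2 ^ (g i + v) := inv_mono hgp
  have hTm₁ := hTm A hA (fun _ h => h) (by linarith)
  have hposG := hpos (F := F) (V := V) hc (fun l hl => by have := hJ l hl; omega) hL₀
  have hdat : ∀ ω, A ω → Dat c i D 1 w r v p g (F.t ω) (tl w (slam F w ω)) (Γ (ptr F J ω))
      (ΓH (slam F w ω)) (Gt (ptr F J ω)) (Ht (slam F w ω)) (bt F ω) := by
    intro ω hω
    have hAω := hω
    have hinc' := hinc c w h v g (F.t ω) (Γ (ptr F J ω)) (Gt (ptr F J ω)) hinj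
      (hLv.depG _) (fun l _ => hLv.degG _ l) (hDG _) (hdG _) (fun b hb => hin ω hω b hb)
    have hnn : (2 : ℝ) ^ (h + Cn) / 2 ^ g i ≤ 2 ^ r / 2 ^ g i :=
      div_le_div_of_nonneg_right (pow_le_pow_right₀ (by norm_num) (by omega)) (by positivity)
    refine ⟨hinj, hLv.depG _, hLv.depH _, fun l _ => hLv.degG _ l, fun l _ => hLv.degH _ l,
      hDG _, hDH _, hdG _, hdH _, tl_near F hwJ ω, rfl, fun l hl b hb => ?_, fun l hl => ?_,
      fun l hl => ?_, fun b hb => htwo ω hAω b hb, by omega, hinc'.1.trans hnn,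
      hinc'.2.trans hnn⟩
    · have h1 := hLr.agr ω hAω l (by omega) b hb
      refine h1.trans ?_
      have h2 : (1 : ℝ) / 2 ^ (g l + r) ≤ 1 / 2 ^ g l := inv_mono (by omega)
      have h3 : (1 : ℝ) / 2 ^ g l ≤ 2 ^ r / 2 ^ g l :=
        div_le_div_of_nonneg_right (one_le_pow₀ (by norm_num)) (by positivity)
      exact h2.trans h3
    · rw [hΓH]
      exact own_Hno F w (c l) (fun s => H₀ s l) ω
    · rw [hΓ]
      refine (hposG ω hAω l (by omega)).trans (inv_mono ?_)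
      have := hV l hl
      omega
  obtain ⟨B, hBA, hPB, hB⟩ := hdpk J F c w r v p g A hA Γ ΓH Gt Ht θ hwJ hθ hTm₁ hN hr
    (fun s l _ => hLv.degH s l) hdH hdat
  have hBA' : ∀ ω, B ω → A ω := hBA
  -- the chain
  obtain ⟨Pt, hPt⟩ : ∃ Pt : PtT F → PN, Pt = fun y => tyw d1 1 (lg w g)
    (sy c (i + 1) (tp J y) (Γ y)) (wt c i (Γ y) (Gt y)) := ⟨_, rfl⟩
  have eL : ∀ y, Lh d1 c i 1 w g (tp J y) (Γ y) (Gt y) = Γ y i + tb c (Pt y) := fun y => by
    rw [hPt]
    rfl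
  obtain ⟨e₀, he₀⟩ := lip_any (F := F) (A := A) (a := w + z) (e := e) (g := fun l => g l + z)
    (G := Γ) (i := i) hinj hLz.depG Pt (fun y => by
      rw [hPt]
      exact tyw_vars sy_tri (wt_vars _ _ _ _)) (fun ω hω b hb l hl =>
        hLz.lip ω hω i (by omega) b hb l hl)
  have hDD : D ≤ D * (D + 1) ^ (i + 1) * (D + 1) := by
    calc D = D * 1 * 1 := by ring
      _ ≤ D * (D + 1) ^ (i + 1) * (D + 1) :=
        Nat.mul_le_mul (Nat.mul_le_mul_left _ (Nat.one_le_pow _ _ (by omega))) (by omega)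
  refine ⟨B, e + e₀, hBA', by linarith, fun y l => if l = i then
    Lh d1 c i 1 w g (tp J y) (Γ y) (Gt y) else Γ y l, fun s l => if l = i then
    Lh dY c i 1 w g (tl w s) (ΓH s) (Ht s) else ΓH s l, ?_⟩
  have hnb : ∀ (y : PtT F) (t : ℝ) (l : ℕ) (b : Option (Fin m) → ℝ), l ≤ i →
      NBx c (fun l => if l = i then Lh d1 c i 1 w g (tp J y) (Γ y) (Gt y) else Γ y l)
        (fun l => if l = i then P else g l + z) (w + z) t l b →
      NBx c (Γ y) (fun l => g l + z) (w + z) t l b := by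
    intro y t l b hl hb
    refine ⟨hb.1, fun j hj => ?_⟩
    have h1 := hb.2 j hj
    simp only [if_neg (show j ≠ i by omega)] at h1
    exact h1
  refine ⟨fun y l => ?_, fun s l => ?_, fun y l => ?_, fun s l => ?_, fun ω hω l hl => ?_,
    fun ω hω l hl b hb => ?_, fun ω hω l hl b hb j hj => ?_⟩
  · by_cases hli : l = i
    · simp only [if_pos hli]
      exact Lh_deg (fun l _ => hLv.degG _ l) (hdG _)
    · simp only [if_neg hli]
      exact (hLv.degG y l).trans hDD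
  · by_cases hli : l = i
    · simp only [if_pos hli]
      exact Lh_deg (fun l _ => hLv.degH _ l) (hdH _)
    · simp only [if_neg hli]
      exact (hLv.degH s l).trans hDD
  · by_cases hli : l = i
    · simp only [if_pos hli]
      rw [hli]
      exact Lh_dep (hLv.depG y i)
    · simp only [if_neg hli]
      exact hLv.depG y l
  · by_cases hli : l = i
    · simp only [if_pos hli]
      rw [hli]
      exact Lh_dep (hLv.depH s i)
    · simp only [if_neg hli]
      exact hLv.depH s l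
  · by_cases hli : l = i
    · simp only [if_pos hli]
      rw [hli]
      have h1 := (hB ω hω).2.1
      have h2 := hown ω (hBA' ω hω)
      have h3 : (1 : ℝ) / 2 ^ p + 2 ^ r / 2 ^ p ≤ 1 / 2 ^ P := by
        rw [← add_div, div_le_div_iff₀ (by positivity) (by positivity), one_mul]
        have h4 : (1 : ℝ) + 2 ^ r ≤ 2 ^ (r + 1) := by
          rw [pow_succ]
          have : (1 : ℝ) ≤ 2 ^ r := one_le_pow₀ (by norm_num)
          linarith
        calc ((1 : ℝ) + 2 ^ r) * 2 ^ P ≤ 2 ^ (r + 1) * 2 ^ P :=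
              mul_le_mul_of_nonneg_right h4 (by positivity)
          _ = 2 ^ (r + 1 + P) := by rw [← pow_add]
          _ ≤ 2 ^ p := pow_le_pow_right₀ (by norm_num) (by nlinarith)
      refine le_trans ?_ h3
      rw [abs_le] at h1 h2 ⊢
      constructor <;> linarith only [h1.1, h1.2, h2.1, h2.2]
    · simp only [if_neg hli]
      exact hLz.pos ω (hBA' ω hω) l hl
  · have hb' := hnb _ _ _ _ (by omega) hb
    by_cases hli : l = i
    · simp only [if_pos hli]
      rw [hli] at hb'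
      refine ((hB ω hω).1 z hzv b hb').trans ?_
      have h1 : (2 : ℝ) ^ (Cf * (r + 1)) * (1 / 2 ^ (g i + (1 + 1) * z)) ≤ 1 / 2 / 2 ^ P := by
        rw [mul_one_div, div_div, div_le_div_iff₀ (by positivity) (by positivity), one_mul]
        have e1 : (2 : ℝ) ^ (Cf * (r + 1)) * (2 * 2 ^ P) = 2 ^ (Cf * (r + 1) + (P + 1)) := by
          rw [pow_add, pow_succ]
          ring
        rw [e1]
        refine pow_le_pow_right₀ (by norm_num) ?_
        nlinarith
      have h2 : (2 : ℝ) ^ (Cf * (r + 1)) * (2 ^ (1 * (v - z)) / 2 ^ p) ≤ 1 / 2 / 2 ^ P := by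
        rw [← mul_div_assoc, div_div, div_le_div_iff₀ (by positivity) (by positivity), one_mul,
          one_mul]
        have e1 : (2 : ℝ) ^ (Cf * (r + 1)) * 2 ^ (v - z) * (2 * 2 ^ P) =
            2 ^ (Cf * (r + 1) + (v - z) + (P + 1)) := by
          rw [pow_add, pow_add, pow_succ]
          ring
        rw [e1]
        refine pow_le_pow_right₀ (by norm_num) ?_
        nlinarith
      have h3 : (1 : ℝ) / 2 ^ P = 1 / 2 / 2 ^ P + 1 / 2 / 2 ^ P := by ring
      rw [mul_add, h3]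
      exact add_le_add h1 h2
    · simp only [if_neg hli]
      exact hLz.agr ω (hBA' ω hω) l hl b hb'
  · have hb' := hnb _ _ _ _ (by omega) hb
    by_cases hli : l = i
    · simp only [if_pos hli]
      rw [hli] at hb' hj
      rw [eL]
      refine (he₀ ω (hBA' ω hω) b hb' j hj).trans (pow_le_pow_right₀ (by norm_num) ?_)
      omega
    · simp only [if_neg hli]
      refine (hLz.lip ω (hBA' ω hω) l hl b hb' j hj).trans (pow_le_pow_right₀ (by norm_num) ?_)
      have e1 : nlp (fun l => if l = i then P else g l + z) j l = nlp (fun l => g l + z) j l := by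
        unfold nlp
        simp only [if_neg hli]
        congr 1
        refine Finset.sup_congr rfl fun y hy => ?_
        have hy' := Finset.mem_Icc.1 hy
        rw [if_neg (by omega)]
      rw [e1]
      omega

end Pool.TRM
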