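import Pool.Agent.H90.ISO.DpsC
import Pool.Agent.H2.GEN.EvM
import Pool.Agent.H95.GN.Til

/-!
# The event for rough lists

`evV_rough`: the event `EvV` (one ball re-centred at three radii, a label of the target with natural
increments) at a window where all coordinates of the list are rough.
-/

set_option autoImplicit false

namespace Pool.TRM

open Finset MvPolynomial
open Pool.STAT Pool.STAT.CLO
open Pool.Agent.H49.Ent Pool.Agent.H32.Dense Pool.STK Pool.KA Pool.KSAT Pool.K2S Pool.PB Pool.GEN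
open Pool.CHT Pool.CHB Pool.S6C Pool.ISO
open Pool.LBT (LSys Slo Tri ThrOf)
open Pool.LEV (Law)

/-- **The event for rough lists.** -/
theorem evV_rough {m r S₀ : ℕ} (hr : 1 ≤ r) (hS₀ : 1 ≤ S₀) {S : PCl m}
    {P : List (Fin m) × Fin m → ℝ → ℝ → ℝ} {θ : ℝ} {c : ℕ → Fin m} {Pt : ℝ → ℝ → ℝ}
    {w q ρ ρ' e' p' : ℝ} {vs e e₀ E sg vs' e₁ e₁' E' sg' : ℝ → ℝ} {Q Q' : Set ℝ}
    (hP : ThrOf (chsys m θ) S P) (hθ : 0 < θ) (hS : TmH S) (hinj : Set.InjOn c (Set.Iio (r + 1)))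
    (hPt : Law Pt) (hq : 0 < q) (h1 : PtD S P θ c r Pt w w ρ S₀ vs e e₀ E sg Q)
    (h2 : PtD S P θ c r Pt (w + q) w ρ' S₀ vs' e₁ e₁' E' sg' Q')
    (hro : ∀ l < r, bet P c l (w + q) w ≤ bet P c l w w + q)
    (he : E 0 < e') (htop : ∀ l ≤ r, lvN P c r Pt l w w + e' + q < 1)
    (hp : Pt w w + q ≤ p') (hpP : p' < Pt (w + q) w) :
    EvV S c r w (w + q) p' e' (fun l => lvN P c r Pt l w w) := by
  obtain ⟨D, hD, hev⟩ := ev_rough m r S₀ hr hS₀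
  refine ⟨D, fun η σ ρ₁ hη hσ hρ₁ => ?_⟩
  obtain ⟨C, hC, hev⟩ := hev D
  have hw0 := h1.w0
  have hlow : ∀ l, w ≤ lvN P c r Pt l w w := fun l => h1.low hP l
  have hlr : lvN P c r Pt r w w = Pt w w := if_neg (lt_irrefl r)
  have hD0 : w ≤ Pt w w := by rw [← hlr]; exact hlow r
  obtain ⟨σ₁, hσ₁⟩ : ∃ σ₁ : ℝ, σ₁ = min (min σ w) (e' - E 0) := ⟨_, rfl⟩
  have hσ₁0 : 0 < σ₁ := by rw [hσ₁]; exact lt_min (lt_min hσ hw0) (by linarith)
  have hσ₁σ : σ₁ ≤ σ := by rw [hσ₁]; exact (min_le_left _ _).trans (min_le_left _ _)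
  have hσ₁w : σ₁ ≤ w := by rw [hσ₁]; exact (min_le_left _ _).trans (min_le_right _ _)
  have hσ₁e : σ₁ ≤ e' - E 0 := by rw [hσ₁]; exact min_le_right _ _
  obtain ⟨K₁, μ, b, k1, k2, k3, k4⟩ := hev (ε := 0) hP hθ hS hinj hPt hq h1 h2 le_rfl
    (fun l hl => by rw [add_zero]; exact hro l hl)
    (fun l hl => by linarith [htop l hl]) p' (by linarith) (by rw [mul_zero, add_zero]; exact hpP)
    (η / 4) σ₁ ρ₁ 2 (by rw [mul_zero]; positivity) hσ₁0 hρ₁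
  refine ⟨2 * K₁, μ, b, by positivity, k2, fun l hl => ⟨by linarith [(k3 l hl).1], (k3 l hl).2⟩, ?_⟩
  obtain ⟨J₁, hJ₁⟩ := Pool.CHT.big (4 : ℝ) k2
  obtain ⟨J₂, hJ₂⟩ := Pool.CHT.big (4 : ℝ) (show 0 < η / 4 by positivity)
  refine Bas.mono (max J₁ J₂) (k4 1 one_pos) ?_
  rintro J hJ F A hA y hy2 hy
  have hJ1 := hJ₁ J (by omega)
  have hJ2 := hJ₂ J (by omega)
  have hJ0 : (0 : ℝ) ≤ J := Nat.cast_nonneg J
  obtain ⟨B, g₀, G₀, H₀, Gt, Ht, a1, a2, hR⟩ := hA y fun i hi => by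
    obtain ⟨h3, h4⟩ := hy i hi
    exact ⟨h3, by rw [← hy2]; exact h4⟩
  obtain ⟨v, hv⟩ : ∃ v : ℕ, v = ⌊(w + q) * J⌋₊ - ⌊w * J⌋₊ := ⟨_, rfl⟩
  rw [← hv] at hR hy2
  -- the numbers
  have hvq : (v : ℝ) ≤ q * J + 1 := by
    have h3 := Nat.floor_le (show 0 ≤ (w + q) * (J : ℝ) by positivity)
    have h4 := Nat.lt_floor_add_one (w * (J : ℝ))
    rw [hv, Nat.cast_sub (Nat.floor_le_floor (mul_le_mul_of_nonneg_right (by linarith) hJ0))]
    linarith only [h3, h4]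
  have hgp : ⌊b r * J⌋₊ + v ≤ ⌊p' * J⌋₊ := by
    have hb := k3 r le_rfl
    have hb0 : 0 ≤ b r := by linarith [hb.1, hlow r]
    have h3 := Nat.floor_le (mul_nonneg hb0 hJ0)
    have h4 := (Nat.sub_one_lt_floor (p' * (J : ℝ))).le
    have h5 : b r * J ≤ (Pt w w - μ) * J := mul_le_mul_of_nonneg_right (by
      rw [← hlr]
      exact hb.2.le) hJ0
    have h6 : (Pt w w + q) * J ≤ p' * J := mul_le_mul_of_nonneg_right hp hJ0
    have h7 : ((⌊b r * J⌋₊ + v : ℕ) : ℝ) ≤ ⌊p' * J⌋₊ := by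
      push_cast
      linarith only [h3, h4, h5, h6, hvq, hJ1]
    exact_mod_cast h7
  have hηh : ⌊η / 4 * J⌋₊ + 1 ≤ ⌊η * J⌋₊ := by
    have h3 := Nat.floor_le (show 0 ≤ η / 4 * (J : ℝ) by positivity)
    have h4 := (Nat.sub_one_lt_floor (η * (J : ℝ))).le
    have h5 : ((⌊η / 4 * J⌋₊ + 1 : ℕ) : ℝ) ≤ ⌊η * J⌋₊ := by
      push_cast
      linarith only [h3, h4, hJ2]
    exact_mod_cast h5
  obtain ⟨B', b1, b2, b3⟩ := relv_rcn hR.rel (fun _ h => h) (by rw [one_mul]) hR.top le_rfl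
    hR.dG hR.dH hR.pG hR.pH hR.pos hR.agr
  have he'' : ⌊(E 0 + σ₁) * J⌋₊ ≤ ⌊e' * J⌋₊ :=
    Nat.floor_le_floor (mul_le_mul_of_nonneg_right (by linarith) hJ0)
  have b2' := mul_le_mul_of_nonneg_left b2 k1.le
  refine ⟨B', g₀, G₀, H₀, Gt, Ht, fun ω hω => a1 ω (b1 ω hω), by linarith only [a2, b2'],
    fun l hl => ?_,
    (hR.ball.mono le_rfl (fun _ => le_rfl) le_rfl he'').sub b1, fun k hk =>
    ((hR.rad k hk).mono le_rfl (fun _ => le_rfl) le_rfl he'').sub b1, hR.dG, hR.dH, hR.pG, hR.pH,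
    fun ω hω => hR.pos ω (b1 ω hω), fun ω hω b' hb' => ?_, fun ω hω b' hb' => ?_⟩
  · obtain ⟨h3, h4⟩ := hR.sd l hl
    exact ⟨(mul_le_mul_of_nonneg_right (by linarith) hJ0).trans h3, h4⟩
  · rw [hy2] at hb'
    exact hR.agr ω (b1 ω hω) b' hb'
  · rw [hy2] at hb' ⊢
    have h3 := (b3 ω hω b' hb').1
    rw [min_eq_right hgp] at h3
    exact h3.trans (div_le_div_of_nonneg_right (pow_le_pow_right₀ (by norm_num) hηh)
      (by positivity))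

end Pool.TRM
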