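import Pool.Agent.H90.ISO.TrmK
import Pool.Agent.H74.PZ.Line
import Pool.Agent.H2.GEN.BxS

/-!
# Norms from the values on a grid, and Remez' inequality for the jets along a line

`nrm_of_grid`: the weighted norm of a polynomial from its values on a scaled grid. `rem_jets`: a
family of polynomials, functions of the line and of the window; if the part of small degree and the
polynomial are bounded at the times of the samples, then they are bounded on the whole window on a
large event.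
-/

set_option autoImplicit false

namespace Pool.TRM

open Finset MvPolynomial
open Pool.STAT
open Pool.TRC31 (BxE nue zet d1)
open Pool.Agent.H49.Ent Pool.Agent.H32.Dense Pool.STK Pool.KA Pool.KSAT Pool.K2S Pool.PB
open Pool.FLF (Fam.sub)
open Pool.PB.Trl (rt rt_mem t_rt)

/-- A polynomial of degree at most `D` is a combination of its values on a grid. -/
theorem coef_grid (n D : ℕ) : ∃ C : ℝ, 0 ≤ C ∧ ∀ (P : MvPolynomial (Fin n) ℝ) (M : ℝ),
    P.totalDegree ≤ D → (∀ a : Fin n → Fin (D + 1),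
      |eval (fun i => ((a i : ℕ) : ℝ) / (D + 1)) P| ≤ M) → ∀ α, |coeff α P| ≤ C * M := by
  classical
  set g : (Fin n → Fin (D + 1)) → Fin n → ℝ := fun a i => ((a i : ℕ) : ℝ) / (D + 1) with hg
  have hD : (0 : ℝ) < D + 1 := by positivity
  let V := restrictTotalDegree (Fin n) ℝ D
  let ev : V →ₗ[ℝ] ((Fin n → Fin (D + 1)) → ℝ) :=
    { toFun := fun P a => eval (g a) (P : MvPolynomial (Fin n) ℝ)
      map_add' := by intro P Q; funext a; simp
      map_smul' := by intro c P; funext a; simp [smul_eval] }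
  have hinj : LinearMap.ker ev = ⊥ := by
    rw [LinearMap.ker_eq_bot']
    rintro ⟨P, hP⟩ h0
    rw [mem_restrictTotalDegree] at hP
    have hz : P = 0 := by
      refine eq_zero_of_eval_zero_at_prod_finset P
        (fun _ => Finset.image (fun b : Fin (D + 1) => ((b : ℕ) : ℝ) / (D + 1)) Finset.univ) ?_ ?_
      · intro i
        rw [Finset.card_image_of_injective]
        · rw [Finset.card_univ, Fintype.card_fin]
          exact Nat.lt_succ_of_le ((degreeOf_le_totalDegree P i).trans hP)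
        · intro b b' hb
          have h1 : ((b : ℕ) : ℝ) / (D + 1) = ((b' : ℕ) : ℝ) / (D + 1) := hb
          have h2 : ((b : ℕ) : ℝ) = ((b' : ℕ) : ℝ) := by
            field_simp at h1
            exact h1
          exact Fin.ext (Nat.cast_injective h2)
      · intro x hx
        have hx' : ∀ i, ∃ b : Fin (D + 1), ((b : ℕ) : ℝ) / (D + 1) = x i := by
          intro i
          obtain ⟨b, _, hb⟩ := Finset.mem_image.1 (hx i)
          exact ⟨b, hb⟩
        choose b hb using hx'
        have h1 : g b = x := funext hb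
        have h2 := congrFun h0 b
        rw [← h1]
        exact h2
    exact Subtype.ext hz
  obtain ⟨L, hL⟩ := ev.exists_leftInverse_of_injective hinj
  let Lg : (Fin n → Fin (D + 1)) → MvPolynomial (Fin n) ℝ := fun a => (L (Pi.single a 1) : V)
  refine ⟨∑ a, ∑ β ∈ (Lg a).support, |coeff β (Lg a)|,
    Finset.sum_nonneg fun a _ => Finset.sum_nonneg fun β _ => abs_nonneg _, ?_⟩
  intro P M hP hM α
  have hM0 : 0 ≤ M := le_trans (abs_nonneg _) (hM fun _ => 0)
  have hPV : P ∈ V := by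
    show P ∈ restrictTotalDegree (Fin n) ℝ D
    rw [mem_restrictTotalDegree]; exact hP
  have h1 : P = ∑ a, eval (g a) P • Lg a := by
    have h2 : L (ev ⟨P, hPV⟩) = ⟨P, hPV⟩ := by
      have := LinearMap.congr_fun hL ⟨P, hPV⟩
      exact this
    have h3 : ev ⟨P, hPV⟩ = ∑ a, eval (g a) P • (Pi.single a (1 : ℝ) : (Fin n → Fin (D + 1)) → ℝ) := by
      have h4 : ∀ v : (Fin n → Fin (D + 1)) → ℝ,
          v = ∑ a, v a • (Pi.single a (1 : ℝ) : (Fin n → Fin (D + 1)) → ℝ) := by
        intro v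
        funext b
        rw [Finset.sum_apply]
        simp [Pi.single_apply]
      exact h4 _
    rw [h3, map_sum] at h2
    have h5 := congrArg (fun v : V => (v : MvPolynomial (Fin n) ℝ)) h2
    simp only [map_smul] at h5
    rw [Submodule.coe_sum] at h5
    exact h5.symm
  have h2 : coeff α P = ∑ a, eval (g a) P * coeff α (Lg a) := by
    conv_lhs => rw [h1]
    rw [coeff_sum]
    refine Finset.sum_congr rfl fun a _ => ?_
    rw [coeff_smul, smul_eq_mul]
  rw [h2, Finset.sum_mul]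
  refine le_trans (Finset.abs_sum_le_sum_abs _ _) (Finset.sum_le_sum fun a _ => ?_)
  rw [abs_mul, mul_comm]
  refine mul_le_mul ?_ (hM a) (abs_nonneg _) (Finset.sum_nonneg fun β _ => abs_nonneg _)
  by_cases hα : α ∈ (Lg a).support
  · exact Finset.single_le_sum (f := fun β => |coeff β (Lg a)|) (fun β _ => abs_nonneg _) hα
  · rw [notMem_support_iff.1 hα, abs_zero]
    exact Finset.sum_nonneg fun β _ => abs_nonneg _

/-- The nodes of the scaled grid. -/
noncomputable def nod (n D : ℕ) (d : ℕ → ℕ) (ρ : ℝ) (a : Fin n → Fin (D + 1)) (j : ℕ) : ℝ :=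
  if h : j < n then ρ ^ d j * (((a ⟨j, h⟩ : ℕ) : ℝ) / (D + 1)) else 0

theorem nod_le {n D : ℕ} {d : ℕ → ℕ} {ρ : ℝ} (hρ : 0 < ρ) (a : Fin n → Fin (D + 1)) (j : ℕ) :
    0 ≤ nod n D d ρ a j ∧ nod n D d ρ a j ≤ ρ ^ d j := by
  have hD : (0 : ℝ) < D + 1 := by positivity
  have hp : 0 < ρ ^ d j := pow_pos hρ _
  unfold nod
  split_ifs with h
  · have h1 : (((a ⟨j, h⟩ : ℕ) : ℝ) / (D + 1)) ≤ 1 := by
      rw [div_le_one hD]
      have := (a ⟨j, h⟩).2
      have h3 : ((a ⟨j, h⟩ : ℕ) : ℝ) < D + 1 := by exact_mod_cast this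
      exact h3.le
    constructor
    · positivity
    · calc ρ ^ d j * (((a ⟨j, h⟩ : ℕ) : ℝ) / (D + 1)) ≤ ρ ^ d j * 1 :=
            mul_le_mul_of_nonneg_left h1 hp.le
        _ = ρ ^ d j := mul_one _
  · exact ⟨le_rfl, hp.le⟩

/-- **The norm of a polynomial from its values on a scaled grid.** -/
theorem nrm_of_grid (n K : ℕ) : ∃ C : ℝ, 1 ≤ C ∧ ∀ (d : ℕ → ℕ) (ρ : ℝ) (F : PN) (S : ℝ), 0 < ρ →
    F.vars ⊆ range n → F.totalDegree ≤ K →
    (∀ a : Fin n → Fin (K + 1), |eval (nod n K d ρ a) F| ≤ S) → nrm d ρ F ≤ C * S := by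
  classical
  obtain ⟨C, hC0, hC⟩ := coef_grid n K
  refine ⟨(Pool.Agent.H36.KBX.bx n K).card * C + 1, by
    have : (0 : ℝ) ≤ (Pool.Agent.H36.KBX.bx n K).card * C := by positivity
    linarith, ?_⟩
  intro d ρ F S hρ hv hK hS
  have hS0 : 0 ≤ S := (abs_nonneg _).trans (hS fun _ => 0)
  have hinj : Function.Injective (fun i : Fin n => (i : ℕ)) := Fin.val_injective
  obtain ⟨P, hP⟩ := exists_rename_eq_of_vars_subset_range F (fun i : Fin n => (i : ℕ)) hinj (by
    intro i hi
    have h1 := mem_range.1 (hv (Finset.mem_coe.1 hi))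
    exact ⟨⟨i, h1⟩, rfl⟩)
  have hsupp : F.support = P.support.image (Finsupp.mapDomain fun i : Fin n => (i : ℕ)) := by
    rw [← hP]
    exact support_rename_of_injective hinj
  have hmi : Function.Injective (Finsupp.mapDomain (M := ℕ) fun i : Fin n => (i : ℕ)) :=
    Finsupp.mapDomain_injective hinj
  have hcoef : ∀ k, coeff (Finsupp.mapDomain (fun i : Fin n => (i : ℕ)) k) F = coeff k P := by
    intro k
    rw [← hP]
    exact coeff_rename_mapDomain _ hinj P k
  have hwt : ∀ k : Fin n →₀ ℕ, Finsupp.weight d (Finsupp.mapDomain (fun i : Fin n => (i : ℕ)) k) =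
      Finsupp.weight (fun i : Fin n => d i) k := by
    intro k
    rw [Finsupp.weight_apply, Finsupp.weight_apply]
    exact Finsupp.sum_mapDomain_index (fun _ => by simp) (fun _ _ _ => by simp [add_mul])
  -- the scaled polynomial
  set w : (Fin n →₀ ℕ) → ℕ := fun k => Finsupp.weight (fun i : Fin n => d i) k with hw
  set Q : MvPolynomial (Fin n) ℝ := ∑ k ∈ P.support, monomial k (coeff k P * ρ ^ w k) with hQ
  have hQc : ∀ k, coeff k Q = coeff k P * ρ ^ w k := by
    intro k
    rw [hQ, coeff_sum]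
    simp only [coeff_monomial]
    rw [Finset.sum_ite_eq' P.support k]
    split_ifs with h
    · rfl
    · rw [notMem_support_iff.1 h, zero_mul]
  have hQs : Q.support ⊆ P.support := by
    intro k hk
    rw [mem_support_iff, hQc] at hk
    rw [mem_support_iff]
    exact left_ne_zero_of_mul hk
  have hPd : P.totalDegree ≤ K := by
    refine Finset.sup_le fun k hk => ?_
    have h1 := le_totalDegree (p := F) (s := Finsupp.mapDomain (fun i : Fin n => (i : ℕ)) k) (by
      rw [hsupp]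
      exact Finset.mem_image_of_mem _ hk)
    have h2 : (Finsupp.mapDomain (fun i : Fin n => (i : ℕ)) k).sum (fun _ e => e) =
        k.sum fun _ e => e :=
      Finsupp.sum_mapDomain_index (fun _ => rfl) (fun _ _ _ => rfl)
    rw [h2] at h1
    exact h1.trans hK
  have hQd : Q.totalDegree ≤ K := by
    refine Finset.sup_le fun k hk => ?_
    exact (le_totalDegree (hQs hk)).trans hPd
  have hQe : ∀ a : Fin n → Fin (K + 1),
      |eval (fun i => ((a i : ℕ) : ℝ) / (K + 1)) Q| ≤ S := by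
    intro a
    have h1 : eval (fun i => ((a i : ℕ) : ℝ) / (K + 1)) Q =
        eval (fun i : Fin n => ρ ^ d i * (((a i : ℕ) : ℝ) / (K + 1))) P := by
      rw [hQ, map_sum, eval_eq']
      refine Finset.sum_congr rfl fun k _ => ?_
      rw [eval_monomial, Finsupp.prod_fintype _ _ (fun _ => pow_zero _)]
      have h2 : ρ ^ w k = ∏ i : Fin n, (ρ ^ d i) ^ k i := by
        rw [hw]
        simp only [Finsupp.weight_apply]
        rw [Finsupp.sum_fintype _ _ (fun _ => by simp), ← Finset.prod_pow_eq_pow_sum]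
        refine Finset.prod_congr rfl fun i _ => ?_
        rw [← pow_mul, smul_eq_mul, mul_comm]
      rw [h2, mul_assoc, ← Finset.prod_mul_distrib]
      congr 1
      refine Finset.prod_congr rfl fun i _ => ?_
      rw [mul_pow]
    have h2 : eval (fun i : Fin n => ρ ^ d i * (((a i : ℕ) : ℝ) / (K + 1))) P =
        eval (nod n K d ρ a) F := by
      rw [← hP, eval_rename]
      have h3 : (fun i : Fin n => ρ ^ d i * (((a i : ℕ) : ℝ) / (K + 1))) =
          nod n K d ρ a ∘ fun i : Fin n => (i : ℕ) := by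
        funext i
        unfold nod
        simp
      rw [h3]
    rw [h1, h2]
    exact hS a
  have hb := hC Q S hQd hQe
  have h1 : nrm d ρ F = ∑ k ∈ P.support, |coeff k Q| := by
    unfold nrm
    rw [hsupp, Finset.sum_image (fun a _ b _ h => hmi h)]
    refine Finset.sum_congr rfl fun k _ => ?_
    rw [hcoef, hwt, hQc, abs_mul, abs_of_pos (pow_pos hρ _)]
  rw [h1]
  calc ∑ k ∈ P.support, |coeff k Q| ≤ ∑ k ∈ P.support, C * S := Finset.sum_le_sum fun k _ => hb k
    _ = P.support.card * (C * S) := by rw [Finset.sum_const, nsmul_eq_mul]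
    _ ≤ (Pool.Agent.H36.KBX.bx n K).card * (C * S) := by
        refine mul_le_mul_of_nonneg_right ?_ (mul_nonneg hC0 hS0)
        exact_mod_cast Finset.card_le_card (Pool.Agent.H36.KBX.support_bx P hPd)
    _ ≤ ((Pool.Agent.H36.KBX.bx n K).card * C + 1) * S := by nlinarith

/-! ### The polynomials in the time -/

/-- The polynomial in the time at the other coordinates `b`. -/
noncomputable def lin (b : ℕ → ℝ) (F : PN) : Polynomial ℝ :=
  aeval (fun j => if j = 0 then Polynomial.X else Polynomial.C (b j)) F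

theorem eval_lin (b : ℕ → ℝ) (F : PN) (τ : ℝ) :
    (lin b F).eval τ = eval (Function.update b 0 τ) F := by
  unfold lin
  rw [Pool.KBX.eval_aeval_poly]
  congr 1
  congr 1
  funext j
  by_cases h : j = 0
  · rw [if_pos h, h, Function.update_self, Polynomial.eval_X]
  · rw [if_neg h, Function.update_of_ne h, Polynomial.eval_C]

theorem deg_lin (b : ℕ → ℝ) (F : PN) {D : ℕ} (h : F.totalDegree ≤ D) :
    (lin b F).natDegree ≤ D := by
  unfold lin
  refine Pool.KBX.natDegree_aeval_le _ _ (fun j => ?_) h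
  by_cases h : j = 0
  · rw [if_pos h]
    exact Polynomial.natDegree_X_le
  · rw [if_neg h, Polynomial.natDegree_C]
    exact Nat.zero_le _

/-- **The jets along a line**, from the times of the samples to the window. -/
theorem rem_jets (m n D k : ℕ) : ∃ C₁ : ℝ, 1 ≤ C₁ ∧ ∀ (J : ℕ) (F : Fam m J)
    (A : F.Ω → Prop) (hA : 0 < Pe F.p A) (w : ℕ)
    (P : ((Fin m → ℝ) × (Fin m → ℝ)) × F.ζ × ℕ → PN) (M v θ : ℝ), w ≤ J → 0 ≤ v →
    (∀ s, (P s).vars ⊆ range n) → (∀ s, (P s).totalDegree ≤ D) → 0 < M → 0 ≤ θ →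
    (Fam.sub F A hA).Tm θ → C₁ * (θ + 1) ≤ ((J : ℝ) - w) * Real.log 2 →
    (∀ ω, A ω → ∀ b : ℕ → ℝ, b 0 = 0 → (∀ i, 1 ≤ i → i < n → |b i| ≤ 1) →
      |eval b (trw dY (k + 1) (bind₁ (sft (rt F w ω)) (P (slam F w ω))))| ≤ M ∧
      ((∀ i, 1 ≤ i → i < n → |b i| ≤ Real.exp (-v)) →
        |eval b (bind₁ (sft (rt F w ω)) (P (slam F w ω)))| ≤ M)) →
    ∃ B : F.Ω → Prop, Sub B A ∧ Pe F.p A / 2 ≤ Pe F.p B ∧ ∀ ω, B ω →
      nrm dY 1 (trw dY (k + 1) (P (slam F w ω))) ≤ Real.exp (C₁ * (θ + 1)) * M ∧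
      nrm dY (Real.exp (-v)) (P (slam F w ω)) ≤ Real.exp (C₁ * (θ + 1)) * M := by
  classical
  obtain ⟨C₀, hC₀, hrem⟩ := Pool.PZ.Zrt.rem_ev (m := m) (2 * D)
  obtain ⟨Cn, hCn, hn⟩ := nrm_of_grid n D
  obtain ⟨N, hN⟩ : ∃ N : ℝ, N = 2 * (Fintype.card (Fin n → Fin (D + 1)) : ℝ) := ⟨_, rfl⟩
  have hcard : (1 : ℝ) ≤ (Fintype.card (Fin n → Fin (D + 1)) : ℝ) := by
    exact_mod_cast Fintype.card_pos
  have hN1 : 1 ≤ N := by rw [hN]; linarith
  have hCN : 1 ≤ Cn * N := one_le_mul_of_one_le_of_one_le hCn hN1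
  have hlog : 0 ≤ Real.log (Cn * N) := Real.log_nonneg hCN
  refine ⟨C₀ + Real.log (Cn * N), by linarith, ?_⟩
  intro J F A hA w P M v θ hw hv hPv hPd hM hθ hTm hJ hjet
  have hv0 := Real.exp_pos (-v)
  -- the polynomials in the time
  obtain ⟨fa, hfa⟩ : ∃ fa : ((Fin m → ℝ) × (Fin m → ℝ)) × F.ζ × ℕ →
      (Fin n → Fin (D + 1)) → Polynomial ℝ, fa = fun s a => Polynomial.C M⁻¹ *
        lin (nod n D dY 1 a) (trw dY (k + 1) (P s)) := ⟨_, rfl⟩
  obtain ⟨fb, hfb⟩ : ∃ fb : ((Fin m → ℝ) × (Fin m → ℝ)) × F.ζ × ℕ →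
      (Fin n → Fin (D + 1)) → Polynomial ℝ, fb = fun s a => Polynomial.C M⁻¹ *
        lin (nod n D dY (Real.exp (-v)) a) (P s) := ⟨_, rfl⟩
  obtain ⟨q, hq⟩ : ∃ q : ((Fin m → ℝ) × (Fin m → ℝ)) × F.ζ × ℕ → Polynomial ℝ,
      q = fun s => ∑ a, fa s a ^ 2 + ∑ a, fb s a ^ 2 := ⟨_, rfl⟩
  have hfad : ∀ s a, (fa s a).natDegree ≤ D := by
    intro s a
    rw [hfa]
    exact (Polynomial.natDegree_C_mul_le _ _).trans
      (deg_lin _ _ ((deg_trw _ _ _).trans (hPd s)))
  have hfbd : ∀ s a, (fb s a).natDegree ≤ D := by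
    intro s a
    rw [hfb]
    exact (Polynomial.natDegree_C_mul_le _ _).trans (deg_lin _ _ (hPd s))
  have hqd : ∀ s, (q s).natDegree ≤ 2 * D := by
    intro s
    rw [hq]
    refine (Polynomial.natDegree_add_le _ _).trans (max_le ?_ ?_)
    · exact Polynomial.natDegree_sum_le_of_forall_le _ _ fun a _ =>
        Polynomial.natDegree_pow_le.trans (Nat.mul_le_mul_left 2 (hfad s a))
    · exact Polynomial.natDegree_sum_le_of_forall_le _ _ fun a _ =>
        Polynomial.natDegree_pow_le.trans (Nat.mul_le_mul_left 2 (hfbd s a))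
  have hqe : ∀ s τ, (q s).eval τ = ∑ a, ((fa s a).eval τ) ^ 2 + ∑ a, ((fb s a).eval τ) ^ 2 := by
    intro s τ
    rw [hq]
    show (∑ a, fa s a ^ 2 + ∑ a, fb s a ^ 2).eval τ = _
    rw [Polynomial.eval_add, Polynomial.eval_finsetSum, Polynomial.eval_finsetSum]
    simp only [Polynomial.eval_pow]
  have hfae : ∀ s a τ, (fa s a).eval τ = M⁻¹ *
      eval (Function.update (nod n D dY 1 a) 0 τ) (trw dY (k + 1) (P s)) := by
    intro s a τ
    rw [hfa]
    show (Polynomial.C M⁻¹ * lin (nod n D dY 1 a) (trw dY (k + 1) (P s))).eval τ = _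
    rw [Polynomial.eval_mul, Polynomial.eval_C, eval_lin]
  have hfbe : ∀ s a τ, (fb s a).eval τ = M⁻¹ *
      eval (Function.update (nod n D dY (Real.exp (-v)) a) 0 τ) (P s) := by
    intro s a τ
    rw [hfb]
    show (Polynomial.C M⁻¹ * lin (nod n D dY (Real.exp (-v)) a) (P s)).eval τ = _
    rw [Polynomial.eval_mul, Polynomial.eval_C, eval_lin]
  have hdY0 : dY 0 = 0 := rfl
  have hdY : ∀ i, 1 ≤ i → dY i = 1 := fun i hi => by
    unfold dY
    rw [if_neg (by omega)]
  -- at the samples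
  have hsm : ∀ ω, A ω → |(q (slam F w ω)).eval (rt F w ω)| ≤ N := by
    intro ω hω
    have hMi : 0 < M⁻¹ := inv_pos.2 hM
    have h1 : ∀ a, ((fa (slam F w ω) a).eval (rt F w ω)) ^ 2 ≤ 1 := by
      intro a
      rw [sq_le_one_iff_abs_le_one, hfae, abs_mul, abs_of_pos hMi]
      obtain ⟨b, hb⟩ : ∃ b, b = Function.update (nod n D dY 1 a) 0 0 := ⟨_, rfl⟩
      have hb0 : b 0 = 0 := by rw [hb, Function.update_self]
      have hb1 : ∀ i, 1 ≤ i → i < n → |b i| ≤ 1 := by
        intro i hi _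
        rw [hb, Function.update_of_ne (by omega)]
        have h2 := nod_le (n := n) (D := D) (d := dY) one_pos a i
        rw [one_pow] at h2
        rw [abs_of_nonneg h2.1]
        exact h2.2
      have h2 := (hjet ω hω b hb0 hb1).1
      rw [trw_bindh (sft_hom _), eval_sft _ _ hb0] at h2
      have h3 : Function.update b 0 (rt F w ω) =
          Function.update (nod n D dY 1 a) 0 (rt F w ω) := by
        rw [hb, Function.update_idem]
      rw [h3] at h2
      rw [inv_mul_le_iff₀ hM, mul_one]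
      exact h2
    have h2 : ∀ a, ((fb (slam F w ω) a).eval (rt F w ω)) ^ 2 ≤ 1 := by
      intro a
      rw [sq_le_one_iff_abs_le_one, hfbe, abs_mul, abs_of_pos hMi]
      obtain ⟨b, hb⟩ : ∃ b, b = Function.update (nod n D dY (Real.exp (-v)) a) 0 0 := ⟨_, rfl⟩
      have hb0 : b 0 = 0 := by rw [hb, Function.update_self]
      have hb2 : ∀ i, 1 ≤ i → i < n → |b i| ≤ Real.exp (-v) := by
        intro i hi _
        rw [hb, Function.update_of_ne (by omega)]
        have h2 := nod_le (n := n) (D := D) (d := dY) hv0 a i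
        rw [hdY i hi, pow_one] at h2
        rw [abs_of_nonneg h2.1]
        exact h2.2
      have hb1 : ∀ i, 1 ≤ i → i < n → |b i| ≤ 1 := fun i hi hin => (hb2 i hi hin).trans (by
        rw [Real.exp_le_one_iff]
        linarith)
      have h2 := (hjet ω hω b hb0 hb1).2 hb2
      rw [eval_sft _ _ hb0] at h2
      have h3 : Function.update b 0 (rt F w ω) =
          Function.update (nod n D dY (Real.exp (-v)) a) 0 (rt F w ω) := by
        rw [hb, Function.update_idem]
      rw [h3] at h2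
      rw [inv_mul_le_iff₀ hM, mul_one]
      exact h2
    rw [hqe, abs_of_nonneg (add_nonneg (Finset.sum_nonneg fun a _ => sq_nonneg _)
      (Finset.sum_nonneg fun a _ => sq_nonneg _)), hN, two_mul]
    refine add_le_add ?_ ?_
    · refine (Finset.sum_le_sum fun a _ => h1 a).trans (le_of_eq ?_)
      rw [Finset.sum_const, Finset.card_univ, nsmul_eq_mul, mul_one]
    · refine (Finset.sum_le_sum fun a _ => h2 a).trans (le_of_eq ?_)
      rw [Finset.sum_const, Finset.card_univ, nsmul_eq_mul, mul_one]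
  have hθ1 : 0 ≤ θ + 1 := by linarith
  obtain ⟨B, hBA, hBp, hB⟩ := hrem J F A hA w q N θ hw hqd (by linarith) hθ hTm (by
    refine le_trans (mul_le_mul_of_nonneg_right ?_ hθ1) hJ
    linarith) hsm
  refine ⟨B, hBA, hBp, fun ω hω => ?_⟩
  obtain ⟨Z, hZ⟩ : ∃ Z, Z = Real.exp (C₀ * (θ + 1)) * N := ⟨_, rfl⟩
  have hZ1 : 1 ≤ Z := by
    rw [hZ]
    exact one_le_mul_of_one_le_of_one_le (Real.one_le_exp (by positivity)) hN1
  have hB' := hB ω hω
  rw [← hZ] at hB'
  have hfin : Cn * (Z * M) ≤ Real.exp ((C₀ + Real.log (Cn * N)) * (θ + 1)) * M := by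
    rw [← mul_assoc]
    refine mul_le_mul_of_nonneg_right ?_ hM.le
    have h1 : Real.exp ((C₀ + Real.log (Cn * N)) * (θ + 1)) =
        Real.exp (C₀ * (θ + 1)) * Real.exp (Real.log (Cn * N) * (θ + 1)) := by
      rw [← Real.exp_add]
      congr 1
      ring
    have h2 : Cn * N ≤ Real.exp (Real.log (Cn * N) * (θ + 1)) := by
      have h3 : Cn * N = Real.exp (Real.log (Cn * N)) := (Real.exp_log (by linarith)).symm
      conv_lhs => rw [h3]
      refine Real.exp_le_exp.2 ?_
      nlinarith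
    rw [h1, hZ]
    calc Cn * (Real.exp (C₀ * (θ + 1)) * N) = Real.exp (C₀ * (θ + 1)) * (Cn * N) := by ring
      _ ≤ _ := mul_le_mul_of_nonneg_left h2 (Real.exp_pos _).le
  have hsq : ∀ x : ℝ, x ^ 2 ≤ Z → |x| ≤ Z := by
    intro x hx
    rcases le_or_gt |x| 1 with h | h
    · linarith
    · have h1 : |x| ≤ |x| ^ 2 := by nlinarith
      rw [sq_abs] at h1
      linarith
  constructor
  · refine (hn dY 1 _ (Z * M) one_pos ((SYS35.vars_trw _ _ _).trans (hPv _))
      ((deg_trw _ _ _).trans (hPd _)) fun a => ?_).trans hfin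
    obtain ⟨τ, hτ⟩ : ∃ τ, τ = nod n D dY 1 a 0 := ⟨_, rfl⟩
    have h0 := nod_le (n := n) (D := D) (d := dY) one_pos a 0
    rw [hdY0, pow_zero, ← hτ] at h0
    have h1 := hB' τ h0
    have h2 : (fa (slam F w ω) a).eval τ ^ 2 ≤ Z := by
      refine le_trans ?_ ((le_abs_self _).trans h1)
      rw [hqe]
      have h3 := Finset.single_le_sum (f := fun a => ((fa (slam F w ω) a).eval τ) ^ 2)
        (fun a _ => sq_nonneg _) (Finset.mem_univ a)
      have h4 : 0 ≤ ∑ a, ((fb (slam F w ω) a).eval τ) ^ 2 :=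
        Finset.sum_nonneg fun a _ => sq_nonneg _
      linarith
    have h3 := hsq _ h2
    rw [hfae, abs_mul, abs_of_pos (inv_pos.2 hM), inv_mul_le_iff₀ hM, hτ,
      Function.update_eq_self] at h3
    rw [mul_comm Z]
    exact h3
  · refine (hn dY (Real.exp (-v)) _ (Z * M) hv0 (hPv _) (hPd _) fun a => ?_).trans hfin
    obtain ⟨τ, hτ⟩ : ∃ τ, τ = nod n D dY (Real.exp (-v)) a 0 := ⟨_, rfl⟩
    have h0 := nod_le (n := n) (D := D) (d := dY) hv0 a 0
    rw [hdY0, pow_zero, ← hτ] at h0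
    have h1 := hB' τ h0
    have h2 : (fb (slam F w ω) a).eval τ ^ 2 ≤ Z := by
      refine le_trans ?_ ((le_abs_self _).trans h1)
      rw [hqe]
      have h3 := Finset.single_le_sum (f := fun a => ((fb (slam F w ω) a).eval τ) ^ 2)
        (fun a _ => sq_nonneg _) (Finset.mem_univ a)
      have h4 : 0 ≤ ∑ a, ((fa (slam F w ω) a).eval τ) ^ 2 :=
        Finset.sum_nonneg fun a _ => sq_nonneg _
      linarith
    have h3 := hsq _ h2
    rw [hfbe, abs_mul, abs_of_pos (inv_pos.2 hM), inv_mul_le_iff₀ hM, hτ,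
      Function.update_eq_self] at h3
    rw [mul_comm Z]
    exact h3

end Pool.TRM
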