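import Pool.Agent.H39.GEN.Thin

/-!
# Thin or steep, from one scale

`StepAt PN P g`: in every small interval near the window `g` there is a window `t` where a gain of
`PN` which is proportional to the depth `q` makes `P` almost `2`-steep, with an error `e q`.

`thin_or_steep2`: then, at almost every window, `PN` is thin over `P` or `P` is `2`-steep.
-/

set_option autoImplicit false

namespace Pool.NMS

open MeasureTheory Set Filter Topology
open Pool.LEV (Law)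
open Pool.QNT (diff_ae dens_pt affB_of)
open Pool.STR (ThinAt SteepAt StK steep_ae)

variable {P PN : ℝ → ℝ → ℝ}

/-- A gain proportional to the depth. -/
def Gn (PN P : ℝ → ℝ → ℝ) (δ w q : ℝ) : Prop := P w w + q + δ * q ≤ PN (w + q) w

/-- **One scale.** -/
def StepAt (PN P : ℝ → ℝ → ℝ) (g : ℝ) : Prop :=
  ∀ δ : ℝ, 0 < δ → δ ≤ 1 → ∃ c : ℝ, 0 < c ∧ c ≤ 1 ∧ ∀ θ e : ℝ, 0 < θ → 0 < e →
    ∃ q₁ : ℝ, 0 < q₁ ∧ ∀ q u : ℝ, 0 < q → q < q₁ → |u - g| ≤ q →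
      ∃ t : ℝ, u ≤ t ∧ t ≤ u + θ * q ∧ (Gn PN P δ t q →
        ∀ x : ℝ, 0 < x → x ≤ c * q → P t t + 2 * x - e * q ≤ P (t + x) t)

/-- A window to the left, at a distance proportional to the depth, with a gain. -/
def LW (PN P : ℝ → ℝ → ℝ) (θ δ g q : ℝ) : Prop :=
  ∃ w : ℝ, g - θ * q ≤ w ∧ w ≤ g - θ * q / 2 ∧ Gn PN P δ w q

/-- **Windows to the left**, at almost every window with gains at small depths. -/
theorem lw_ae {θ δ : ℝ} (hθ : 0 < θ) : ∀ᵐ g : ℝ,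
    (∀ q₀ : ℝ, 0 < q₀ → ∃ q : ℝ, 0 < q ∧ q < q₀ ∧ Gn PN P δ g q) →
    ∀ q₀ : ℝ, 0 < q₀ → ∃ q : ℝ, 0 < q ∧ q < q₀ ∧ LW PN P θ δ g q := by
  obtain ⟨N, hN⟩ : ∃ N : ℕ → Set ℝ, N = fun (p : ℕ) => {w | ∀ q : ℝ, 0 < q →
      q < 1 / ((p : ℝ) + 1) → ¬ LW PN P θ δ w q} := ⟨_, rfl⟩
  have hall : ∀ᵐ g : ℝ, ∀ p : ℕ, g ∈ N p → Tendsto
      (fun r => volume (N p ∩ Metric.closedBall g r) / volume (Metric.closedBall g r))
      (𝓝[>] 0) (𝓝 1) := by
    rw [ae_all_iff]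
    exact fun p => ae_imp_of_ae_restrict (Besicovitch.ae_tendsto_measure_inter_div volume (N p))
  filter_upwards [hall] with g hg hgain q₀ hq₀
  by_contra hcon
  push Not at hcon
  obtain ⟨p, hp⟩ := exists_nat_one_div_lt hq₀
  have hgN : g ∈ N p := by
    rw [hN]
    exact fun q h1 h2 h3 => hcon q h1 (by linarith) h3
  obtain ⟨t₀, ht₀, h2⟩ := dens_pt (hg p hgN) (η := 1 / 2) (by norm_num) (by norm_num)
  obtain ⟨q, hq, hqm, hG⟩ := hgain (min (1 / ((p : ℝ) + 1)) (t₀ / θ))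
    (lt_min (by positivity) (by positivity))
  have hq1 := hqm.trans_le (min_le_left _ _)
  have hq2 := hqm.trans_le (min_le_right _ _)
  rw [lt_div_iff₀ hθ] at hq2
  have hqθ : 0 < θ * q := by positivity
  obtain ⟨w, hw, h3, h4⟩ := h2 (θ * q) hqθ (by linarith) (g + θ * q) (by
    rw [add_sub_cancel_left, abs_of_pos hqθ])
  rw [hN] at hw
  exact hw q hq hq1 ⟨g, by linarith, by linarith, hG⟩

/-- The slopes at a point of differentiability. -/
theorem sbd {D : ℝ → ℝ} {g : ℝ} (hm : ∀ x y : ℝ, 0 ≤ x → x ≤ y → y ≤ 1 → D x ≤ D y)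
    (hg0 : 0 < g) (hg1 : g < 1)
    (hd : DifferentiableAt ℝ D g) : ∃ S : ℝ, 1 ≤ S ∧ ∀ x : ℝ, 0 ≤ x → x ≤ 1 →
      |D x - D g| ≤ S * |x - g| := by
  have h2 := hd.hasDerivAt.isLittleO.def one_pos
  obtain ⟨r, hr, h3⟩ := Metric.eventually_nhds_iff.1 h2
  have hM : 0 ≤ D 1 - D 0 := by linarith [hm 0 1 le_rfl zero_le_one le_rfl]
  refine ⟨1 + |deriv D g| + (D 1 - D 0) / r, by
    have := abs_nonneg (deriv D g)
    have : 0 ≤ (D 1 - D 0) / r := by positivity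
    linarith, fun x hx0 hx1 => ?_⟩
  have hx : 0 ≤ |x - g| := abs_nonneg _
  rcases lt_or_ge |x - g| r with h4 | h4
  · have h5 := h3 (y := x) (by rw [Real.dist_eq]; exact h4)
    rw [Real.norm_eq_abs, Real.norm_eq_abs, smul_eq_mul, one_mul] at h5
    have h6 : |D x - D g| ≤ |D x - D g - (x - g) * deriv D g| + |(x - g) * deriv D g| := by
      have := abs_add_le (D x - D g - (x - g) * deriv D g) ((x - g) * deriv D g)
      rwa [sub_add_cancel] at this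
    rw [abs_mul] at h6
    have h7 : 0 ≤ (D 1 - D 0) / r * |x - g| := by positivity
    calc |D x - D g| ≤ |x - g| + |x - g| * |deriv D g| := h6.trans (by linarith)
      _ ≤ (1 + |deriv D g| + (D 1 - D 0) / r) * |x - g| := by linarith
  · have h5 : |D x - D g| ≤ D 1 - D 0 := by
      rw [abs_le]
      constructor <;> linarith [hm 0 x le_rfl hx0 hx1, hm x 1 hx0 hx1 le_rfl,
        hm 0 g le_rfl hg0.le hg1.le, hm g 1 hg0.le hg1.le le_rfl]
    have h6 : D 1 - D 0 ≤ (D 1 - D 0) / r * |x - g| := by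
      rw [div_mul_eq_mul_div, le_div_iff₀ hr]
      exact mul_le_mul_of_nonneg_left h4 hM
    have h7 : 0 ≤ (1 + |deriv D g|) * |x - g| := by positivity
    linarith

/-- `P` is at most `PN` at a dense set of pairs near `g`. -/
def LeAt (PN P : ℝ → ℝ → ℝ) (g : ℝ) : Prop :=
  ∃ ρ : ℝ, 0 < ρ ∧ ∀ a w ε : ℝ, g - ρ < w → w < a → a < g + ρ → 0 < ε →
    ∃ a' w' : ℝ, a - ε < a' ∧ a' ≤ a ∧ w - ε < w' ∧ w' ≤ w ∧ w' ≤ a' ∧ P a' w' ≤ PN a' w'

theorem leAt_of {g : ℝ} (hg0 : 0 < g) (hg1 : g < 1)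
    (h : ∀ a w : ℝ, 0 < w → w ≤ a → a ≤ 1 → P a w ≤ PN a w) : LeAt PN P g := by
  refine ⟨min g (1 - g), lt_min hg0 (by linarith), fun a w ε h1 h2 h3 h4 =>
    ⟨a, w, by linarith, le_rfl, by linarith, le_rfl, h2.le, h a w ?_ h2.le ?_⟩⟩
  · linarith [min_le_left g (1 - g)]
  · linarith [min_le_right g (1 - g)]

/-- The data at the window `g` for the numbers. -/
structure Bd (PN P : ℝ → ℝ → ℝ) (g S : ℝ) : Prop where
  hP : Law P
  hN : Law PN
  g0 : 0 < g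
  g1 : g < 1
  p1 : P g g < 1
  S1 : 1 ≤ S
  hle : LeAt PN P g
  dia : PN g g = P g g
  sP : ∀ x : ℝ, 0 ≤ x → x ≤ 1 → |P x x - P g g| ≤ S * |x - g|
  sN : ∀ x : ℝ, 0 ≤ x → x ≤ 1 → |PN x x - PN g g| ≤ S * |x - g|

/-- **One scale**: from a window to the left with a gain, the `2`-steep threshold at a window
`t` to the left. -/
theorem one_scale {g S : ℝ} (h : Bd PN P g S) {c δ θ e : ℝ} (hθ : 0 < θ)
    (hθ1 : θ ≤ 1) (hθδ : 2 * S * θ ≤ δ)
    (hst : ∃ q₁ : ℝ, 0 < q₁ ∧ ∀ q u : ℝ, 0 < q → q < q₁ → |u - g| ≤ q →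
      ∃ t : ℝ, u ≤ t ∧ t ≤ u + θ / 4 * q ∧ (Gn PN P (δ / 2) t q →
        ∀ x : ℝ, 0 < x → x ≤ c * q → P t t + 2 * x - e * q ≤ P (t + x) t)) :
    ∃ q₂ : ℝ, 0 < q₂ ∧ ∀ q : ℝ, 0 < q → q < q₂ → LW PN P θ δ g q →
      ∃ t : ℝ, g - θ * q ≤ t ∧ t ≤ g - θ * q / 4 ∧ ∀ x : ℝ, 0 < x → x ≤ c * q →
        P t t + 2 * x - e * q ≤ P (t + x) t := by
  have hS := h.S1
  obtain ⟨q₁, hq₁, hst⟩ := hst
  have hg0 := h.g0
  have hg1 := h.g1
  refine ⟨min q₁ (min (g / 2) ((1 - g) / 2)), lt_min hq₁ (lt_min (by linarith) (by linarith)),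
    fun q hq hqm ⟨v, hv1, hv2, hG⟩ => ?_⟩
  have m1 : q < q₁ := hqm.trans_le (min_le_left _ _)
  have m2 : q < g / 2 := (hqm.trans_le (min_le_right _ _)).trans_le (min_le_left _ _)
  have m3 : q < (1 - g) / 2 := (hqm.trans_le (min_le_right _ _)).trans_le (min_le_right _ _)
  have hθq : 0 < θ * q := by positivity
  have hθq1 : θ * q ≤ 1 * q := mul_le_mul_of_nonneg_right hθ1 hq.le
  obtain ⟨t, ht1, ht2, ht⟩ := hst q v hq m1 (by
    rw [abs_of_nonpos (by linarith)]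
    linarith)
  refine ⟨t, by linarith, by linarith, fun x hx hx' => ?_⟩
  refine ht ?_ x hx hx'
  have h1 := h.hN.mono (a := v + q) (a' := t + q) (w := v) (w' := t) (by linarith) (by linarith)
    (by linarith) ht1 (by linarith) (by linarith)
  have h2 : P t t ≤ P g g := h.hP.mono (by linarith) le_rfl (by linarith) (by linarith) le_rfl
    hg1.le
  have h3 := (abs_le.1 (h.sP v (by linarith) (by linarith))).1
  rw [abs_of_nonpos (show v - g ≤ 0 by linarith)] at h3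
  have h4 : S * (g - v) ≤ S * (θ * q) := mul_le_mul_of_nonneg_left (by linarith) (by linarith)
  have h5 : 2 * S * θ * q ≤ δ * q := mul_le_mul_of_nonneg_right hθδ hq.le
  unfold Gn at hG ⊢
  linarith

end Pool.NMS
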