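import Pool.Agent.H90.ISO.Num1

/-!
# Thin or steep

`thin_or_steep2`: at almost every window, the threshold `PN` is thin over `P` or `P` is `2`-steep,
if a gain of `PN` at one scale makes `P` almost `2`-steep at the windows near (`StepAt`).
-/

set_option autoImplicit false

namespace Pool.NMS

open MeasureTheory Set Filter Topology
open Pool.LEV (Law)
open Pool.QNT (diff_ae dens_pt affB_of)
open Pool.STR (ThinAt SteepAt StK steep_ae)

variable {P PN : ℝ → ℝ → ℝ}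

/-- **From a scale to the smaller scales.** -/
theorem lw_next {g S ρ : ℝ} (h : Bd PN P g S) (hρ : ∀ a w ε : ℝ, g - ρ < w → w < a → a < g + ρ →
      0 < ε → ∃ a' w' : ℝ, a - ε < a' ∧ a' ≤ a ∧ w - ε < w' ∧ w' ≤ w ∧ w' ≤ a' ∧
        P a' w' ≤ PN a' w') {δ θ e c₁ q t : ℝ} (hθ : 0 < θ)
    (hδ1 : δ ≤ 1 / 2) (hc : 0 < c₁) (hc1 : c₁ ≤ 1 / 2) (hθc : θ ≤ c₁ / 2)
    (hsm : S * θ + 2 * e ≤ c₁ ^ 2 / 8) (hq : 0 < q) (hqg : q ≤ g) (hqg' : q ≤ 1 - g) (hqρ : q ≤ ρ)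
    (ht1 : g - θ * q ≤ t) (ht2 : t ≤ g - θ * q / 4)
    (ht : ∀ x : ℝ, 0 < x → x ≤ c₁ * q → P t t + 2 * x - 2 * e * q ≤ P (t + x) t) {y : ℝ}
    (hy1 : c₁ ^ 2 / 4 * q ≤ y) (hy2 : y ≤ c₁ / 2 * q) : LW PN P θ δ g y := by
  have hS := h.S1
  have hg0 := h.g0
  have hg1 := h.g1
  have hy0 : 0 < y := lt_of_lt_of_le (by positivity) hy1
  have hθy : 0 < θ * y := by positivity
  have hθq : 0 < θ * q := by positivity
  have k1 : θ * q ≤ c₁ / 2 * q := mul_le_mul_of_nonneg_right hθc hq.le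
  have k2 : c₁ * q ≤ 1 / 2 * q := mul_le_mul_of_nonneg_right hc1 hq.le
  have k3 : θ * y ≤ θ * (q / 4) := mul_le_mul_of_nonneg_left (by linarith) hθ.le
  obtain ⟨w, hw⟩ : ∃ w : ℝ, w = g - 3 / 4 * (θ * y) := ⟨_, rfl⟩
  have hwt : t < w := by rw [hw]; linarith
  have ht0 : 0 ≤ t := by linarith
  refine ⟨w, by rw [hw]; linarith, by rw [hw]; linarith, ?_⟩
  have k6 : P t t + 2 * (w + y - t) - 2 * e * q ≤ PN (w + y) w := by
    refine le_of_forall_pos_le_add fun ε hε => ?_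
    obtain ⟨ε', hε'⟩ : ∃ ε' : ℝ, ε' = min (ε / 2) (min (w - t) y) := ⟨_, rfl⟩
    have e0 : 0 < ε' := by
      rw [hε']
      exact lt_min (by linarith) (lt_min (by linarith) hy0)
    have e1 : ε' ≤ ε / 2 := by rw [hε']; exact min_le_left _ _
    have e2 : ε' ≤ w - t := by rw [hε']; exact (min_le_right _ _).trans (min_le_left _ _)
    have e3 : ε' ≤ y := by rw [hε']; exact (min_le_right _ _).trans (min_le_right _ _)
    obtain ⟨a', w', l1, l2, l3, l4, l5, l6⟩ := hρ (w + y) w ε' (by rw [hw]; linarith)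
      (by linarith) (by rw [hw]; linarith) e0
    have k4 := ht (a' - t) (by linarith) (by rw [hw] at l2; linarith)
    rw [show t + (a' - t) = a' by ring] at k4
    have k5 : P a' t ≤ P a' w' :=
      h.hP.mono_w _ _ _ ht0 (by linarith) l5 (by rw [hw] at l2; linarith)
    have k7 : PN a' w' ≤ PN (w + y) w :=
      h.hN.mono (by linarith) l5 l2 l4 (by linarith) (by rw [hw]; linarith)
    linarith
  have k7 := (abs_le.1 (h.sP t ht0 (by linarith))).1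
  rw [abs_of_nonpos (show t - g ≤ 0 by linarith)] at k7
  have k8 : P w w ≤ P g g := h.hP.mono (by linarith) le_rfl (by rw [hw]; linarith)
    (by rw [hw]; linarith) le_rfl hg1.le
  have k9 : S * (g - t) ≤ S * (θ * q) := mul_le_mul_of_nonneg_left (by linarith) (by linarith)
  have k10 : (S * θ + 2 * e) * q ≤ c₁ ^ 2 / 8 * q := mul_le_mul_of_nonneg_right hsm hq.le
  have k11 : δ * y ≤ 1 / 2 * y := mul_le_mul_of_nonneg_right hδ1 hy0.le
  unfold Gn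
  linarith

/-- **All small scales.** -/
theorem lw_all {g S ρ : ℝ} (h : Bd PN P g S) (hρ : ∀ a w ε : ℝ, g - ρ < w → w < a → a < g + ρ →
      0 < ε → ∃ a' w' : ℝ, a - ε < a' ∧ a' ≤ a ∧ w - ε < w' ∧ w' ≤ w ∧ w' ≤ a' ∧
        P a' w' ≤ PN a' w') {δ θ e c₁ q₂ : ℝ} (hθ : 0 < θ)
    (hδ1 : δ ≤ 1 / 2) (hc : 0 < c₁) (hc1 : c₁ ≤ 1 / 2) (hθc : θ ≤ c₁ / 2)
    (hsm : S * θ + 2 * e ≤ c₁ ^ 2 / 8) (hq₂ : q₂ ≤ g) (hq₂' : q₂ ≤ 1 - g) (hq₂ρ : q₂ ≤ ρ)
    (hst : ∀ q : ℝ, 0 < q → q < q₂ → LW PN P θ δ g q →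
      ∃ t : ℝ, g - θ * q ≤ t ∧ t ≤ g - θ * q / 4 ∧ ∀ x : ℝ, 0 < x → x ≤ c₁ * q →
        P t t + 2 * x - 2 * e * q ≤ P (t + x) t) {q : ℝ} (hq : 0 < q) (hqm : q < q₂)
    (hL : LW PN P θ δ g q) {y : ℝ} (hy : 0 < y) (hy' : y ≤ c₁ / 2 * q) : LW PN P θ δ g y := by
  have hr0 : 0 < c₁ / 2 := by positivity
  have hr1 : c₁ / 2 < 1 := by linarith
  have hpow : ∀ k : ℕ, 0 < (c₁ / 2) ^ k := fun k => pow_pos hr0 k
  have hpow1 : ∀ k : ℕ, (c₁ / 2) ^ k ≤ 1 := fun k => pow_le_one₀ hr0.le hr1.le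
  have hstep : ∀ z : ℝ, 0 < z → z < q₂ → LW PN P θ δ g z → ∀ y : ℝ, (c₁ / 2) ^ 2 * z ≤ y →
      y ≤ c₁ / 2 * z → LW PN P θ δ g y := by
    intro z hz hz2 hLz y h1 h2
    obtain ⟨t, ht1, ht2, ht3⟩ := hst z hz hz2 hLz
    exact lw_next h hρ hθ hδ1 hc hc1 hθc hsm hz (by linarith) (by linarith) (by linarith) ht1
      ht2 ht3
      (by rw [show c₁ ^ 2 / 4 * z = (c₁ / 2) ^ 2 * z by ring]; exact h1) h2
  have hall : ∀ k : ℕ, LW PN P θ δ g ((c₁ / 2) ^ k * q) := by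
    intro k
    induction k with
    | zero => rw [pow_zero, one_mul]; exact hL
    | succ k ih =>
      have h1 : (c₁ / 2) ^ k * q ≤ 1 * q := mul_le_mul_of_nonneg_right (hpow1 k) hq.le
      refine hstep ((c₁ / 2) ^ k * q) (mul_pos (hpow k) hq) (by linarith) ih _ ?_ ?_
      · have h2 : (c₁ / 2) ^ 2 * ((c₁ / 2) ^ k * q) = (c₁ / 2) * ((c₁ / 2) ^ k * (c₁ / 2) * q) := by
          ring
        rw [h2, pow_succ (c₁ / 2) k]
        have h3 : 0 < (c₁ / 2) ^ k * (c₁ / 2) * q := by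
          have := hpow k
          positivity
        nlinarith
      · rw [pow_succ]
        exact le_of_eq (by ring)
  obtain ⟨k, hk1, hk2⟩ := exists_nat_pow_near_of_lt_one (x := y / (c₁ / 2 * q)) (y := c₁ / 2)
    (by positivity) ((div_le_one (by positivity)).2 hy') hr0 hr1
  rw [lt_div_iff₀ (by positivity)] at hk1
  rw [div_le_iff₀ (by positivity)] at hk2
  have h1 : (c₁ / 2) ^ k * q ≤ 1 * q := mul_le_mul_of_nonneg_right (hpow1 k) hq.le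
  refine hstep ((c₁ / 2) ^ k * q) (mul_pos (hpow k) hq) (by linarith) (hall k) y ?_ ?_
  · refine le_trans (le_of_eq ?_) hk1.le
    ring
  · refine hk2.trans (le_of_eq ?_)
    ring

/-- **Steep of every order below two**, from a gain at arbitrarily small depths. -/
theorem stk_of {g S : ℝ} (h : Bd PN P g S) (hst : StepAt PN P g)
    {δ : ℝ} (hδ : 0 < δ) (hδ1 : δ ≤ 1 / 2)
    (hL : ∀ k : ℕ, ∀ q₀ : ℝ, 0 < q₀ → ∃ q : ℝ, 0 < q ∧ q < q₀ ∧
      LW PN P (1 / ((k : ℝ) + 1)) δ g q) {K : ℝ} (hK : K < 2) : StK K P g := by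
  obtain ⟨c, hc, hc1, hst⟩ := hst (δ / 2) (by positivity) (by linarith)
  have hS := h.S1
  have hg0 := h.g0
  have hg1 := h.g1
  obtain ⟨c₁, hc₁⟩ : ∃ c₁ : ℝ, c₁ = c / 2 := ⟨_, rfl⟩
  have hc₁0 : 0 < c₁ := by rw [hc₁]; positivity
  have hc₁1 : c₁ ≤ 1 / 2 := by
    rw [hc₁]
    linarith
  -- the constants
  obtain ⟨u, hu⟩ : ∃ u : ℝ, u = min (c₁ ^ 2 / 8) ((2 - K) * c₁ / 2) := ⟨_, rfl⟩
  have hu0 : 0 < u := by
    rw [hu]
    refine lt_min (by positivity) ?_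
    have : 0 < 2 - K := by linarith
    positivity
  have hu1 : u ≤ c₁ ^ 2 / 8 := by rw [hu]; exact min_le_left _ _
  have hu2 : u ≤ (2 - K) * c₁ / 2 := by rw [hu]; exact min_le_right _ _
  obtain ⟨k, hk⟩ := exists_nat_one_div_lt (lt_min (lt_min (show (0 : ℝ) < 1 / 4 by norm_num)
    (show 0 < δ / (2 * S) by positivity)) (lt_min (show 0 < c₁ / 2 by positivity)
      (show 0 < u / (2 * S) by positivity)))
  obtain ⟨θ, hθ⟩ : ∃ θ : ℝ, θ = 1 / ((k : ℝ) + 1) := ⟨_, rfl⟩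
  rw [← hθ] at hk
  have hθ0 : 0 < θ := by rw [hθ]; positivity
  have hθ1 : θ ≤ 1 / 4 := (hk.le.trans (min_le_left _ _)).trans (min_le_left _ _)
  have hθ2 : θ ≤ δ / (2 * S) := (hk.le.trans (min_le_left _ _)).trans (min_le_right _ _)
  have hθ3 : θ ≤ c₁ / 2 := (hk.le.trans (min_le_right _ _)).trans (min_le_left _ _)
  have hθ4 : θ ≤ u / (2 * S) := (hk.le.trans (min_le_right _ _)).trans (min_le_right _ _)
  rw [le_div_iff₀ (by positivity)] at hθ2 hθ4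
  obtain ⟨q₂, hq₂, h2⟩ := one_scale h (c := c₁) (δ := δ) (θ := θ) (e := 2 * (u / 4)) hθ0
    (by linarith) (by linarith) (by
      obtain ⟨q₁, k1, k2⟩ := hst (θ / 4) (2 * (u / 4)) (by positivity) (by positivity)
      refine ⟨q₁, k1, fun q u hq hq' hu => ?_⟩
      obtain ⟨t, k3, k4, k5⟩ := k2 q u hq hq' hu
      refine ⟨t, k3, k4, fun hG x hx hx' => k5 hG x hx (hx'.trans ?_)⟩
      rw [hc₁]
      exact mul_le_mul_of_nonneg_right (by linarith) hq.le)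
  obtain ⟨ρ, hρ0, hρ⟩ := h.hle
  obtain ⟨q₃, hq₃⟩ : ∃ q₃ : ℝ, q₃ = min (min q₂ ρ) (min g (1 - g)) := ⟨_, rfl⟩
  have hq₃0 : 0 < q₃ := by rw [hq₃]; exact lt_min (lt_min hq₂ hρ0) (lt_min hg0 (by linarith))
  have hq₃1 : q₃ ≤ q₂ := by rw [hq₃]; exact (min_le_left _ _).trans (min_le_left _ _)
  have hq₃ρ : q₃ ≤ ρ := by rw [hq₃]; exact (min_le_left _ _).trans (min_le_right _ _)
  have hq₃2 : q₃ ≤ g := by rw [hq₃]; exact (min_le_right _ _).trans (min_le_left _ _)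
  have hq₃3 : q₃ ≤ 1 - g := by rw [hq₃]; exact (min_le_right _ _).trans (min_le_right _ _)
  have hst' : ∀ q : ℝ, 0 < q → q < q₃ → LW PN P θ δ g q →
      ∃ t : ℝ, g - θ * q ≤ t ∧ t ≤ g - θ * q / 4 ∧ ∀ x : ℝ, 0 < x → x ≤ c₁ * q →
        P t t + 2 * x - 2 * (u / 4) * q ≤ P (t + x) t := fun q h3 h4 h5 =>
    h2 q h3 (by linarith) h5
  have hsm : S * θ + 2 * (u / 4) ≤ u := by linarith
  obtain ⟨q₀, hq₀, hq₀', hLq⟩ := hL k q₃ hq₃0
  rw [← hθ] at hLq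
  have hall : ∀ y : ℝ, 0 < y → y ≤ c₁ / 2 * q₀ → LW PN P θ δ g y := fun y hy hy' =>
    lw_all h hρ hθ0 hδ1 hc₁0 hc₁1 hθ3 (hsm.trans hu1) hq₃2 hq₃3 hq₃ρ hst' hq₀ hq₀' hLq hy hy'
  refine ⟨c₁ / 2 * (c₁ / 2 * q₀), by positivity, fun x hx hx' hx1 => ?_⟩
  obtain ⟨q, hq⟩ : ∃ q : ℝ, q = 2 / c₁ * x := ⟨_, rfl⟩
  have hq0 : 0 < q := by rw [hq]; positivity
  have hqx : c₁ * q = 2 * x := by rw [hq]; field_simp
  have hqm : q ≤ c₁ / 2 * q₀ := by
    have h3 : c₁ / 2 * q ≤ c₁ / 2 * (c₁ / 2 * q₀) := by linarith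
    exact le_of_mul_le_mul_left h3 (by positivity)
  have hqm' : q < q₃ := by
    have : c₁ / 2 * q₀ ≤ 1 * q₀ := mul_le_mul_of_nonneg_right (by linarith) hq₀.le
    linarith
  obtain ⟨t, ht1, ht2, ht3⟩ := hst' q hq0 hqm' (hall q hq0 hqm)
  have hθq : 0 < θ * q := by positivity
  have k1 : θ * q ≤ c₁ / 2 * q := mul_le_mul_of_nonneg_right hθ3 hq0.le
  have k0 : θ * q ≤ 1 / 4 * q := mul_le_mul_of_nonneg_right hθ1 hq0.le
  have k2 := ht3 (x + (g - t)) (by linarith) (by linarith)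
  rw [show t + (x + (g - t)) = g + x by ring] at k2
  have k3 : P (g + x) t ≤ P (g + x) g :=
    h.hP.mono_w _ _ _ (by linarith) (by linarith) (by linarith) hx1
  have k4 := (abs_le.1 (h.sP t (by linarith) (by linarith))).1
  rw [abs_of_nonpos (show t - g ≤ 0 by linarith)] at k4
  have k5 : S * (g - t) ≤ S * (θ * q) := mul_le_mul_of_nonneg_left (by linarith) (by linarith)
  have k6 : (S * θ + 2 * (u / 4)) * q ≤ (2 - K) * c₁ / 2 * q :=
    mul_le_mul_of_nonneg_right (hsm.trans hu2) hq0.le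
  have k7 : (2 - K) * c₁ / 2 * q = (2 - K) * x := by
    have : (2 - K) * c₁ / 2 * q = (2 - K) / 2 * (c₁ * q) := by ring
    rw [this, hqx]
    ring
  linarith

/-- A small relative gain over the thin boxes up to the depth `x₀`. -/
def ThD (PN P : ℝ → ℝ → ℝ) (δ x₀ w : ℝ) : Prop :=
  ∀ x : ℝ, 0 < x → x ≤ x₀ → PN (w + x) w ≤ P w w + x + δ * x

/-- **Almost thin on the whole box**, at the points of density. -/
theorem thin_boxD (hN : Law PN) {g : ℝ} (hg0 : 0 < g) (hg1 : g < 1)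
    (hd : DifferentiableAt ℝ (fun a => P a a) g) {q₀ δ : ℝ} (hq₀ : 0 < q₀) (hδ : 0 ≤ δ) {W : Set ℝ}
    (hE : ∀ w ∈ W, w + q₀ ≤ 1 ∧ ThD PN P δ q₀ w)
    (hW : Tendsto (fun r => volume (W ∩ Metric.closedBall g r) / volume (Metric.closedBall g r))
      (𝓝[>] 0) (𝓝 1)) {e : ℝ} (he : 0 < e) (hδe : 68 * δ ≤ e) :
    ∃ r₀ : ℝ, 0 < r₀ ∧ ∀ r : ℝ, 0 < r → r < r₀ → ∀ a w : ℝ, g - 8 * r ≤ w →
      w ≤ a → a ≤ g + 8 * r → PN a w ≤ P w w + (a - w) + 2 * e * r := by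
  obtain ⟨S, hS⟩ : ∃ S, S = |deriv (fun a => P a a) g| := ⟨_, rfl⟩
  have hS0 : 0 ≤ S := by rw [hS]; exact abs_nonneg _
  obtain ⟨r₁, hr₁, h1⟩ := affB_of hd (M := 16) (e := e / 4) (by norm_num) (by linarith)
  obtain ⟨η, hη⟩ : ∃ η, η = min (1 / 16) (e / (64 * (S + 1))) := ⟨_, rfl⟩
  have hη0 : 0 < η := by rw [hη]; exact lt_min (by norm_num) (by positivity)
  have hη1 : η ≤ 1 / 16 := by rw [hη]; exact min_le_left _ _
  have hη2 : (S + 1) * (16 * η) ≤ e / 4 := by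
    have h3 : η ≤ e / (64 * (S + 1)) := by rw [hη]; exact min_le_right _ _
    rw [le_div_iff₀ (by positivity)] at h3
    nlinarith
  obtain ⟨t₀, ht₀, h2⟩ := dens_pt hW hη0 (by linarith)
  refine ⟨min (min r₁ (t₀ / 16)) (min (min (g / 32) ((1 - g) / 32)) (q₀ / 32)),
    lt_min (lt_min hr₁ (by linarith)) (lt_min (lt_min (by linarith) (by linarith)) (by linarith)),
    fun r hr hr' a w hw hwa ha => ?_⟩
  have m1 : r < r₁ := (hr'.trans_le (min_le_left _ _)).trans_le (min_le_left _ _)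
  have m2 : r < t₀ / 16 := (hr'.trans_le (min_le_left _ _)).trans_le (min_le_right _ _)
  have m5 := hr'.trans_le (min_le_right _ _)
  have m3 : r < g / 32 := (m5.trans_le (min_le_left _ _)).trans_le (min_le_left _ _)
  have m4 : r < (1 - g) / 32 := (m5.trans_le (min_le_left _ _)).trans_le (min_le_right _ _)
  have m6 : r < q₀ / 32 := m5.trans_le (min_le_right _ _)
  obtain ⟨u, hu⟩ : ∃ u, u = η * (16 * r) := ⟨_, rfl⟩
  have hηr : u ≤ r := by rw [hu]; nlinarith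
  have hηr0 : 0 < u := by rw [hu]; positivity
  have hSu : (S + 1) * u ≤ e / 4 * r := by
    calc (S + 1) * u = (S + 1) * (16 * η) * r := by rw [hu]; ring
      _ ≤ e / 4 * r := mul_le_mul_of_nonneg_right hη2 hr.le
  have hwg : |w + u - g| ≤ 16 * r := by
    rw [abs_le]
    constructor <;> linarith
  obtain ⟨w', hw', l1, l2⟩ := h2 (16 * r) (by linarith) (by linarith) (w + u) hwg
  rw [← hu, add_sub_cancel_right] at l1
  obtain ⟨e1, e2⟩ := hE w' hw'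
  have k1 := e2 (a - w + u) (by linarith) (by linarith)
  have k2 := hN.mono (a := a) (a' := w' + (a - w + u)) (w := w) (w' := w') (by linarith) hwa
    (by linarith) l1 (by linarith) (by linarith)
  have k3 : P w' w' - P w w ≤ e / 4 * r + e / 4 * r + S * u := by
    have j1 := abs_le.1 (h1 r hr m1 w (by
      rw [abs_le]
      constructor <;> linarith))
    have j2 := abs_le.1 (h1 r hr m1 w' (by
      rw [abs_le]
      constructor <;> linarith))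
    have j3 : |deriv (fun a => P a a) g * (w' - w)| ≤ S * u := by
      rw [abs_mul, ← hS, abs_of_nonneg (show 0 ≤ w' - w by linarith)]
      exact mul_le_mul_of_nonneg_left (by linarith) hS0
    have j4 := abs_le.1 j3
    linarith [j1.1, j1.2, j2.1, j2.2, j4.1, j4.2]
  have k4 : δ * (a - w + u) ≤ e / 4 * r := by
    have j1 : δ * (a - w + u) ≤ δ * (17 * r) := mul_le_mul_of_nonneg_left (by linarith) hδ
    have j2 : 68 * δ * r ≤ e * r := mul_le_mul_of_nonneg_right hδe hr.le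
    linarith
  have her : 0 < e * r := mul_pos he hr
  linarith

/-- **Thin or steep**, at almost every window. -/
theorem thin_or_steep2 (hP : Law P) (hN : Law PN) {G : Set ℝ}
    (hG : ∀ᵐ g : ℝ, g ∈ G → 0 < g → g < 1 → P g g < 1 →
      PN g g = P g g ∧ LeAt PN P g ∧ StepAt PN P g) :
    ∀ᵐ g : ℝ, g ∈ G → 0 < g → g < 1 → P g g < 1 → ThinAt PN P g ∨ SteepAt 2 P g := by
  obtain ⟨X, hX⟩ : ∃ X : ℕ × ℕ → Set ℝ, X = fun (p : ℕ × ℕ) => {w | w + 1 / ((p.1 : ℝ) + 1) ≤ 1 ∧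
      ThD PN P (1 / ((p.2 : ℝ) + 2)) (1 / ((p.1 : ℝ) + 1)) w} := ⟨_, rfl⟩
  have hmono : ∀ x y : ℝ, 0 ≤ x → x ≤ y → y ≤ 1 → P x x ≤ P y y := fun x y h0 h1 h2 =>
    hP.mono h0 le_rfl h1 h1 le_rfl h2
  have hmonoN : ∀ x y : ℝ, 0 ≤ x → x ≤ y → y ≤ 1 → PN x x ≤ PN y y := fun x y h0 h1 h2 =>
    hN.mono h0 le_rfl h1 h1 le_rfl h2
  have hall : ∀ᵐ g : ℝ, ∀ p : ℕ × ℕ, g ∈ X p → Tendsto
      (fun r => volume (X p ∩ Metric.closedBall g r) / volume (Metric.closedBall g r))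
      (𝓝[>] 0) (𝓝 1) := by
    rw [ae_all_iff]
    exact fun p => ae_imp_of_ae_restrict (Besicovitch.ae_tendsto_measure_inter_div volume (X p))
  have hlw : ∀ᵐ g : ℝ, ∀ p : ℕ × ℕ,
      (∀ q₀ : ℝ, 0 < q₀ → ∃ q : ℝ, 0 < q ∧ q < q₀ ∧ Gn PN P (1 / ((p.2 : ℝ) + 2)) g q) →
      ∀ q₀ : ℝ, 0 < q₀ → ∃ q : ℝ, 0 < q ∧ q < q₀ ∧
        LW PN P (1 / ((p.1 : ℝ) + 1)) (1 / ((p.2 : ℝ) + 2)) g q :=
    ae_all_iff.2 fun p => lw_ae (by positivity)
  have hste : ∀ᵐ g : ℝ, ∀ K : ℚ, 0 < g → g < 1 → StK K P g →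
      DifferentiableAt ℝ (fun a => P a a) g ∧
      (∀ e : ℝ, 0 < e → ∃ r₀ : ℝ, 0 < r₀ ∧ ∀ r : ℝ, 0 < r → r < r₀ → ∀ a w : ℝ,
        g - 8 * r ≤ w → w ≤ a → a ≤ g + 8 * r → P w w + K * (a - w) ≤ P a w + e * r) ∧
      (deriv (fun a => P a a) g ≤ K → Pool.STR.StaAt P g) := ae_all_iff.2 fun K => steep_ae hP K
  filter_upwards [diff_ae hmono, diff_ae hmonoN, hall, hlw, hste, hG] with g hg1 hgN hg2 hg3 hg4 hg5
    hgG h0 h1 h2
  have hd := hg1 h0 h1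
  obtain ⟨hdia, hle, hstep⟩ := hg5 hgG h0 h1 h2
  by_cases hex : ∃ j : ℕ, ∀ q₀ : ℝ, 0 < q₀ → ∃ q : ℝ, 0 < q ∧ q < q₀ ∧
      Gn PN P (1 / ((j : ℝ) + 2)) g q
  · obtain ⟨j, hj⟩ := hex
    right
    -- the data
    obtain ⟨S₁, hS₁, s1⟩ := sbd hmono h0 h1 hd
    obtain ⟨S₂, hS₂, s2⟩ := sbd hmonoN h0 h1 (hgN h0 h1)
    have hB : Bd PN P g (max S₁ S₂) := ⟨hP, hN, h0, h1, h2, hS₁.trans (le_max_left _ _), hle, hdia,
      fun x hx0 hx1 => (s1 x hx0 hx1).trans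
        (mul_le_mul_of_nonneg_right (le_max_left _ _) (abs_nonneg _)),
      fun x hx0 hx1 => (s2 x hx0 hx1).trans
        (mul_le_mul_of_nonneg_right (le_max_right _ _) (abs_nonneg _))⟩
    have hδ0 : (0 : ℝ) < 1 / ((j : ℝ) + 2) := by positivity
    have hδ1 : 1 / ((j : ℝ) + 2) ≤ 1 / 2 :=
      one_div_le_one_div_of_le (by norm_num) (by linarith [(Nat.cast_nonneg j : (0 : ℝ) ≤ j)])
    have hL : ∀ k : ℕ, ∀ q₀ : ℝ, 0 < q₀ → ∃ q : ℝ, 0 < q ∧ q < q₀ ∧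
        LW PN P (1 / ((k : ℝ) + 1)) (1 / ((j : ℝ) + 2)) g q := fun k => hg3 (k, j) hj
    intro e he
    obtain ⟨K, hK1, hK2⟩ := exists_rat_btwn (show (2 : ℝ) - e / 64 < 2 by linarith)
    obtain ⟨-, hst, -⟩ := hg4 K h0 h1 (stk_of hB hstep hδ0 hδ1 hL hK2)
    obtain ⟨r₀, hr₀, h3⟩ := hst (e / 2) (by positivity)
    refine ⟨r₀, hr₀, fun r hr hr' a w k1 k2 k3 => ?_⟩
    have k4 := h3 r hr hr' a w k1 k2 k3
    have k5 : (2 - K) * (a - w) ≤ e / 64 * (16 * r) :=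
      mul_le_mul (by linarith) (by linarith) (by linarith) (by positivity)
    have her : 0 < e * r := by positivity
    linarith
  · push Not at hex
    left
    intro e he
    obtain ⟨j, hj⟩ := exists_nat_one_div_lt (show 0 < e / 200 by positivity)
    have hj' : 1 / ((j : ℝ) + 2) ≤ e / 200 := le_trans
      (one_div_le_one_div_of_le (by positivity) (by linarith)) hj.le
    obtain ⟨q₀, hq₀, hno⟩ := hex j
    obtain ⟨i, hi⟩ := exists_nat_one_div_lt (lt_min hq₀ (show (0 : ℝ) < 1 - g by linarith))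
    have hi1 := hi.trans_le (min_le_left _ _)
    have hi2 := hi.trans_le (min_le_right _ _)
    have hgX : g ∈ X (i, j) := by
      rw [hX]
      refine ⟨by
        show g + 1 / ((i : ℝ) + 1) ≤ 1
        linarith, fun x a1 a2 => ?_⟩
      have a3 : x ≤ 1 / ((i : ℝ) + 1) := a2
      have a4 := hno x a1 (by linarith)
      unfold Gn at a4
      push Not at a4
      exact a4.le
    obtain ⟨r₀, hr₀, h3⟩ := thin_boxD hN h0 h1 hd (q₀ := 1 / ((i : ℝ) + 1))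
      (δ := 1 / ((j : ℝ) + 2)) (by positivity) (by positivity) (W := X (i, j)) (fun w hw => by
        rw [hX] at hw
        exact hw) (hg2 (i, j) hgX) (e := e / 2) (by positivity) (by linarith)
    refine ⟨r₀, hr₀, fun r hr hr' a w k1 k2 k3 => ?_⟩
    have k4 := h3 r hr hr' a w k1 k2 k3
    linarith

end Pool.NMS
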