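import Pool.Agent.H90.ISO.Num2
import Pool.Agent.H2.GEN.AttH

/-!
# The auxiliary windows

`scales`: at a window where the coordinates of the list are static (contact) or rough, up to `o (q)`,
a gain of the target which is proportional to the depth gives the numbers of the auxiliary windows.
-/

set_option autoImplicit false

namespace Pool.NMS

open Filter Topology

/-- The local numbers at a window `g`. `ct`: the contact coordinates of the list. -/
def Loc (D : ℕ → ℝ → ℝ) (N : ℕ → ℝ → ℝ → ℝ) (Sl : ℕ → ℝ) (ct : ℕ → Prop) (i : ℕ) (g : ℝ) : Prop :=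
  ∀ e : ℝ, 0 < e → ∃ r₀ : ℝ, 0 < r₀ ∧ ∀ q : ℝ, 0 < q → q < r₀ → ∀ a w : ℝ, g - 8 * q ≤ w →
    w ≤ a → a ≤ g + 8 * q → (∀ l ≤ i, |D l a - D l w - Sl l * (a - w)| ≤ e * q) ∧
      (∀ l < i, ct l → D l a ≤ N l a w + e * q) ∧
      ∀ l < i, ¬ ct l → N l a w ≤ D l w + (a - w) + e * q

/-- The numbers of the auxiliary windows. -/
structure Nmb (D : ℕ → ℝ → ℝ) (N : ℕ → ℝ → ℝ → ℝ) (ct : ℕ → Prop) (i R : ℕ) (M : ℝ) (ξ η : ℕ → ℝ)
    (e q w : ℝ) : Prop where
  p2 : ∀ k ≤ i, (k = i ∨ ct k) → D k w + (1 + η k) * q + e * q ≤ N k (w + q) w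
  p3 : ∀ k ≤ i, (k = i ∨ ct k) →
    D k w + (1 + η k) * q + e * q ≤ D k (w + ξ k * q) + (q - ξ k * q)
  sd : ∀ k ≤ i, ∀ l ≤ i, D l (w + ξ k * q) - D l w ≤ M * (ξ k * q)
  c1 : ∀ k ≤ i, (k = i ∨ ct k) → ∀ l < k, ct l →
    D l (w + ξ k * q) + (1 + η k) * q + R * (M * (ξ k * q)) + e * q ≤ N l (w + q) (w + ξ k * q)
  c2 : ∀ k ≤ i, (k = i ∨ ct k) → ∀ l < k, ct l →
    D l (w + ξ k * q) + (1 + η k) * q + R * (M * (ξ k * q)) + e * q ≤ D l w + (1 + η l) * q
  st : ∀ k ≤ i, ∀ l < i, ct l → N l (w + q) (w + ξ k * q) ≤ N l (w + q) w + e * q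
  rg : ∀ k ≤ i, ∀ l < i, ¬ ct l →
    N l (w + q) (w + ξ k * q) ≤ D l (w + ξ k * q) + (q - ξ k * q) + e * q
  rg0 : ∀ l < i, ¬ ct l → N l (w + q) w ≤ D l w + q + e * q

/-- **The auxiliary windows.** -/
theorem scales {D : ℕ → ℝ → ℝ} {N : ℕ → ℝ → ℝ → ℝ} {Sl : ℕ → ℝ} {ct : ℕ → Prop} {i R : ℕ} {g : ℝ}
    (hg0 : 0 < g) (hg1 : g < 1) (h : Loc D N Sl ct i g) (hct : ∀ l < i, ct l → 1 < Sl l)
    (hND : ∀ l ≤ i, ∀ a w : ℝ, 0 ≤ w → w ≤ a → a ≤ 1 → N l a w ≤ D l a) {δ : ℝ} (hδ : 0 < δ)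
    (hδ1 : δ ≤ 1) :
    ∃ (ξ η : ℕ → ℝ) (M c₀ : ℝ), (∀ k, 0 < ξ k ∧ ξ k ≤ 1 / 4 ∧ 0 < η k ∧ η k ≤ 1 / 4) ∧ 1 ≤ M ∧
      0 < c₀ ∧ ∀ e : ℝ, 0 < e → e ≤ c₀ → ∃ q₁ : ℝ, 0 < q₁ ∧ ∀ q w : ℝ, 0 < q → q < q₁ →
        |w - g| ≤ 2 * q → D i w + q + δ * q ≤ N i (w + q) w → Nmb D N ct i R M ξ η e q w := by
  classical
  -- the constants
  obtain ⟨κ, hκ, hκ1, hκδ, hκS⟩ : ∃ κ : ℝ, 0 < κ ∧ κ ≤ 1 / 4 ∧ κ ≤ δ / 8 ∧
      ∀ l < i, ct l → 4 * κ ≤ Sl l - 1 := by
    obtain ⟨κ, h1, h2⟩ := Pool.CHT.fin_pos i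
      (f := fun l => if ct l then (Sl l - 1) / 4 else 1) fun l hl => by
        by_cases hl' : ct l
        · rw [if_pos hl']
          have := hct l hl hl'
          linarith
        · rw [if_neg hl']
          exact one_pos
    refine ⟨min κ (min (1 / 4) (δ / 8)), lt_min h1 (lt_min (by norm_num) (by positivity)),
      (min_le_right _ _).trans (min_le_left _ _), (min_le_right _ _).trans (min_le_right _ _),
      fun l hl hl' => ?_⟩
    have := h2 l hl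
    rw [if_pos hl'] at this
    linarith [min_le_left κ (min (1 / 4) (δ / 8))]
  obtain ⟨M, hM1, hMS⟩ : ∃ M : ℝ, 1 ≤ M ∧ ∀ l ≤ i, Sl l + 1 ≤ M := by
    refine ⟨1 + ∑ l ∈ Finset.range (i + 1), |Sl l|, by
      have : 0 ≤ ∑ l ∈ Finset.range (i + 1), |Sl l| := Finset.sum_nonneg fun l _ => abs_nonneg _
      linarith, fun l hl => ?_⟩
    have h1 := Finset.single_le_sum (f := fun l => |Sl l|) (fun l _ => abs_nonneg _)
      (Finset.mem_range.2 (show l < i + 1 by omega))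
    have h2 := le_abs_self (Sl l)
    linarith
  have hR0 : (0 : ℝ) ≤ R := Nat.cast_nonneg R
  have hRM : 0 < 4 * ((R : ℝ) + 4) * M := by positivity
  obtain ⟨ζ, hζ⟩ : ∃ ζ : ℝ, ζ = κ / (4 * ((R : ℝ) + 4) * M) := ⟨_, rfl⟩
  have hζ0 : 0 < ζ := by rw [hζ]; positivity
  have hζκ : ζ * (4 * ((R : ℝ) + 4) * M) = κ := by rw [hζ]; exact div_mul_cancel₀ _ hRM.ne'
  have h1M : 1 ≤ ((R : ℝ) + 4) * M := by nlinarith
  have hζ1 : ζ ≤ 1 / 16 := by
    have : ζ * 4 ≤ ζ * (4 * ((R : ℝ) + 4) * M) := mul_le_mul_of_nonneg_left (by linarith) hζ0.le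
    linarith
  have hζR : ζ * (((R : ℝ) + 1) * M) ≤ κ / 4 := by
    have h1 : ζ * (((R : ℝ) + 1) * M) ≤ ζ * (((R : ℝ) + 4) * M) :=
      mul_le_mul_of_nonneg_left (mul_le_mul_of_nonneg_right (by linarith) (by linarith)) hζ0.le
    linarith
  obtain ⟨ξ, hξ⟩ : ∃ ξ : ℕ → ℝ, ξ = fun k => ζ ^ (k + 1) := ⟨_, rfl⟩
  have hξ0 : ∀ k, 0 < ξ k := fun k => by rw [hξ]; positivity
  have hξ1 : ∀ k, ξ k ≤ ζ := fun k => by
    rw [hξ]
    show ζ ^ (k + 1) ≤ ζ
    rw [pow_succ]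
    have := pow_le_one₀ (n := k) hζ0.le (by linarith : ζ ≤ 1)
    nlinarith
  have hξk : ∀ l k, l < k → ξ k ≤ ζ * ξ l := fun l k hlk => by
    rw [hξ]
    show ζ ^ (k + 1) ≤ ζ * ζ ^ (l + 1)
    rw [← pow_succ']
    exact pow_le_pow_of_le_one hζ0.le (by linarith) (by omega)
  have hξi : ∀ k ≤ i, ξ i ≤ ξ k := fun k hk => by
    rw [hξ]
    exact pow_le_pow_of_le_one hζ0.le (by linarith) (by omega)
  have hη4 : ∀ k, κ * ξ k ≤ κ / 4 := fun k => by
    have : κ * ξ k ≤ κ * (1 / 4) := mul_le_mul_of_nonneg_left ((hξ1 k).trans (by linarith)) hκ.le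
    linarith
  have hκξ : 0 < κ * ξ i := mul_pos hκ (hξ0 i)
  have hξi1 : ξ i ≤ 1 / 16 := (hξ1 i).trans hζ1
  refine ⟨ξ, fun k => κ * ξ k, M, κ * ξ i / 8, fun k => ⟨hξ0 k, (hξ1 k).trans (by linarith),
    mul_pos hκ (hξ0 k), (hη4 k).trans (by linarith)⟩, hM1, by positivity, ?_⟩
  intro e he hec
  have hec' : ∀ k ≤ i, 8 * e ≤ κ * ξ k := fun k hk => by
    have : κ * ξ i ≤ κ * ξ k := mul_le_mul_of_nonneg_left (hξi k hk) hκ.le
    linarith
  have heκ : 8 * e ≤ κ / 4 := (hec' i le_rfl).trans (hη4 i)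
  obtain ⟨r₀, hr₀, hloc⟩ := h e he
  refine ⟨min r₀ (min (g / 8) ((1 - g) / 8)), lt_min hr₀ (lt_min (by linarith) (by linarith)),
    fun q w hq hqm hw hgain => ?_⟩
  have m1 := hqm.trans_le (min_le_left _ _)
  have m2 := (hqm.trans_le (min_le_right _ _)).trans_le (min_le_left _ _)
  have m3 := (hqm.trans_le (min_le_right _ _)).trans_le (min_le_right _ _)
  have hw' := abs_le.1 hw
  have hξq : ∀ k, 0 < ξ k * q ∧ ξ k * q ≤ q / 4 := fun k => ⟨mul_pos (hξ0 k) hq, by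
    have : ξ k * q ≤ 1 / 4 * q :=
      mul_le_mul_of_nonneg_right ((hξ1 k).trans (by linarith)) hq.le
    linarith⟩
  have hdiff : ∀ l ≤ i, |D l (w + q) - D l w - Sl l * q| ≤ e * q := fun l hl => by
    have := (hloc q hq m1 (w + q) w (by linarith) (by linarith) (by linarith)).1 l hl
    rwa [add_sub_cancel_left] at this
  have hdiffk : ∀ k, ∀ l ≤ i, |D l (w + ξ k * q) - D l w - Sl l * (ξ k * q)| ≤ e * q :=
    fun k l hl => by
      have := (hloc q hq m1 (w + ξ k * q) w (by linarith) (by linarith [(hξq k).1])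
        (by linarith [(hξq k).2])).1 l hl
      rwa [add_sub_cancel_left] at this
  have hct0 : ∀ l < i, ct l → D l (w + q) ≤ N l (w + q) w + e * q := fun l hl hl' =>
    (hloc q hq m1 (w + q) w (by linarith) (by linarith) (by linarith)).2.1 l hl hl'
  have hctk : ∀ k, ∀ l < i, ct l → D l (w + q) ≤ N l (w + q) (w + ξ k * q) + e * q :=
    fun k l hl hl' => (hloc q hq m1 (w + q) (w + ξ k * q) (by linarith [(hξq k).1])
      (by linarith [(hξq k).2]) (by linarith)).2.1 l hl hl'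
  -- the slope of the target
  have hSi : 4 * κ ≤ Sl i - 1 := by
    have h1 := hND i le_rfl (w + q) w (by linarith) (by linarith) (by linarith)
    have h2 := (abs_le.1 (hdiff i le_rfl)).2
    have h3 : (1 + δ - e) * q ≤ Sl i * q := by linarith
    have h4 := le_of_mul_le_mul_right h3 hq
    linarith
  have hS : ∀ k ≤ i, (k = i ∨ ct k) → 4 * κ ≤ Sl k - 1 := fun k hk hk' => by
    rcases hk' with rfl | hk'
    · exact hSi
    · rcases Nat.lt_or_ge k i with h1 | h1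
      · exact hκS k h1 hk'
      · obtain rfl : k = i := by omega
        exact hSi
  -- the products
  have heq : 0 < e * q := mul_pos he hq
  have hκq : 32 * (e * q) ≤ κ * q := by
    have : 32 * e * q ≤ κ * q := mul_le_mul_of_nonneg_right (by linarith) hq.le
    linarith
  have hκξq : ∀ k ≤ i, 8 * (e * q) ≤ κ * ξ k * q := fun k hk => by
    have : 8 * e * q ≤ κ * ξ k * q := mul_le_mul_of_nonneg_right (hec' k hk) hq.le
    linarith
  have hκξq4 : ∀ k, κ * ξ k * q ≤ κ / 4 * q := fun k => mul_le_mul_of_nonneg_right (hη4 k) hq.le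
  have hSq : ∀ k ≤ i, (k = i ∨ ct k) → 4 * (κ * q) ≤ (Sl k - 1) * q := fun k hk hk' => by
    have := mul_le_mul_of_nonneg_right (hS k hk hk') hq.le
    linarith
  have hSξq : ∀ k ≤ i, (k = i ∨ ct k) → 4 * (κ * ξ k * q) ≤ (Sl k - 1) * (ξ k * q) :=
    fun k hk hk' => by
      have := mul_le_mul_of_nonneg_right (hS k hk hk') (hξq k).1.le
      linarith
  have hRq : ∀ k, ((R : ℝ) + 1) * (M * (ξ k * q)) ≤ κ / 4 * q := fun k => by
    have h1 : ξ k * (((R : ℝ) + 1) * M) ≤ ζ * (((R : ℝ) + 1) * M) :=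
      mul_le_mul_of_nonneg_right (hξ1 k) (by positivity)
    have h2 := mul_le_mul_of_nonneg_right (h1.trans hζR) hq.le
    linarith
  have hRξq : ∀ l k, l < k → ((R : ℝ) + 1) * (M * (ξ k * q)) ≤ 1 / 4 * (κ * ξ l * q) :=
    fun l k hlk => by
      have h1 : ξ k * (((R : ℝ) + 1) * M) ≤ ζ * ξ l * (((R : ℝ) + 1) * M) :=
        mul_le_mul_of_nonneg_right (hξk l k hlk) (by positivity)
      have h2 : ζ * ξ l * (((R : ℝ) + 1) * M) ≤ κ / 4 * ξ l := by
        have := mul_le_mul_of_nonneg_right hζR (hξ0 l).le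
        linarith
      have h3 := mul_le_mul_of_nonneg_right (h1.trans h2) hq.le
      linarith
  have hηlk : ∀ l k, l < k → κ * ξ k * q ≤ 1 / 16 * (κ * ξ l * q) := fun l k hlk => by
    have h1 : ξ k ≤ 1 / 16 * ξ l :=
      (hξk l k hlk).trans (mul_le_mul_of_nonneg_right hζ1 (hξ0 l).le)
    have h2 := mul_le_mul_of_nonneg_right (mul_le_mul_of_nonneg_left h1 hκ.le) hq.le
    linarith
  have hMq : ∀ k ≤ i, ∀ l ≤ i, Sl l * (ξ k * q) + e * q ≤ M * (ξ k * q) := fun k hk l hl => by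
    have h1 := mul_le_mul_of_nonneg_right (hMS l hl) (hξq k).1.le
    have h2 : e * q ≤ ξ k * q := by
      have h3 := hec' k hk
      have h4 : κ * ξ k ≤ 1 / 4 * ξ k := mul_le_mul_of_nonneg_right hκ1 (hξ0 k).le
      exact mul_le_mul_of_nonneg_right (by linarith) hq.le
    linarith
  have hsd : ∀ k ≤ i, ∀ l ≤ i, D l (w + ξ k * q) - D l w ≤ M * (ξ k * q) := fun k hk l hl => by
    have h1 := (abs_le.1 (hdiffk k l hl)).2
    have h2 := hMq k hk l hl
    linarith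
  refine ⟨fun k hk hk' => ?_, fun k hk hk' => ?_, hsd, fun k hk hk' l hl hl' => ?_,
    fun k hk hk' l hl hl' => ?_, fun k hk l hl hl' => ?_, fun k hk l hl hl' => ?_,
    fun l hl hl' => ?_⟩
  · -- p2
    rcases Nat.lt_or_ge k i with h1 | h1
    · have hk'' : ct k := hk'.resolve_left h1.ne
      have h2 := (abs_le.1 (hdiff k hk)).1
      have h3 := hct0 k h1 hk''
      have h4 := hSq k hk hk'
      have h5 := hκξq4 k
      linarith
    · obtain rfl : k = i := by omega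
      have h5 := hκξq4 k
      have h6 : κ * q ≤ δ / 8 * q := mul_le_mul_of_nonneg_right hκδ hq.le
      linarith
  · -- p3
    have h2 := (abs_le.1 (hdiffk k k hk)).1
    have h4 := hSξq k hk hk'
    have h5 := hκξq k hk
    linarith
  · -- c1
    have hli : l < i := by omega
    have h1 := hsd k hk l hli.le
    have h2 := hctk k l hli hl'
    have h3 := (abs_le.1 (hdiff l hli.le)).1
    have h4 := hSq l hli.le (Or.inr hl')
    have h5 := hκξq4 k
    have h6 := hRq k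
    linarith
  · -- c2
    have hli : l < i := by omega
    have h1 := hsd k hk l hli.le
    have h5 := hηlk l k hl
    have h6 := hRξq l k hl
    have h7 := hκξq l hli.le
    linarith
  · -- st
    have h1 := hND l hl.le (w + q) (w + ξ k * q) (by linarith [(hξq k).1])
      (by linarith [(hξq k).2]) (by linarith)
    have h2 := hct0 l hl hl'
    linarith
  · -- rg
    have := (hloc q hq m1 (w + q) (w + ξ k * q) (by linarith [(hξq k).1])
      (by linarith [(hξq k).2]) (by linarith)).2.2 l hl hl'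
    linarith
  · -- rg0
    have := (hloc q hq m1 (w + q) w (by linarith) (by linarith) (by linarith)).2.2 l hl hl'
    linarith

end Pool.NMS
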