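import Pool.Agent.H90.ISO.Num2

/-!
# Static from steep

If `P` is `2`-steep near `g`, `P ≤ PN` near `g`, and the diagonals agree at `g` and have a slope at
most two there, then `PN` is static at `g`.
-/

set_option autoImplicit false

namespace Pool.NMS

open MeasureTheory Set Filter Topology
open Pool.LEV (Law)
open Pool.QNT (diff_ae dens_pt affB_of)
open Pool.STR (ThinAt SteepAt StaAt StaD)

variable {P PN : ℝ → ℝ → ℝ}

/-- The diagonals near `g`. -/
theorem dia_le {g : ℝ} (hP : Law P) (hN : Law PN) (hg0 : 0 < g) (hg1 : g < 1) (hle : LeAt PN P g) :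
    ∃ ρ : ℝ, 0 < ρ ∧ ∀ w a : ℝ, g - ρ < w → w < a → a < g + ρ → P w w ≤ PN a a := by
  obtain ⟨ρ, hρ, h⟩ := hle
  refine ⟨min ρ (min (g / 2) (1 - g)), lt_min hρ (lt_min (by linarith) (by linarith)),
    fun w a h1 h2 h3 => ?_⟩
  have m1 := min_le_left ρ (min (g / 2) (1 - g))
  have m2 := (min_le_right ρ (min (g / 2) (1 - g))).trans (min_le_left _ _)
  have m3 := (min_le_right ρ (min (g / 2) (1 - g))).trans (min_le_right _ _)
  obtain ⟨a', w', k1, k2, k3, k4, k5, k6⟩ := h a ((w + a) / 2) ((a - w) / 2) (by linarith)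
    (by linarith) (by linarith) (by linarith)
  have k7 : P w w ≤ P a' w' := hP.mono (by linarith) le_rfl (by linarith) (by linarith) k5
    (by linarith)
  have k8 : PN a' w' ≤ PN a a := hN.mono (by linarith) k5 k2 (by linarith) le_rfl (by linarith)
  linarith

/-- The slopes of the diagonals agree. -/
theorem slope_eq {g : ℝ} {D D' : ℝ → ℝ} (hd : DifferentiableAt ℝ D g)
    (hd' : DifferentiableAt ℝ D' g) (heq : D' g = D g)
    (h : ∃ ρ : ℝ, 0 < ρ ∧ ∀ w a : ℝ, g - ρ < w → w < a → a < g + ρ → D w ≤ D' a) :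
    deriv D' g = deriv D g := by
  obtain ⟨ρ, hρ, h⟩ := h
  have key : ∀ e : ℝ, 0 < e → |deriv D' g - deriv D g| ≤ 3 * e + e * (|deriv D g|) := by
    intro e he
    obtain ⟨r₁, hr₁, h1⟩ := affB_of hd (M := 4) (e := e) (by norm_num) he
    obtain ⟨r₂, hr₂, h2⟩ := affB_of hd' (M := 4) (e := e) (by norm_num) he
    obtain ⟨r, hr⟩ : ∃ r : ℝ, r = min (min (r₁ / 2) (r₂ / 2)) (ρ / 8) := ⟨_, rfl⟩
    have hr0 : 0 < r := by rw [hr]; exact lt_min (lt_min (by linarith) (by linarith)) (by linarith)
    have a1 : r < r₁ := by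
      have : r ≤ r₁ / 2 := by rw [hr]; exact (min_le_left _ _).trans (min_le_left _ _)
      linarith
    have a2 : r < r₂ := by
      have : r ≤ r₂ / 2 := by rw [hr]; exact (min_le_left _ _).trans (min_le_right _ _)
      linarith
    have a3 : r ≤ ρ / 8 := by rw [hr]; exact min_le_right _ _
    -- the two sides
    have s1 : ∀ h' : ℝ, |h'| ≤ 2 * r → ∀ u : ℝ, 0 < u → u ≤ r →
        deriv D g * (h' - u) - e * r ≤ deriv D' g * h' + e * r := by
      intro h' hh u hu hur
      have hh1 := abs_le.1 hh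
      have k1 := abs_le.1 (h1 r hr0 a1 (g + h' - u) (by
        rw [abs_le]
        constructor <;> linarith))
      have k2 := abs_le.1 (h2 r hr0 a2 (g + h') (by
        rw [abs_le]
        constructor <;> linarith))
      have k3 := h (g + h' - u) (g + h') (by linarith) (by linarith) (by linarith)
      have e1 : g + h' - u - g = h' - u := by ring
      have e2 : g + h' - g = h' := by ring
      rw [e1] at k1
      rw [e2] at k2
      linarith [k1.1, k1.2, k2.1, k2.2]
    have l1 := s1 r (by rw [abs_of_pos hr0]; linarith) (min e 1 * r)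
      (mul_pos (lt_min he one_pos) hr0) (by
        have := mul_le_mul_of_nonneg_right (min_le_right e 1) hr0.le
        linarith)
    have l2 := s1 (-r) (by rw [abs_neg, abs_of_pos hr0]; linarith) (min e 1 * r)
      (mul_pos (lt_min he one_pos) hr0) (by
        have := mul_le_mul_of_nonneg_right (min_le_right e 1) hr0.le
        linarith)
    have l3 : |deriv D g * (min e 1 * r)| ≤ |deriv D g| * (e * r) := by
      rw [abs_mul]
      refine mul_le_mul_of_nonneg_left ?_ (abs_nonneg _)
      rw [abs_of_pos (mul_pos (lt_min he one_pos) hr0)]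
      exact mul_le_mul_of_nonneg_right (min_le_left _ _) hr0.le
    have l4 := abs_le.1 l3
    rw [abs_le]
    constructor
    · have : -(3 * e + e * |deriv D g|) * r ≤ (deriv D' g - deriv D g) * r := by
        nlinarith [l4.1, l4.2]
      exact le_of_mul_le_mul_right this hr0
    · have : (deriv D' g - deriv D g) * r ≤ (3 * e + e * |deriv D g|) * r := by
        nlinarith [l4.1, l4.2]
      exact le_of_mul_le_mul_right this hr0
  have h0 : |deriv D' g - deriv D g| ≤ 0 := by
    refine le_of_forall_pos_le_add fun ε hε => ?_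
    have hp : 0 < 3 + |deriv D g| := by
      have := abs_nonneg (deriv D g)
      linarith
    have := key (ε / (3 + |deriv D g|)) (by positivity)
    refine this.trans (le_of_eq ?_)
    field_simp
    ring
  have h1 := abs_nonneg (deriv D' g - deriv D g)
  have h2 : |deriv D' g - deriv D g| = 0 := le_antisymm h0 h1
  rw [abs_eq_zero] at h2
  linarith

/-- **Static from steep.** -/
theorem sta_of2 {g : ℝ} (hP : Law P) (hN : Law PN) (hg0 : 0 < g) (hg1 : g < 1)
    (hd : DifferentiableAt ℝ (fun a => P a a) g) (hd' : DifferentiableAt ℝ (fun a => PN a a) g)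
    (heq : PN g g = P g g) (hle : LeAt PN P g) (hst : SteepAt 2 P g)
    (hs : deriv (fun a => PN a a) g ≤ 2) : StaAt PN g := by
  have hsl := slope_eq hd hd' heq (dia_le hP hN hg0 hg1 hle)
  obtain ⟨ρ, hρ, hle⟩ := hle
  intro e he
  obtain ⟨r₀, hr₀, h0⟩ := hst (e / 4) (by linarith)
  obtain ⟨r₁, hr₁, h1⟩ := affB_of hd (M := 16) (e := e / 16) (by norm_num) (by linarith)
  obtain ⟨r₂, hr₂, h2⟩ := affB_of hd' (M := 16) (e := e / 16) (by norm_num) (by linarith)
  refine ⟨min (min (r₀ / 2) (min r₁ r₂)) (min (ρ / 16) (min (g / 16) ((1 - g) / 16))), ?_,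
    fun r hr hr' a w hw hwa ha => ?_⟩
  · exact lt_min (lt_min (by linarith) (lt_min hr₁ hr₂)) (lt_min (by linarith)
      (lt_min (by linarith) (by linarith)))
  have m0 : r < r₀ / 2 := (hr'.trans_le (min_le_left _ _)).trans_le (min_le_left _ _)
  have m1 : r < r₁ := ((hr'.trans_le (min_le_left _ _)).trans_le (min_le_right _ _)).trans_le
    (min_le_left _ _)
  have m2 : r < r₂ := ((hr'.trans_le (min_le_left _ _)).trans_le (min_le_right _ _)).trans_le
    (min_le_right _ _)
  have m3 : r < ρ / 16 := (hr'.trans_le (min_le_right _ _)).trans_le (min_le_left _ _)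
  have m4 : r < g / 16 := ((hr'.trans_le (min_le_right _ _)).trans_le (min_le_right _ _)).trans_le
    (min_le_left _ _)
  have m5 : r < (1 - g) / 16 := ((hr'.trans_le (min_le_right _ _)).trans_le
    (min_le_right _ _)).trans_le (min_le_right _ _)
  have her : 0 < e * r := mul_pos he hr
  rcases hwa.eq_or_lt with rfl | hwa
  · linarith
  obtain ⟨s, hs'⟩ : ∃ s : ℝ, s = deriv (fun a => P a a) g := ⟨_, rfl⟩
  have hN2 := h2 r hr m2 a (by
    rw [abs_le]
    constructor <;> linarith)
  rw [hsl] at hN2 hs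
  rw [← hs'] at hN2 hs
  have h1' : ∀ t : ℝ, |t - g| ≤ 16 * r → |P t t - P g g - s * (t - g)| ≤ e / 16 * r := by
    rw [hs']
    exact h1 r hr m1
  have hN3 := abs_le.1 hN2
  -- `P ≤ PN`
  have key : ∀ ε : ℝ, 0 < ε → P w w + 2 * (a - w) ≤ PN a w + e / 2 * r + e / 8 * r + ε := by
    intro ε hε
    obtain ⟨ε', hε'⟩ : ∃ ε' : ℝ, ε' = min (ε / (4 + |s|)) (min r (a - w)) := ⟨_, rfl⟩
    have hp : 0 < 4 + |s| := by
      have := abs_nonneg s
      linarith
    have e0 : 0 < ε' := by
      rw [hε']
      exact lt_min (by positivity) (lt_min hr (by linarith))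
    have e1 : ε' * (4 + |s|) ≤ ε := by
      have : ε' ≤ ε / (4 + |s|) := by rw [hε']; exact min_le_left _ _
      rwa [le_div_iff₀ hp] at this
    have e2 : ε' ≤ r := by rw [hε']; exact (min_le_right _ _).trans (min_le_left _ _)
    obtain ⟨a', w', l1, l2, l3, l4, l5, l6⟩ := hle a w ε' (by linarith) hwa (by linarith) e0
    have k1 := h0 (2 * r) (by linarith) (by linarith) a' w' (by linarith) l5 (by linarith)
    have k2 : PN a' w' ≤ PN a w := hN.mono (by linarith) l5 l2 l4 hwa.le (by linarith)
    have k3 := abs_le.1 (h1' w (by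
      rw [abs_le]
      constructor <;> linarith))
    have k4 := abs_le.1 (h1' w' (by
      rw [abs_le]
      constructor <;> linarith))
    have k5 : s * (w - w') ≤ |s| * ε' := by
      calc s * (w - w') ≤ |s| * (w - w') := mul_le_mul_of_nonneg_right (le_abs_self s) (by linarith)
        _ ≤ |s| * ε' := mul_le_mul_of_nonneg_left (by linarith) (abs_nonneg s)
    have k6 : s * (w' - g) = s * (w - g) - s * (w - w') := by ring
    have k7 : ε' * (4 + |s|) = 4 * ε' + |s| * ε' := by ring
    linarith [k3.1, k3.2, k4.1, k4.2]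
  have key2 := le_of_forall_pos_le_add key
  have k3 := abs_le.1 (h1' w (by
    rw [abs_le]
    constructor <;> linarith))
  have k4 : s * (a - w) ≤ 2 * (a - w) := mul_le_mul_of_nonneg_right hs (by linarith)
  have k5 : s * (a - g) = s * (a - w) + s * (w - g) := by ring
  have k6 : s * (a - g) - s * (w - g) = s * (a - w) := by ring
  have heq' : (fun a => PN a a) g = PN g g := rfl
  linarith [k3.1, k3.2, hN3.1, hN3.2]

end Pool.NMS
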