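import Pool.Agent.H90.ISO.StA

/-!
# One step, at almost every good window

`PkT.step_at`: at almost every good window where the coordinates before `i` are thin or static, a
gain of the coordinate `i` at one scale makes the threshold over the fattest boxes `2`-steep
(`StepAt`). The input `EvTC` is the class composition with contact coordinates.
-/

set_option autoImplicit false

namespace Pool.PKG

open MeasureTheory Set Filter Topology
open Pool.Agent.H49.Ent Pool.Agent.H32.Dense Pool.STK Pool.KA Pool.KSAT Pool.K2S Pool.PB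
open Pool.GEN Pool.S6C Pool.STAT Pool.CHT Pool.GRW Pool.ONE Pool.STA
open Pool.LBT (LSys ThrOf)
open Pool.LEV (Law)
open Pool.TOP (TopS)
open Pool.RTS (iso)
open Pool.QNT (affB_of)
open Pool.STR (StK DPS dia_ae ThinAt SteepAt StaAt StaD)
open Pool.CHB (chsysB)
open Pool.ISO (PtD Att2 lvN WinD ex_good)
open Pool.TRM (Cw cw_ae EvT dps_stkT)
open Pool.NMS (LeAt StepAt Gn leAt_of dia_le slope_eq)

/-- **The class composition**, for one target of the order: contact coordinates `ct`, rough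
coordinates, and a gain of the target proportional to the depth. -/
def EvTC (r : ℕ) (Sb del : ℝ) : Prop :=
  ∃ (h₀ : ℝ) (U : ℕ → ℝ), 0 < h₀ ∧ (∀ k, 0 < U k ∧ U k ≤ 1 / 2) ∧ ∀ (m S₀ : ℕ), 1 ≤ S₀ →
    ∃ D : ℕ, ∀ τ₀ : ℝ, 0 < τ₀ → ∃ ε₀ : ℝ, 0 < ε₀ ∧ ∀ {S : PCl m}
      {P : List (Fin m) × Fin m → ℝ → ℝ → ℝ} {θ : ℝ} {c : ℕ → Fin m} {Pt : ℝ → ℝ → ℝ}
      {ct : ℕ → Prop} {i : ℕ} {w q Eb e : ℝ} (Sl : ℕ → ℝ), i ≤ r → ThrOf (chsys m θ) S P → 0 < θ →
      TmH S → Set.InjOn c (Set.Iio (r + 1)) → Law Pt → 0 < q → q ≤ w →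
      WinD S P θ c r Pt (w + q) w S₀ Eb (ε₀ * q) (fun l => l < i ∧ ¬ ct l) →
      (∀ k ≤ i, WinD S P θ c r Pt (w + q) (w + U k * q) S₀ Eb (ε₀ * q)
        (fun l => l < i ∧ ¬ ct l)) →
      Eb + τ₀ * q ≤ e →
      (∀ l ≤ i, 1 ≤ Sl l ∧ Sl l ≤ Sb ∧ ∀ k ≤ i, |lvN P c r Pt l (w + U k * q) (w + U k * q) -
        lvN P c r Pt l w w - Sl l * (U k * q)| ≤ ε₀ * q) →
      (∀ l < i, ct l → 1 + del ≤ Sl l ∧
        |lvN P c r Pt l (w + q) w - lvN P c r Pt l w w - Sl l * q| ≤ ε₀ * q ∧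
        ∀ k ≤ i, |lvN P c r Pt l (w + q) (w + U k * q) - lvN P c r Pt l w w - Sl l * q| ≤
          ε₀ * q) →
      1 + del ≤ Sl i → lvN P c r Pt i w w + q + del * q ≤ lvN P c r Pt i (w + q) w →
      EvT S c i D w (w + q) (lvN P c r Pt i w w + q + h₀ * q) e (τ₀ * q)
        (fun l => lvN P c r Pt l w w)

theorem ev_pos {φ : ℝ → Prop} (h : ∃ r₀ : ℝ, 0 < r₀ ∧ ∀ r : ℝ, 0 < r → r < r₀ → φ r) :
    ∀ᶠ r in 𝓝[>] (0 : ℝ), φ r := by
  obtain ⟨r₀, hr₀, h⟩ := h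
  filter_upwards [Ioo_mem_nhdsGT hr₀] with r hr
  exact h r hr.1 hr.2

theorem pos_ev {φ : ℝ → Prop} (h : ∀ᶠ r in 𝓝[>] (0 : ℝ), φ r) :
    ∃ r₀ : ℝ, 0 < r₀ ∧ ∀ r : ℝ, 0 < r → r < r₀ → φ r := by
  obtain ⟨r₀, hr₀, h⟩ := (mem_nhdsGT_iff_exists_Ioo_subset).1 h
  exact ⟨r₀, hr₀, fun r h1 h2 => h ⟨h1, h2⟩⟩

/-- The slope of a diagonal is at least one. -/
theorem one_le_slope {P : ℝ → ℝ → ℝ} (hP : Law P) {g : ℝ} (hg0 : 0 < g) (hg1 : g < 1)
    (hp1 : P g g < 1) (hd : DifferentiableAt ℝ (fun a => P a a) g) :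
    1 ≤ deriv (fun a => P a a) g := by
  refine le_of_forall_pos_le_add fun e he => ?_
  obtain ⟨r₀, hr₀, h⟩ := affB_of hd (M := 1) (e := e) one_pos he
  obtain ⟨r, hr⟩ : ∃ r : ℝ, r = min (r₀ / 2) (min ((1 - g) / 2) ((1 - P g g) / 2)) := ⟨_, rfl⟩
  have hr0 : 0 < r := by
    rw [hr]
    exact lt_min (by linarith) (lt_min (by linarith) (by linarith))
  have m1 : r ≤ r₀ / 2 := by rw [hr]; exact min_le_left _ _
  have m2 : r ≤ (1 - g) / 2 := by rw [hr]; exact (min_le_right _ _).trans (min_le_left _ _)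
  have m3 : r ≤ (1 - P g g) / 2 := by rw [hr]; exact (min_le_right _ _).trans (min_le_right _ _)
  have h1 := (abs_le.1 (h r hr0 (by linarith) (g + r) (by
    rw [add_sub_cancel_left, abs_of_pos hr0, one_mul]))).2
  rw [add_sub_cancel_left] at h1
  have h2 := hP.slope g g r hg0.le le_rfl hr0.le (by linarith)
  have h3 : P (g + r) g ≤ P (g + r) (g + r) :=
    hP.mono_w _ _ _ hg0.le (by linarith) le_rfl (by linarith)
  have h4 : min 1 (P g g + r) = P g g + r := min_eq_right (by linarith)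
  rw [h4] at h2
  have h5 : 1 * r ≤ (deriv (fun a => P a a) g + e) * r := by
    have : (fun a => P a a) g = P g g := rfl
    linarith
  exact le_of_mul_le_mul_right h5 hr0

/-- A static coordinate of slope at most one is thin. -/
theorem thin_of_slope {P PN : ℝ → ℝ → ℝ} (hN : Law PN) {g : ℝ}
    (hg0 : 0 < g) (hg1 : g < 1) (hd : DifferentiableAt ℝ (fun a => P a a) g)
    (hd' : DifferentiableAt ℝ (fun a => PN a a) g) (heq : PN g g = P g g)
    (hsl : deriv (fun a => PN a a) g = deriv (fun a => P a a) g)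
    (hs : deriv (fun a => PN a a) g ≤ 1) : ThinAt PN P g := by
  intro e he
  obtain ⟨r₁, hr₁, h1⟩ := affB_of hd (M := 8) (e := e / 2) (by norm_num) (by linarith)
  obtain ⟨r₂, hr₂, h2⟩ := affB_of hd' (M := 8) (e := e / 2) (by norm_num) (by linarith)
  refine ⟨min (min r₁ r₂) (min (g / 8) ((1 - g) / 8)), lt_min (lt_min hr₁ hr₂)
    (lt_min (by linarith) (by linarith)), fun r hr hr' a w hw hwa ha => ?_⟩
  have m1 := (hr'.trans_le (min_le_left _ _)).trans_le (min_le_left _ _)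
  have m2 := (hr'.trans_le (min_le_left _ _)).trans_le (min_le_right _ _)
  have m3 := (hr'.trans_le (min_le_right _ _)).trans_le (min_le_left _ _)
  have m4 := (hr'.trans_le (min_le_right _ _)).trans_le (min_le_right _ _)
  have k1 := abs_le.1 (h1 r hr m1 w (by
    rw [abs_le]
    constructor <;> linarith))
  have k2 := abs_le.1 (h2 r hr m2 a (by
    rw [abs_le]
    constructor <;> linarith))
  have k3 : PN a w ≤ PN a a := hN.mono_w _ _ _ (by linarith) hwa le_rfl (by linarith)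
  rw [hsl] at k2 hs
  obtain ⟨s, hs'⟩ : ∃ s : ℝ, s = deriv (fun a => P a a) g := ⟨_, rfl⟩
  rw [← hs'] at k1 k2 hs
  have k4 : s * (a - w) ≤ 1 * (a - w) := mul_le_mul_of_nonneg_right hs (by linarith)
  have k5 : s * (a - w) = s * (a - g) - s * (w - g) := by ring
  have e1 : (fun a => P a a) g = P g g := rfl
  have e2 : (fun a => PN a a) g = PN g g := rfl
  linarith [k1.1, k1.2, k2.1, k2.2]

/-- The local numbers near a window. -/
structure Lcl (L T : ℕ → ℝ → ℝ → ℝ) (Sl : ℕ → ℝ) (ct : ℕ → Prop) (N i : ℕ) (g η q : ℝ) : Prop where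
  dL : ∀ l ≤ N, ∀ x : ℝ, |x - g| ≤ 4 * q → |L l x x - L l g g - Sl l * (x - g)| ≤ η * q
  dT : ∀ l ≤ N, ∀ x : ℝ, |x - g| ≤ 4 * q → |T l x x - L l g g - Sl l * (x - g)| ≤ η * q
  rg : ∀ l < i, ¬ ct l → ∀ a w : ℝ, g - 4 * q ≤ w → w ≤ a → a ≤ g + 4 * q →
    L l a w ≤ T l w w + (a - w) + η * q
  st : ∀ l < i, ct l → ∀ a w : ℝ, g - 4 * q ≤ w → w ≤ a → a ≤ g + 4 * q →
    L l a a ≤ L l a w + η * q

theorem lcl_ev {L T : ℕ → ℝ → ℝ → ℝ} {Sl : ℕ → ℝ} {ct : ℕ → Prop} {N i : ℕ} {g : ℝ}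
    (h1 : ∀ l ≤ N, DifferentiableAt ℝ (fun a => L l a a) g ∧
      deriv (fun a => L l a a) g = Sl l)
    (h2 : ∀ l ≤ N, DifferentiableAt ℝ (fun a => T l a a) g ∧
      deriv (fun a => T l a a) g = Sl l ∧ T l g g = L l g g)
    (h3 : ∀ l < i, ¬ ct l → ThinAt (L l) (T l) g) (h4 : ∀ l < i, ct l → StaAt (L l) g)
    {η : ℝ} (hη : 0 < η) : ∀ᶠ q in 𝓝[>] (0 : ℝ), Lcl L T Sl ct N i g η q := by
  classical
  have a1 : ∀ᶠ q in 𝓝[>] (0 : ℝ), ∀ l ∈ Finset.range (N + 1), ∀ x : ℝ, |x - g| ≤ 4 * q →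
      |L l x x - L l g g - Sl l * (x - g)| ≤ η * q := by
    rw [Finset.eventually_all]
    intro l hl
    obtain ⟨k1, k2⟩ := h1 l (by rw [Finset.mem_range] at hl; omega)
    obtain ⟨r₀, hr₀, h⟩ := affB_of k1 (M := 4) (e := η) (by norm_num) hη
    rw [k2] at h
    exact ev_pos ⟨r₀, hr₀, fun r hr hr' x hx => h r hr hr' x hx⟩
  have a2 : ∀ᶠ q in 𝓝[>] (0 : ℝ), ∀ l ∈ Finset.range (N + 1), ∀ x : ℝ, |x - g| ≤ 4 * q →
      |T l x x - L l g g - Sl l * (x - g)| ≤ η * q := by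
    rw [Finset.eventually_all]
    intro l hl
    obtain ⟨k1, k2, k3⟩ := h2 l (by rw [Finset.mem_range] at hl; omega)
    obtain ⟨r₀, hr₀, h⟩ := affB_of k1 (M := 4) (e := η) (by norm_num) hη
    rw [k2, k3] at h
    exact ev_pos ⟨r₀, hr₀, fun r hr hr' x hx => h r hr hr' x hx⟩
  have a3 : ∀ᶠ q in 𝓝[>] (0 : ℝ), ∀ l ∈ Finset.range i, ¬ ct l → ∀ a w : ℝ, g - 4 * q ≤ w →
      w ≤ a → a ≤ g + 4 * q → L l a w ≤ T l w w + (a - w) + η * q := by
    rw [Finset.eventually_all]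
    intro l hl
    by_cases hc : ct l
    · exact Eventually.of_forall fun q h => absurd hc h
    · obtain ⟨r₀, hr₀, h⟩ := h3 l (Finset.mem_range.1 hl) hc η hη
      exact ev_pos ⟨r₀, hr₀, fun r hr hr' _ a w b1 b2 b3 => h r hr hr' a w (by linarith) b2
        (by linarith)⟩
  have a4 : ∀ᶠ q in 𝓝[>] (0 : ℝ), ∀ l ∈ Finset.range i, ct l → ∀ a w : ℝ, g - 4 * q ≤ w →
      w ≤ a → a ≤ g + 4 * q → L l a a ≤ L l a w + η * q := by
    rw [Finset.eventually_all]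
    intro l hl
    by_cases hc : ct l
    · obtain ⟨r₀, hr₀, h⟩ := h4 l (Finset.mem_range.1 hl) hc η hη
      exact ev_pos ⟨r₀, hr₀, fun r hr hr' _ a w b1 b2 b3 => h r hr hr' a w (by linarith) b2
        (by linarith)⟩
    · exact Eventually.of_forall fun q h => absurd h hc
  filter_upwards [a1, a2, a3, a4] with q b1 b2 b3 b4
  exact ⟨fun l hl => b1 l (Finset.mem_range.2 (by omega)),
    fun l hl => b2 l (Finset.mem_range.2 (by omega)), fun l hl => b3 l (Finset.mem_range.2 hl),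
    fun l hl => b4 l (Finset.mem_range.2 hl)⟩

end Pool.PKG
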