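import Pool.Agent.H90.ISO.StB

/-!
# One step, at almost every good window

`PkT.step_at`: at almost every good window where the coordinates before `i` are thin or static, a
gain of the coordinate `i` at one scale makes the threshold over the fattest boxes `2`-steep
(`StepAt`). The input `EvTC` is the class composition with contact coordinates.
-/

set_option autoImplicit false

namespace Pool.PKG

open MeasureTheory Set Filter Topology
open Pool.Agent.H49.Ent Pool.Agent.H32.Dense Pool.STK Pool.KA Pool.KSAT Pool.K2S Pool.PB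
open Pool.GEN Pool.S6C Pool.STAT Pool.CHT Pool.GRW Pool.ONE Pool.STA
open Pool.LBT (LSys ThrOf)
open Pool.LEV (Law)
open Pool.TOP (TopS)
open Pool.RTS (iso)
open Pool.QNT (affB_of)
open Pool.STR (StK DPS dia_ae ThinAt SteepAt StaAt StaD)
open Pool.CHB (chsysB)
open Pool.ISO (PtD Att2 lvN WinD ex_good)
open Pool.TRM (Cw cw_ae EvT dps_stkT)
open Pool.NMS (LeAt StepAt Gn leAt_of dia_le slope_eq)

variable {n : ℕ} {hn : 2 ≤ n} {S : PCl n} {P : ℝ → ℝ → ℝ} {r : ℝ → ℝ}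
  {P' : ℕ → List (Fin n) × Fin n → ℝ → ℝ → ℝ} {Λ : Finset (Fin n) → Fin n → ℝ → ℝ → ℝ}
  {PB : ℕ → List (Fin n) × Fin n → ℝ → ℝ → ℝ}

/-- No gain at all, if the slope of the coordinate is small. -/
theorem no_gain {L T : ℕ → ℝ → ℝ → ℝ} {Sl : ℕ → ℝ} {ct : ℕ → Prop} {N i : ℕ} {g δ η q t : ℝ}
    (hL : Law (L i)) (h : Lcl L T Sl ct N i g η q) (hi : i ≤ N) (hg : 4 * q ≤ g)
    (hg1 : 4 * q ≤ 1 - g) (hq : 0 < q) (ht : |t - g| ≤ 2 * q) (hs : Sl i + 2 * η < 1 + δ) :
    ¬ Gn (L i) (T i) δ t q := by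
  intro hG
  have ht' := abs_le.1 ht
  have k1 := (abs_le.1 (h.dL i hi (t + q) (by
    rw [abs_le]
    constructor <;> linarith))).2
  have k2 := (abs_le.1 (h.dT i hi t (by
    rw [abs_le]
    constructor <;> linarith))).1
  have k3 : L i (t + q) t ≤ L i (t + q) (t + q) :=
    hL.mono_w _ _ _ (by linarith) (by linarith) le_rfl (by linarith)
  unfold Gn at hG
  have k4 : (Sl i + 2 * η) * q < (1 + δ) * q := mul_lt_mul_of_pos_right hs hq
  have k5 : Sl i * (t + q - g) = Sl i * q + Sl i * (t - g) := by ring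
  linarith

namespace PkT

variable (H : PkT hn S P r P' Λ PB)
include H

/-- **One step**, at almost every good window. -/
theorem step_at (hPB : PBle hn S P P' PB) (hTop : TopS n) (hF : FZX (n - 1))
    (hEv : ∀ Sb del : ℝ, 1 ≤ Sb → 0 < del → EvTC (n - 1) Sb del) :
    ∀ᵐ g : ℝ, ∀ o : Od n, g ∈ Gs P r P' Λ o → ∀ i ≤ n - 1,
      (∀ l < i, ThinAt (LvL hn P P' o l) (LvT hn PB o l) g ∨ StaAt (LvL hn P P' o l) g) →
      StepAt (LvL hn P P' o i) (LvT hn PB o i) g := by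
  classical
  have hcwa : ∀ᵐ w : ℝ, ∀ o : Od n, ∀ i : ℕ, 0 < w → w < 1 → Cw (LvT hn PB o i) w :=
    ae_all_iff.2 fun o => ae_all_iff.2 fun i => cw_ae (H.lawT o i)
  filter_upwards [H.toPk.unif_ae hTop hF, H.dia_all hPB hTop hF] with g hun hdia o ho i hi hlist
  obtain ⟨α, Q, c', F⟩ := H.toPk.fac hTop hF ho
  have hg0 := F.g0
  have hg1 := F.g1
  obtain ⟨L, hL⟩ : ∃ L : ℕ → ℝ → ℝ → ℝ, L = fun l => LvL hn P P' o l := ⟨_, rfl⟩
  obtain ⟨T, hT⟩ : ∃ T : ℕ → ℝ → ℝ → ℝ, T = fun l => LvT hn PB o l := ⟨_, rfl⟩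
  have eL : ∀ l, LvL hn P P' o l = L l := fun l => by rw [hL]
  have eT : ∀ l, LvT hn PB o l = T l := fun l => by rw [hT]
  have eLv : ∀ l a w, lvN (P' o.2) (cc hn o.1.1) (n - 1) P l a w = L l a w := fun l a w => by
    rw [hL]
    rfl
  have hd := hdia o ho
  obtain ⟨E, cE, hE, hroom, hun⟩ := hun o ho
  have hle := fun l (hl : l ≤ n - 1) => H.leAt hPB hTop hF ho hl
  have hlawL := H.lawL o
  have hlawT := H.lawT o
  simp only [eL, eT] at hd hlist hle hlawL hlawT ⊢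
  have hsleq : ∀ l ≤ n - 1, deriv (fun a => L l a a) g = deriv (fun a => T l a a) g := fun l hl =>
    slope_eq (hd l hl).2.1 (hd l hl).1 (hd l hl).2.2
      (dia_le (hlawT l) (hlawL l) hg0 hg1 (hle l hl))
  have hlt1 : ∀ l ≤ n - 1, L l g g < 1 := fun l hl => by
    have := hroom l hl
    rw [eLv] at this
    linarith
  obtain ⟨Sl, hSl⟩ : ∃ Sl : ℕ → ℝ, Sl = fun l => deriv (fun a => L l a a) g := ⟨_, rfl⟩
  have hSl1 : ∀ l ≤ n - 1, 1 ≤ Sl l := fun l hl => by
    rw [hSl]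
    exact one_le_slope (hlawL l) hg0 hg1 (hlt1 l hl) (hd l hl).1
  obtain ⟨ct, hct⟩ : ∃ ct : ℕ → Prop, ct = fun l => ¬ ThinAt (L l) (T l) g := ⟨_, rfl⟩
  have hctS : ∀ l < i, ct l → 1 < Sl l := by
    intro l hl hc
    by_contra hcon
    push Not at hcon
    rw [hct] at hc
    rw [hSl] at hcon
    exact hc (thin_of_slope (hlawL l) hg0 hg1 (hd l (by omega)).2.1 (hd l (by omega)).1
      (hd l (by omega)).2.2 (hsleq l (by omega)) hcon)
  have hlcl : ∀ η : ℝ, 0 < η → ∀ᶠ q in 𝓝[>] (0 : ℝ), Lcl L T Sl ct (n - 1) i g η q := by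
    intro η hη
    refine lcl_ev (fun l hl => ⟨(hd l hl).1, by rw [hSl]⟩)
      (fun l hl => ⟨(hd l hl).2.1, by rw [hSl]; exact (hsleq l hl).symm, (hd l hl).2.2.symm⟩)
      (fun l hl hc => ?_) (fun l hl hc => ?_) hη
    · rw [hct] at hc
      exact not_not.1 hc
    · rw [hct] at hc
      exact (hlist l hl).resolve_left hc
  have hq4 : ∀ᶠ q in 𝓝[>] (0 : ℝ), 0 < q ∧ 8 * q ≤ g ∧ 8 * q ≤ 1 - g := by
    filter_upwards [Ioo_mem_nhdsGT (show 0 < min (g / 8) ((1 - g) / 8) from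
      lt_min (by linarith) (by linarith))] with q hq
    have h1 := min_le_left (g / 8) ((1 - g) / 8)
    have h2 := min_le_right (g / 8) ((1 - g) / 8)
    exact ⟨hq.1, by linarith [hq.2], by linarith [hq.2]⟩
  intro δ hδ hδ1
  by_cases hS : 1 + δ / 2 ≤ Sl i
  swap
  · -- no gain
    push Not at hS
    refine ⟨1, one_pos, le_rfl, fun θ e hθ he => ?_⟩
    obtain ⟨q₁, hq₁, h1⟩ := pos_ev ((hlcl (δ / 8) (by positivity)).and hq4)
    refine ⟨q₁, hq₁, fun q u hq hqm hu => ⟨u, le_rfl, by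
      have : 0 ≤ θ * q := by positivity
      linarith, fun hG => absurd hG ?_⟩⟩
    obtain ⟨h2, -, h3, h4⟩ := h1 q hq hqm
    exact no_gain (hlawL i) h2 hi (by linarith) (by linarith) hq (by linarith) (by linarith)
  -- the constants
  obtain ⟨Sb, hSb1, hSb⟩ : ∃ Sb : ℝ, 1 ≤ Sb ∧ ∀ l ≤ i, |Sl l| ≤ Sb := by
    refine ⟨1 + ∑ l ∈ Finset.range (i + 1), |Sl l|, by
      have : 0 ≤ ∑ l ∈ Finset.range (i + 1), |Sl l| := Finset.sum_nonneg fun l _ => abs_nonneg _
      linarith, fun l hl => ?_⟩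
    have h1 := Finset.single_le_sum (f := fun l => |Sl l|) (fun l _ => abs_nonneg _)
      (Finset.mem_range.2 (show l < i + 1 by omega))
    linarith
  obtain ⟨del, hdel, hdelδ, hdelS⟩ : ∃ del : ℝ, 0 < del ∧ del ≤ δ / 2 ∧
      ∀ l < i, ct l → 1 + del ≤ Sl l := by
    obtain ⟨κ, h1, h2⟩ := fin_pos i (f := fun l => if ct l then Sl l - 1 else 1) fun l hl => by
      by_cases hl' : ct l
      · rw [if_pos hl']
        have := hctS l hl hl'
        linarith
      · rw [if_neg hl']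
        exact one_pos
    refine ⟨min κ (δ / 2), lt_min h1 (by positivity), min_le_right _ _, fun l hl hl' => ?_⟩
    have := h2 l hl
    rw [if_pos hl'] at this
    linarith [min_le_left κ (δ / 2)]
  obtain ⟨h₀, U, hh₀, hU, hEv⟩ := hEv Sb del hSb1 hdel
  refine ⟨min h₀ 1, lt_min hh₀ one_pos, min_le_right _ _, fun θ e₁ hθ he₁ => ?_⟩
  obtain ⟨θ₂, hθ₂⟩ : ∃ θ₂ : ℝ, θ₂ = min θ 1 := ⟨_, rfl⟩
  have hθ20 : 0 < θ₂ := by rw [hθ₂]; exact lt_min hθ one_pos
  have hθ21 : θ₂ ≤ 1 := by rw [hθ₂]; exact min_le_right _ _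
  have hθ22 : θ₂ ≤ θ := by rw [hθ₂]; exact min_le_left _ _
  obtain ⟨vs, e, he, heE', hun⟩ := hun (min E (tht o.2 * (g / 2)))
    (lt_min hE (mul_pos (tht_pos _) (by linarith)))
  have heE : e ≤ E := heE'.trans (min_le_left _ _)
  have heg : e ≤ tht o.2 * (g / 2) := heE'.trans (min_le_right _ _)
  obtain ⟨N, hN⟩ : ∃ N : ℕ, N = 2 * (i + 2) + 1 := ⟨_, rfl⟩
  have hN0 : (0 : ℝ) < N := by
    rw [hN]
    positivity
  obtain ⟨τ, hτ⟩ : ∃ τ : ℝ, τ = θ₂ / (2 * N) := ⟨_, rfl⟩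
  have hτ0 : 0 < τ := by rw [hτ]; positivity
  have hNτ : N * τ = θ₂ / 2 := by
    rw [hτ]
    field_simp
  obtain ⟨S₀, s₁, hS₀, hs₁, hun⟩ := hun 2 τ (by norm_num) hτ0
  obtain ⟨D, hEv⟩ := hEv n S₀ hS₀
  obtain ⟨C₀, hC₀, hstk⟩ := dps_stkT n i D
  obtain ⟨τ₀, hτ₀⟩ : ∃ τ₀ : ℝ, τ₀ = e₁ / C₀ := ⟨_, rfl⟩
  have hC₀0 : 0 < C₀ := by linarith
  have hτ00 : 0 < τ₀ := by rw [hτ₀]; positivity
  have hCτ : C₀ * τ₀ = e₁ := by
    rw [hτ₀]
    field_simp
  obtain ⟨ε₀, hε₀, hEv⟩ := hEv τ₀ hτ00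
  obtain ⟨η, hη⟩ : ∃ η : ℝ, η = min (ε₀ / 8) (δ / 8) := ⟨_, rfl⟩
  have hη0 : 0 < η := by rw [hη]; exact lt_min (by positivity) (by positivity)
  have hη1 : η ≤ ε₀ / 8 := by rw [hη]; exact min_le_left _ _
  have hη2 : η ≤ δ / 8 := by rw [hη]; exact min_le_right _ _
  -- the room
  have hrm : ∀ᶠ q in 𝓝[>] (0 : ℝ), ∀ l ∈ Finset.range n,
      E + L l g g + (4 * |Sl l| + η + 5 + h₀ + 5 * τ₀) * q < 1 := by
    rw [Finset.eventually_all]
    intro l hl
    rw [Finset.mem_range] at hl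
    have h1 := hroom l (by omega)
    rw [eLv] at h1
    have h2 : Tendsto (fun q : ℝ => E + L l g g + (4 * |Sl l| + η + 5 + h₀ + 5 * τ₀) * q)
        (𝓝[>] 0) (𝓝 (E + L l g g + (4 * |Sl l| + η + 5 + h₀ + 5 * τ₀) * 0)) :=
      (Continuous.tendsto (by fun_prop) _).mono_left nhdsWithin_le_nhds
    rw [mul_zero, add_zero] at h2
    exact h2.eventually_lt_const (by linarith)
  have hqτ : ∀ᶠ q in 𝓝[>] (0 : ℝ), τ₀ * q ≤ g / 2 := by
    have h2 : Tendsto (fun q : ℝ => τ₀ * q) (𝓝[>] 0) (𝓝 (τ₀ * 0)) :=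
      (Continuous.tendsto (by fun_prop) _).mono_left nhdsWithin_le_nhds
    rw [mul_zero] at h2
    exact h2.eventually_le_const (by linarith)
  have hqs : ∀ᶠ q in 𝓝[>] (0 : ℝ), q < s₁ := by
    filter_upwards [Ioo_mem_nhdsGT hs₁] with q hq
    exact hq.2
  obtain ⟨q₁, hq₁, hall⟩ := pos_ev ((((hlcl η hη0).and hq4).and (hrm.and hqτ)).and hqs)
  refine ⟨q₁, hq₁, fun q u hq hqm hu => ?_⟩
  obtain ⟨⟨⟨hlc, -, hqg, hqg1⟩, hrm, hqτ⟩, hqs⟩ := hall q hq hqm
  have hu' := abs_le.1 hu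
  -- the windows
  obtain ⟨V, hV⟩ : ∃ V : ℕ → ℝ, V = fun k => if k = 0 then 0 else U (k - 1) := ⟨_, rfl⟩
  have hV0 : V 0 = 0 := by rw [hV]; simp
  have hVs : ∀ k, V (k + 1) = U k := fun k => by rw [hV]; simp
  have hVb : ∀ k, 0 ≤ V k ∧ V k ≤ 1 / 2 := fun k => by
    rcases Nat.eq_zero_or_pos k with h1 | h1
    · rw [h1, hV0]
      norm_num
    · obtain ⟨k, rfl⟩ : ∃ k', k = k' + 1 := ⟨k - 1, by omega⟩
      rw [hVs]
      exact ⟨(hU k).1.le, (hU k).2⟩
  have hVq : ∀ k, 0 ≤ V k * q ∧ V k * q ≤ q / 2 := fun k => ⟨mul_nonneg (hVb k).1 hq.le, by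
    have := mul_le_mul_of_nonneg_right (hVb k).2 hq.le
    linarith⟩
  obtain ⟨Bad, hBad⟩ : ∃ Bad : ℕ → Set ℝ, Bad = fun k => if k < i + 2 then
      {w : ℝ | |w - g| ≤ 2 * q ∧ ¬ ∃ (ρ : ℝ) (Q' : Set ℝ),
        PtD S (P' o.2) (tht o.2) (cc hn o.1.1) (n - 1) P (w + V k * q) (w + V k * q) ρ S₀
          (fun _ => vs) (fun _ => e) (fun _ => e) (fun _ => E) (fun _ => 1 - cE) Q'}
      else if k < 2 * (i + 2) then
      {w : ℝ | |w - g| ≤ 2 * q ∧ ¬ ∃ (ρ : ℝ) (Q' : Set ℝ),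
        PtD S (P' o.2) (tht o.2) (cc hn o.1.1) (n - 1) P (w + q) (w + V (k - (i + 2)) * q) ρ S₀
          (fun _ => vs) (fun _ => e) (fun _ => e) (fun _ => E) (fun _ => 1 - cE) Q'}
      else {w : ℝ | ¬ (0 < w → w < 1 → Cw (T i) w)} := ⟨_, rfl⟩
  have hBadm : ∀ k < N, volume (Bad k) ≤ ENNReal.ofReal (τ * q) := by
    intro k hk
    rw [hBad]
    simp only
    split_ifs with h1 h2
    · exact hun q (V k * q) (V k * q) hq hqs (hVq k).1 le_rfl (by linarith [(hVq k).2])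
    · exact hun q (V (k - (i + 2)) * q) q hq hqs (hVq _).1 (by linarith [(hVq (k - (i + 2))).2])
        le_rfl
    · have h3 : volume {w : ℝ | ¬ (0 < w → w < 1 → Cw (T i) w)} = 0 := by
        have h4 : ∀ᵐ w : ℝ, 0 < w → w < 1 → Cw (T i) w := by
          filter_upwards [hcwa] with w hw
          have := hw o i
          rwa [eT] at this
        exact ae_iff.1 h4
      rw [h3]
      exact bot_le
  obtain ⟨t, ht, htB⟩ := ex_good (A := Icc u (u + θ₂ * q)) (n := N) (t := τ * q) Bad (by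
    rw [Real.volume_Icc, add_sub_cancel_left]
    refine ENNReal.ofReal_lt_ofReal_iff_of_nonneg (by positivity) |>.2 ?_
    have h1 : (N : ℝ) * (τ * q) = θ₂ / 2 * q := by rw [← mul_assoc, hNτ]
    rw [h1]
    have : 0 < θ₂ * q := by positivity
    linarith) hBadm
  have hθq : θ₂ * q ≤ 1 * q := mul_le_mul_of_nonneg_right hθ21 hq.le
  have htg : |t - g| ≤ 2 * q := by
    rw [abs_le]
    constructor <;> linarith [ht.1, ht.2]
  have htg' := abs_le.1 htg
  have htD : ∀ k < i + 2, ∃ (ρ : ℝ) (Q' : Set ℝ),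
      PtD S (P' o.2) (tht o.2) (cc hn o.1.1) (n - 1) P (t + V k * q) (t + V k * q) ρ S₀
        (fun _ => vs) (fun _ => e) (fun _ => e) (fun _ => E) (fun _ => 1 - cE) Q' := by
    intro k hk
    have h1 := htB k (by omega)
    rw [hBad] at h1
    simp only [if_pos hk, mem_ofPred_eq, not_and, not_not] at h1
    exact h1 htg
  have htA : ∀ k < i + 2, ∃ (ρ : ℝ) (Q' : Set ℝ),
      PtD S (P' o.2) (tht o.2) (cc hn o.1.1) (n - 1) P (t + q) (t + V k * q) ρ S₀
        (fun _ => vs) (fun _ => e) (fun _ => e) (fun _ => E) (fun _ => 1 - cE) Q' := by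
    intro k hk
    have h1 := htB (k + (i + 2)) (by omega)
    rw [hBad] at h1
    simp only [if_neg (show ¬ k + (i + 2) < i + 2 by omega),
      if_pos (show k + (i + 2) < 2 * (i + 2) by omega), mem_ofPred_eq, not_and, not_not,
      Nat.add_sub_cancel] at h1
    exact h1 htg
  have ht0 : 0 < t := by linarith
  have ht1 : t < 1 := by linarith
  have hcw : Cw (T i) t := by
    have h1 := htB (2 * (i + 2)) (by omega)
    rw [hBad] at h1
    simp only [if_neg (show ¬ 2 * (i + 2) < i + 2 by omega), lt_irrefl, if_false, mem_ofPred_eq,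
      not_not] at h1
    exact h1 ht0 ht1
  have htl : ∀ l ≤ n - 1, T l t t ≤ L l t t := by
    intro l hl
    obtain ⟨ρ, Q', h1⟩ := htD 0 (by omega)
    rw [hV0, zero_mul, add_zero] at h1
    have h2 := H.ttle hPB hl h1 (heg.trans (mul_le_mul_of_nonneg_left (by linarith)
      (tht_pos _).le))
    rwa [eL, eT] at h2
  refine ⟨t, ht.1, by
    have : θ₂ * q ≤ θ * q := mul_le_mul_of_nonneg_right hθ22 hq.le
    linarith [ht.2], fun hG x hx hxc => ?_⟩
  -- the local numbers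
  have hηε : η * q ≤ ε₀ / 8 * q := mul_le_mul_of_nonneg_right hη1 hq.le
  have hηδ : η * q ≤ δ / 8 * q := mul_le_mul_of_nonneg_right hη2 hq.le
  have hεq : 0 < ε₀ * q := by positivity
  have hroom' : ∀ l ≤ n - 1, ∀ y : ℝ, |y - g| ≤ 4 * q →
      L l y y + E + (5 + h₀ + 5 * τ₀) * q < 1 := by
    intro l hl y hy
    have h1 := hrm l (Finset.mem_range.2 (by omega))
    have h2 := (abs_le.1 (hlc.dL l hl y hy)).2
    have h3 : Sl l * (y - g) ≤ |Sl l| * (4 * q) := by
      calc Sl l * (y - g) ≤ |Sl l * (y - g)| := le_abs_self _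
        _ = |Sl l| * |y - g| := abs_mul _ _
        _ ≤ |Sl l| * (4 * q) := mul_le_mul_of_nonneg_left hy (abs_nonneg _)
    linarith
  have hyg : ∀ z : ℝ, 0 ≤ z → z ≤ q → |t + z - g| ≤ 4 * q := fun z h1 h2 => by
    rw [abs_le]
    constructor <;> linarith
  have hwin : ∀ k < i + 2, WinD S (P' o.2) (tht o.2) (cc hn o.1.1) (n - 1) P (t + q)
      (t + V k * q) S₀ E (ε₀ * q) (fun l => l < i ∧ ¬ ct l) := by
    intro k hk
    have hv := hVq k
    obtain ⟨ρ, Q', h1⟩ := htD k hk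
    obtain ⟨ρ', Q'', h2⟩ := htA k hk
    refine ⟨by linarith, ⟨ρ, _, _, _, _, _, Q', h1, le_rfl⟩, ⟨ρ', _, _, _, _, _, Q'', h2, le_rfl,
      heE⟩, hεq.le, fun l hl hR => ?_, fun l hl => ?_⟩
    · have h3 := hlc.rg l hR.1 hR.2 (t + q) (t + V k * q) (by linarith) (by linarith) (by linarith)
      have h4 := (abs_le.1 (hlc.dT l hl.le (t + V k * q) (hyg _ hv.1 (by linarith)))).2
      have h5 := (abs_le.1 (hlc.dL l hl.le (t + V k * q) (hyg _ hv.1 (by linarith)))).1
      have h6 := eLv l (t + q) (t + V k * q)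
      have h7 := eLv l (t + V k * q) (t + V k * q)
      unfold lvN at h6 h7
      rw [if_pos hl] at h6 h7
      rw [h6, h7]
      linarith
    · rw [eLv]
      have h3 := hroom' l hl (t + V k * q) (hyg _ hv.1 (by linarith))
      have h4 : 0 ≤ (4 + h₀ + 5 * τ₀) * q := by positivity
      linarith
  have hτq : 0 < τ₀ * q := by positivity
  have hdL : ∀ l ≤ n - 1, ∀ z : ℝ, 0 ≤ z → z ≤ q →
      |L l (t + z) (t + z) - L l t t - Sl l * z| ≤ 2 * (η * q) := by
    intro l hl z h1 h2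
    have h3 := abs_le.1 (hlc.dL l hl (t + z) (hyg z h1 h2))
    have h4 := abs_le.1 (hlc.dL l hl t (by linarith))
    have h5 : Sl l * (t + z - g) = Sl l * z + Sl l * (t - g) := by ring
    rw [abs_le]
    constructor <;> linarith [h3.1, h3.2, h4.1, h4.2]
  have hstc : ∀ l < i, ct l → ∀ z : ℝ, 0 ≤ z → z ≤ q →
      |L l (t + q) (t + z) - L l t t - Sl l * q| ≤ 3 * (η * q) := by
    intro l hl hc z h1 h2
    have h3 := hlc.st l hl hc (t + q) (t + z) (by linarith) (by linarith) (by linarith)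
    have h4 : L l (t + q) (t + z) ≤ L l (t + q) (t + q) :=
      (hlawL l).mono_w _ _ _ (by linarith) (by linarith) le_rfl (by linarith)
    have h5 := abs_le.1 (hdL l (by omega) q hq.le le_rfl)
    rw [abs_le]
    constructor <;> linarith [h5.1, h5.2]
  have hevt : EvT S (cc hn o.1.1) i D t (t + q) (L i t t + q + h₀ * q) (E + τ₀ * q) (τ₀ * q)
      (fun l => L l t t) := by
    have h1 := hEv (S := S) (P := P' o.2) (θ := tht o.2) (c := cc hn o.1.1) (Pt := P) (ct := ct)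
      (i := i) (w := t) (q := q) (Eb := E) (e := E + τ₀ * q) Sl hi (H.cht o.2) (tht_pos o.2) H.tmh
      ((cc_inj hn o.1.1).mono fun x hx => by
        rw [Set.mem_Iio] at hx ⊢
        omega) (H.tgs.law ()) hq (by linarith) (by
        have h2 := hwin 0 (by omega)
        rwa [hV0, zero_mul, add_zero] at h2) (fun k hk => by
        have h2 := hwin (k + 1) (by omega)
        rwa [hVs] at h2) le_rfl
    simp only [eLv] at h1
    refine h1 (fun l hl => ⟨hSl1 l (by omega), (le_abs_self _).trans (hSb l hl), fun k hk => ?_⟩)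
      (fun l hl hc => ⟨hdelS l hl hc, ?_, fun k hk => ?_⟩) (by linarith) ?_
    · have h2 := hVq (k + 1)
      rw [hVs] at h2
      exact (hdL l (by omega) (U k * q) h2.1 (by linarith)).trans (by linarith)
    · have h2 := hstc l hl hc 0 le_rfl hq.le
      rw [add_zero] at h2
      exact h2.trans (by linarith)
    · have h2 := hVq (k + 1)
      rw [hVs] at h2
      exact (hstc l hl hc (U k * q) h2.1 (by linarith)).trans (by linarith)
    · -- the gain
      unfold Gn at hG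
      have h2 := (abs_le.1 (hlc.dL i hi t (by linarith))).2
      have h3 := (abs_le.1 (hlc.dT i hi t (by linarith))).1
      have h4 : del * q ≤ δ / 2 * q := mul_le_mul_of_nonneg_right hdelδ hq.le
      have h5 : 0 < δ * q := by positivity
      linarith
  -- the conclusion
  have hlow : ∀ l, t ≤ L l t t := by
    intro l
    obtain ⟨ρ, Q', h1⟩ := htD 0 (by omega)
    rw [hV0, zero_mul, add_zero] at h1
    have h2 := h1.low (H.cht o.2) l
    rwa [eLv] at h2
  have hc1 : min h₀ 1 * q ≤ h₀ * q := mul_le_mul_of_nonneg_right (min_le_left _ _) hq.le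
  have hc2 : min h₀ 1 * q ≤ 1 * q := mul_le_mul_of_nonneg_right (min_le_right _ _) hq.le
  have hbT : ∀ l, bet (PB o.2) (cc hn o.1.1) l = T l := fun l => by
    rw [hT]
    rfl
  have h1 := hstk H.ne H.tmh (c := cc hn o.1.1) ((cc_inj hn o.1.1).mono fun x hx => by
    rw [Set.mem_Iio] at hx ⊢
    omega) (H.thb o.2) (w := t) (a := t + q) (p := L i t t + q + h₀ * q) (e := E + τ₀ * q)
    (h' := min h₀ 1 * q) (τ := τ₀ * q) (Dl := fun l => L l t t) ht0 (by linarith)
    (by linarith) hτq (by linarith) hevt (fun l _ => hlow l) (fun l hl => by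
      have h2 := hroom' l (by omega) t (by linarith)
      have h3 : t + q - t = q := by ring
      rw [h3]
      have h4 : 0 ≤ h₀ * q := by positivity
      linarith) (by linarith) (by linarith) (fun l hl y hy hy' => by
      show iso (fun a => P' o.2 _ a a) (t + y) t = _
      unfold iso
      rw [add_sub_cancel_left]
      have h2 := hroom' l (by omega) t (by linarith)
      have h3 := eLv l t t
      unfold lvN at h3
      rw [if_pos (show l < n - 1 by omega)] at h3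
      have h4 : (fun a => P' o.2 ((List.range l).map (cc hn o.1.1), cc hn o.1.1 l) a a) t =
          L l t t := h3
      rw [h4]
      refine min_eq_right ?_
      have h5 : 0 ≤ (4 + h₀ + 5 * τ₀) * q := by positivity
      linarith) (by
      rw [hbT]
      exact htl i hi) (by
      rw [hbT]
      exact hcw) x hx hxc
  rw [hbT] at h1
  have h2 : C₀ * (τ₀ * q) = e₁ * q := by rw [← mul_assoc, hCτ]
  linarith

end PkT

end Pool.PKG
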