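import Pool.Agent.H90.ISO.StC

/-!
# Thin, steep or static, for all coordinates of an order

`PkT.thin_steep`: at almost every good window where the coordinates before `i` are thin or static,
the coordinate `i` is thin or `2`-steep. `PkT.thin_sta`: if moreover the slopes of the diagonals are
at most two, all coordinates are thin or static.
-/

set_option autoImplicit false

namespace Pool.PKG

open MeasureTheory Set Filter Topology
open Pool.Agent.H49.Ent Pool.Agent.H32.Dense Pool.STK Pool.KA Pool.KSAT Pool.K2S Pool.PB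
open Pool.GEN Pool.S6C Pool.STAT Pool.CHT Pool.GRW Pool.ONE Pool.STA
open Pool.LBT (LSys ThrOf)
open Pool.LEV (Law)
open Pool.TOP (TopS)
open Pool.STR (ThinAt SteepAt StaAt StaD)
open Pool.NMS (LeAt StepAt thin_or_steep2 sta_of2 slope_eq dia_le)
open Pool.ISO (lvN)

variable {n : ℕ} {hn : 2 ≤ n} {S : PCl n} {P : ℝ → ℝ → ℝ} {r : ℝ → ℝ}
  {P' : ℕ → List (Fin n) × Fin n → ℝ → ℝ → ℝ} {Λ : Finset (Fin n) → Fin n → ℝ → ℝ → ℝ}
  {PB : ℕ → List (Fin n) × Fin n → ℝ → ℝ → ℝ}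

/-- Thin or static. -/
def ThS (hn : 2 ≤ n) (P : ℝ → ℝ → ℝ) (P' PB : ℕ → List (Fin n) × Fin n → ℝ → ℝ → ℝ) (o : Od n)
    (i : ℕ) (g : ℝ) : Prop :=
  ThinAt (LvL hn P P' o i) (LvT hn PB o i) g ∨ StaAt (LvL hn P P' o i) g

namespace PkT

variable (H : PkT hn S P r P' Λ PB)
include H

/-- **Thin or steep**, coordinate by coordinate. -/
theorem thin_steep (hPB : PBle hn S P P' PB) (hTop : TopS n) (hF : FZX (n - 1))
    (hEv : ∀ Sb del : ℝ, 1 ≤ Sb → 0 < del → EvTC (n - 1) Sb del) :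
    ∀ᵐ g : ℝ, ∀ o : Od n, g ∈ Gs P r P' Λ o → ∀ i ≤ n - 1, (∀ l < i, ThS hn P P' PB o l g) →
      ThinAt (LvL hn P P' o i) (LvT hn PB o i) g ∨ SteepAt 2 (LvT hn PB o i) g := by
  have h1 : ∀ᵐ g : ℝ, ∀ o : Od n, ∀ i : ℕ, i ≤ n - 1 →
      g ∈ {g | g ∈ Gs P r P' Λ o ∧ ∀ l < i, ThS hn P P' PB o l g} → 0 < g → g < 1 →
      LvT hn PB o i g g < 1 →
      ThinAt (LvL hn P P' o i) (LvT hn PB o i) g ∨ SteepAt 2 (LvT hn PB o i) g := by
    refine ae_all_iff.2 fun o => ae_all_iff.2 fun i => ?_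
    by_cases hi : i ≤ n - 1
    · refine (thin_or_steep2 (H.lawT o i) (H.lawL o i)
        (G := {g | g ∈ Gs P r P' Λ o ∧ ∀ l < i, ThS hn P P' PB o l g}) ?_).mono
        fun g h _ => h
      filter_upwards [H.step_at hPB hTop hF hEv, H.dia_all hPB hTop hF] with g k1 k2 hg _ _ _
      exact ⟨(k2 o hg.1 i hi).2.2, H.leAt hPB hTop hF hg.1 hi, k1 o hg.1 i hi hg.2⟩
    · exact Eventually.of_forall fun g h => absurd h hi
  filter_upwards [h1, H.dia_all hPB hTop hF] with g h2 h3 o ho i hi hl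
  obtain ⟨α, Q, c, F⟩ := H.toPk.fac hTop hF ho
  refine h2 o i hi ⟨ho, hl⟩ F.g0 F.g1 ?_
  rw [← (h3 o ho i hi).2.2]
  obtain ⟨E, hE, h4, -⟩ := F.ptD H.toPk
  have := h4 i hi
  show lvN (P' o.2) (cc hn o.1.1) (n - 1) P i g g < 1
  linarith

/-- **Thin or static**, for all coordinates, if the slopes are at most two. The coordinates of the
order with larger slopes are an input. -/
theorem thin_sta (hPB : PBle hn S P P' PB) (hTop : TopS n) (hF : FZX (n - 1))
    (hEv : ∀ Sb del : ℝ, 1 ≤ Sb → 0 < del → EvTC (n - 1) Sb del) :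
    ∀ᵐ g : ℝ, ∀ o : Od n, g ∈ Gs P r P' Λ o →
      ∀ k ≤ n - 1, (∀ i ≤ k, deriv (fun a => LvL hn P P' o i a a) g ≤ 2 ∨
        ((∀ l < i, ThS hn P P' PB o l g) → SteepAt 2 (LvT hn PB o i) g → ThS hn P P' PB o i g)) →
      ∀ i ≤ k, ThS hn P P' PB o i g := by
  filter_upwards [H.thin_steep hPB hTop hF hEv, H.dia_all hPB hTop hF] with g h1 h2 o ho k hk hs i
  induction i using Nat.strong_induction_on with
  | _ i ih =>
    intro hi
    have hl : ∀ l < i, ThS hn P P' PB o l g := fun l hl => ih l hl (by omega)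
    obtain ⟨α, Q, c, F⟩ := H.toPk.fac hTop hF ho
    rcases h1 o ho i (by omega) hl with h3 | h3
    · exact Or.inl h3
    · rcases hs i hi with h4 | h4
      · obtain ⟨d1, d2, d3⟩ := h2 o ho i (by omega)
        exact Or.inr (sta_of2 (H.lawT o i) (H.lawL o i) F.g0 F.g1 d2 d1 d3
          (H.leAt hPB hTop hF ho (by omega)) h3 h4)
      · exact h4 hl h3

/-- **The target**: thin or steep, if the coordinates of the order are thin or static. -/
theorem mac_of (hPB : PBle hn S P P' PB) (hTop : TopS n) (hF : FZX (n - 1))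
    (hEv : ∀ Sb del : ℝ, 1 ≤ Sb → 0 < del → EvTC (n - 1) Sb del) :
    ∀ᵐ g : ℝ, ∀ o : Od n, g ∈ Gs P r P' Λ o → (∀ i < n - 1, ThS hn P P' PB o i g) →
      ThinAt P (PT hn PB o) g ∨ SteepAt 2 (PT hn PB o) g := by
  filter_upwards [H.thin_steep hPB hTop hF hEv] with g h1 o ho hl
  have h2 := h1 o ho (n - 1) le_rfl hl
  have h3 : LvL hn P P' o (n - 1) = P := by
    funext a w
    exact LvL_top o a w
  rwa [h3, LvT_top] at h2

end PkT

end Pool.PKG
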