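import Pool.Agent.H90.ISO.StD

/-!
# The target at windows where the coordinates of the order have slopes at most two
-/

set_option autoImplicit false

namespace Pool.PKG

open MeasureTheory Set Filter Topology
open Pool.Agent.H49.Ent Pool.Agent.H32.Dense Pool.STK Pool.KA Pool.KSAT Pool.K2S Pool.PB
open Pool.GEN Pool.S6C Pool.STAT Pool.CHT Pool.GRW Pool.ONE Pool.STA
open Pool.TOP (TopS)
open Pool.STR (ThinAt SteepAt StaAt StaD)

variable {n : ℕ} {hn : 2 ≤ n} {S : PCl n} {P : ℝ → ℝ → ℝ} {r : ℝ → ℝ}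
  {P' : ℕ → List (Fin n) × Fin n → ℝ → ℝ → ℝ} {Λ : Finset (Fin n) → Fin n → ℝ → ℝ → ℝ}
  {PB : ℕ → List (Fin n) × Fin n → ℝ → ℝ → ℝ}

/-- **The target is thin or steep** at almost every good window where the slopes of the coordinates
of the order are at most two. -/
theorem PkT.thin_base (H : PkT hn S P r P' Λ PB) (hPB : PBle hn S P P' PB) (hTop : TopS n)
    (hF : FZX (n - 1)) (hEv : ∀ Sb del : ℝ, 1 ≤ Sb → 0 < del → EvTC (n - 1) Sb del) :
    ∀ᵐ g : ℝ, ∀ o : Od n, g ∈ Gs P r P' Λ o →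
      (∀ i < n - 1, deriv (fun a => bet (P' o.2) (cc hn o.1.1) i a a) g ≤ 2) →
      (∀ i < n - 1, ThinAt (bet (P' o.2) (cc hn o.1.1) i) (bet (PB o.2) (cc hn o.1.1) i) g ∨
        StaAt (bet (P' o.2) (cc hn o.1.1) i) g) ∧
      (ThinAt P (PT hn PB o) g ∨ SteepAt 2 (PT hn PB o) g) := by
  filter_upwards [H.thin_sta hPB hTop hF hEv, H.mac_of hPB hTop hF hEv] with g h1 h2 o ho hs
  have e1 : ∀ i < n - 1, LvL hn P P' o i = bet (P' o.2) (cc hn o.1.1) i := fun i hi => by
    funext a w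
    exact LvL_lt o hi a w
  have h3 : ∀ i < n - 1, ThS hn P P' PB o i g := fun i hi =>
    h1 o ho (n - 2) (by omega) (fun j hj => Or.inl (by
      have h4 := hs j (by omega)
      rw [e1 j (by omega)]
      exact h4)) i (by omega)
  refine ⟨fun i hi => ?_, h2 o ho h3⟩
  have h5 := h3 i hi
  unfold ThS at h5
  rwa [e1 i hi] at h5

end Pool.PKG
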