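import Pool.Agent.H90.TRM.Core

/-!
# Truncation of a two-sided label to a degree: separate sizes

`trm_core`: as `TRM.trm_pure`, with the sizes of the parts as hypotheses. `wid_fr`: two systems
which are near on the natural boxes of the first are near on the natural boxes of the second.
`ctr_own`: the centre of the first system. `slice_pure`: the jets in the natural coordinates of the
point give the jets in the natural coordinates of the line, at one time.
-/

set_option autoImplicit false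

namespace Pool.TRM

open Finset MvPolynomial
open Pool.STAT
open Pool.TRC31 (BxE nue zet d1)

/-- **The truncated label**, with separate sizes. -/
theorem trm_core (n K m : ℕ) : ∃ Cc : ℝ, 1 ≤ Cc ∧ ∀ (ΦG ΦH : ℕ → PN) (g c : ℕ → ℝ)
    (G₀ G₁ H₀ H₁ : PN) (v A y S₀ S₁ S₂ S₃ : ℝ), TriN ΦG → TriN ΦH →
    (∀ i < n, (ΦG i).totalDegree ≤ K) → (∀ i < n, (ΦH i).totalDegree ≤ K) →
    G₀.vars ⊆ range n → G₁.vars ⊆ range n → H₀.vars ⊆ range n → H₁.vars ⊆ range n →
    G₀.totalDegree ≤ K → G₁.totalDegree ≤ K → H₀.totalDegree ≤ K → H₁.totalDegree ≤ K →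
    0 ≤ A → 0 ≤ v → 0 ≤ y → 0 ≤ S₀ → 0 ≤ S₁ → 0 ≤ S₂ → 0 ≤ S₃ → (∀ i < n, eval c (ΦG i) = c i) →
    (∀ b, BxE g ΦG n b → ∀ i < n, |eval b (ΦG i) - eval b (ΦH i)| ≤ Real.exp (A - g i)) →
    (∀ i, 1 ≤ i → i < n → |c i - eval c (ΦH i)| ≤ Real.exp (A - g i - (v + y))) →
    (∀ b, BxE g ΦG n b → |eval b G₀ - eval b H₀| ≤ S₀) →
    (∀ b, BxE (gs v g) ΦG n b → |eval b G₁ - eval b H₁| ≤ S₃) →
    nrm dY 1 (trw dY (m + 1) (bind₁ (nue g ΦH) (H₁ - H₀))) ≤ S₁ →
    nrm dY (Real.exp (-v)) (bind₁ (nue g ΦH) (H₁ - H₀)) ≤ S₂ →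
    ∀ s, 0 ≤ s → s ≤ v → ∀ b, BxE (gs s g) ΦG n b →
      |eval b (G₀ + tyw d1 m g ΦG (G₁ - G₀)) - eval b (H₀ + tyw dY m g ΦH (H₁ - H₀))| ≤
        Cc * Real.exp (Cc * A) * ((S₀ + S₁) * Real.exp (-((m + 1) * s)) +
          S₃ * Real.exp (m * (v - s)) + S₂ * Real.exp (m * (v - s) - y)) := by
  classical
  obtain ⟨C₁, hC₁, hn⟩ := nrm_le n K K
  obtain ⟨KE, hKE⟩ : ∃ KE, KE = K * (K + 1) ^ n * (K + 1) := ⟨_, rfl⟩
  obtain ⟨Cq, hCq, K1, hkey⟩ := TRC31.key n K (max K KE)
  have hC10 : 0 < C₁ := by linarith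
  have hCq0 : 0 < Cq := by linarith
  have hm0 : (0 : ℝ) ≤ m := Nat.cast_nonneg m
  have hK10 : (0 : ℝ) ≤ K1 := Nat.cast_nonneg K1
  obtain ⟨B₀, hB₀⟩ : ∃ B₀, B₀ = 2 + C₁ := ⟨_, rfl⟩
  have hB01 : 1 ≤ B₀ := by rw [hB₀]; linarith
  have hBK : 1 ≤ B₀ ^ K1 := one_le_pow₀ hB01
  obtain ⟨Ca, hCa⟩ : ∃ Ca, Ca = Cq * B₀ ^ K1 := ⟨_, rfl⟩
  have hCa1 : 1 ≤ Ca := by
    rw [hCa]
    exact one_le_mul_of_one_le_of_one_le hCq hBK
  refine ⟨C₁ + Ca + K1 + 3, by linarith, ?_⟩
  intro ΦG ΦH g c G₀ G₁ H₀ H₁ v A y S₀ S₁ S₂ S₃ hG hH dG dH vG0 vG1 vH0 vH1 dG0 dG1 dH0 dH1 hA hv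
    hy hS₀ hS₁ hS₂ hS₃ hc fr own e0 e1 k1 k2 s hs hsN b hb
  obtain ⟨z1, z2⟩ := zet_ball (r := v + y) hn hG hH dG dH hA hc fr
  have z2 := z2 (by linarith) own
  have hB : 1 ≤ (2 + C₁) * Real.exp A := by
    rw [← hB₀]
    exact one_le_mul_of_one_le_of_one_le hB01 (Real.one_le_exp hA)
  have hBK' : ((2 + C₁) * Real.exp A) ^ K1 = B₀ ^ K1 * Real.exp (K1 * A) := by
    rw [mul_pow, ← Real.exp_nat_mul, hB₀]
  -- the parts
  obtain ⟨W, hW⟩ : ∃ W, W = H₁ - H₀ := ⟨_, rfl⟩
  obtain ⟨E, hE⟩ : ∃ E, E = tyw dY m g ΦH W := ⟨_, rfl⟩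
  have vW : W.vars ⊆ range n := by
    rw [hW]
    exact (vars_sub_subset _).trans (Finset.union_subset vH1 vH0)
  have dW : W.totalDegree ≤ K := by
    rw [hW]
    exact (totalDegree_sub _ _).trans (max_le dH1 dH0)
  have vE : E.vars ⊆ range n := by
    rw [hE]
    exact tyw_vars hH vW
  have dE : E.totalDegree ≤ KE := by
    rw [hE, hKE]
    exact tyw_deg hH vW dH dW
  have hEn : bind₁ (nue g ΦH) E = trw dY (m + 1) (bind₁ (nue g ΦH) W) := by
    rw [hE]
    exact tyw_nue hH dY m W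
  have hFn : bind₁ (nue g ΦH) (W - E) = gew dY (m + 1) (bind₁ (nue g ΦH) W) := by
    rw [map_sub, hEn]
    rfl
  rw [← hW] at k1 k2
  -- the values of `E` on the box of the ball
  have hE1 : ∀ b, BxE g ΦH n b → |eval b E| ≤ S₁ := by
    intro b hb
    refine (val_le (d := dY) hH vE (ρ := 1) (bx_one' hb)).trans ?_
    rw [hEn]
    exact k1
  -- the values of `W - E` on the thin box
  have hF1 : ∀ b, BxE (gt (v + y) g) ΦH n b → |eval b (W - E)| ≤
      Real.exp (-((m + 1) * y)) * S₂ := by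
    intro b hb
    refine (val_le (d := dY) hH ((vars_sub_subset _).trans (Finset.union_subset vW vE))
      (ρ := Real.exp (-(v + y))) (bx_gt hb)).trans ?_
    rw [hFn]
    have h1 := NRM.nrm_gew_scale dY (Real.exp_pos (-(v + y))) (m + 1)
      (bind₁ (nue g ΦH) W) (Real.exp (-v)) (Real.exp_le_exp.2 (by linarith))
    refine h1.trans ((mul_le_mul_of_nonneg_left k2 (by positivity)).trans (le_of_eq ?_))
    rw [← Real.exp_sub, ← Real.exp_nat_mul]
    congr 2
    push_cast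
    ring
  -- in the natural coordinates of the point
  obtain ⟨r, hr⟩ : ∃ r, r = Real.exp (-s) := ⟨_, rfl⟩
  have hr0 : 0 < r := by rw [hr]; exact Real.exp_pos _
  have hr1 : r ≤ 1 := by
    rw [hr, Real.exp_le_one_iff]
    linarith
  have n1 : nrm d1 1 (bind₁ (nue g ΦG) E) ≤ Ca * Real.exp (K1 * A) * S₁ := by
    refine (hkey g ΦH hH dH E n le_rfl vE (dE.trans (le_max_right _ _)) _ hE1 (nue g ΦG) 1 _
      one_pos hB z1).trans (le_of_eq ?_)
    rw [hBK', hCa]
    ring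
  have n2 : nrm d1 (Real.exp (-(v + y))) (bind₁ (nue g ΦG) (W - E)) ≤
      Ca * Real.exp (K1 * A) * (Real.exp (-((m + 1) * y)) * S₂) := by
    refine (hkey (gt (v + y) g) ΦH hH dH (W - E) n le_rfl
      ((vars_sub_subset _).trans (Finset.union_subset vW vE))
      ((totalDegree_sub _ _).trans (max_le (dW.trans (le_max_left _ _))
        (dE.trans (le_max_right _ _)))) _ hF1 (nue g ΦG) _ _
      (Real.exp_pos _) hB z2).trans (le_of_eq ?_)
    rw [hBK', hCa]
    ring
  have n3 : nrm d1 1 (bind₁ (nue g ΦG) (G₀ - H₀)) ≤ C₁ * S₀ := by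
    refine hn ΦG g d1 1 _ _ hG dG one_pos ?_ ?_ fun b hb => ?_
    · exact (vars_sub_subset _).trans (Finset.union_subset vG0 vH0)
    · exact (totalDegree_sub _ _).trans (max_le dG0 dH0)
    · rw [map_sub]
      exact e0 b (bx_one hb)
  have n4 : nrm d1 (Real.exp (-v)) (bind₁ (nue g ΦG) (G₁ - H₁)) ≤ C₁ * S₃ := by
    refine hn ΦG g d1 _ _ _ hG dG (Real.exp_pos _) ?_ ?_ fun b hb => ?_
    · exact (vars_sub_subset _).trans (Finset.union_subset vG1 vH1)
    · exact (totalDegree_sub _ _).trans (max_le dG1 dH1)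
    · rw [map_sub]
      exact e1 b (bx_gs' hb)
  -- the difference of the two sides
  obtain ⟨X, hX⟩ : ∃ X, X = (G₀ + tyw d1 m g ΦG (G₁ - G₀)) - (H₀ + E) := ⟨_, rfl⟩
  have hXn : bind₁ (nue g ΦG) X = gew d1 (m + 1) (bind₁ (nue g ΦG) (G₀ - H₀)) -
      gew d1 (m + 1) (bind₁ (nue g ΦG) E) +
      (trw d1 (m + 1) (bind₁ (nue g ΦG) (G₁ - H₁)) +
        trw d1 (m + 1) (bind₁ (nue g ΦG) (W - E))) := by
    have t1 : bind₁ (nue g ΦG) (tyw d1 m g ΦG (G₁ - G₀)) =
        trw d1 (m + 1) (bind₁ (nue g ΦG) (G₁ - G₀)) := tyw_nue hG d1 m _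
    have t2 : bind₁ (nue g ΦG) (G₁ - G₀) = bind₁ (nue g ΦG) (G₁ - H₁) -
        bind₁ (nue g ΦG) (G₀ - H₀) + bind₁ (nue g ΦG) (W - E) + bind₁ (nue g ΦG) E := by
      rw [← map_sub, ← map_add, ← map_add, hW]
      congr 1
      ring
    rw [hX, map_sub, map_add, map_add, t1, t2, trw_add', trw_add', trw_sub']
    unfold gew
    rw [show bind₁ (nue g ΦG) (G₀ - H₀) = bind₁ (nue g ΦG) G₀ - bind₁ (nue g ΦG) H₀ from
      map_sub _ _ _]
    ring
  have vX : X.vars ⊆ range n := by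
    rw [hX]
    refine (vars_sub_subset _).trans (Finset.union_subset ?_ ?_)
    · exact (vars_add_subset _ _).trans (Finset.union_subset vG0
        (tyw_vars hG ((vars_sub_subset _).trans (Finset.union_subset vG1 vG0))))
    · exact (vars_add_subset _ _).trans (Finset.union_subset vH0 vE)
  have hval : |eval b X| ≤ nrm d1 r (bind₁ (nue g ΦG) X) := by
    rw [hr]
    exact val_le (d := d1) hG vX (bx_gs hb)
  have hexp1 : Real.exp (-s) ^ (m + 1) = Real.exp (-((m + 1) * s)) := by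
    rw [← Real.exp_nat_mul]
    congr 1
    push_cast
    ring
  -- the four estimates
  have a1 : nrm d1 r (gew d1 (m + 1) (bind₁ (nue g ΦG) (G₀ - H₀))) ≤
      Real.exp (-((m + 1) * s)) * (C₁ * S₀) := by
    have h1 := NRM.nrm_gew_scale d1 hr0 (m + 1) (bind₁ (nue g ΦG) (G₀ - H₀)) 1 hr1
    rw [div_one, hr, hexp1, ← hr] at h1
    exact h1.trans (mul_le_mul_of_nonneg_left n3 (Real.exp_pos _).le)
  have a2 : nrm d1 r (gew d1 (m + 1) (bind₁ (nue g ΦG) E)) ≤
      Real.exp (-((m + 1) * s)) * (Ca * Real.exp (K1 * A) * S₁) := by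
    have h1 := NRM.nrm_gew_scale d1 hr0 (m + 1) (bind₁ (nue g ΦG) E) 1 hr1
    rw [div_one, hr, hexp1, ← hr] at h1
    exact h1.trans (mul_le_mul_of_nonneg_left n1 (Real.exp_pos _).le)
  have a3 : nrm d1 r (trw d1 (m + 1) (bind₁ (nue g ΦG) (G₁ - H₁))) ≤
      Real.exp (m * (v - s)) * (C₁ * S₃) := by
    have h1 := NRM.nrm_trw_scale d1 (Real.exp_pos (-v)) m (bind₁ (nue g ΦG) (G₁ - H₁)) r (by
      rw [hr]
      exact Real.exp_le_exp.2 (by linarith))
    refine h1.trans ((mul_le_mul_of_nonneg_left n4 (by positivity)).trans (le_of_eq ?_))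
    rw [hr, ← Real.exp_sub, ← Real.exp_nat_mul]
    congr 2
    ring
  have a4 : nrm d1 r (trw d1 (m + 1) (bind₁ (nue g ΦG) (W - E))) ≤
      Ca * Real.exp (K1 * A) * (Real.exp (m * (v - s) - y) * S₂) := by
    have h1 := NRM.nrm_trw_scale d1 (Real.exp_pos (-(v + y))) m (bind₁ (nue g ΦG) (W - E)) r
      (by
        rw [hr]
        exact Real.exp_le_exp.2 (by linarith))
    refine h1.trans ((mul_le_mul_of_nonneg_left n2 (by positivity)).trans (le_of_eq ?_))
    have e3 : Real.exp (m * (v - s) - y) = (r / Real.exp (-(v + y))) ^ m *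
        Real.exp (-((m + 1) * y)) := by
      rw [hr, ← Real.exp_sub, ← Real.exp_nat_mul, ← Real.exp_add]
      congr 1
      ring
    rw [e3]
    ring
  have hfin : |eval b X| ≤ Real.exp (-((m + 1) * s)) * (C₁ * S₀) +
      Real.exp (-((m + 1) * s)) * (Ca * Real.exp (K1 * A) * S₁) +
      (Real.exp (m * (v - s)) * (C₁ * S₃) +
        Ca * Real.exp (K1 * A) * (Real.exp (m * (v - s) - y) * S₂)) := by
    refine hval.trans ?_
    rw [hXn]
    refine (NRM.nrm_add d1 hr0 _ _).trans (add_le_add ?_ ((NRM.nrm_add d1 hr0 _ _).trans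
      (add_le_add a3 a4)))
    rw [sub_eq_add_neg]
    refine (NRM.nrm_add d1 hr0 _ _).trans (add_le_add a1 ?_)
    rw [NRM.nrm_neg]
    exact a2
  have hXv : eval b X = eval b (G₀ + tyw d1 m g ΦG (G₁ - G₀)) -
      eval b (H₀ + tyw dY m g ΦH (H₁ - H₀)) := by
    rw [hX, map_sub, hE, hW]
  rw [← hXv]
  refine hfin.trans ?_
  -- comparison of the constants
  obtain ⟨Cc, hCc⟩ : ∃ Cc, Cc = C₁ + Ca + K1 + 3 := ⟨_, rfl⟩
  rw [← hCc]
  have hKA : Real.exp (K1 * A) ≤ Real.exp (Cc * A) := by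
    refine Real.exp_le_exp.2 (mul_le_mul_of_nonneg_right ?_ hA)
    rw [hCc]
    linarith
  have h1A : 1 ≤ Real.exp (Cc * A) := Real.one_le_exp (by
    refine mul_nonneg ?_ hA
    rw [hCc]
    linarith)
  have hCa0 : 0 < Ca := by linarith
  have hCc0 : 0 < Cc := by rw [hCc]; linarith
  have hC1c : C₁ ≤ Cc * Real.exp (Cc * A) := by
    have h1 : C₁ ≤ Cc := by rw [hCc]; linarith
    calc C₁ = C₁ * 1 := (mul_one _).symm
      _ ≤ Cc * Real.exp (Cc * A) := mul_le_mul h1 h1A zero_le_one hCc0.le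
  have hCac : Ca * Real.exp (K1 * A) ≤ Cc * Real.exp (Cc * A) := by
    have h1 : Ca ≤ Cc := by rw [hCc]; linarith
    exact mul_le_mul h1 hKA (Real.exp_pos _).le hCc0.le
  obtain ⟨T, hT⟩ : ∃ T, T = Cc * Real.exp (Cc * A) := ⟨_, rfl⟩
  rw [← hT] at hC1c hCac ⊢
  have hx1 := Real.exp_pos (-((m + 1 : ℝ) * s))
  have hx2 := Real.exp_pos ((m : ℝ) * (v - s))
  have hx3 := Real.exp_pos ((m : ℝ) * (v - s) - y)
  calc _ ≤ Real.exp (-((m + 1) * s)) * (T * S₀) + Real.exp (-((m + 1) * s)) * (T * S₁) +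
      (Real.exp (m * (v - s)) * (T * S₃) + T * (Real.exp (m * (v - s) - y) * S₂)) := by
        gcongr
    _ = _ := by ring

/-! ### Nearness on the other box -/

/-- Two systems which are near on the natural boxes of the first are near on the natural boxes of
the second. -/
theorem wid_fr (n K : ℕ) : ∃ Cw : ℝ, 1 ≤ Cw ∧ ∀ (Φ Ψ : ℕ → PN) (g : ℕ → ℝ) (A : ℝ), TriN Φ →
    TriN Ψ → (∀ i < n, (Φ i).totalDegree ≤ K) → (∀ i < n, (Ψ i).totalDegree ≤ K) → 0 ≤ A →
    (∀ b, BxE g Φ n b → ∀ i < n, |eval b (Φ i) - eval b (Ψ i)| ≤ Real.exp (A - g i)) →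
    ∀ b, BxE g Ψ n b → ∀ i < n, |eval b (Φ i) - eval b (Ψ i)| ≤ Real.exp (Cw * (A + 1) - g i) ∧
      |eval b (nco g Φ i)| ≤ Real.exp (Cw * (A + 1)) := by
  classical
  obtain ⟨C₁, hC₁, hn⟩ := nrm_le n K K
  obtain ⟨D, hD⟩ : ∃ D, D = K * (K + 1) ^ n + 1 := ⟨_, rfl⟩
  have hC10 : 0 < C₁ := by linarith
  have hlC : 0 ≤ Real.log C₁ := Real.log_nonneg hC₁
  obtain ⟨L, hL⟩ : ∃ L : ℝ, L = Real.log C₁ + 2 := ⟨_, rfl⟩
  have hL2 : 2 ≤ L := by rw [hL]; linarith
  -- the exponents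
  obtain ⟨x, hx⟩ : ∃ x : ℕ → ℝ, x = fun i => L * (D + 1) ^ i := ⟨_, rfl⟩
  have hD1 : (1 : ℝ) ≤ D := by
    rw [hD]
    push_cast
    have : (0 : ℝ) ≤ K * (K + 1) ^ n := by positivity
    linarith
  have hx0 : ∀ i, L ≤ x i := by
    intro i
    rw [hx]
    show L ≤ L * (D + 1) ^ i
    exact le_mul_of_one_le_right (by linarith) (one_le_pow₀ (by linarith))
  have hxs : ∀ i, L + D * x i ≤ x (i + 1) := by
    intro i
    have h1 := hx0 i
    have h2 : x (i + 1) = x i * (D + 1) := by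
      rw [hx]
      show L * (D + 1) ^ (i + 1) = L * (D + 1) ^ i * (D + 1)
      rw [pow_succ]
      ring
    rw [h2]
    linarith
  have hxm : ∀ i j, i ≤ j → x i ≤ x j := by
    intro i j hij
    rw [hx]
    show L * (D + 1) ^ i ≤ L * (D + 1) ^ j
    exact mul_le_mul_of_nonneg_left (pow_le_pow_right₀ (by linarith) hij) (by linarith)
  refine ⟨x (n + 1), by linarith [hx0 (n + 1)], ?_⟩
  intro Φ Ψ g A hΦ hΨ dΦ dΨ hA hfr b hb
  have hA1 : 0 ≤ A + 1 := by linarith
  have hdl : ∀ i < n, nrm d1 1 (bind₁ (nue g Φ) (Φ i - Ψ i)) ≤ C₁ * Real.exp (A - g i) := by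
    intro i hi
    refine hn Φ g d1 1 _ _ hΦ dΦ one_pos ?_ ?_ fun b hb => ?_
    · exact (vars_sub_subset _).trans (Finset.union_subset ((hΦ i).trans (range_mono hi.le))
        ((hΨ i).trans (range_mono hi.le)))
    · exact (totalDegree_sub _ _).trans (max_le (dΦ i hi) (dΨ i hi))
    · rw [map_sub]
      exact hfr b (bx_one hb) i hi
  have hvr : ∀ i < n, (bind₁ (nue g Φ) (Φ i - Ψ i)).vars ⊆ range i := fun i hi =>
    SYS35.vars_bind ((vars_sub_subset _).trans (Finset.union_subset (hΦ i) (hΨ i)))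
      fun j _ => TRC31.nue_vars hΦ j
  have hdg : ∀ i < n, (bind₁ (nue g Φ) (Φ i - Ψ i)).totalDegree ≤ D := fun i hi => by
    rw [hD]
    exact (SYS35.totalDegree_bind ((vars_sub_subset _).trans (Finset.union_subset
      ((hΦ i).trans (range_mono hi.le)) ((hΨ i).trans (range_mono hi.le))))
      ((totalDegree_sub _ _).trans (max_le (dΦ i hi) (dΨ i hi))) fun j hj =>
        (TRC31.nue_deg hΦ dΦ j hj).trans (Nat.pow_le_pow_right (by omega) (by omega))).trans
      (Nat.le_succ _)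
  -- one step: from the coordinates before `i`
  have hstep : ∀ i < n, (∀ j < i, |eval b (nco g Φ j)| ≤ Real.exp (x i * (A + 1))) →
      |eval b (Φ i) - eval b (Ψ i)| ≤ Real.exp (x (i + 1) * (A + 1) - 1 - g i) := by
    intro i hi hj
    have e1 : eval b (Φ i) - eval b (Ψ i) =
        eval (fun j => eval b (nco g Φ j)) (bind₁ (nue g Φ) (Φ i - Ψ i)) := by
      rw [TRC31.eval_bind', ← map_sub]
      congr 1
      congr 1
      funext j
      exact (nue_nco hΦ b j).symm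
    have hR1 : 1 ≤ Real.exp (x i * (A + 1)) := Real.one_le_exp (by
      have := hx0 i
      exact mul_nonneg (by linarith) hA1)
    have h1 : |eval b (Φ i) - eval b (Ψ i)| ≤
        nrm d1 (Real.exp (x i * (A + 1)) * 1) (bind₁ (nue g Φ) (Φ i - Ψ i)) := by
      rw [e1, mul_one]
      refine NRM.abs_eval_le d1 _ _ fun j hj' => ?_
      rw [show d1 j = 1 from rfl, pow_one]
      exact hj j (mem_range.1 (hvr i hi hj'))
    have h2 : nrm d1 (Real.exp (x i * (A + 1)) * 1) (bind₁ (nue g Φ) (Φ i - Ψ i)) ≤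
        Real.exp (x i * (A + 1)) ^ D * nrm d1 1 (bind₁ (nue g Φ) (Φ i - Ψ i)) := by
      refine SYS35.nrm_scale (fun k hk => ?_) hR1 zero_le_one
      rw [TRC31.weight_deg]
      exact (le_totalDegree hk).trans (hdg i hi)
    refine h1.trans (h2.trans ?_)
    refine (mul_le_mul_of_nonneg_left (hdl i hi) (by positivity)).trans ?_
    have h3 : C₁ = Real.exp (Real.log C₁) := (Real.exp_log hC10).symm
    rw [← Real.exp_nat_mul, h3, ← Real.exp_add, ← Real.exp_add]
    refine Real.exp_le_exp.2 ?_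
    have h4 := mul_le_mul_of_nonneg_right (hxs i) hA1
    have h5 : (L + D * x i) * (A + 1) = L * (A + 1) + D * (x i * (A + 1)) := by ring
    rw [hL] at h5
    have h6 : (Real.log C₁ + 2) * (A + 1) = Real.log C₁ + A + 2 + A + Real.log C₁ * A := by ring
    have h7 : 0 ≤ Real.log C₁ * A := mul_nonneg hlC hA
    rw [← hL] at h5 h6
    linarith
  have key : ∀ i ≤ n, ∀ j < i, |eval b (nco g Φ j)| ≤ Real.exp (x i * (A + 1)) := by
    intro i
    induction i with
    | zero => exact fun _ j hj => absurd hj (Nat.not_lt_zero j)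
    | succ i ih =>
      intro hi j hj
      have hmono := Real.exp_le_exp.2 (mul_le_mul_of_nonneg_right (hxm i (i + 1) (Nat.le_succ i))
        hA1)
      rcases Nat.lt_or_ge j i with h1 | h1
      · exact (ih (by omega) j h1).trans hmono
      · have hji : j = i := by omega
        subst hji
        have h2 := hstep j (by omega) (ih (by omega))
        rw [eval_nco]
        have h3 := hb j (by omega)
        have h4 : |b j - eval b (Φ j)| ≤ Real.exp (-g j) +
            Real.exp (x (j + 1) * (A + 1) - 1 - g j) := by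
          have e : b j - eval b (Φ j) = (b j - eval b (Ψ j)) - (eval b (Φ j) - eval b (Ψ j)) := by
            ring
          rw [e]
          exact (abs_sub _ _).trans (add_le_add h3 h2)
        rw [abs_mul, abs_of_pos (Real.exp_pos _)]
        refine (mul_le_mul_of_nonneg_left h4 (Real.exp_pos _).le).trans ?_
        have e1 : Real.exp (g j) * (Real.exp (-g j) + Real.exp (x (j + 1) * (A + 1) - 1 - g j)) =
            1 + Real.exp (x (j + 1) * (A + 1) - 1) := by
          rw [mul_add, ← Real.exp_add, ← Real.exp_add, add_neg_cancel, Real.exp_zero]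
          congr 2
          ring
        rw [e1]
        have h5 : 1 ≤ Real.exp (x (j + 1) * (A + 1) - 1) := Real.one_le_exp (by
          have h6 := hx0 (j + 1)
          nlinarith)
        have h6 : 2 ≤ Real.exp 1 := by
          have := Real.add_one_le_exp (1 : ℝ)
          linarith
        have h7 : Real.exp (x (j + 1) * (A + 1)) = Real.exp (x (j + 1) * (A + 1) - 1) *
            Real.exp 1 := by
          rw [← Real.exp_add]
          congr 1
          ring
        rw [h7]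
        nlinarith [Real.exp_pos (x (j + 1) * (A + 1) - 1)]
  intro i hi
  constructor
  · refine (hstep i hi (key i hi.le)).trans (Real.exp_le_exp.2 ?_)
    have h1 := mul_le_mul_of_nonneg_right (hxm (i + 1) (n + 1) (by omega)) hA1
    linarith
  · exact (key n le_rfl i hi).trans (Real.exp_le_exp.2 (mul_le_mul_of_nonneg_right
      (hxm n (n + 1) (by omega)) hA1))

/-! ### Truncation of homogeneous substitutions -/

theorem trw_hom {d : ℕ → ℕ} {G : PN} {w : ℕ} (h : IsWeightedHomogeneous d G w) (M : ℕ) :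
    trw d M G = if w < M then G else 0 := by
  ext κ
  rw [SYS35.coeff_trw]
  by_cases h0 : coeff κ G = 0
  · rw [h0]
    split_ifs <;> simp [h0]
  · rw [h h0]
    split_ifs <;> simp

/-- The truncation commutes with homogeneous substitutions. -/
theorem trw_bindh {d : ℕ → ℕ} {σ : ℕ → PN} (hσ : ∀ i, IsWeightedHomogeneous d (σ i) (d i)) (M : ℕ)
    (F : PN) : trw d M (bind₁ σ F) = bind₁ σ (trw d M F) := by
  classical
  have hm : ∀ (κ : ℕ →₀ ℕ) (a : ℝ), trw d M (bind₁ σ (monomial κ a)) =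
      bind₁ σ (trw d M (monomial κ a)) := by
    intro κ a
    have h1 : IsWeightedHomogeneous d (bind₁ σ (monomial κ a)) (Finsupp.weight d κ) := by
      rw [bind₁_monomial]
      have h2 := (isWeightedHomogeneous_C d a).mul
        (IsWeightedHomogeneous.prod κ.support (fun i => σ i ^ κ i) (fun i => κ i • d i)
          fun i _ => (hσ i).pow (κ i))
      rw [zero_add] at h2
      have h3 : Finsupp.weight d κ = ∑ i ∈ κ.support, κ i • d i := by
        rw [Finsupp.weight_apply, Finsupp.sum]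
      rw [h3]
      exact h2
    rw [trw_hom h1, trw_hom (isWeightedHomogeneous_monomial d κ a rfl)]
    split_ifs
    · rfl
    · rw [map_zero]
  conv_lhs => rw [F.as_sum, map_sum, trw_sum']
  conv_rhs => rw [F.as_sum, trw_sum', map_sum]
  exact Finset.sum_congr rfl fun κ _ => hm κ _

/-- The shift of the time. -/
noncomputable def sft (τ : ℝ) : ℕ → PN := fun i => if i = 0 then X 0 + C τ else X i

theorem sft_hom (τ : ℝ) (i : ℕ) : IsWeightedHomogeneous dY (sft τ i) (dY i) := by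
  unfold sft
  rcases Nat.eq_zero_or_pos i with h | h
  · subst h
    rw [if_pos rfl]
    exact (isWeightedHomogeneous_X ℝ dY 0).add (isWeightedHomogeneous_C dY τ)
  · rw [if_neg (by omega)]
    exact isWeightedHomogeneous_X ℝ dY i

/-- The natural coordinates with another time. -/
theorem nue_sft {g : ℕ → ℝ} {Φ : ℕ → PN} (hΦ : TriN Φ) {t₀ T τ : ℝ} (h0 : Φ 0 = C t₀)
    (hT : T = t₀ + Real.exp (-g 0) * τ) (i : ℕ) :
    nue g (Function.update Φ 0 (C T)) i = bind₁ (sft τ) (nue g Φ i) := by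
  have hΦ' : TriN (Function.update Φ 0 (C T)) := by
    intro i
    rcases Nat.eq_zero_or_pos i with h | h
    · subst h
      rw [Function.update_self, vars_C]
      exact Finset.empty_subset _
    · rw [Function.update_of_ne (by omega)]
      exact hΦ i
  induction i using Nat.strong_induction_on with
  | _ i ih =>
    rw [TRC31.nue_eq hΦ', TRC31.nue_eq hΦ, map_add, map_mul, bind₁_C_right, bind₁_X_right]
    rcases Nat.eq_zero_or_pos i with h | h
    · subst h
      rw [Function.update_self, h0, bind₁_C_right, bind₁_C_right, bind₁_C_right, hT]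
      unfold sft
      rw [if_pos rfl, C_add, C_mul]
      ring
    · rw [Function.update_of_ne (by omega), bind₁_bind₁]
      congr 1
      · exact TRC31.bind_congr_lt (hΦ i) ih
      · unfold sft
        rw [if_neg (by omega)]

/-- At the time `0` only the monomials without the time count. -/
theorem ev_eq0 {F G : PN} (h : ∀ κ : ℕ →₀ ℕ, κ 0 = 0 → coeff κ F = coeff κ G) {b : ℕ → ℝ}
    (hb : b 0 = 0) : eval b F = eval b G := by
  classical
  rw [← sub_eq_zero, ← map_sub, eval_eq]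
  refine Finset.sum_eq_zero fun κ hκ => ?_
  have h1 : κ 0 ≠ 0 := by
    intro h0
    rw [mem_support_iff, coeff_sub, h κ h0, sub_self] at hκ
    exact hκ rfl
  rw [Finset.prod_eq_zero (Finsupp.mem_support_iff.2 h1), mul_zero]
  rw [hb, zero_pow h1]

theorem wt_dY {κ : ℕ →₀ ℕ} (h : κ 0 = 0) : Finsupp.weight dY κ = Finsupp.weight d1 κ := by
  rw [Finsupp.weight_apply, Finsupp.weight_apply]
  refine Finset.sum_congr rfl fun i hi => ?_
  have h1 : i ≠ 0 := fun h0 => Finsupp.mem_support_iff.1 hi (by rw [h0]; exact h)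
  show κ i • dY i = κ i • d1 i
  unfold dY
  rw [if_neg h1]
  rfl

theorem ev_slice (M : ℕ) (P : PN) {b : ℕ → ℝ} (hb : b 0 = 0) :
    eval b (trw dY M P) = eval b (trw d1 M P) :=
  ev_eq0 (fun κ hκ => by rw [SYS35.coeff_trw, SYS35.coeff_trw, wt_dY hκ]) hb

/-- With the shift of the time. -/
theorem eval_sft (τ : ℝ) (P : PN) {b : ℕ → ℝ} (hb : b 0 = 0) :
    eval b (bind₁ (sft τ) P) = eval (Function.update b 0 τ) P := by
  rw [TRC31.eval_bind']
  congr 1
  congr 1
  funext i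
  unfold sft
  rcases Nat.eq_zero_or_pos i with h | h
  · subst h
    rw [if_pos rfl, map_add, eval_X, eval_C, hb, zero_add, Function.update_self]
  · rw [if_neg (by omega), eval_X, Function.update_of_ne (by omega)]

/-! ### The centre -/

theorem zet_vars {ΦG ΦH : ℕ → PN} (hG : TriN ΦG) (hH : TriN ΦH) (g g' : ℕ → ℝ) (i : ℕ) :
    (zet g' ΦH (nue g ΦG) i).vars ⊆ range (i + 1) := by
  classical
  unfold zet
  refine (vars_mul _ _).trans (Finset.union_subset ?_ ?_)
  · rw [vars_C]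
    exact empty_subset _
  · refine (vars_sub_subset _).trans (Finset.union_subset (TRC31.nue_vars hG i) ?_)
    exact (SYS35.vars_bind (hH i) fun j _ => TRC31.nue_vars hG j).trans
      (range_mono (Nat.le_succ i))

theorem eval_zet {ΦG ΦH : ℕ → PN} (hG : TriN ΦG) (g g' : ℕ → ℝ) (b : ℕ → ℝ) (i : ℕ) :
    eval (fun j => eval b (nco g ΦG j)) (zet g' ΦH (nue g ΦG) i) =
      Real.exp (g' i) * (b i - eval b (ΦH i)) := by
  unfold zet
  rw [map_mul, eval_C, map_sub, nue_nco hG, TRC31.eval_bind']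
  congr 3
  congr 1
  funext j
  exact nue_nco hG b j

/-- **The centre of the point is near the line**, if the point is. -/
theorem ctr_own (n K : ℕ) : ∃ Co : ℝ, 1 ≤ Co ∧ ∀ (ΦG ΦH : ℕ → PN) (g c o : ℕ → ℝ) (A r : ℝ),
    TriN ΦG → TriN ΦH → (∀ i < n, (ΦG i).totalDegree ≤ K) → (∀ i < n, (ΦH i).totalDegree ≤ K) →
    0 ≤ A → 0 ≤ r → (∀ i < n, eval c (ΦG i) = c i) → o 0 = c 0 →
    (∀ b, BxE g ΦG n b → ∀ i < n, |eval b (ΦG i) - eval b (ΦH i)| ≤ Real.exp (A - g i)) →
    (∀ i, 1 ≤ i → i < n → eval o (ΦH i) = o i) →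
    (∀ i, 1 ≤ i → i < n → |o i - eval o (ΦG i)| ≤ Real.exp (-g i - r)) →
    ∀ i, 1 ≤ i → i < n → |c i - eval c (ΦH i)| ≤ Co * Real.exp (A - g i - r) := by
  classical
  obtain ⟨C₁, hC₁, hn⟩ := nrm_le n K K
  refine ⟨2 + C₁, by linarith, ?_⟩
  intro ΦG ΦH g c o A r hG hH dG dH hA hr hc h0 fr hoH hoG i hi1 hi
  obtain ⟨z1, -⟩ := zet_ball (r := 0) hn hG hH dG dH hA hc fr
  obtain ⟨ψ, hψ⟩ : ∃ ψ, ψ = zet g ΦH (nue g ΦG) i := ⟨_, rfl⟩
  have z1' := z1 i hi
  rw [← hψ] at z1'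
  have hsplit : ψ = trw d1 1 ψ + gew d1 1 ψ := by
    unfold gew
    ring
  have hev : ∀ η : ℕ → ℝ, eval η ψ = coeff 0 ψ + eval η (gew d1 1 ψ) := by
    intro η
    conv_lhs => rw [hsplit]
    rw [map_add, trw_one, eval_C]
  -- the values at the two points
  have e1 : coeff 0 ψ = Real.exp (g i) * (c i - eval c (ΦH i)) := by
    have h1 : eval (0 : ℕ → ℝ) ψ = coeff 0 ψ := TRC31.eval_zero_coeff ψ
    rw [← h1, hψ]
    unfold zet
    have hn0 := nue_ctr (g := g) hG hc
    rw [map_mul, eval_C, map_sub, TRC31.eval_bind', hn0 i hi]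
    congr 2
    exact SYS35.eval_congr (hH i) fun j hj => hn0 j (hj.trans hi)
  have e2 : eval (fun j => eval o (nco g ΦG j)) ψ = 0 := by
    rw [hψ, eval_zet hG, hoH i hi1 hi, sub_self, mul_zero]
  have e3 := hev (fun j => eval o (nco g ΦG j))
  rw [e2] at e3
  have hvr : (gew d1 1 ψ).vars ⊆ range (i + 1) :=
    (SYS35.vars_gew _ _ _).trans (by rw [hψ]; exact zet_vars hG hH g g i)
  have h2 : |eval (fun j => eval o (nco g ΦG j)) (gew d1 1 ψ)| ≤
      nrm d1 (Real.exp (-r)) (gew d1 1 ψ) := by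
    refine NRM.abs_eval_le d1 _ _ fun j hj => ?_
    have hj' : j < i + 1 := mem_range.1 (hvr hj)
    rw [show d1 j = 1 from rfl, pow_one, eval_nco]
    rcases Nat.eq_zero_or_pos j with h | h
    · subst h
      have h3 : eval o (ΦG 0) = eval c (ΦG 0) :=
        SYS35.eval_congr (hG 0) fun j hj => absurd hj (Nat.not_lt_zero j)
      rw [h3, hc 0 (by omega), h0, sub_self, mul_zero, abs_zero]
      exact (Real.exp_pos _).le
    · rw [abs_mul, abs_of_pos (Real.exp_pos _)]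
      refine (mul_le_mul_of_nonneg_left (hoG j h (by omega)) (Real.exp_pos _).le).trans
        (le_of_eq ?_)
      rw [← Real.exp_add]
      congr 1
      ring
  have h3 := NRM.nrm_gew_scale d1 (Real.exp_pos (-r)) 1 ψ 1 (by
    rw [Real.exp_le_one_iff]
    linarith)
  rw [div_one, pow_one] at h3
  have h4 : |coeff 0 ψ| ≤ Real.exp (-r) * ((2 + C₁) * Real.exp A) := by
    have h5 : coeff 0 ψ = -eval (fun j => eval o (nco g ΦG j)) (gew d1 1 ψ) := by linarith
    rw [h5, abs_neg]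
    exact h2.trans (h3.trans (mul_le_mul_of_nonneg_left z1' (Real.exp_pos _).le))
  rw [e1, abs_mul, abs_of_pos (Real.exp_pos _)] at h4
  have h5 : |c i - eval c (ΦH i)| = Real.exp (-g i) * (Real.exp (g i) * |c i - eval c (ΦH i)|) := by
    rw [← mul_assoc, ← Real.exp_add, neg_add_cancel, Real.exp_zero, one_mul]
  rw [h5]
  refine (mul_le_mul_of_nonneg_left h4 (Real.exp_pos _).le).trans (le_of_eq ?_)
  rw [show A - g i - r = -g i + (-r + A) by ring, Real.exp_add, Real.exp_add]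
  ring

/-! ### The slice -/

/-- **The jets in the natural coordinates of the line**, at one time. -/
theorem slice_pure (n K m : ℕ) : ∃ Cs : ℝ, 1 ≤ Cs ∧ ∀ (ΦG ΦH : ℕ → PN) (g o : ℕ → ℝ)
    (A v y S T : ℝ) (W : PN), TriN ΦG → TriN ΦH → (∀ i < n, (ΦG i).totalDegree ≤ K) →
    (∀ i < n, (ΦH i).totalDegree ≤ K) → W.vars ⊆ range n → W.totalDegree ≤ K → 0 ≤ A → 0 ≤ v →
    m * v ≤ y → 0 ≤ S → ΦG 0 = C T → ΦH 0 = C T → o 0 = T →
    (∀ b, BxE g ΦG n b → ∀ i < n, |eval b (ΦG i) - eval b (ΦH i)| ≤ Real.exp (A - g i)) →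
    (∀ i, 1 ≤ i → i < n → eval o (ΦH i) = o i) →
    (∀ i, 1 ≤ i → i < n → |o i - eval o (ΦG i)| ≤ Real.exp (A - g i - (v + y))) →
    nrm d1 1 (trw d1 (m + 1) (bind₁ (nue g ΦG) W)) ≤ S →
    nrm d1 (Real.exp (-v)) (bind₁ (nue g ΦG) W) ≤ S →
    ∀ b : ℕ → ℝ, b 0 = 0 → (∀ i, 1 ≤ i → i < n → |b i| ≤ 1) →
      |eval b (trw dY (m + 1) (bind₁ (nue g ΦH) W))| ≤ Real.exp (Cs * (A + 1)) * S ∧
      ((∀ i, 1 ≤ i → i < n → |b i| ≤ Real.exp (-v)) →
        |eval b (bind₁ (nue g ΦH) W)| ≤ Real.exp (Cs * (A + 1)) * S) := by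
  classical
  obtain ⟨C₁, hC₁, hn⟩ := nrm_le n K K
  obtain ⟨Cw, hCw, hwid⟩ := wid_fr n K
  obtain ⟨D, hD⟩ : ∃ D, D = K * (K + 1) ^ n := ⟨_, rfl⟩
  have hC10 : 0 < C₁ := by linarith
  obtain ⟨L, hL⟩ : ∃ L : ℝ, L = Real.log (2 + C₁) := ⟨_, rfl⟩
  have hL0 : 0 ≤ L := by rw [hL]; exact Real.log_nonneg (by linarith)
  have hD0 : (0 : ℝ) ≤ D := Nat.cast_nonneg D
  refine ⟨D * (L + Cw) + 1, by
    have : 0 ≤ (D : ℝ) * (L + Cw) := mul_nonneg hD0 (by linarith)
    linarith, ?_⟩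
  intro ΦG ΦH g o A v y S T W hG hH dG dH vW dW hA hv hvy hS hG0 hH0 ho0 fr hoH hoG k1 k2 b hb0 hb1
  have hm0 : (0 : ℝ) ≤ m := Nat.cast_nonneg m
  have hy : 0 ≤ y := (mul_nonneg hm0 hv).trans hvy
  obtain ⟨A', hA'⟩ : ∃ A', A' = Cw * (A + 1) := ⟨_, rfl⟩
  have hA'A : A ≤ A' := by rw [hA']; nlinarith
  have hA'0 : 0 ≤ A' := hA.trans hA'A
  have hco : ∀ i < n, eval o (ΦH i) = o i := by
    intro i hi
    rcases Nat.eq_zero_or_pos i with h | h
    · subst h
      rw [hH0, eval_C, ho0]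
    · exact hoH i h hi
  have fr' : ∀ b, BxE g ΦH n b → ∀ i < n, |eval b (ΦH i) - eval b (ΦG i)| ≤
      Real.exp (A' - g i) := by
    intro b hb i hi
    rw [abs_sub_comm, hA']
    exact (hwid ΦG ΦH g A hG hH dG dH hA fr b hb i hi).1
  obtain ⟨B, hB⟩ : ∃ B, B = (2 + C₁) * Real.exp A' := ⟨_, rfl⟩
  have hB1 : 1 ≤ B := by
    rw [hB]
    exact one_le_mul_of_one_le_of_one_le (by linarith) (Real.one_le_exp hA'0)
  obtain ⟨θ, hθ⟩ : ∃ θ : ℕ → PN, θ = zet g ΦG (nue g ΦH) := ⟨_, rfl⟩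
  -- the norms of the change of coordinates
  have hθn : ∀ r : ℝ, 0 ≤ r → r ≤ v + y → ∀ i < n, nrm d1 (Real.exp (-r)) (θ i) ≤
      (B * Real.exp (-r)) ^ d1 i := by
    intro r hr0 hr i hi
    have hr1 := Real.exp_pos (-r)
    rw [show d1 i = 1 from rfl, pow_one, hθ]
    rcases Nat.eq_zero_or_pos i with h | h
    · subst h
      rw [zet_eq hH, hG0, hH0, sub_self, sub_self, map_zero, mul_zero, add_zero, Real.exp_zero,
        C_1, one_mul, NRM.nrm_X, show d1 0 = 1 from rfl, pow_one]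
      exact le_mul_of_one_le_left hr1.le hB1
    · obtain ⟨-, z2⟩ := zet_ball (r := r) hn hH hG dH dG hA'0 hco fr'
      have z3 := z2 hr0 (fun j hj1 hj => (hoG j hj1 hj).trans (Real.exp_le_exp.2 (by linarith)))
        i hi
      rw [← hB] at z3
      have e1 : zet g ΦG (nue g ΦH) i = C (Real.exp (-r)) * zet (gt r g) ΦG (nue g ΦH) i := by
        unfold zet gt
        rw [if_neg (by omega), ← mul_assoc, ← C_mul, ← Real.exp_add]
        congr 3
        ring
      rw [e1]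
      refine (NRM.nrm_mul d1 hr1 _ _).trans ?_
      rw [NRM.nrm_C, abs_of_pos hr1, mul_comm B]
      exact mul_le_mul_of_nonneg_left z3 hr1.le
  obtain ⟨FG, hFG⟩ : ∃ FG, FG = bind₁ (nue g ΦG) W := ⟨_, rfl⟩
  rw [← hFG] at k1 k2
  have hP : bind₁ (nue g ΦH) W = bind₁ θ FG := by
    rw [hFG, hθ, bind₁_bind₁]
    exact (TRC31.bind_congr_lt vW fun j _ => TRC31.zet_comp hG (nue g ΦH) j).symm
  have vFG : FG.vars ⊆ range n := by
    rw [hFG]
    exact SYS35.vars_bind vW fun i _ => TRC31.nue_vars hG i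
  have dFG : FG.totalDegree ≤ D := by
    rw [hFG, hD]
    exact SYS35.totalDegree_bind vW dW fun i hi => (TRC31.nue_deg hG dG i hi).trans
      (Nat.pow_le_pow_right (by omega) (by omega))
  have hnb : ∀ (r : ℝ) (F : PN), 0 ≤ r → r ≤ v + y → F.support ⊆ FG.support →
      nrm d1 (Real.exp (-r)) (bind₁ θ F) ≤ B ^ D * nrm d1 (Real.exp (-r)) F := by
    intro r F hr0 hr hF
    have hvF : F.vars ⊆ range n := (SYS35.vars_sub_of_support hF).trans vFG
    refine (NRM.nrm_bind d1 (Real.exp_pos _) θ F (B * Real.exp (-r))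
      (mul_pos (by linarith) (Real.exp_pos _)) fun i hi =>
        hθn r hr0 hr i (mem_range.1 (hvF hi))).trans ?_
    refine SYS35.nrm_scale (fun k hk => ?_) hB1 (Real.exp_pos _).le
    rw [TRC31.weight_deg]
    exact (le_totalDegree (hF hk)).trans dFG
  have hBD : B ^ D ≤ Real.exp ((D * (L + Cw)) * (A + 1)) := by
    have h1 : B = Real.exp (L + A') := by
      rw [Real.exp_add, hL, Real.exp_log (by linarith), hB]
    rw [h1, ← Real.exp_nat_mul]
    refine Real.exp_le_exp.2 ?_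
    rw [mul_assoc (D : ℝ)]
    refine mul_le_mul_of_nonneg_left ?_ hD0
    rw [hA']
    nlinarith
  have hBD0 : 0 ≤ B ^ D := by positivity
  have hA1 : 0 ≤ A + 1 := by linarith
  have hfin : 2 * B ^ D * S ≤ Real.exp ((D * (L + Cw) + 1) * (A + 1)) * S := by
    refine mul_le_mul_of_nonneg_right ?_ hS
    have h1 : Real.exp ((D * (L + Cw) + 1) * (A + 1)) =
        Real.exp (A + 1) * Real.exp ((D * (L + Cw)) * (A + 1)) := by
      rw [← Real.exp_add]
      congr 1
      ring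
    rw [h1]
    have h2 : 2 ≤ Real.exp (A + 1) := by
      have := Real.add_one_le_exp (A + 1)
      linarith
    exact mul_le_mul h2 hBD hBD0 (Real.exp_pos _).le
  have hvars : (bind₁ (nue g ΦH) W).vars ⊆ range n :=
    SYS35.vars_bind vW fun i _ => TRC31.nue_vars hH i
  constructor
  · rw [ev_slice _ _ hb0]
    have h1 : |eval b (trw d1 (m + 1) (bind₁ (nue g ΦH) W))| ≤
        nrm d1 1 (trw d1 (m + 1) (bind₁ (nue g ΦH) W)) := by
      refine NRM.abs_eval_le d1 _ _ fun i hi => ?_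
      have hi' := mem_range.1 (hvars (SYS35.vars_trw _ _ _ hi))
      rw [one_pow]
      rcases Nat.eq_zero_or_pos i with h | h
      · rw [h, hb0, abs_zero]
        exact zero_le_one
      · exact hb1 i h hi'
    refine h1.trans (le_trans ?_ hfin)
    have hlo : nrm d1 1 (bind₁ θ (trw d1 (m + 1) FG)) ≤ B ^ D * S := by
      have h2 := hnb 0 (trw d1 (m + 1) FG) le_rfl (by linarith) (SYS35.support_trw _ _ _)
      rw [neg_zero, Real.exp_zero] at h2
      exact h2.trans (mul_le_mul_of_nonneg_left k1 hBD0)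
    have hhi : nrm d1 1 (trw d1 (m + 1) (bind₁ θ (gew d1 (m + 1) FG))) ≤ B ^ D * S := by
      have h2 := NRM.nrm_trw_scale d1 (Real.exp_pos (-(v + y))) m
        (bind₁ θ (gew d1 (m + 1) FG)) 1 (by
          rw [Real.exp_le_one_iff]
          linarith)
      have h3 := hnb (v + y) (gew d1 (m + 1) FG) (by linarith) le_rfl (SYS35.support_gew _ _ _)
      have h4 := NRM.nrm_gew_scale d1 (Real.exp_pos (-(v + y))) (m + 1) FG (Real.exp (-v))
        (Real.exp_le_exp.2 (by linarith))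
      have e1 : (1 / Real.exp (-(v + y))) ^ m = Real.exp (m * (v + y)) := by
        rw [one_div, ← Real.exp_neg, neg_neg, ← Real.exp_nat_mul]
      have e2 : (Real.exp (-(v + y)) / Real.exp (-v)) ^ (m + 1) = Real.exp (-((m + 1) * y)) := by
        rw [← Real.exp_sub, ← Real.exp_nat_mul]
        congr 1
        push_cast
        ring
      rw [e1] at h2
      rw [e2] at h4
      have h5 := h4.trans (mul_le_mul_of_nonneg_left k2 (Real.exp_pos _).le)
      refine h2.trans ((mul_le_mul_of_nonneg_left (h3.trans (mul_le_mul_of_nonneg_left h5 hBD0))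
        (Real.exp_pos _).le).trans ?_)
      have e3 : Real.exp (m * (v + y)) * (B ^ D * (Real.exp (-((m + 1) * y)) * S)) =
          B ^ D * S * Real.exp (m * v - y) := by
        have e4 : Real.exp (m * v - y) = Real.exp (m * (v + y)) * Real.exp (-((m + 1) * y)) := by
          rw [← Real.exp_add]
          congr 1
          ring
        rw [e4]
        ring
      rw [e3]
      refine mul_le_of_le_one_right (mul_nonneg hBD0 hS) ?_
      rw [Real.exp_le_one_iff]
      linarith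
    have e5 : bind₁ (nue g ΦH) W = bind₁ θ (trw d1 (m + 1) FG) +
        bind₁ θ (gew d1 (m + 1) FG) := by
      rw [hP, ← map_add]
      congr 1
      unfold gew
      ring
    rw [e5, trw_add']
    refine (NRM.nrm_add d1 one_pos _ _).trans ?_
    have h6 := (NRM.nrm_trw d1 one_pos (m + 1) (bind₁ θ (trw d1 (m + 1) FG))).trans hlo
    linarith
  · intro hbv
    have h1 : |eval b (bind₁ (nue g ΦH) W)| ≤
        nrm d1 (Real.exp (-v)) (bind₁ (nue g ΦH) W) := by
      refine NRM.abs_eval_le d1 _ _ fun i hi => ?_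
      have hi' := mem_range.1 (hvars hi)
      rw [show d1 i = 1 from rfl, pow_one]
      rcases Nat.eq_zero_or_pos i with h | h
      · rw [h, hb0, abs_zero]
        exact (Real.exp_pos _).le
      · exact hbv i h hi'
    refine h1.trans (le_trans ?_ hfin)
    have h2 := hnb v FG hv (by linarith) (Finset.Subset.refl _)
    rw [← hP] at h2
    refine h2.trans ((mul_le_mul_of_nonneg_left k2 hBD0).trans ?_)
    have : 0 ≤ B ^ D * S := mul_nonneg hBD0 hS
    linarith

end Pool.TRM
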